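import Mathlib

/-!
Tensor products of powers of matrices; tensors which are invariant under permutations of the slots.
-/

set_option autoImplicit false
set_option linter.unusedSectionVars false
set_option linter.unusedVariables false

namespace Pool.Agent.K6.H78.GN

open Finset Matrix

variable {I : Type} [Fintype I] [DecidableEq I] {m : ℕ}

/-- the tensor product of powers of matrices -/
def tp {R : Type*} [CommRing R] (k : I → ℕ) {A B : I → Type} (M : ∀ i, Matrix (A i) (B i) R) :
    Matrix (∀ i, Fin (k i) → A i) (∀ i, Fin (k i) → B i) R :=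
  Matrix.of fun h f => ∏ i, ∏ s, M i (h i s) (f i s)

section tp

variable {R : Type*} [CommRing R] {k : I → ℕ} {A B C : I → Type}

theorem tp_apply (M : ∀ i, Matrix (A i) (B i) R) (h : ∀ i, Fin (k i) → A i)
    (f : ∀ i, Fin (k i) → B i) : tp k M h f = ∏ i, ∏ s, M i (h i s) (f i s) := rfl

theorem prod_sum_tp [∀ i, Fintype (B i)] [∀ i, DecidableEq (B i)] (F : ∀ i, Fin (k i) → B i → R) :
    ∏ i, ∏ s, ∑ x, F i s x = ∑ g : ∀ i, Fin (k i) → B i, ∏ i, ∏ s, F i s (g i s) := by
  have h1 : ∀ i, ∏ s, ∑ x, F i s x = ∑ g : Fin (k i) → B i, ∏ s, F i s (g s) := fun i => by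
    rw [Finset.prod_univ_sum, Fintype.piFinset_univ]
  rw [prod_congr rfl fun i _ => h1 i, Finset.prod_univ_sum, Fintype.piFinset_univ]

theorem tp_mul [∀ i, Fintype (B i)] [∀ i, DecidableEq (B i)] (M : ∀ i, Matrix (A i) (B i) R)
    (M' : ∀ i, Matrix (B i) (C i) R) : tp k (fun i => M i * M' i) = tp k M * tp k M' := by
  ext h f
  rw [Matrix.mul_apply, tp_apply]
  simp only [Matrix.mul_apply, tp_apply]
  rw [prod_sum_tp]
  refine sum_congr rfl fun g _ => ?_
  rw [← prod_mul_distrib]
  refine prod_congr rfl fun i _ => ?_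
  rw [← prod_mul_distrib]

theorem tp_one [∀ i, DecidableEq (A i)] : tp k (fun i => (1 : Matrix (A i) (A i) R)) = 1 := by
  ext h f
  rw [tp_apply]
  by_cases hf : h = f
  · rw [hf, Matrix.one_apply_eq]
    exact prod_eq_one fun i _ => prod_eq_one fun s _ => Matrix.one_apply_eq _
  · rw [Matrix.one_apply_ne hf]
    have h1 : ∃ i s, h i s ≠ f i s := by
      by_contra hcon
      push Not at hcon
      exact hf (funext fun i => funext fun s => hcon i s)
    obtain ⟨i, s, h2⟩ := h1
    exact prod_eq_zero (mem_univ i) (prod_eq_zero (mem_univ s) (Matrix.one_apply_ne h2))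

theorem tp_smul (c : I → R) (M : ∀ i, Matrix (A i) (B i) R) :
    tp k (fun i => c i • M i) = (∏ i, c i ^ k i) • tp k M := by
  ext h f
  rw [Matrix.smul_apply, tp_apply, tp_apply, smul_eq_mul, ← prod_mul_distrib]
  refine prod_congr rfl fun i _ => ?_
  simp only [Matrix.smul_apply, smul_eq_mul]
  rw [prod_mul_distrib, prod_const, card_univ, Fintype.card_fin]

theorem tp_map {S : Type*} [CommRing S] (φ : R →+* S) (M : ∀ i, Matrix (A i) (B i) R) :
    tp k (fun i => (M i).map φ) = (tp k M).map φ := by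
  ext h f
  rw [tp_apply, Matrix.map_apply, tp_apply, map_prod]
  refine prod_congr rfl fun i _ => ?_
  rw [map_prod]
  rfl

end tp

/-! ### orbits -/

/-- the orbits of the permutations of the slots -/
def orb (k : I → ℕ) (Γ : Subgroup (∀ i, Equiv.Perm (Fin (k i)))) (A : I → Type) :
    Setoid (∀ i, Fin (k i) → A i) where
  r h h' := ∃ σ ∈ Γ, ∀ i s, h' i s = h i (σ i s)
  iseqv := {
    refl := fun h => ⟨1, Γ.one_mem, fun i s => rfl⟩
    symm := by
      rintro h h' ⟨σ, hσ, e⟩
      refine ⟨σ⁻¹, Γ.inv_mem hσ, fun i s => ?_⟩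
      rw [e i]
      exact congrArg (h i) (Equiv.apply_symm_apply (σ i) s).symm
    trans := by
      rintro h h' h'' ⟨σ, hσ, e⟩ ⟨τ, hτ, e'⟩
      refine ⟨σ * τ, Γ.mul_mem hσ hτ, fun i s => ?_⟩
      rw [e', e]
      rfl }

/-- the type of the orbits -/
def Orb (k : I → ℕ) (Γ : Subgroup (∀ i, Equiv.Perm (Fin (k i)))) (A : I → Type) : Type :=
  Quotient (orb k Γ A)

variable {k : I → ℕ} {Γ : Subgroup (∀ i, Equiv.Perm (Fin (k i)))} {A B C : I → Type}

/-- the orbit -/
def mk (h : ∀ i, Fin (k i) → A i) : Orb k Γ A := Quotient.mk (orb k Γ A) h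

/-- a representative -/
noncomputable def out (o : Orb k Γ A) : ∀ i, Fin (k i) → A i := Quotient.out o

theorem mk_out (o : Orb k Γ A) : mk (out o) = o := Quotient.out_eq o

theorem mk_eq {h h' : ∀ i, Fin (k i) → A i} :
    (mk h : Orb k Γ A) = mk h' ↔ ∃ σ ∈ Γ, ∀ i s, h' i s = h i (σ i s) := Quotient.eq

instance [∀ i, Finite (A i)] : Finite (Orb k Γ A) := by
  unfold Orb
  infer_instance

noncomputable instance [∀ i, Fintype (A i)] : Fintype (Orb k Γ A) := Fintype.ofFinite _

noncomputable instance : DecidableEq (Orb k Γ A) := Classical.decEq _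

section ex

variable {R : Type*} [CommRing R]

/-- coordinates as tensors -/
def ex (q : Fin m → Orb k Γ A → R) : Matrix (Fin m) (∀ i, Fin (k i) → A i) R :=
  Matrix.of fun j h => q j (mk h)

/-- the coordinates of tensors -/
noncomputable def fo (τ : Matrix (Fin m) (∀ i, Fin (k i) → A i) R) : Fin m → Orb k Γ A → R :=
  fun j o => τ j (out o)

/-- symmetric tensors -/
def Sm (Γ : Subgroup (∀ i, Equiv.Perm (Fin (k i)))) (τ : Matrix (Fin m) (∀ i, Fin (k i) → A i) R) :
    Prop := ∀ σ ∈ Γ, ∀ j h, τ j (fun i s => h i (σ i s)) = τ j h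

theorem fo_ex (q : Fin m → Orb k Γ A → R) : fo (ex q) = q := by
  funext j o
  show q j (mk (out o)) = q j o
  rw [mk_out]

theorem Sm.ex_fo {τ : Matrix (Fin m) (∀ i, Fin (k i) → A i) R} (h : Sm Γ τ) :
    ex (fo τ : Fin m → Orb k Γ A → R) = τ := by
  ext j x
  show τ j (out (mk x : Orb k Γ A)) = τ j x
  obtain ⟨σ, hσ, e⟩ := mk_eq.1 (mk_out (mk x : Orb k Γ A))
  have h1 : x = fun i s => out (mk x : Orb k Γ A) i (σ i s) := funext fun i => funext fun s => e i s
  conv_rhs => rw [h1]
  exact (h σ hσ j _).symm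

theorem Sm_ex (q : Fin m → Orb k Γ A → R) : Sm Γ (ex q) := by
  intro σ hσ j h
  show q j (mk _) = q j (mk h)
  congr 1
  exact (mk_eq.2 ⟨σ, hσ, fun i s => rfl⟩).symm

theorem Sm.mul [∀ i, Fintype (A i)] {τ : Matrix (Fin m) (∀ i, Fin (k i) → A i) R} (h : Sm Γ τ)
    (M : ∀ i, Matrix (A i) (B i) R) : Sm Γ (τ * tp k M) := by
  classical
  intro σ hσ j f
  rw [Matrix.mul_apply, Matrix.mul_apply]
  set e : (∀ i, Fin (k i) → A i) ≃ (∀ i, Fin (k i) → A i) :=
    Equiv.piCongrRight fun i => Equiv.arrowCongr (σ i).symm (Equiv.refl (A i)) with he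
  have hee : ∀ (g : ∀ i, Fin (k i) → A i) i s, e g i s = g i (σ i s) := fun g i s => rfl
  rw [← Equiv.sum_comp e]
  refine sum_congr rfl fun g _ => ?_
  have h1 : τ j (e g) = τ j g := h σ hσ j g
  rw [h1, tp_apply, tp_apply]
  congr 1
  refine prod_congr rfl fun i _ => ?_
  exact Equiv.prod_comp (σ i) fun s => M i (g i s) (f i s)

theorem Sm.smul {τ : Matrix (Fin m) (∀ i, Fin (k i) → A i) R} (h : Sm Γ τ) (c : R) :
    Sm Γ (c • τ) := by
  intro σ hσ j f
  rw [Matrix.smul_apply, Matrix.smul_apply, h σ hσ j f]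

theorem ex_smul (c : R) (q : Fin m → Orb k Γ A → R) : ex (c • q) = c • ex q := rfl

theorem fo_smul (c : R) (τ : Matrix (Fin m) (∀ i, Fin (k i) → A i) R) :
    (fo (c • τ) : Fin m → Orb k Γ A → R) = c • fo τ := rfl

theorem ex_inj {q q' : Fin m → Orb k Γ A → R} (h : ex q = ex q') : q = q' := by
  rw [← fo_ex q, h, fo_ex]

theorem ex_map {S : Type*} [CommRing S] (φ : R →+* S) (q : Fin m → Orb k Γ A → R) :
    ex (fun j o => φ (q j o)) = (ex q).map φ := rfl

theorem fo_map {S : Type*} [CommRing S] (φ : R →+* S) (τ : Matrix (Fin m) (∀ i, Fin (k i) → A i) R) :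
    (fo (τ.map φ) : Fin m → Orb k Γ A → S) = fun j o => φ (fo τ j o) := rfl

end ex

/-! ### monomials -/

/-- monomials -/
def mon (x : ∀ i, A i → ℝ) (h : ∀ i, Fin (k i) → A i) : ℝ := ∏ i, ∏ s, x i (h i s)

/-- the monomial of an orbit -/
noncomputable def mo (x : ∀ i, A i → ℝ) (o : Orb k Γ A) : ℝ := mon x (out o)

theorem mo_mk (x : ∀ i, A i → ℝ) (h : ∀ i, Fin (k i) → A i) : mo x (mk h : Orb k Γ A) = mon x h := by
  obtain ⟨σ, hσ, e⟩ := mk_eq.1 (mk_out (mk h : Orb k Γ A))
  unfold mo mon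
  refine prod_congr rfl fun i _ => ?_
  simp only [e]
  exact (Equiv.prod_comp (σ i) fun s => x i (out (mk h : Orb k Γ A) i s)).symm

theorem mon_pos {x : ∀ i, A i → ℝ} (hx : ∀ i a, 0 < x i a) (h : ∀ i, Fin (k i) → A i) :
    0 < mon x h := prod_pos fun i _ => prod_pos fun s _ => hx _ _

theorem mo_pos {x : ∀ i, A i → ℝ} (hx : ∀ i a, 0 < x i a) (o : Orb k Γ A) : 0 < mo x o :=
  mon_pos hx _

theorem mon_le {x y : ∀ i, A i → ℝ} (hx : ∀ i a, 0 ≤ x i a) (hxy : ∀ i a, x i a ≤ y i a)
    (h : ∀ i, Fin (k i) → A i) : mon x h ≤ mon y h :=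
  Finset.prod_le_prod (fun i _ => prod_nonneg fun s _ => hx _ _) fun i _ =>
    Finset.prod_le_prod (fun s _ => hx _ _) fun s _ => hxy _ _

theorem mon_mul (c : I → ℝ) (x : ∀ i, A i → ℝ) (h : ∀ i, Fin (k i) → A i) :
    mon (fun i a => c i * x i a) h = (∏ i, c i ^ k i) * mon x h := by
  unfold mon
  rw [← prod_mul_distrib]
  refine prod_congr rfl fun i _ => ?_
  rw [prod_mul_distrib, prod_const, card_univ, Fintype.card_fin]

theorem mon_const (c : I → ℝ) (h : ∀ i, Fin (k i) → A i) :
    mon (fun i _ => c i) h = ∏ i, c i ^ k i := by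
  unfold mon
  refine prod_congr rfl fun i _ => ?_
  rw [prod_const, card_univ, Fintype.card_fin]

/-- the number of slots with a given value -/
noncomputable def cnt [∀ i, DecidableEq (A i)] (i : I) (a : A i) (h : ∀ i, Fin (k i) → A i) : ℕ :=
  (univ.filter fun s => h i s = a).card

theorem cnt_perm [∀ i, DecidableEq (A i)] (i : I) (a : A i) (h : ∀ i, Fin (k i) → A i)
    (σ : ∀ i, Equiv.Perm (Fin (k i))) : cnt i a (fun i s => h i (σ i s)) = cnt i a h := by
  unfold cnt
  refine Finset.card_bij (fun s _ => σ i s) ?_ ?_ ?_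
  · intro s hs
    rw [mem_filter] at hs ⊢
    exact ⟨mem_univ _, hs.2⟩
  · intro s _ s' _ hss
    exact (σ i).injective hss
  · intro s hs
    rw [mem_filter] at hs
    refine ⟨(σ i).symm s, ?_, Equiv.apply_symm_apply _ _⟩
    rw [mem_filter]
    refine ⟨mem_univ _, ?_⟩
    show h i (σ i ((σ i).symm s)) = a
    rw [Equiv.apply_symm_apply]
    exact hs.2

theorem cnt_out [∀ i, DecidableEq (A i)] (i : I) (a : A i) (h : ∀ i, Fin (k i) → A i) :
    cnt i a (out (mk h : Orb k Γ A)) = cnt i a h := by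
  obtain ⟨σ, hσ, e⟩ := mk_eq.1 (mk_out (mk h : Orb k Γ A))
  have h1 : h = fun i s => out (mk h : Orb k Γ A) i (σ i s) := funext fun i => funext fun s => e i s
  conv_rhs => rw [h1]
  exact (cnt_perm i a _ σ).symm

/-- the number of slots with a given value does not depend on the value -/
theorem cnt_sum_eq [∀ i, Fintype (A i)] [∀ i, DecidableEq (A i)] (i : I) (a a' : A i) :
    ∑ o : Orb k Γ A, cnt i a (out o) = ∑ o : Orb k Γ A, cnt i a' (out o) := by
  set π : ∀ i', Equiv.Perm (A i') := Function.update (fun _ => 1) i (Equiv.swap a a') with hπ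
  have hπi : π i = Equiv.swap a a' := Function.update_self _ _ _
  set F : (∀ i, Equiv.Perm (A i)) → Orb k Γ A → Orb k Γ A := fun ρ o => mk fun i s => ρ i (out o i s) with hF
  have hFmk : ∀ (ρ : ∀ i, Equiv.Perm (A i)) (h : ∀ i, Fin (k i) → A i),
      F ρ (mk h) = mk fun i s => ρ i (h i s) := by
    intro ρ h
    obtain ⟨σ, hσ, e⟩ := mk_eq.1 (mk_out (mk h : Orb k Γ A))
    apply mk_eq.2
    exact ⟨σ, hσ, fun i s => by rw [e]⟩
  set E : Orb k Γ A ≃ Orb k Γ A :=
    { toFun := F π
      invFun := F fun i => (π i).symm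
      left_inv := by
        intro o
        show F _ (mk _) = o
        rw [hFmk]
        simp only [Equiv.symm_apply_apply]
        exact mk_out o
      right_inv := by
        intro o
        show F _ (mk _) = o
        rw [hFmk]
        simp only [Equiv.apply_symm_apply]
        exact mk_out o } with hE
  rw [← Equiv.sum_comp E fun o => cnt i a' (out o)]
  refine sum_congr rfl fun o _ => ?_
  show _ = cnt i a' (out (mk fun i s => π i (out o i s) : Orb k Γ A))
  rw [cnt_out]
  unfold cnt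
  congr 1
  ext s
  rw [mem_filter, mem_filter]
  refine and_congr_right fun _ => ?_
  show _ ↔ π i (out o i s) = a'
  rw [hπi]
  constructor
  · intro h; rw [h, Equiv.swap_apply_left]
  · intro h
    have := congrArg (Equiv.swap a a') h
    rwa [Equiv.swap_apply_self, Equiv.swap_apply_right] at this

/-- **the product of the monomials of the orbits** -/
theorem prod_mo [∀ i, Fintype (A i)] [∀ i, DecidableEq (A i)] {w : I → ℕ}
    (hw : ∀ i, Fintype.card (A i) * w i = k i * Fintype.card (Orb k Γ A))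
    (x : ∀ i, A i → ℝ) : ∏ o : Orb k Γ A, mo x o = ∏ i, (∏ a, x i a) ^ w i := by
  have h1 : ∀ o : Orb k Γ A, mo x o = ∏ i, ∏ a, x i a ^ cnt i a (out o) := by
    intro o
    unfold mo mon
    refine prod_congr rfl fun i _ => ?_
    have h2 := Finset.prod_fiberwise (s := univ) (g := fun s => out o i s) (f := fun s => x i (out o i s))
    rw [← h2]
    refine prod_congr rfl fun a _ => ?_
    unfold cnt
    rw [← prod_const]
    refine prod_congr rfl fun s hs => ?_
    rw [(mem_filter.1 hs).2]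
  rw [prod_congr rfl fun o _ => h1 o, prod_comm]
  refine prod_congr rfl fun i _ => ?_
  rw [prod_comm, ← prod_pow]
  refine prod_congr rfl fun a _ => ?_
  rw [prod_pow_eq_pow_sum]
  congr 1
  have h2 : ∑ a' : A i, ∑ o : Orb k Γ A, cnt i a' (out o) = k i * Fintype.card (Orb k Γ A) := by
    rw [sum_comm]
    have h3 : ∀ o : Orb k Γ A, ∑ a', cnt i a' (out o) = k i := by
      intro o
      unfold cnt
      have h4 := Finset.card_eq_sum_card_fiberwise (s := (univ : Finset (Fin (k i))))
        (t := (univ : Finset (A i))) (f := fun s => out o i s) (fun _ _ => mem_univ _)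
      rw [card_univ, Fintype.card_fin] at h4
      exact h4.symm
    rw [sum_congr rfl fun o _ => h3 o, sum_const, card_univ, smul_eq_mul, mul_comm]
  rw [sum_congr rfl fun a' _ => cnt_sum_eq (Γ := Γ) i a' a, sum_const, card_univ, smul_eq_mul, ← hw i] at h2
  have hpos : 0 < Fintype.card (A i) := Fintype.card_pos_iff.2 ⟨a⟩
  exact Nat.eq_of_mul_eq_mul_left hpos h2

end Pool.Agent.K6.H78.GN
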