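import Pool.Agent.K6.H78.MR.Alg
import Pool.Agent.K6.H78.MR.Rdc
import Pool.Agent.K6.H78.GN.Tp

/-!
The tensors of a family of bases; dual bases.
-/

set_option autoImplicit false
set_option linter.unusedSectionVars false
set_option linter.unusedVariables false

namespace Pool.Agent.K6.H78.GN

open Finset Matrix
open Pool.Agent.K6.H78.MF (Pm exists_pm pm_unique pm_iff)
open Pool.Agent.K6.H78.MR (pl pl_mul pl_map Rd coord cC cC_pos dual_of_pm exists_right)

variable {I : Type} [Fintype I] [DecidableEq I] {m : ℕ} {k : I → ℕ}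
  {Γ : Subgroup (∀ i, Equiv.Perm (Fin (k i)))} {A B : I → Type} [∀ i, Fintype (A i)]
  [∀ i, DecidableEq (A i)]

section ring

variable {R : Type*} [CommRing R]

/-- the tensors with given coordinates -/
def tm (q : Fin m → Orb k Γ A → R) (b : ∀ i, Matrix (A i) (B i) R) :
    Fin m × (∀ i, Fin (k i) → B i) → R := fun p => (ex q * tp k b) p.1 p.2

theorem tm_eq {q q' : Fin m → Orb k Γ A → R} {b b' : ∀ i, Matrix (A i) (B i) R} :
    tm q b = tm q' b' ↔ ex q * tp k b = ex q' * tp k b' := by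
  constructor
  · intro h
    ext j f
    exact congrFun h (j, f)
  · intro h
    funext p
    show (ex q * tp k b) p.1 p.2 = _
    rw [h]
    rfl

/-- the action on the coordinates -/
noncomputable def ro (q : Fin m → Orb k Γ A → R) (g : ∀ i, Matrix (A i) (A i) R) :
    Fin m → Orb k Γ A → R := fo (ex q * tp k g)

theorem ex_ro (q : Fin m → Orb k Γ A → R) (g : ∀ i, Matrix (A i) (A i) R) :
    ex (ro q g) = ex q * tp k g := ((Sm_ex q).mul g).ex_fo

theorem ro_mul (q : Fin m → Orb k Γ A → R) (g h : ∀ i, Matrix (A i) (A i) R) :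
    ro (ro q g) h = ro q fun i => g i * h i := by
  apply ex_inj
  rw [ex_ro, ex_ro, ex_ro, tp_mul, Matrix.mul_assoc]

theorem ro_one (q : Fin m → Orb k Γ A → R) : ro q (fun i => 1) = q := by
  apply ex_inj
  rw [ex_ro, tp_one, Matrix.mul_one]

theorem ro_smul (c : R) (q : Fin m → Orb k Γ A → R) (g : ∀ i, Matrix (A i) (A i) R) :
    ro (c • q) g = c • ro q g := by
  apply ex_inj
  rw [ex_ro, ex_smul, ex_smul, ex_ro, Matrix.smul_mul]

theorem ex_add (q q' : Fin m → Orb k Γ A → R) : ex (q + q') = ex q + ex q' := rfl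

theorem ro_add (q q' : Fin m → Orb k Γ A → R) (g : ∀ i, Matrix (A i) (A i) R) :
    ro (q + q') g = ro q g + ro q' g := by
  apply ex_inj
  rw [ex_ro, ex_add, ex_add, ex_ro, ex_ro, Matrix.add_mul]

theorem tm_ro (q : Fin m → Orb k Γ A → R) (g : ∀ i, Matrix (A i) (A i) R)
    (b : ∀ i, Matrix (A i) (B i) R) : tm (ro q g) b = tm q fun i => g i * b i := by
  rw [tm_eq, ex_ro, tp_mul, Matrix.mul_assoc]

theorem tm_smul (c : R) (q : Fin m → Orb k Γ A → R) (b : ∀ i, Matrix (A i) (B i) R) :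
    tm (c • q) b = c • tm q b := by
  funext p
  have h : ex (c • q) * tp k b = c • (ex q * tp k b) := by rw [ex_smul, Matrix.smul_mul]
  exact congrFun (congrFun h p.1) p.2

theorem tm_smulb (c : I → R) (q : Fin m → Orb k Γ A → R) (b : ∀ i, Matrix (A i) (B i) R) :
    tm q (fun i => c i • b i) = (∏ i, c i ^ k i) • tm q b := by
  funext p
  have h : ex q * tp k (fun i => c i • b i) = (∏ i, c i ^ k i) • (ex q * tp k b) := by
    rw [tp_smul, Matrix.mul_smul]
  exact congrFun (congrFun h p.1) p.2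

theorem tm_map {S : Type*} [CommRing S] (φ : R →+* S) (q : Fin m → Orb k Γ A → R)
    (b : ∀ i, Matrix (A i) (B i) R) (p : Fin m × (∀ i, Fin (k i) → B i)) :
    tm (fun j o => φ (q j o)) (fun i => (b i).map φ) p = φ (tm q b p) := by
  have h : ex (fun j o => φ (q j o)) * tp k (fun i => (b i).map φ) = (ex q * tp k b).map φ := by
    rw [ex_map, tp_map, ← Matrix.map_mul]
  exact congrFun (congrFun h p.1) p.2

theorem ro_map {S : Type*} [CommRing S] (φ : R →+* S) (q : Fin m → Orb k Γ A → R)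
    (g : ∀ i, Matrix (A i) (A i) R) :
    ro (fun j o => φ (q j o)) (fun i => (g i).map φ) = fun j o => φ (ro q g j o) := by
  unfold ro
  rw [ex_map, tp_map, ← Matrix.map_mul, fo_map]

end ring

section fin

variable {R : Type*} [CommRing R] {r N : I → ℕ}

/-- the coordinates in terms of the tensors -/
theorem ex_of_dual {q : Fin m → Orb k Γ A → R} {b : ∀ i, Matrix (A i) (Fin (N i)) R}
    {ξ : ∀ i, Matrix (Fin (N i)) (A i) R} (h : ∀ i, b i * ξ i = 1) :
    ex q = (ex q * tp k b) * tp k ξ := by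
  rw [Matrix.mul_assoc, ← tp_mul]
  simp only [h]
  rw [tp_one, Matrix.mul_one]

theorem q_of_dual {q : Fin m → Orb k Γ A → R} {b : ∀ i, Matrix (A i) (Fin (N i)) R}
    {ξ : ∀ i, Matrix (Fin (N i)) (A i) R} (h : ∀ i, b i * ξ i = 1) (j : Fin m) (o : Orb k Γ A) :
    q j o = ∑ f, tm q b (j, f) * tp k ξ f (out o) := by
  have h1 : q j o = ex q j (out o) := by
    show q j o = q j (mk (out o))
    rw [mk_out]
  rw [h1, ex_of_dual h, Matrix.mul_apply]
  rfl

end fin

/-- primitivity of the tensors -/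
theorem pm_T {r N : I → ℕ} {b : ∀ i, Matrix (Fin (r i)) (Fin (N i)) ℤ}
    {q : Fin m → Orb k Γ (fun i => Fin (r i)) → ℤ} (h : ∀ i, Pm (pl (b i))) :
    Pm (tm q b) ↔ Pm (fun p : Fin m × Orb k Γ (fun i => Fin (r i)) => q p.1 p.2) := by
  choose ξ hξ using fun i => dual_of_pm (h i)
  constructor
  · intro h1 p hp hd
    refine h1 p hp fun x => ?_
    show (p : ℤ) ∣ (ex q * tp k b) x.1 x.2
    rw [Matrix.mul_apply]
    exact Finset.dvd_sum fun i _ => (hd (x.1, mk i)).mul_right _
  · intro h1 p hp hd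
    refine h1 p hp fun x => ?_
    show (p : ℤ) ∣ q x.1 x.2
    rw [q_of_dual (q := q) hξ]
    exact Finset.dvd_sum fun f _ => (hd (x.1, f)).mul_right _

theorem T_ne {K : Type*} [Field K] {r N : I → ℕ} {b : ∀ i, Matrix (Fin (r i)) (Fin (N i)) K}
    {q : Fin m → Orb k Γ (fun i => Fin (r i)) → K} (h : ∀ i, pl (b i) ≠ 0) (hq : q ≠ 0) :
    tm q b ≠ 0 := by
  choose ξ hξ using fun i => exists_right (h i)
  intro h0
  apply hq
  funext j o
  rw [q_of_dual (q := q) hξ, h0]
  simp

/-- equal maximal minors -/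
theorem base_change {K : Type*} [Field K] {r N : ℕ} {b b' : Matrix (Fin r) (Fin N) K}
    (h : pl b' ≠ 0) {c : K} (hc : pl b' = c • pl b) :
    ∃ g : Matrix (Fin r) (Fin r) K, b' = g * b := by
  have hent : ∀ (b : Matrix (Fin r) (Fin N) K) (f : Fin r → Fin N) i l,
      ((b.submatrix id f).adjugate * b) i l = pl b (Function.update f i l) := by
    intro b f i l
    have h1 : ((b.submatrix id f).adjugate * b) i l =
        ((b.submatrix id f).adjugate *ᵥ fun k => b k l) i := rfl
    rw [h1, ← Matrix.cramer_eq_adjugate_mulVec, Matrix.cramer_apply]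
    unfold pl
    congr 1
    ext k j
    rw [Matrix.updateCol_apply]
    show (if j = i then b k l else b k (f j)) = b k (Function.update f i l j)
    by_cases hj : j = i
    · rw [if_pos hj, hj, Function.update_self]
    · rw [if_neg hj, Function.update_of_ne hj]
  obtain ⟨f, hf⟩ := Function.ne_iff.1 h
  have hf0 : pl b' f ≠ 0 := hf
  have h1 : (b'.submatrix id f).adjugate * b' = c • ((b.submatrix id f).adjugate * b) := by
    ext i l
    rw [Matrix.smul_apply, hent, hent, hc]
    rfl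
  set M := b'.submatrix id f with hM
  set L := (b.submatrix id f).adjugate with hL
  refine ⟨(pl b' f)⁻¹ • (M * (c • L)), ?_⟩
  have h2 : M.det = pl b' f := rfl
  have h3 : (pl b' f)⁻¹ • (M * (c • L)) * b = (pl b' f)⁻¹ • (M * (M.adjugate * b')) := by
    rw [Matrix.smul_mul, Matrix.mul_assoc, Matrix.smul_mul, ← h1]
  rw [h3, ← Matrix.mul_assoc, Matrix.mul_adjugate, h2, Matrix.smul_mul, Matrix.one_mul, smul_smul,
    inv_mul_cancel₀ hf0, one_smul]

/-! ### dual bases of reduced bases -/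

theorem Rd.pivots {r N : ℕ} {b : Fin r → Fin N → ℝ} {f : Fin r → Fin N} {b' : Fin r → Fin N → ℝ}
    {c : Fin r → Fin r → ℝ} (h : Rd b f b' c) :
    Rd (fun i j => b i (f j)) (fun i => i) (fun i j => b' i (f j)) c := by
  refine ⟨?_, h.cb, fun i j hij => h.zero i j hij, fun i l => h.max i (f l), h.grow, h.pos⟩
  intro i
  funext l
  have h1 := congrFun (h.exp i) (f l)
  rw [Pi.add_apply, Finset.sum_apply] at h1 ⊢
  exact h1

theorem dual_rd {r N : ℕ} {b : Fin r → Fin N → ℝ} {f : Fin r → Fin N} {b' : Fin r → Fin N → ℝ}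
    {c : Fin r → Fin r → ℝ} (h : Rd b f b' c) : ∃ ξ : Matrix (Fin N) (Fin r) ℝ,
      Matrix.of b * ξ = 1 ∧ ∀ a, (∑ l, |ξ l a|) * |b' a (f a)| ≤ r * cC r := by
  have hcd := coord r _ _ _ _ (Rd.pivots h)
  set Bm : Matrix (Fin r) (Fin r) ℝ := (Matrix.of b).submatrix id f with hBm
  have hrow : ∀ (q : Fin r → ℝ), (∑ i, q i • fun j => b i (f j)) = q ᵥ* Bm := by
    intro q
    funext j
    rw [Finset.sum_apply]
    rfl
  have hcC := cC_pos r
  have hdet : Bm.det ≠ 0 := by
    intro h0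
    obtain ⟨v, hv, hv0⟩ := Matrix.exists_vecMul_eq_zero_iff.2 h0
    apply hv
    funext i
    have h1 := hcd v i
    rw [hrow, hv0, norm_zero, mul_zero] at h1
    have h2 := h.pos i
    have h3 : |v i| * |b' i (f i)| = 0 := le_antisymm h1 (by positivity)
    rcases mul_eq_zero.1 h3 with h4 | h4
    · exact abs_eq_zero.1 h4
    · exact absurd h4 h2.ne'
  have hinv : ∀ j a, |Bm⁻¹ j a| * |b' a (f a)| ≤ cC r := by
    intro j a
    have h1 := hcd (Bm⁻¹ j) a
    rw [hrow] at h1
    have h2 : Bm⁻¹ j ᵥ* Bm = (1 : Matrix (Fin r) (Fin r) ℝ) j := by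
      have h3 := Matrix.nonsing_inv_mul Bm (isUnit_iff_ne_zero.2 hdet)
      funext l
      exact congrFun (congrFun h3 j) l
    rw [h2] at h1
    refine h1.trans ?_
    have h3 : ‖(1 : Matrix (Fin r) (Fin r) ℝ) j‖ ≤ 1 := by
      rw [pi_norm_le_iff_of_nonneg zero_le_one]
      intro l
      rw [Real.norm_eq_abs, Matrix.one_apply]
      split_ifs <;> simp
    calc cC r * ‖(1 : Matrix (Fin r) (Fin r) ℝ) j‖ ≤ cC r * 1 := mul_le_mul_of_nonneg_left h3 hcC.le
      _ = cC r := mul_one _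
  refine ⟨(1 : Matrix (Fin N) (Fin N) ℝ).submatrix id f * Bm⁻¹, ?_, ?_⟩
  · rw [← Matrix.mul_assoc]
    have h1 : Matrix.of b * (1 : Matrix (Fin N) (Fin N) ℝ).submatrix id f = Bm := by
      ext i j
      simp [Matrix.mul_apply, Matrix.one_apply, hBm]
    rw [h1, Matrix.mul_nonsing_inv _ (isUnit_iff_ne_zero.2 hdet)]
  · intro a
    have h1 : ∑ l, |((1 : Matrix (Fin N) (Fin N) ℝ).submatrix id f * Bm⁻¹) l a| ≤ ∑ j, |Bm⁻¹ j a| := by
      calc ∑ l, |((1 : Matrix (Fin N) (Fin N) ℝ).submatrix id f * Bm⁻¹) l a| ≤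
          ∑ l, ∑ j, |(1 : Matrix (Fin N) (Fin N) ℝ) l (f j)| * |Bm⁻¹ j a| := by
            refine sum_le_sum fun l _ => ?_
            rw [Matrix.mul_apply]
            refine (Finset.abs_sum_le_sum_abs _ _).trans (le_of_eq ?_)
            refine sum_congr rfl fun j _ => ?_
            rw [abs_mul]
            rfl
        _ = ∑ j, |Bm⁻¹ j a| := by
            rw [sum_comm]
            refine sum_congr rfl fun j _ => ?_
            rw [Finset.sum_eq_single (f j)]
            · rw [Matrix.one_apply_eq, abs_one, one_mul]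
            · intro l _ hl
              rw [Matrix.one_apply_ne hl, abs_zero, zero_mul]
            · intro hl
              exact absurd (mem_univ _) hl
    calc (∑ l, |((1 : Matrix (Fin N) (Fin N) ℝ).submatrix id f * Bm⁻¹) l a|) * |b' a (f a)| ≤
        (∑ j, |Bm⁻¹ j a|) * |b' a (f a)| := mul_le_mul_of_nonneg_right h1 (abs_nonneg _)
      _ = ∑ j, |Bm⁻¹ j a| * |b' a (f a)| := Finset.sum_mul _ _ _
      _ ≤ ∑ _j : Fin r, cC r := sum_le_sum fun j _ => hinv j a
      _ = r * cC r := by rw [sum_const, card_univ, Fintype.card_fin, nsmul_eq_mul]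

/-- **the coordinates are bounded by the tensors** -/
theorem q_bound {r N : I → ℕ} {b : ∀ i, Fin (r i) → Fin (N i) → ℝ} {f : ∀ i, Fin (r i) → Fin (N i)}
    {b' : ∀ i, Fin (r i) → Fin (N i) → ℝ} {c : ∀ i, Fin (r i) → Fin (r i) → ℝ}
    (h : ∀ i, Rd (b i) (f i) (b' i) (c i)) (q : Fin m → Orb k Γ (fun i => Fin (r i)) → ℝ)
    (j : Fin m) (o : Orb k Γ (fun i => Fin (r i))) :
    |q j o| * mo (fun i x => |b' i x (f i x)|) o ≤
      (∏ i, ((r i : ℝ) * cC (r i)) ^ k i) * ‖tm q (fun i => Matrix.of (b i))‖ := by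
  choose ξ hξ hξb using fun i => dual_rd (h i)
  set T := tm q (fun i => Matrix.of (b i)) with hT
  have h1 : |q j o| ≤ ‖T‖ * ∏ i, ∏ s, ∑ l, |ξ i l (out o i s)| := by
    rw [q_of_dual (q := q) hξ]
    refine (Finset.abs_sum_le_sum_abs _ _).trans ?_
    rw [prod_sum_tp (F := fun i s l => |ξ i l (out o i s)|), Finset.mul_sum]
    refine sum_le_sum fun g _ => ?_
    rw [abs_mul]
    apply mul_le_mul _ (le_of_eq _) (abs_nonneg _) (norm_nonneg _)
    · exact norm_le_pi_norm T (j, g)
    · rw [tp_apply, Finset.abs_prod]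
      refine prod_congr rfl fun i _ => ?_
      rw [Finset.abs_prod]
  have h2 : 0 ≤ mo (fun i x => |b' i x (f i x)|) o :=
    prod_nonneg fun i _ => prod_nonneg fun s _ => abs_nonneg _
  calc |q j o| * mo (fun i x => |b' i x (f i x)|) o ≤
      (‖T‖ * ∏ i, ∏ s, ∑ l, |ξ i l (out o i s)|) * mo (fun i x => |b' i x (f i x)|) o :=
        mul_le_mul_of_nonneg_right h1 h2
    _ = ‖T‖ * ∏ i, ∏ s, ((∑ l, |ξ i l (out o i s)|) * |b' i (out o i s) (f i (out o i s))|) := by
        unfold mo mon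
        simp only [Finset.prod_mul_distrib]
        ring
    _ ≤ ‖T‖ * ∏ i, ((r i : ℝ) * cC (r i)) ^ k i := by
        apply mul_le_mul_of_nonneg_left _ (norm_nonneg _)
        refine Finset.prod_le_prod (fun i _ => prod_nonneg fun s _ => ?_) fun i _ => ?_
        · exact mul_nonneg (sum_nonneg fun l _ => abs_nonneg _) (abs_nonneg _)
        · have h3 : ∏ _s : Fin (k i), ((r i : ℝ) * cC (r i)) = ((r i : ℝ) * cC (r i)) ^ k i := by
            rw [prod_const, card_univ, Fintype.card_fin]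
          rw [← h3]
          refine Finset.prod_le_prod (fun s _ => ?_) fun s _ => hξb i _
          exact mul_nonneg (sum_nonneg fun l _ => abs_nonneg _) (abs_nonneg _)
    _ = _ := mul_comm _ _

end Pool.Agent.K6.H78.GN
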