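import Pool.Agent.K6.H78.GN.Crt
import Pool.Agent.K6.H78.MR.Arc

/-!
The local factors.
-/

set_option autoImplicit false
set_option linter.unusedSectionVars false
set_option linter.unusedVariables false
set_option linter.deprecated false

namespace Pool.Agent.K6.H78.GN

open Finset Matrix MeasureTheory Filter Topology
open Pool.Agent.K6.H78.MF (Pm exists_pm pm_unique pm_iff IsPoly)
open Pool.Agent.K6.H78.FR (cr sc sd tt Sys cp ext ext_smul mulHeight_eq)
open Pool.Agent.K6.H78.MR (pl pl_mul pl_map pl_smul norm_basis exists_prim)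

variable {I : Type} [Fintype I] [DecidableEq I] {m : ℕ} {r N k w e : I → ℕ}
  {Γ : Subgroup (∀ i, Equiv.Perm (Fin (k i)))} {J : Type} [Fintype J]
  {eT : J ≃ Fin m × (∀ i, Fin (k i) → Fin (N i))} {𝒩 : (Fin m → OI k Γ r → ℚ) → Prop}
  {hne : Nonempty (PP r N J)}

/-- families of nonzero vectors which give points over `K` -/
def Cn (m : ℕ) (r N k : I → ℕ) (Γ : Subgroup (∀ i, Equiv.Perm (Fin (k i))))
    (eT : J ≃ Fin m × (∀ i, Fin (k i) → Fin (N i))) (K : Type*) [Field K] :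
    Set ((∀ i, (Fin (r i + 1) → Fin (N i)) → K) × (J → K)) :=
  {x | (∀ i, x.1 i ≠ 0) ∧ x.2 ≠ 0 ∧ ∃ (b : ∀ i, Matrix (Fin (r i + 1)) (Fin (N i)) K)
    (q : Fin m → OI k Γ r → K), (∀ i, x.1 i = pl (b i)) ∧ x.2 = tj eT q b}

/-- local factors -/
structure LF (m : ℕ) (r N k : I → ℕ) (Γ : Subgroup (∀ i, Equiv.Perm (Fin (k i))))
    (eT : J ≃ Fin m × (∀ i, Fin (k i) → Fin (N i))) {K : Type*} [NormedField K]
    (φ : (∀ i, (Fin (r i + 1) → Fin (N i)) → K) → (J → K) → ℝ) : Prop where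
  continuous : ContinuousOn
    (fun x : (∀ i, (Fin (r i + 1) → Fin (N i)) → K) × (J → K) => φ x.1 x.2) (Cn m r N k Γ eT K)
  positive : ∀ x ∈ Cn m r N k Γ eT K, 0 < φ x.1 x.2
  invariant : ∀ x ∈ Cn m r N k Γ eT K, ∀ (s : I → K) (t : K), (∀ i, s i ≠ 0) → t ≠ 0 →
    φ (fun i => s i • x.1 i) (t • x.2) = φ x.1 x.2

/-- the Plücker vectors of the bases -/
def pls {R : Type*} [CommRing R] (u : Ix m r N k Γ → R) : ∀ i, (Fin (r i + 1) → Fin (N i)) → R :=
  fun i => pl (bm u i)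

theorem mem_Cn {K : Type*} [Field K] {u : Ix m r N k Γ → K} (h : ∀ i, pl (bm u i) ≠ 0)
    (hq : qv u ≠ 0) : (pls u, tj eT (qm u) (bm u)) ∈ Cn m r N k Γ eT K :=
  ⟨h, (tj_ne eT).2 (T_ne h (qv_ne.1 hq)), bm u, qm u, fun i => rfl, rfl⟩

section top

variable {R : Type*} [CommRing R] [TopologicalSpace R] [IsTopologicalRing R]

theorem cont_pls : Continuous fun u : Ix m r N k Γ → R => pls u := by
  refine continuous_pi fun i => continuous_pi fun f => ?_
  unfold pls pl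
  refine Continuous.matrix_det (continuous_matrix fun i j => ?_)
  exact continuous_apply _

theorem cont_tj : Continuous fun u : Ix m r N k Γ → R => tj eT (qm u) (bm u) := by
  classical
  refine continuous_pi fun p => ?_
  have h : ∀ u : Ix m r N k Γ → R, tj eT (qm u) (bm u) p =
      ∑ h : ∀ i, Fin (k i) → Fin (r i + 1), u (Sum.inr ((eT p).1, mk h)) *
        ∏ i, ∏ s, u (Sum.inl ⟨i, (h i s, (eT p).2 i s)⟩) := by
    intro u
    show (ex (qm u) * tp k (bm u)) (eT p).1 (eT p).2 = _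
    rw [Matrix.mul_apply]
    rfl
  simp only [h]
  refine continuous_finset_sum _ fun x _ => (continuous_apply _).mul ?_
  exact continuous_finset_prod _ fun i _ => continuous_finset_prod _ fun s _ => continuous_apply _

end top

/-- the compact set of normalised families -/
def Kc (m : ℕ) (r N k : I → ℕ) (Γ : Subgroup (∀ i, Equiv.Perm (Fin (k i)))) :
    Set (Ix m r N k Γ → ℝ) :=
  {u | ‖bv u‖ ≤ 1 ∧ (∀ i, ‖pl (bm u i)‖ = 1) ∧ ‖qv u‖ = 1}

theorem Kc_compact : IsCompact (Kc m r N k Γ) := by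
  refine Metric.isCompact_of_isClosed_isBounded ?_ ?_
  · have e : Kc m r N k Γ = {u | ‖bv u‖ ≤ 1} ∩ (⋂ i, {u | ‖pl (bm u i)‖ = 1}) ∩
        {u | ‖qv u‖ = 1} := by
      ext u
      simp only [Kc, Set.mem_setOf_eq, Set.mem_inter_iff, Set.mem_iInter]
      tauto
    rw [e]
    exact ((isClosed_le cont_bv.norm continuous_const).inter
      (isClosed_iInter fun i => isClosed_eq (cont_plb i).norm continuous_const)).inter
        (isClosed_eq cont_qv.norm continuous_const)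
  · rw [isBounded_iff_forall_norm_le]
    refine ⟨1, fun u hu => ?_⟩
    rw [pi_norm_le_iff_of_nonneg zero_le_one]
    intro i
    rcases i with i | i
    · exact (norm_le_pi_norm (bv u) i).trans hu.1
    · exact (norm_le_pi_norm (qv u) i).trans hu.2.2.le

theorem Kc_ne {u : Ix m r N k Γ → ℝ} (h : u ∈ Kc m r N k Γ) : (∀ i, pl (bm u i) ≠ 0) ∧ qv u ≠ 0 := by
  obtain ⟨_, h2, h3⟩ := h
  constructor
  · intro i h0
    have h2 := h2 i
    rw [h0, norm_zero] at h2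
    norm_num at h2
  · intro h0
    rw [h0, norm_zero] at h3
    norm_num at h3

theorem exists_Kc {u : Ix m r N k Γ → ℝ} (h : ∀ i, pl (bm u i) ≠ 0) (hq : qv u ≠ 0) :
    ∃ u' ∈ Kc m r N k Γ, ∃ (s : I → ℝ) (t : ℝ), (∀ i, s i ≠ 0) ∧ t ≠ 0 ∧
    pls u = (fun i => s i • pls u' i) ∧ tj eT (qm u) (bm u) = t • tj eT (qm u') (bm u') := by
  choose M b₁ hM hb hb1 hb2 using fun i => norm_basis (h i)
  set q₁ : Fin m → OI k Γ r → ℝ := ro (qm u) M with hq₁
  have hT₁ : tm (qm u) (bm u) = tm q₁ b₁ := by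
    rw [hq₁, tm_ro]
    congr 1
    funext i
    exact hb i
  have hTne : tm (qm u) (bm u) ≠ 0 := T_ne h (qv_ne.1 hq)
  have hq₁0 : (fun p : Fin m × OI k Γ r => q₁ p.1 p.2) ≠ 0 := by
    intro h0
    apply hTne
    rw [hT₁]
    have h1 : q₁ = (0 : ℝ) • q₁ := by
      funext j o
      have h2 : q₁ j o = 0 := congrFun h0 (j, o)
      rw [h2]
      show (0 : ℝ) = 0 * q₁ j o
      rw [zero_mul]
    rw [h1, tm_smul, zero_smul]
  set c := ‖(fun p : Fin m × OI k Γ r => q₁ p.1 p.2)‖ with hc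
  have hc0 : 0 < c := norm_pos_iff.2 hq₁0
  refine ⟨gl b₁ (c⁻¹ • q₁), ⟨?_, fun i => hb2 i, ?_⟩, fun i => (M i).det, c, hM, hc0.ne', ?_, ?_⟩
  · rw [pi_norm_le_iff_of_nonneg zero_le_one]
    exact fun p => hb1 p.1 p.2.1 p.2.2
  · have h1 : qv (gl b₁ (c⁻¹ • q₁)) = c⁻¹ • fun p : Fin m × OI k Γ r => q₁ p.1 p.2 := rfl
    rw [h1, norm_smul, norm_inv, Real.norm_eq_abs, abs_of_pos hc0, ← hc]
    exact inv_mul_cancel₀ hc0.ne'
  · funext i
    show pl (bm u i) = (M i).det • pl (b₁ i)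
    conv_lhs => rw [hb i, pl_mul]
    rfl
  · funext p
    have h1 : tm (qm u) (bm u) = c • tm (c⁻¹ • q₁) b₁ := by
      rw [hT₁, tm_smul, smul_smul, mul_inv_cancel₀ hc0.ne', one_smul]
    exact congrFun h1 (eT p)

/-- the real part of the height -/
noncomputable def Ph (e : I → ℕ) (eT : J ≃ Fin m × (∀ i, Fin (k i) → Fin (N i)))
    (φ : (∀ i, (Fin (r i + 1) → Fin (N i)) → ℝ) → (J → ℝ) → ℝ) (u : Ix m r N k Γ → ℝ) : ℝ :=
  (∏ i, ‖pls u i‖ ^ e i) * ‖tj eT (qm u) (bm u)‖ ^ (m * Fintype.card (OI k Γ r)) *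
    φ (pls u) (tj eT (qm u) (bm u))

theorem RH_of_LF (hnm : Nm m r N k w e Γ)
    {φ : (∀ i, (Fin (r i + 1) → Fin (N i)) → ℝ) → (J → ℝ) → ℝ} (h : LF m r N k Γ eT φ) :
    (sys m r N k Γ eT 𝒩 hne).RH (Ph e eT φ) ∧ Lw m r N k e Γ (Ph e eT φ) := by
  have hcomp : ContinuousOn (fun u : Ix m r N k Γ → ℝ => φ (pls u) (tj eT (qm u) (bm u)))
      (sys m r N k Γ eT 𝒩 hne).Om := by
    have h1 := h.continuous.comp
      (f := fun u : Ix m r N k Γ → ℝ => (pls u, tj eT (qm u) (bm u)))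
      (s := (sys m r N k Γ eT 𝒩 hne).Om) (cont_pls.prodMk cont_tj).continuousOn
      (fun u hu => mem_Cn hu.1 hu.2)
    exact h1
  refine ⟨⟨?_, ?_, ?_⟩, ?_⟩
  · have h1 : Continuous fun u : Ix m r N k Γ → ℝ => ∏ i, ‖pls u i‖ ^ e i :=
      continuous_finset_prod _ fun i _ => ((continuous_apply i).comp cont_pls).norm.pow _
    exact (h1.mul ((cont_tj (R := ℝ)).norm.pow _)).continuousOn.mul hcomp
  · intro u hu
    have h1 := mem_Cn (eT := eT) hu.1 hu.2
    have h2 : 0 < ∏ i, ‖pls u i‖ ^ e i :=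
      prod_pos fun i _ => pow_pos (norm_pos_iff.2 (h1.1 i)) _
    have h3 := norm_pos_iff.2 h1.2.1
    have h4 := h.positive _ h1
    simp only at h3 h4
    unfold Ph
    positivity
  · intro a ha u hu
    have h1 := mem_Cn (eT := eT) hu.1 hu.2
    have hap : 0 < ∏ i, a (some i) ^ k i := prod_pos fun i _ => pow_pos (ha _) _
    have e1 : pls (sc (sys m r N k Γ eT 𝒩 hne).bk a u) =
        fun i => (a (some i) ^ (r i + 1)) • pls u i := by
      funext i
      show pl (bm (sc (sys m r N k Γ eT 𝒩 hne).bk a u) i) = _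
      rw [bm_sc, pl_smul]
      rfl
    have e2 : tj eT (qm (sc (sys m r N k Γ eT 𝒩 hne).bk a u))
        (bm (sc (sys m r N k Γ eT 𝒩 hne).bk a u)) =
        (a none * ∏ i, a (some i) ^ k i) • tj eT (qm u) (bm u) := by
      have e3 : tm (qm (sc (sys m r N k Γ eT 𝒩 hne).bk a u))
          (bm (sc (sys m r N k Γ eT 𝒩 hne).bk a u)) =
          (a none * ∏ i, a (some i) ^ k i) • tm (qm u) (bm u) := by
        have e4 : bm (sc (sys m r N k Γ eT 𝒩 hne).bk a u) = fun i => a (some i) • bm u i := rfl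
        rw [e4, qm_sc, tm_smul, tm_smulb, smul_smul]
      funext p
      exact congrFun e3 (eT p)
    have h2 := h.invariant _ h1 (fun i => a (some i) ^ (r i + 1)) (a none * ∏ i, a (some i) ^ k i)
      (fun i => (pow_pos (ha _) _).ne') (mul_pos (ha none) hap).ne'
    simp only at h2
    unfold Ph
    rw [e1, e2, h2, norm_smul, Real.norm_eq_abs, abs_of_pos (mul_pos (ha none) hap), tt_eq]
    have h3 : ∏ i, ‖(a (some i) ^ (r i + 1)) • pls u i‖ ^ e i =
        (∏ i, (a (some i) ^ (r i + 1)) ^ e i) * ∏ i, ‖pls u i‖ ^ e i := by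
      rw [← Finset.prod_mul_distrib]
      refine prod_congr rfl fun i _ => ?_
      rw [norm_smul, Real.norm_eq_abs, abs_of_pos (pow_pos (ha _) _), mul_pow]
    have h4 : ∏ i, a (some i) ^ ((r i + 1) * N i) = (∏ i, (a (some i) ^ (r i + 1)) ^ e i) *
        (∏ i, a (some i) ^ k i) ^ (m * Fintype.card (OI k Γ r)) := by
      rw [← Finset.prod_pow, ← Finset.prod_mul_distrib]
      refine prod_congr rfl fun i _ => ?_
      rw [← pow_mul, ← pow_mul, ← pow_add]
      congr 1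
      have h5 := hnm.hw i
      have h6 := hnm.hN i
      calc (r i + 1) * N i = (r i + 1) * (m * w i + e i) := by rw [← h6]
        _ = m * ((r i + 1) * w i) + (r i + 1) * e i := by ring
        _ = m * (k i * Fintype.card (OI k Γ r)) + (r i + 1) * e i := by rw [h5]
        _ = _ := by ring
    simp only [h3]
    rw [h4, mul_pow (a none * ∏ i, a (some i) ^ k i), mul_pow (a none)]
    ring
  · obtain ⟨κ, hκ, hκ'⟩ : ∃ κ : ℝ, 0 < κ ∧ ∀ u ∈ Kc m r N k Γ,
        κ ≤ φ (pls u) (tj eT (qm u) (bm u)) := by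
      by_cases hne' : (Kc m r N k Γ).Nonempty
      · obtain ⟨u₀, hu₀, hmin⟩ := Kc_compact.exists_isMinOn hne' (hcomp.mono fun u hu => Kc_ne hu)
        exact ⟨_, h.positive _ (mem_Cn (Kc_ne hu₀).1 (Kc_ne hu₀).2), fun u hu => hmin hu⟩
      · exact ⟨1, one_pos, fun u hu => absurd ⟨u, hu⟩ hne'⟩
    refine ⟨κ, hκ, fun u hu hu' => ?_⟩
    obtain ⟨u₁, hu₁, s, t, hs, ht, e1, e2⟩ := exists_Kc (eT := eT) hu hu'
    have h1 := h.invariant _ (mem_Cn (Kc_ne hu₁).1 (Kc_ne hu₁).2) s t hs ht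
    simp only at h1
    have h2 := hκ' u₁ hu₁
    rw [← h1, ← e1, ← e2] at h2
    unfold Ph
    rw [tj_norm]
    have h3 : 0 ≤ (∏ i, ‖pls u i‖ ^ e i) * ‖tm (qm u) (bm u)‖ ^ (m * Fintype.card (OI k Γ r)) :=
      mul_nonneg (prod_nonneg fun i _ => pow_nonneg (norm_nonneg _) _) (pow_nonneg (norm_nonneg _) _)
    calc κ * (‖tm (qm u) (bm u)‖ ^ (m * Fintype.card (OI k Γ r)) * ∏ i, ‖pl (bm u i)‖ ^ e i) =
        (∏ i, ‖pls u i‖ ^ e i) * ‖tm (qm u) (bm u)‖ ^ (m * Fintype.card (OI k Γ r)) * κ := by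
          show κ * (‖tm (qm u) (bm u)‖ ^ (m * Fintype.card (OI k Γ r)) * ∏ i, ‖pls u i‖ ^ e i) = _
          ring
      _ ≤ _ := mul_le_mul_of_nonneg_left h2 h3

section padic

variable {p : ℕ} [hp : Fact p.Prime]

theorem pls_cp (z : Ix m r N k Γ → ℤ) : pls (cp p z) = fun i => cp p (pl (bm z i)) := by
  funext i f
  exact pl_map (Int.castRingHom ℚ_[p]) (bm z i) f

theorem tj_cp (z : Ix m r N k Γ → ℤ) :
    tj eT (qm (cp p z)) (bm (cp p z)) = cp p (tj eT (qm z) (bm z)) := by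
  funext x
  exact tm_map (Int.castRingHom ℚ_[p]) (qm z) (bm z) (eT x)

/-- the compact set of primitive families -/
def Kp (m : ℕ) (r N k : I → ℕ) (Γ : Subgroup (∀ i, Equiv.Perm (Fin (k i)))) (p : ℕ)
    [Fact p.Prime] : Set (Ix m r N k Γ → ℚ_[p]) :=
  {u | ‖u‖ ≤ 1 ∧ (∀ i, ‖pls u i‖ = 1) ∧ ‖qv u‖ = 1}

theorem Kp_compact : IsCompact (Kp m r N k Γ p) := by
  refine Metric.isCompact_of_isClosed_isBounded ?_ ?_
  · have e : Kp m r N k Γ p = {u | ‖u‖ ≤ 1} ∩ (⋂ i, {u | ‖pls u i‖ = 1}) ∩ {u | ‖qv u‖ = 1} := by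
      ext u
      simp only [Kp, Set.mem_setOf_eq, Set.mem_inter_iff, Set.mem_iInter]
      tauto
    rw [e]
    refine ((isClosed_le continuous_norm continuous_const).inter
      (isClosed_iInter fun i => isClosed_eq ((continuous_apply i).comp cont_pls).norm
        continuous_const)).inter (isClosed_eq ?_ continuous_const)
    unfold qv
    exact Continuous.norm (by fun_prop)
  · rw [isBounded_iff_forall_norm_le]
    exact ⟨1, fun u hu => hu.1⟩

theorem Kp_mem {u : Ix m r N k Γ → ℚ_[p]} (hu : u ∈ Kp m r N k Γ p) :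
    (pls u, tj eT (qm u) (bm u)) ∈ Cn m r N k Γ eT ℚ_[p] := by
  refine mem_Cn ?_ ?_
  · intro i h0
    have h1 : ‖pl (bm u i)‖ = 1 := hu.2.1 i
    rw [h0, norm_zero] at h1
    norm_num at h1
  · intro h0
    have := hu.2.2
    rw [h0, norm_zero] at this
    norm_num at this

theorem cp_mem {z : Ix m r N k Γ → ℤ} (h : (sys m r N k Γ eT 𝒩 hne).Lc p z) :
    cp p z ∈ Kp m r N k Γ p := by
  have h := lc_iff.1 h
  refine ⟨FR.norm_cp_le z, fun i => ?_, ?_⟩
  · rw [pls_cp]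
    exact FR.norm_cp (h.1 i)
  · exact FR.norm_cp (v := qv z) h.2

/-- the local factor at an integer family -/
noncomputable def fp (eT : J ≃ Fin m × (∀ i, Fin (k i) → Fin (N i))) (p : ℕ) [Fact p.Prime]
    (φ : (∀ i, (Fin (r i + 1) → Fin (N i)) → ℚ_[p]) → (J → ℚ_[p]) → ℝ) (z : Ix m r N k Γ → ℤ) : ℝ :=
  φ (fun i => cp p (pl (bm z i))) (cp p (tj eT (qm z) (bm z)))

theorem FH_of_LF {φ : (∀ i, (Fin (r i + 1) → Fin (N i)) → ℚ_[p]) → (J → ℚ_[p]) → ℝ}
    (h : LF m r N k Γ eT φ) : (sys m r N k Γ eT 𝒩 hne).FH {p} (fp eT p φ) := by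
  refine FR.FH_of_cont (K := Kp m r N k Γ p) Kp_compact
    (ψ := fun u => φ (pls u) (tj eT (qm u) (bm u))) ?_ ?_ (fun z hz => cp_mem hz) fun z => ?_
  · exact h.continuous.comp
      (f := fun u : Ix m r N k Γ → ℚ_[p] => (pls u, tj eT (qm u) (bm u)))
      (s := Kp m r N k Γ p) (cont_pls.prodMk cont_tj).continuousOn (fun u hu => Kp_mem hu)
  · exact fun u hu => h.positive _ (Kp_mem hu)
  · show φ _ _ = φ _ _
    rw [pls_cp, tj_cp]

end padic

end Pool.Agent.K6.H78.GN
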