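import Pool.Agent.K6.H78.GN.Crt

/-!
Boxes and residue classes.
-/

set_option autoImplicit false
set_option linter.unusedSectionVars false
set_option linter.unusedVariables false
set_option linter.deprecated false

namespace Pool.Agent.K6.H78.GN

open Finset Matrix
open Pool.Agent.K6.H78.MR (card_int mem_int)

theorem boxv (α β : Type) [Fintype α] [Fintype β] (ρ : α → β → ℝ) (hρ : ∀ a b, 0 ≤ ρ a b) :
    {q : α → β → ℤ | ∀ a b, |(q a b : ℝ)| ≤ ρ a b}.Finite ∧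
    ({q : α → β → ℤ | ∀ a b, |(q a b : ℝ)| ≤ ρ a b}.ncard : ℝ) ≤ ∏ a, ∏ b, (2 * ρ a b + 1) := by
  classical
  set P : Finset (α → β → ℤ) := Fintype.piFinset fun a => Fintype.piFinset fun b =>
    Icc ⌈(0 : ℝ) - ρ a b⌉ ⌊(0 : ℝ) + ρ a b⌋ with hP
  have hsub : {q : α → β → ℤ | ∀ a b, |(q a b : ℝ)| ≤ ρ a b} ⊆ P := by
    intro q hq
    rw [hP, Finset.mem_coe, Fintype.mem_piFinset]
    intro a
    rw [Fintype.mem_piFinset]
    intro b
    apply mem_int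
    rw [sub_zero]
    exact hq a b
  refine ⟨P.finite_toSet.subset hsub, ?_⟩
  have h1 : ({q : α → β → ℤ | ∀ a b, |(q a b : ℝ)| ≤ ρ a b}.ncard : ℝ) ≤ P.card := by
    have := Set.ncard_le_ncard hsub P.finite_toSet
    rw [Set.ncard_coe_finset] at this
    exact_mod_cast this
  refine h1.trans ?_
  rw [hP, Fintype.card_piFinset]
  push_cast
  refine Finset.prod_le_prod (fun a _ => by positivity) fun a _ => ?_
  rw [Fintype.card_piFinset]
  push_cast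
  exact Finset.prod_le_prod (fun b _ => by positivity) fun b _ => card_int 0 (ρ a b) (hρ a b)

/-- integers in a residue class -/
theorem res_count (p : ℕ) (hp : 0 < p) (Z : ℝ) (hZ : (p : ℝ) ≤ Z) (c : ZMod p) :
    (((Icc ⌈(0 : ℝ) - Z⌉ ⌊(0 : ℝ) + Z⌋).filter fun n : ℤ => (n : ZMod p) = c).card : ℝ) ≤ 3 * Z / p := by
  classical
  have hp0 : (0 : ℝ) < p := by exact_mod_cast hp
  haveI : NeZero p := ⟨hp.ne'⟩
  obtain ⟨c₀, rfl⟩ : ∃ c₀ : ℤ, (c₀ : ZMod p) = c := ZMod.intCast_surjective c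
  set S := (Icc ⌈(0 : ℝ) - Z⌉ ⌊(0 : ℝ) + Z⌋).filter fun n : ℤ => (n : ZMod p) = c₀ with hS
  have hdvd : ∀ n ∈ S, (p : ℤ) ∣ n - c₀ := by
    intro n hn
    rw [hS, mem_filter] at hn
    rw [← ZMod.intCast_zmod_eq_zero_iff_dvd, Int.cast_sub, hn.2, sub_self]
  set F : ℤ → ℤ := fun n => (n - c₀) / p with hF
  have hinj : Set.InjOn F S := by
    intro n hn n' hn' h
    have h1 := Int.ediv_mul_cancel (hdvd n hn)
    have h2 := Int.ediv_mul_cancel (hdvd n' hn')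
    have h3 : (n - c₀) / p = (n' - c₀) / p := h
    rw [h3, h2] at h1
    linarith
  have hmaps : ∀ n ∈ S, F n ∈ Icc ⌈-(c₀ : ℝ) / p - Z / p⌉ ⌊-(c₀ : ℝ) / p + Z / p⌋ := by
    intro n hn
    apply mem_int
    have h1 := Int.ediv_mul_cancel (hdvd n hn)
    have h2 : ((F n : ℤ) : ℝ) * p = n - c₀ := by exact_mod_cast h1
    have h3 : ((F n : ℤ) : ℝ) - -(c₀ : ℝ) / p = n / p := by
      field_simp
      linarith
    rw [h3, abs_div, abs_of_pos hp0]
    apply div_le_div_of_nonneg_right _ hp0.le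
    rw [hS, mem_filter, mem_Icc] at hn
    rw [abs_le]
    have h4 := Int.ceil_le.1 hn.1.1
    have h5 := Int.le_floor.1 hn.1.2
    constructor <;> linarith
  have h1 : (S.card : ℝ) ≤ (Icc ⌈-(c₀ : ℝ) / p - Z / p⌉ ⌊-(c₀ : ℝ) / p + Z / p⌋).card := by
    exact_mod_cast Finset.card_le_card_of_injOn F hmaps hinj
  have h2 : 1 ≤ Z / p := by rwa [le_div_iff₀ hp0, one_mul]
  refine h1.trans ((card_int _ _ (by linarith)).trans ?_)
  have h3 : 3 * Z / p = 2 * (Z / p) + Z / p := by ring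
  rw [h3]
  linarith

/-- vectors with prescribed residues -/
theorem box_res (J : Type) [Fintype J] (p : ℕ) (hp : 0 < p) (Z : ℝ) (hZ : (p : ℝ) ≤ Z)
    (Bad : Set (J → ZMod p)) (hBad : Bad.Finite) :
    {q : J → ℤ | (∀ j, |(q j : ℝ)| ≤ Z) ∧ (fun j => (q j : ZMod p)) ∈ Bad}.Finite ∧
    ({q : J → ℤ | (∀ j, |(q j : ℝ)| ≤ Z) ∧ (fun j => (q j : ZMod p)) ∈ Bad}.ncard : ℝ) ≤
      Bad.ncard * (3 * Z / p) ^ Fintype.card J := by
  classical
  set P : (J → ZMod p) → Finset (J → ℤ) := fun c => Fintype.piFinset fun j =>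
    (Icc ⌈(0 : ℝ) - Z⌉ ⌊(0 : ℝ) + Z⌋).filter fun n : ℤ => (n : ZMod p) = c j with hP
  have hsub : {q : J → ℤ | (∀ j, |(q j : ℝ)| ≤ Z) ∧ (fun j => (q j : ZMod p)) ∈ Bad} ⊆
      ⋃ c ∈ hBad.toFinset, (P c : Set (J → ℤ)) := by
    rintro q ⟨h1, h2⟩
    rw [Set.mem_iUnion₂]
    refine ⟨_, (Set.Finite.mem_toFinset hBad).2 h2, ?_⟩
    rw [hP, Finset.mem_coe, Fintype.mem_piFinset]
    intro j
    rw [mem_filter]
    refine ⟨mem_int ?_, rfl⟩
    rw [sub_zero]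
    exact h1 j
  have hcard : ∀ c, ((P c : Set (J → ℤ)).ncard : ℝ) ≤ (3 * Z / p) ^ Fintype.card J := by
    intro c
    rw [Set.ncard_coe_finset, hP, Fintype.card_piFinset]
    push_cast
    calc ∏ j, (((Icc ⌈(0 : ℝ) - Z⌉ ⌊(0 : ℝ) + Z⌋).filter fun n : ℤ => (n : ZMod p) = c j).card : ℝ) ≤
        ∏ _j : J, (3 * Z / p) :=
          Finset.prod_le_prod (fun j _ => by positivity) fun j _ => res_count p hp Z hZ (c j)
      _ = _ := by rw [prod_const, card_univ]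
  obtain ⟨h1, h2⟩ := MR.ncard_bw hsub (fun c _ => (P c).finite_toSet) (fun c _ => hcard c)
  refine ⟨h1, h2.trans (le_of_eq ?_)⟩
  rw [sum_const, nsmul_eq_mul, Set.ncard_eq_toFinset_card _ hBad]

end Pool.Agent.K6.H78.GN
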