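import Pool.Agent.K6.H78.GN.Prf
import Pool.Agent.K6.H78.GN.Tp

/-!
The crude upper bound for several blocks.
-/

set_option autoImplicit false
set_option linter.unusedSectionVars false
set_option linter.unusedVariables false

namespace Pool.Agent.K6.H78.GN

open Finset
open Pool.Agent.K6.H78.MR (Rd rl Pf ncard_bw lg_mono lg_two_pow lg_self rd_lb rd_mono)

variable {I : Type} [Fintype I] [DecidableEq I] {m : ℕ} {r N k w : I → ℕ}
  {Γ : Subgroup (∀ i, Equiv.Perm (Fin (k i)))}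

/-- the orbits -/
abbrev OI (k : I → ℕ) (Γ : Subgroup (∀ i, Equiv.Perm (Fin (k i)))) (r : I → ℕ) : Type :=
  Orb k Γ (fun i => Fin (r i + 1))

/-- the bound for the number of the coordinates -/
def CQ (m : ℕ) (k w r : I → ℕ) (Γ : Subgroup (∀ i, Equiv.Perm (Fin (k i))))
    (𝒩 : (Fin m → OI k Γ r → ℤ) → Prop) : Prop :=
  ∃ C : ℝ, 0 < C ∧ ∀ (a : ∀ i, Fin (r i + 1) → ℤ) (X : ℝ), 0 < X →
    (∀ i x y, x ≤ y → a i x ≤ r i + a i y) →
    {q : Fin m → OI k Γ r → ℤ | 𝒩 q ∧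
      ∀ j o, |(q j o : ℝ)| * mo (fun i x => (2 : ℝ) ^ (a i x)) o ≤ X}.Finite ∧
    ({q : Fin m → OI k Γ r → ℤ | 𝒩 q ∧
      ∀ j o, |(q j o : ℝ)| * mo (fun i x => (2 : ℝ) ^ (a i x)) o ≤ X}.ncard : ℝ) ≤
      C * (X ^ (m * Fintype.card (OI k Γ r)) *
        ∏ i, ((((2 : ℝ) ^ (∑ x, a i x)) ^ (m * w i))⁻¹ * th ^ (-(6 * Rx (a i)))))

/-- the pairs with reduced bases, given covolumes and skewness -/
def Cr (N : I → ℕ) (𝒩 : (Fin m → OI k Γ r → ℤ) → Prop) (X : ℝ) (W : I → Finset ℤ) (κ : I → ℕ) :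
    Set ((∀ i, Fin (r i + 1) → Fin (N i) → ℤ) × (Fin m → OI k Γ r → ℤ)) :=
  {z | 𝒩 z.2 ∧ ∃ (f : ∀ i, Fin (r i + 1) → Fin (N i)) (b' : ∀ i, Fin (r i + 1) → Fin (N i) → ℝ)
    (c : ∀ i, Fin (r i + 1) → Fin (r i + 1) → ℝ), (∀ i, Rd (rl (z.1 i)) (f i) (b' i) (c i)) ∧
    (∀ i, (∑ x, Int.log 2 |b' i x (f i x)|) ∈ W i) ∧
    (∀ i, 2 ^ (κ i) * |b' i 0 (f i 0)| ≤ 2 ^ (r i) * |b' i (Fin.last (r i)) (f i (Fin.last (r i)))|) ∧
    ∀ j o, |(z.2 j o : ℝ)| * mo (fun i x => |b' i x (f i x)|) o ≤ X}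

theorem Rd_profile {r N : ℕ} {b : Fin (r + 1) → Fin N → ℤ} {f : Fin (r + 1) → Fin N}
    {b' : Fin (r + 1) → Fin N → ℝ} {c : Fin (r + 1) → Fin (r + 1) → ℝ} (h : Rd (rl b) f b' c) :
    (∀ x y : Fin (r + 1), x ≤ y → Int.log 2 |b' x (f x)| ≤ r + Int.log 2 |b' y (f y)|) ∧
    ∀ x, 0 ≤ r + Int.log 2 |b' x (f x)| := by
  constructor
  · intro x y hxy
    have h1 := lg_mono (h.pos x) (rd_mono h hxy)
    rwa [lg_two_pow _ (h.pos y)] at h1
  · intro x
    have h1 := lg_mono one_pos (rd_lb h x)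
    rwa [Int.log_one_right, lg_two_pow _ (h.pos x)] at h1

theorem pow_quot {x : ℝ} (hx : 0 < x) {n a b : ℕ} (h : n = a + b) : x ^ n * (x ^ a)⁻¹ = x ^ b := by
  rw [h, pow_add]
  field_simp

/-- **the crude bound** -/
theorem crd {e : I → ℕ} (hrN : ∀ i, r i + 1 ≤ N i) (hN : ∀ i, N i = m * w i + e i)
    {𝒩 : (Fin m → OI k Γ r → ℤ) → Prop} (hq : CQ m k w r Γ 𝒩) : ∃ C : ℝ, 0 < C ∧
    ∀ (X : ℝ) (W : I → Finset ℤ) (κ : I → ℕ), 0 < X → (Cr N 𝒩 X W κ).Finite ∧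
    ((Cr N 𝒩 X W κ).ncard : ℝ) ≤ C * ((∏ i, th ^ (κ i)) * X ^ (m * Fintype.card (OI k Γ r)) *
      ∏ i, ∑ s ∈ W i, ((2 : ℝ) ^ s) ^ (e i)) := by
  classical
  have hth := th_pos
  have hth' : 0 < 1 - th := by linarith [th_lt]
  obtain ⟨Cq, hCq, hcq⟩ := hq
  have hcn := fun i => cnm' (N i) (4 + 2 ^ (r i + 1)) (by positivity) (r i) (hrN i)
  choose Cn hCn hcn using hcn
  have hNpos : ∀ i, (0 : ℝ) < N i := fun i => by
    have := hrN i
    exact_mod_cast (show 0 < N i by omega)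
  refine ⟨Cq * (∏ i, (Cn i * Cp (r i))) * ∏ i, ((N i : ℝ) ^ (r i + 1) * (1 / (1 - th)) ^ (r i)), ?_, ?_⟩
  · have h1 : 0 < ∏ i, (Cn i * Cp (r i)) := prod_pos fun i _ => mul_pos (hCn i) (Cp_pos _)
    have h2 : 0 < ∏ i, ((N i : ℝ) ^ (r i + 1) * (1 / (1 - th)) ^ (r i)) :=
      prod_pos fun i _ => by have := hNpos i; positivity
    positivity
  intro X W κ hX
  set E : I → ℕ := fun i => (∑ s ∈ W i, s.natAbs) + r i * r i + 2 * r i + 2 with hE
  set J : ∀ i, Finset ((Fin (r i + 1) → Fin (N i)) × ℤ × (Fin (r i) → ℕ)) := fun i =>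
    univ ×ˢ W i ×ˢ Fintype.piFinset (fun _ => range (E i)) with hJ
  set F : (∀ i, (Fin (r i + 1) → Fin (N i)) × ℤ × (Fin (r i) → ℕ)) →
      Set ((∀ i, Fin (r i + 1) → Fin (N i) → ℤ) × (Fin m → OI k Γ r → ℤ)) := fun t =>
    {z | 𝒩 z.2 ∧ ∃ (b' : ∀ i, Fin (r i + 1) → Fin (N i) → ℝ)
      (c : ∀ i, Fin (r i + 1) → Fin (r i + 1) → ℝ), (∀ i, Rd (rl (z.1 i)) (t i).1 (b' i) (c i)) ∧
      (∀ i, (∑ x, Int.log 2 |b' i x ((t i).1 x)|) = (t i).2.1) ∧
      (∀ i (u : Fin (r i)), ((t i).2.2 u : ℤ) =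
        Int.log 2 |b' i u.succ ((t i).1 u.succ)| - Int.log 2 |b' i 0 ((t i).1 0)| + (u + 1)) ∧
      (∀ i, 2 ^ (κ i) * |b' i 0 ((t i).1 0)| ≤
        2 ^ (r i) * |b' i (Fin.last (r i)) ((t i).1 (Fin.last (r i)))|) ∧
      ∀ j o, |(z.2 j o : ℝ)| * mo (fun i x => |b' i x ((t i).1 x)|) o ≤ X} with hF
  have hcov : Cr N 𝒩 X W κ ⊆ ⋃ t ∈ Fintype.piFinset J, F t := by
    rintro z ⟨h0, f, b', c, h1, h2, h3, h4⟩
    have h6 : ∀ i (u : Fin (r i)), 0 ≤ Int.log 2 |b' i u.succ (f i u.succ)| -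
        Int.log 2 |b' i 0 (f i 0)| + ((u : ℤ) + 1) := by
      intro i u
      have h7 := (h1 i).grow' ((u : ℕ) + 1) 0 u.succ (by simp)
      have h8 := lg_mono ((h1 i).pos 0) h7
      rw [lg_two_pow _ ((h1 i).pos _)] at h8
      push_cast at h8
      linarith
    have h9 : ∀ i (u : Fin (r i)), Int.log 2 |b' i u.succ (f i u.succ)| -
        Int.log 2 |b' i 0 (f i 0)| + ((u : ℤ) + 1) < E i := by
      intro i u
      obtain ⟨_, h11⟩ := Rd_profile (h1 i)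
      set s := ∑ x, Int.log 2 |b' i x (f i x)| with hs
      have h12 : Int.log 2 |b' i u.succ (f i u.succ)| ≤ s + r i * r i := by
        have h13 : (r i : ℤ) + Int.log 2 |b' i u.succ (f i u.succ)| ≤
            ∑ x, ((r i : ℤ) + Int.log 2 |b' i x (f i x)|) :=
          Finset.single_le_sum (f := fun x => (r i : ℤ) + Int.log 2 |b' i x (f i x)|)
            (fun x _ => h11 x) (mem_univ _)
        rw [sum_add_distrib, sum_const, card_univ, Fintype.card_fin, nsmul_eq_mul, ← hs] at h13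
        push_cast at h13
        linarith
      have h13 : s ≤ ((∑ s ∈ W i, s.natAbs : ℕ) : ℤ) := by
        have h14 : s.natAbs ≤ ∑ s ∈ W i, s.natAbs :=
          Finset.single_le_sum (f := fun s : ℤ => s.natAbs) (fun _ _ => Nat.zero_le _) (h2 i)
        have h15 : s ≤ (s.natAbs : ℤ) := Int.le_natAbs
        exact h15.trans (by exact_mod_cast h14)
      have h14 := h11 0
      have h15 : ((u : ℕ) : ℤ) < r i := by exact_mod_cast u.2
      rw [hE]
      push_cast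
      push_cast at h13
      linarith
    rw [Set.mem_iUnion₂]
    refine ⟨fun i => (f i, ∑ x, Int.log 2 |b' i x (f i x)|, fun u : Fin (r i) =>
      (Int.log 2 |b' i u.succ (f i u.succ)| - Int.log 2 |b' i 0 (f i 0)| + ((u : ℤ) + 1)).toNat), ?_, ?_⟩
    · rw [Fintype.mem_piFinset]
      intro i
      rw [hJ]
      simp only
      rw [mem_product, mem_product]
      refine ⟨mem_univ _, h2 i, ?_⟩
      rw [Fintype.mem_piFinset]
      intro u
      rw [mem_range]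
      have e1 := h9 i u
      have e2 := Int.toNat_of_nonneg (h6 i u)
      show (Int.log 2 |b' i u.succ (f i u.succ)| - Int.log 2 |b' i 0 (f i 0)| + ((u : ℤ) + 1)).toNat < E i
      omega
    · exact ⟨h0, b', c, h1, fun i => rfl, fun i u => Int.toNat_of_nonneg (h6 i u), h3, h4⟩
  -- the bound for one piece
  set B : (∀ i, (Fin (r i + 1) → Fin (N i)) × ℤ × (Fin (r i) → ℕ)) → ℝ := fun t =>
    Cq * (∏ i, (Cn i * Cp (r i))) * ((∏ i, th ^ (κ i)) * X ^ (m * Fintype.card (OI k Γ r))) *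
      ∏ i, (((2 : ℝ) ^ (t i).2.1) ^ (e i) * ∏ u : Fin (r i), th ^ ((t i).2.2 u)) with hB
  have hCC : 0 < ∏ i, (Cn i * Cp (r i)) := prod_pos fun i _ => mul_pos (hCn i) (Cp_pos _)
  have hkk : 0 < ∏ i, th ^ (κ i) := prod_pos fun i _ => by positivity
  have hFB : ∀ t ∈ Fintype.piFinset J, (F t).Finite ∧ ((F t).ncard : ℝ) ≤ B t := by
    intro t _
    by_cases hne : (F t).Nonempty
    swap
    · rw [Set.not_nonempty_iff_eq_empty] at hne
      rw [hne]
      refine ⟨Set.finite_empty, ?_⟩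
      rw [Set.ncard_empty, Nat.cast_zero, hB]
      simp only
      have : 0 ≤ ∏ i, (((2 : ℝ) ^ (t i).2.1) ^ (e i) * ∏ u : Fin (r i), th ^ ((t i).2.2 u)) :=
        prod_nonneg fun i _ => mul_nonneg (by positivity) (prod_nonneg fun u _ => by positivity)
      positivity
    obtain ⟨z₀, g0, b₀, c₀, g1, g2, g3, g4, g5⟩ := hne
    set a : ∀ i, Fin (r i + 1) → ℤ := fun i x => Int.log 2 |b₀ i x ((t i).1 x)| with ha
    have hsum : ∀ i, ∑ x, a i x = (t i).2.1 := g2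
    have hasort : ∀ i x y, x ≤ y → a i x ≤ r i + a i y := fun i => (Rd_profile (g1 i)).1
    have hAK : ∀ i x, 4 * (2 : ℝ) ^ (a i x) + 1 ≤ (4 + 2 ^ (r i + 1)) * 2 ^ (a i x) := by
      intro i x
      have h5 := rd_lb (g1 i) x
      have h6 := (lg_self ((g1 i).pos x)).2
      rw [zpow_add_one₀ (by norm_num)] at h6
      have h7 : (0 : ℝ) < 2 ^ (r i) := by positivity
      have h8 : |b₀ i x ((t i).1 x)| < 2 ^ (a i x) * 2 := h6
      rw [pow_succ]
      nlinarith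
    obtain ⟨q1, q2⟩ := hcq a X hX hasort
    set Pi : ∀ i, Finset (Fin (r i + 1) → Fin (N i) → ℤ) := fun i =>
      (hcn i (t i).1 (a i) (hAK i)).1.toFinset with hPi
    set Qf := q1.toFinset with hQf
    have hsub : F t ⊆ ((Fintype.piFinset Pi ×ˢ Qf : Finset _) : Set _) := by
      rintro z ⟨h0, b', c, h1, h2, h3, h4, h5⟩
      -- the profiles agree
      have hag : ∀ i x, Int.log 2 |b' i x ((t i).1 x)| = a i x := by
        intro i
        have h7 : ∀ u : Fin (r i), Int.log 2 |b' i u.succ ((t i).1 u.succ)| -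
            Int.log 2 |b' i 0 ((t i).1 0)| = a i u.succ - a i 0 := by
          intro u
          have e1 := h3 i u
          have e2 := g3 i u
          rw [ha]
          simp only
          linarith
        have h8 : Int.log 2 |b' i 0 ((t i).1 0)| = a i 0 := by
          have e1 : ∑ x, Int.log 2 |b' i x ((t i).1 x)| = ∑ x, a i x := by rw [h2 i, ← g2 i]
          rw [Fin.sum_univ_succ, Fin.sum_univ_succ] at e1
          have e2 : ∑ u : Fin (r i), Int.log 2 |b' i u.succ ((t i).1 u.succ)| =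
              ∑ u : Fin (r i), (a i u.succ - a i 0 + Int.log 2 |b' i 0 ((t i).1 0)|) :=
            sum_congr rfl fun u _ => by rw [← h7 u]; ring
          rw [e2, sum_add_distrib, Finset.sum_sub_distrib, sum_const, sum_const, card_univ,
            Fintype.card_fin, nsmul_eq_mul, nsmul_eq_mul] at e1
          have e3 : (((r i : ℤ) + 1) * (Int.log 2 |b' i 0 ((t i).1 0)| - a i 0)) = 0 := by linarith
          have e4 : ((r i : ℤ) + 1) ≠ 0 := by positivity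
          have := (mul_eq_zero.1 e3).resolve_left e4
          linarith
        intro x
        refine Fin.cases h8 (fun u => ?_) x
        have := h7 u
        linarith
      have hle : ∀ i x, (2 : ℝ) ^ (a i x) ≤ |b' i x ((t i).1 x)| ∧
          |b' i x ((t i).1 x)| ≤ 2 * 2 ^ (a i x) := by
        intro i x
        have h9 := lg_self ((h1 i).pos x)
        rw [hag i x, zpow_add_one₀ (by norm_num)] at h9
        exact ⟨h9.1, by linarith [h9.2]⟩
      rw [Finset.coe_product]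
      refine ⟨?_, ?_⟩
      · rw [mem_coe, Fintype.mem_piFinset]
        intro i
        rw [hPi, Set.Finite.mem_toFinset]
        exact ⟨b' i, c i, h1 i, fun x => (hle i x).2⟩
      · rw [mem_coe, hQf, Set.Finite.mem_toFinset]
        refine ⟨h0, fun j o => le_trans ?_ (h5 j o)⟩
        apply mul_le_mul_of_nonneg_left _ (abs_nonneg _)
        exact mon_le (fun i x => by positivity) (fun i x => (hle i x).1) _
    refine ⟨(Finset.finite_toSet _).subset hsub, ?_⟩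
    have h10 : ((F t).ncard : ℝ) ≤ (∏ i, ((Pi i).card : ℝ)) * (Qf.card : ℝ) := by
      have h11 := Set.ncard_le_ncard hsub (Finset.finite_toSet _)
      rw [Set.ncard_coe_finset, card_product, Fintype.card_piFinset] at h11
      exact_mod_cast h11
    refine h10.trans ?_
    have h11 : ∀ i, ((Pi i).card : ℝ) ≤ Cn i * (((2 : ℝ) ^ (∑ x, a i x)) ^ (N i) * 2 ^ (-Rx (a i))) := by
      intro i
      have := (hcn i (t i).1 (a i) (hAK i)).2
      rw [Set.ncard_eq_toFinset_card _ (hcn i (t i).1 (a i) (hAK i)).1] at this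
      exact this
    have h12 : (Qf.card : ℝ) ≤ Cq * (X ^ (m * Fintype.card (OI k Γ r)) *
        ∏ i, ((((2 : ℝ) ^ (∑ x, a i x)) ^ (m * w i))⁻¹ * th ^ (-(6 * Rx (a i))))) := by
      rw [Set.ncard_eq_toFinset_card _ q1] at q2
      exact q2
    have h13 : ∀ i, th ^ (2 * Rx (a i)) ≤ Cp (r i) * (th ^ (κ i) * ∏ u, th ^ ((t i).2.2 u)) := by
      intro i
      refine prof (a i) (hasort i) _ (fun u => ?_) ?_
      · rw [g3 i u]
      · have := lg_mono (by have := (g1 i).pos 0; positivity) (g4 i)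
        rw [lg_two_pow _ ((g1 i).pos 0), lg_two_pow _ ((g1 i).pos _)] at this
        exact this
    have h14 : ∀ i, (Cn i * (((2 : ℝ) ^ (∑ x, a i x)) ^ (N i) * 2 ^ (-Rx (a i)))) *
        ((((2 : ℝ) ^ (∑ x, a i x)) ^ (m * w i))⁻¹ * th ^ (-(6 * Rx (a i)))) ≤
        (Cn i * Cp (r i)) * (th ^ (κ i) * (((2 : ℝ) ^ (t i).2.1) ^ (e i) * ∏ u, th ^ ((t i).2.2 u))) := by
      intro i
      have h15 : (2 : ℝ) ^ (-Rx (a i)) * th ^ (-(6 * Rx (a i))) = th ^ (2 * Rx (a i)) := by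
        rw [zp_th, ← zpow_add₀ th_ne]
        congr 1
        ring
      have h16 : ((2 : ℝ) ^ (∑ x, a i x)) ^ (N i) * (((2 : ℝ) ^ (∑ x, a i x)) ^ (m * w i))⁻¹ =
          ((2 : ℝ) ^ (t i).2.1) ^ (e i) := by
        rw [hsum i]
        exact pow_quot (by positivity) (hN i)
      calc (Cn i * (((2 : ℝ) ^ (∑ x, a i x)) ^ (N i) * 2 ^ (-Rx (a i)))) *
          ((((2 : ℝ) ^ (∑ x, a i x)) ^ (m * w i))⁻¹ * th ^ (-(6 * Rx (a i)))) =
          Cn i * (((2 : ℝ) ^ (∑ x, a i x)) ^ (N i) * (((2 : ℝ) ^ (∑ x, a i x)) ^ (m * w i))⁻¹) *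
            ((2 : ℝ) ^ (-Rx (a i)) * th ^ (-(6 * Rx (a i)))) := by ring
        _ = Cn i * ((2 : ℝ) ^ (t i).2.1) ^ (e i) * th ^ (2 * Rx (a i)) := by rw [h15, h16]
        _ ≤ Cn i * ((2 : ℝ) ^ (t i).2.1) ^ (e i) * (Cp (r i) * (th ^ (κ i) * ∏ u, th ^ ((t i).2.2 u))) := by
            apply mul_le_mul_of_nonneg_left (h13 i)
            have := hCn i
            positivity
        _ = _ := by ring
    have h15 : ∀ i, 0 ≤ Cn i * (((2 : ℝ) ^ (∑ x, a i x)) ^ (N i) * 2 ^ (-Rx (a i))) := fun i => by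
      have := hCn i
      positivity
    calc (∏ i, ((Pi i).card : ℝ)) * (Qf.card : ℝ) ≤
        (∏ i, (Cn i * (((2 : ℝ) ^ (∑ x, a i x)) ^ (N i) * 2 ^ (-Rx (a i))))) *
          (Cq * (X ^ (m * Fintype.card (OI k Γ r)) *
            ∏ i, ((((2 : ℝ) ^ (∑ x, a i x)) ^ (m * w i))⁻¹ * th ^ (-(6 * Rx (a i)))))) := by
          apply mul_le_mul _ h12 (Nat.cast_nonneg _) (prod_nonneg fun i _ => h15 i)
          exact Finset.prod_le_prod (fun i _ => Nat.cast_nonneg _) fun i _ => h11 i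
      _ = Cq * X ^ (m * Fintype.card (OI k Γ r)) *
          ∏ i, ((Cn i * (((2 : ℝ) ^ (∑ x, a i x)) ^ (N i) * 2 ^ (-Rx (a i)))) *
            ((((2 : ℝ) ^ (∑ x, a i x)) ^ (m * w i))⁻¹ * th ^ (-(6 * Rx (a i))))) := by
          have h16 : ∏ i, ((Cn i * (((2 : ℝ) ^ (∑ x, a i x)) ^ (N i) * 2 ^ (-Rx (a i)))) *
            ((((2 : ℝ) ^ (∑ x, a i x)) ^ (m * w i))⁻¹ * th ^ (-(6 * Rx (a i))))) =
            (∏ i, (Cn i * (((2 : ℝ) ^ (∑ x, a i x)) ^ (N i) * 2 ^ (-Rx (a i))))) *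
            ∏ i, ((((2 : ℝ) ^ (∑ x, a i x)) ^ (m * w i))⁻¹ * th ^ (-(6 * Rx (a i)))) :=
              Finset.prod_mul_distrib
          rw [h16]
          generalize ∏ i, (Cn i * (((2 : ℝ) ^ (∑ x, a i x)) ^ (N i) * 2 ^ (-Rx (a i)))) = U
          generalize ∏ i, ((((2 : ℝ) ^ (∑ x, a i x)) ^ (m * w i))⁻¹ * th ^ (-(6 * Rx (a i)))) = V
          ring
      _ ≤ Cq * X ^ (m * Fintype.card (OI k Γ r)) *
          ∏ i, ((Cn i * Cp (r i)) * (th ^ (κ i) * (((2 : ℝ) ^ (t i).2.1) ^ (e i) *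
            ∏ u, th ^ ((t i).2.2 u)))) := by
          apply mul_le_mul_of_nonneg_left _ (by positivity)
          refine Finset.prod_le_prod (fun i _ => mul_nonneg (h15 i) ?_) fun i _ => h14 i
          positivity
      _ = B t := by
          rw [hB]
          simp only
          rw [Finset.prod_mul_distrib, Finset.prod_mul_distrib (f := fun i => th ^ (κ i))]
          ring
  obtain ⟨h1, h2⟩ := ncard_bw hcov (fun x hx => (hFB x hx).1) (fun x hx => (hFB x hx).2)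
  refine ⟨h1, h2.trans ?_⟩
  rw [hB]
  simp only
  rw [← Finset.mul_sum]
  have h3 := Finset.prod_univ_sum J (fun i x => (((2 : ℝ) ^ x.2.1) ^ (e i) * ∏ u : Fin (r i), th ^ (x.2.2 u)))
  rw [← h3]
  have h4 : ∏ i, ∑ x ∈ J i, (((2 : ℝ) ^ x.2.1) ^ (e i) * ∏ u : Fin (r i), th ^ (x.2.2 u)) ≤
      ∏ i, (((N i : ℝ) ^ (r i + 1) * (1 / (1 - th)) ^ (r i)) * ∑ s ∈ W i, ((2 : ℝ) ^ s) ^ (e i)) := by
    refine Finset.prod_le_prod (fun i _ => ?_) fun i _ => blk_sum (r i) (N i) (e i) (E i) (W i)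
    exact sum_nonneg fun x _ => mul_nonneg (by positivity) (prod_nonneg fun u _ => by positivity)
  rw [Finset.prod_mul_distrib (f := fun i => (N i : ℝ) ^ (r i + 1) * (1 / (1 - th)) ^ (r i))] at h4
  calc _ ≤ Cq * (∏ i, (Cn i * Cp (r i))) * ((∏ i, th ^ (κ i)) * X ^ (m * Fintype.card (OI k Γ r))) *
      ((∏ i, ((N i : ℝ) ^ (r i + 1) * (1 / (1 - th)) ^ (r i))) * ∏ i, ∑ s ∈ W i, ((2 : ℝ) ^ s) ^ (e i)) :=
        mul_le_mul_of_nonneg_left h4 (by positivity)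
    _ = _ := by ring

end Pool.Agent.K6.H78.GN
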