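import Pool.Agent.K6.H78.GN.Rg
import Pool.Agent.K6.H78.MR.Crs

/-!
The crude bounds for the cells.
-/

set_option autoImplicit false
set_option linter.unusedSectionVars false
set_option linter.unusedVariables false
set_option linter.deprecated false

namespace Pool.Agent.K6.H78.GN

open Finset Matrix MeasureTheory
open Pool.Agent.K6.H78.MF (Pm exists_pm pm_unique pm_iff IsPoly)
open Pool.Agent.K6.H78.FR (cr sc sd tt Sys)
open Pool.Agent.K6.H78.MR (pl pl_mul pl_map dual_of_pm det_unit gR gR_mul gR_one gR_inv_mul gR_mul_inv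
  gR_det gR_det_ne cq cq_ne proj_eq pm_rel e_ne e_pm det_one_unit pl_smul cont_pl sb pl_sb card_mat
  card_pl0 pl_norm_gl pl_ne_mul null_norm boxJ poly_det units_fin g_bound TB tail_b tail_q vol_le
  Rd rl exists_rd_int rd_lower rd_upper rd_mono rd_lb Wd Wd_sum lg_mono lg_two_pow lg_self prod_zp
  le_max_of_pow cC cC_pos rd_norm_le)

/-! ### one block -/

/-- the facts about a reduced basis -/
theorem rd_facts1 {r N : ℕ} {b : Fin (r + 1) → Fin N → ℤ} {f : Fin (r + 1) → Fin N}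
    {b' : Fin (r + 1) → Fin N → ℝ} {c : Fin (r + 1) → Fin (r + 1) → ℝ} (h : Rd (rl b) f b' c)
    {Y : ℝ} (hY : 0 < Y) (h1 : Y ^ (r + 1) ≤ ‖pl (Matrix.of (rl b) : Matrix (Fin (r + 1)) (Fin N) ℝ)‖)
    (h2 : ‖pl (Matrix.of (rl b) : Matrix (Fin (r + 1)) (Fin N) ℝ)‖ ≤
      Real.exp ((r + 1 : ℕ) : ℝ) * Y ^ (r + 1)) :
    Y ^ (r + 1) ≤ (r + 1).factorial * ∏ i, |b' i (f i)| ∧
    ∏ i, |b' i (f i)| ≤ Real.exp ((r + 1 : ℕ) : ℝ) * Y ^ (r + 1) ∧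
    ∑ i, Int.log 2 |b' i (f i)| ∈ Wd r Y := by
  have hYr : 0 < Y ^ (r + 1) := by positivity
  have h3 := rd_lower h
  have h4 := rd_upper h
  have hF : (0 : ℝ) < ((r + 1).factorial : ℝ) := by exact_mod_cast Nat.factorial_pos _
  have e1 : Y ^ (r + 1) ≤ (r + 1).factorial * ∏ i, |b' i (f i)| := h1.trans h4
  have e2 : ∏ i, |b' i (f i)| ≤ Real.exp ((r + 1 : ℕ) : ℝ) * Y ^ (r + 1) := h3.trans h2
  refine ⟨e1, e2, ?_⟩
  unfold Wd
  rw [Finset.mem_Icc]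
  set s := ∑ i, Int.log 2 |b' i (f i)| with hs
  have hlog : Int.log 2 ((2 : ℝ) ^ s) = s := by
    have := Int.log_zpow (R := ℝ) (b := 2) (by norm_num) s
    rw [Nat.cast_ofNat] at this
    exact this
  have e3 : (2 : ℝ) ^ s ≤ ∏ i, |b' i (f i)| := by
    rw [hs, ← prod_zp]
    exact Finset.prod_le_prod (fun i _ => by positivity) fun i _ => (lg_self (h.pos i)).1
  have e4 : ∏ i, |b' i (f i)| ≤ 2 ^ s * 2 ^ (r + 1) := by
    have h6 : ∏ i, |b' i (f i)| ≤ ∏ i : Fin (r + 1), ((2 : ℝ) ^ (Int.log 2 |b' i (f i)|) * 2) := by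
      refine Finset.prod_le_prod (fun i _ => abs_nonneg _) fun i _ => ?_
      have := (lg_self (h.pos i)).2
      rw [zpow_add_one₀ (by norm_num)] at this
      exact this.le
    rw [Finset.prod_mul_distrib, prod_zp, prod_const, card_univ, Fintype.card_fin] at h6
    exact h6
  constructor
  · have h6 : Y ^ (r + 1) / ((r + 1).factorial * 2 ^ (r + 1)) ≤ 2 ^ s := by
      rw [div_le_iff₀ (by positivity)]
      calc Y ^ (r + 1) ≤ (r + 1).factorial * ∏ i, |b' i (f i)| := e1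
        _ ≤ (r + 1).factorial * (2 ^ s * 2 ^ (r + 1)) := mul_le_mul_of_nonneg_left e4 hF.le
        _ = _ := by ring
    have h7 := lg_mono (by positivity) h6
    rwa [hlog] at h7
  · have h7 := lg_mono (by positivity) (e3.trans e2)
    rwa [hlog] at h7

/-- the smallest vector -/
theorem rd_small {r N : ℕ} {b : Fin (r + 1) → Fin N → ℤ} {f : Fin (r + 1) → Fin N}
    {b' : Fin (r + 1) → Fin N → ℝ} {c : Fin (r + 1) → Fin (r + 1) → ℝ} (h : Rd (rl b) f b' c)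
    {Y : ℝ} (hY : 0 < Y) (h2 : ∏ i, |b' i (f i)| ≤ Real.exp ((r + 1 : ℕ) : ℝ) * Y ^ (r + 1)) :
    |b' 0 (f 0)| ≤ 2 ^ r * (Real.exp 1 * Y) := by
  have h3 : |b' 0 (f 0)| ^ (r + 1) ≤ (2 ^ r * (Real.exp 1 * Y)) ^ (r + 1) := by
    have h4 : ∏ _i : Fin (r + 1), |b' 0 (f 0)| ≤ ∏ i : Fin (r + 1), (2 ^ r * |b' i (f i)|) :=
      Finset.prod_le_prod (fun i _ => abs_nonneg _) fun i _ => rd_mono h (Fin.zero_le i)
    rw [prod_const, card_univ, Fintype.card_fin, Finset.prod_mul_distrib, prod_const, card_univ,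
      Fintype.card_fin] at h4
    refine h4.trans ?_
    rw [mul_pow, mul_pow]
    apply mul_le_mul_of_nonneg_left _ (by positivity)
    have h5 : Real.exp 1 ^ (r + 1) = Real.exp ((r + 1 : ℕ) : ℝ) := by
      rw [← Real.exp_nat_mul, mul_one]
    rw [h5]
    exact h2
  exact le_of_pow_le_pow_left₀ (by omega) (by positivity) h3

/-- balanced bases -/
theorem rd_bal {r N : ℕ} {b : Fin (r + 1) → Fin N → ℤ} {f : Fin (r + 1) → Fin N}
    {b' : Fin (r + 1) → Fin N → ℝ} {c : Fin (r + 1) → Fin (r + 1) → ℝ} (h : Rd (rl b) f b' c)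
    {Y : ℝ} (hY : 0 < Y) (h1 : Y ^ (r + 1) ≤ (r + 1).factorial * ∏ i, |b' i (f i)|)
    (h2 : ∏ i, |b' i (f i)| ≤ Real.exp ((r + 1 : ℕ) : ℝ) * Y ^ (r + 1)) {K₁ : ℝ} (hK₁ : 0 < K₁)
    (hb : ∀ i, |b' i (f i)| ≤ K₁ * Y) (i : Fin (r + 1)) :
    Y ≤ ((r + 1).factorial * K₁ ^ r) * |b' i (f i)| := by
  have hF : (0 : ℝ) < ((r + 1).factorial : ℝ) := by exact_mod_cast Nat.factorial_pos _
  have h5 : ∏ j, |b' j (f j)| ≤ |b' i (f i)| * (K₁ * Y) ^ r := by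
    rw [← Finset.mul_prod_erase univ _ (mem_univ i)]
    apply mul_le_mul_of_nonneg_left _ (abs_nonneg _)
    have h6 : ∏ j ∈ univ.erase i, |b' j (f j)| ≤ ∏ _j ∈ univ.erase i, (K₁ * Y) :=
      Finset.prod_le_prod (fun j _ => abs_nonneg _) fun j _ => hb j
    rw [prod_const, card_erase_of_mem (mem_univ i), card_univ, Fintype.card_fin,
      Nat.add_sub_cancel] at h6
    exact h6
  have h6 : Y * Y ^ r ≤ (((r + 1).factorial * K₁ ^ r) * |b' i (f i)|) * Y ^ r := by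
    calc Y * Y ^ r = Y ^ (r + 1) := by ring
      _ ≤ (r + 1).factorial * ∏ i, |b' i (f i)| := h1
      _ ≤ (r + 1).factorial * (|b' i (f i)| * (K₁ * Y) ^ r) :=
          mul_le_mul_of_nonneg_left h5 hF.le
      _ = _ := by rw [mul_pow]; ring
  exact le_of_mul_le_mul_right h6 (by positivity)

/-! ### several blocks -/

variable {I : Type} [Fintype I] [DecidableEq I] {m : ℕ} {r N k : I → ℕ}
  {Γ : Subgroup (∀ i, Equiv.Perm (Fin (k i)))} {J : Type} [Fintype J]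
  {eT : J ≃ Fin m × (∀ i, Fin (k i) → Fin (N i))} {𝒩 : (Fin m → OI k Γ r → ℚ) → Prop}
  {hne : Nonempty (PP r N J)}

/-- the numerical assumptions -/
structure Nm (m : ℕ) (r N k w e : I → ℕ) (Γ : Subgroup (∀ i, Equiv.Perm (Fin (k i)))) : Prop where
  hrN : ∀ i, r i + 1 < N i
  hw : ∀ i, (r i + 1) * w i = k i * Fintype.card (OI k Γ r)
  hN : ∀ i, N i = m * w i + e i
  hM : 2 ≤ m * Fintype.card (OI k Γ r)

/-- the lower bound for the height -/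
def Lw (m : ℕ) (r N k e : I → ℕ) (Γ : Subgroup (∀ i, Equiv.Perm (Fin (k i))))
    (Φ : (Ix m r N k Γ → ℝ) → ℝ) : Prop :=
  ∃ κ : ℝ, 0 < κ ∧ ∀ u : Ix m r N k Γ → ℝ, (∀ i, pl (bm u i) ≠ 0) → qv u ≠ 0 →
    κ * (‖tm (qm u) (bm u)‖ ^ (m * Fintype.card (OI k Γ r)) * ∏ i, ‖pl (bm u i)‖ ^ (e i)) ≤ Φ u

/-- reduced representatives -/
theorem exists_rdz (hS : (sys m r N k Γ eT 𝒩 hne).Ok) {H : PP r N J → ℝ} {y : Option I → ℝ}
    {P : PP r N J} (hP : P ∈ (sys m r N k Γ eT 𝒩 hne).Cl H y) :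
    ∃ z, (sys m r N k Γ eT 𝒩 hne).Good z ∧ (sys m r N k Γ eT 𝒩 hne).pt z = P ∧
      sd (sys m r N k Γ eT 𝒩 hne).bk y z ∈ (sys m r N k Γ eT 𝒩 hne).AA ∧
      ∃ (f : ∀ i, Fin (r i + 1) → Fin (N i)) (b' : ∀ i, Fin (r i + 1) → Fin (N i) → ℝ)
        (c : ∀ i, Fin (r i + 1) → Fin (r i + 1) → ℝ), ∀ i, Rd (rl (bm z i)) (f i) (b' i) (c i) := by
  obtain ⟨z, h1, h2, h3, h4⟩ := hP
  choose g g' f b' c e1 e2 hrd using fun i => exists_rd_int ((good_iff.1 h1).1 i).ne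
  set γ : GG r := (fun i => ⟨g i, g' i, e1 i, e2 i⟩, 1) with hγ
  have hg := hS.good_act γ z h1
  refine ⟨(sys m r N k Γ eT 𝒩 hne).actZ γ z, hg, ?_, ?_, f, b', c, hrd⟩
  · rw [← h2]
    exact (hS.pt_iff z _ h1 hg).2 ⟨γ, rfl⟩
  · rw [hS.sd_act]
    exact hS.aa_act h3

theorem pl_sd {y : Option I → ℝ} (z : Ix m r N k Γ → ℤ) (i : I) :
    ‖pl (bm (sd (sys m r N k Γ eT 𝒩 hne).bk y z) i)‖ =
      |(y (some i))⁻¹| ^ (r i + 1) * ‖pl (bm (cr z) i)‖ := by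
  rw [FR.sd_eq, bm_sc, pl_smul]
  have h : (fun f => ((y (some i))⁻¹) ^ (r i + 1) * pl (bm (cr z) i) f) =
      ((y (some i))⁻¹) ^ (r i + 1) • pl (bm (cr z) i) := rfl
  rw [h, norm_smul, norm_pow, Real.norm_eq_abs]

theorem aa_pl {u : Ix m r N k Γ → ℝ} (h : u ∈ (sys m r N k Γ eT 𝒩 hne).AA) (i : I) :
    1 ≤ ‖pl (bm u i)‖ ∧ ‖pl (bm u i)‖ < Real.exp ((r i + 1 : ℕ) : ℝ) := by
  obtain ⟨⟨h1, h2⟩, h3⟩ := h
  obtain ⟨h4, h5⟩ := h3 (some i) (by intro h; exact Option.some_ne_none i h)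
  have h4' : 0 ≤ (1 / ((r i + 1 : ℕ) : ℝ)) * Real.log ‖pl (bm u i)‖ := h4
  have h5' : (1 / ((r i + 1 : ℕ) : ℝ)) * Real.log ‖pl (bm u i)‖ < 1 := h5
  have hr0 : (0 : ℝ) < ((r i + 1 : ℕ) : ℝ) := by positivity
  have hp : 0 < ‖pl (bm u i)‖ := norm_pos_iff.2 (h1 i)
  rw [one_div_mul_eq_div] at h4' h5'
  rw [div_lt_one hr0] at h5'
  constructor
  · have h6 : 0 ≤ Real.log ‖pl (bm u i)‖ := by
      have := mul_nonneg h4' hr0.le
      rwa [div_mul_cancel₀ _ hr0.ne'] at this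
    by_contra hc
    rw [not_le] at hc
    exact absurd (Real.log_neg hp hc) (not_lt.2 h6)
  · rw [← Real.log_lt_iff_lt_exp hp]
    exact h5'

/-- the sizes of the reduced bases -/
theorem rd_facts {z : Ix m r N k Γ → ℤ} {y : Option I → ℝ} (hy : ∀ β, 0 < y β)
    (hA : sd (sys m r N k Γ eT 𝒩 hne).bk y z ∈ (sys m r N k Γ eT 𝒩 hne).AA)
    {f : ∀ i, Fin (r i + 1) → Fin (N i)} {b' : ∀ i, Fin (r i + 1) → Fin (N i) → ℝ}
    {c : ∀ i, Fin (r i + 1) → Fin (r i + 1) → ℝ} (h : ∀ i, Rd (rl (bm z i)) (f i) (b' i) (c i)) (i : I) :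
    y (some i) ^ (r i + 1) ≤ (r i + 1).factorial * ∏ x, |b' i x (f i x)| ∧
    ∏ x, |b' i x (f i x)| ≤ Real.exp ((r i + 1 : ℕ) : ℝ) * y (some i) ^ (r i + 1) ∧
    ∑ x, Int.log 2 |b' i x (f i x)| ∈ Wd (r i) (y (some i)) := by
  obtain ⟨h1, h2⟩ := aa_pl hA i
  have hY := hy (some i)
  rw [pl_sd, abs_of_pos (inv_pos.2 hY), inv_pow, inv_mul_eq_div] at h1 h2
  have hYr : 0 < y (some i) ^ (r i + 1) := by positivity
  rw [le_div_iff₀ hYr, one_mul] at h1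
  rw [div_lt_iff₀ hYr] at h2
  exact rd_facts1 (h i) hY h1 h2.le

/-- the bound for the tensors -/
theorem T_bound (hS : (sys m r N k Γ eT 𝒩 hne).Ok) (hM : 2 ≤ m * Fintype.card (OI k Γ r)) {e : I → ℕ}
    {Φ : (Ix m r N k Γ → ℝ) → ℝ} (hΦ : (sys m r N k Γ eT 𝒩 hne).RH Φ) (hL : Lw m r N k e Γ Φ)
    {S₀ : Finset ℕ} {f : (Ix m r N k Γ → ℤ) → ℝ} (hf : (sys m r N k Γ eT 𝒩 hne).FH S₀ f)
    {H : PP r N J → ℝ} (hH : (sys m r N k Γ eT 𝒩 hne).HH Φ f H) : ∃ A : ℝ, 1 ≤ A ∧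
      ∀ y : Option I → ℝ, (∀ β, 0 < y β) → ∀ z, (sys m r N k Γ eT 𝒩 hne).Good z →
      (sys m r N k Γ eT 𝒩 hne).pt z ∈ (sys m r N k Γ eT 𝒩 hne).Cl H y →
      ‖tm (qm (cr z)) (bm (cr z))‖ ≤ A * (y none * ∏ i, y (some i) ^ k i) := by
  obtain ⟨m₁, M₁, hm₁, hbd⟩ := hf.bd
  obtain ⟨κ, hκ, hlow⟩ := hL
  refine ⟨max 1 (1 / (κ * m₁)), le_max_left _ _, fun y hy z hz hP => ?_⟩
  obtain ⟨h1, h2⟩ := (hS.mem_Cl hz).1 hP
  rw [hS.height hΦ hH hy hz] at h2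
  set u := sd (sys m r N k Γ eT 𝒩 hne).bk y z with hu
  have h5 := hlow u h1.1.1 h1.1.2
  have h6 := hΦ.pos u h1.1
  have h7 := (hbd z fun p hp => hz.1 p (hf.prime p hp)).1
  have h8 : Φ u * m₁ ≤ 1 := (mul_le_mul_of_nonneg_left h7 h6.le).trans h2
  have h9 : 1 ≤ ∏ i, ‖pl (bm u i)‖ ^ e i := by
    have h10 : ∏ _i : I, (1 : ℝ) ≤ ∏ i, ‖pl (bm u i)‖ ^ e i :=
      Finset.prod_le_prod (fun i _ => zero_le_one) fun i _ => one_le_pow₀ (aa_pl h1 i).1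
    rwa [prod_const_one] at h10
  set M := m * Fintype.card (OI k Γ r) with hMM
  set τ := ‖tm (qm u) (bm u)‖ with hτ
  have hτ0 : 0 ≤ τ := norm_nonneg _
  have h10 : τ ^ M ≤ 1 / (κ * m₁) := by
    rw [le_div_iff₀ (by positivity)]
    have h11 : κ * (τ ^ M * 1) ≤ κ * (τ ^ M * ∏ i, ‖pl (bm u i)‖ ^ e i) := by gcongr
    calc τ ^ M * (κ * m₁) = (κ * (τ ^ M * 1)) * m₁ := by ring
      _ ≤ Φ u * m₁ := mul_le_mul_of_nonneg_right (h11.trans h5) hm₁.le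
      _ ≤ 1 := h8
  have h11 : τ ≤ max 1 (1 / (κ * m₁)) := le_max_of_pow hτ0 (by omega) h10
  have hpos : 0 < y none * ∏ i, y (some i) ^ k i :=
    mul_pos (hy none) (prod_pos fun i _ => pow_pos (hy _) _)
  have h12 : tm (qm (cr z)) (bm (cr z)) = (y none * ∏ i, y (some i) ^ k i) • tm (qm u) (bm u) := by
    have e1 : cr z = sc (sys m r N k Γ eT 𝒩 hne).bk y u := FR.cr_eq hy z
    have e2 : qm (cr z) = y none • qm u := by rw [e1]; rfl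
    have e3 : bm (cr z) = fun i => y (some i) • bm u i := by rw [e1]; rfl
    rw [e2, e3, tm_smul, tm_smulb, smul_smul]
  rw [h12, norm_smul, Real.norm_eq_abs, abs_of_pos hpos, mul_comm]
  exact mul_le_mul_of_nonneg_right h11 hpos.le

end Pool.Agent.K6.H78.GN
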