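import Pool.Agent.K6.H78.GN.Crs

/-!
The cells: crude bounds, points with unbalanced lattices, lower bounds.
-/

set_option autoImplicit false
set_option linter.unusedSectionVars false
set_option linter.unusedVariables false
set_option linter.deprecated false

namespace Pool.Agent.K6.H78.GN

open Finset Matrix MeasureTheory Filter Topology
open Pool.Agent.K6.H78.MF (Pm exists_pm pm_unique pm_iff IsPoly)
open Pool.Agent.K6.H78.FR (cr sc sd tt Sys)
open Pool.Agent.K6.H78.MR (pl pl_mul pl_map dual_of_pm det_unit gR gR_mul gR_one gR_inv_mul gR_mul_inv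
  gR_det gR_det_ne cq cq_ne proj_eq pm_rel e_ne e_pm det_one_unit pl_smul cont_pl sb pl_sb card_mat
  card_pl0 pl_norm_gl pl_ne_mul null_norm boxJ poly_det units_fin g_bound TB tail_b tail_q vol_le
  Rd rl exists_rd_int rd_lower rd_upper rd_mono rd_lb Wd Wd_sum lg_mono lg_two_pow lg_self prod_zp
  le_max_of_pow cC cC_pos rd_norm_le ncard_bw)

variable {I : Type} [Fintype I] [DecidableEq I] {m : ℕ} {r N k w e : I → ℕ}
  {Γ : Subgroup (∀ i, Equiv.Perm (Fin (k i)))} {J : Type} [Fintype J]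
  {eT : J ≃ Fin m × (∀ i, Fin (k i) → Fin (N i))} {𝒩 : (Fin m → OI k Γ r → ℚ) → Prop}
  {hne : Nonempty (PP r N J)}

/-- integer coordinates which are nondegenerate -/
def NZ (𝒩 : (Fin m → OI k Γ r → ℚ) → Prop) (q : Fin m → OI k Γ r → ℤ) : Prop :=
  𝒩 (fun j o => (q j o : ℚ))

/-- the lower bound for the coordinates -/
def LX (m : ℕ) (r k : I → ℕ) (Γ : Subgroup (∀ i, Equiv.Perm (Fin (k i))))
    (𝒩 : (Fin m → OI k Γ r → ℚ) → Prop) : Prop :=
  ∃ C : ℝ, 0 < C ∧ ∀ (q : Fin m → OI k Γ r → ℤ) (A : ∀ i, Fin (r i + 1) → ℝ) (Y : I → ℝ) (X : ℝ),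
    NZ 𝒩 q → (∀ i x, 0 < A i x) → (∀ i x y, x ≤ y → A i x ≤ 2 ^ (r i) * A i y) →
    (∀ i, 0 < Y i) → (∀ i, Y i ^ (r i + 1) ≤ ∏ x, A i x) →
    (∀ j o, |(q j o : ℝ)| * mo A o ≤ X) → ∏ i, Y i ^ (k i) ≤ C * X

/-- the constant of the coordinates -/
noncomputable def D₀ (r k : I → ℕ) : ℝ := ∏ i, (((r i + 1 : ℕ) : ℝ) * cC (r i + 1)) ^ k i

theorem D₀_pos (r k : I → ℕ) : 0 < D₀ r k :=
  prod_pos fun i _ => by have := cC_pos (r i + 1); positivity

theorem q_bd {z : Ix m r N k Γ → ℤ} {f : ∀ i, Fin (r i + 1) → Fin (N i)}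
    {b' : ∀ i, Fin (r i + 1) → Fin (N i) → ℝ} {c : ∀ i, Fin (r i + 1) → Fin (r i + 1) → ℝ}
    (h : ∀ i, Rd (rl (bm z i)) (f i) (b' i) (c i)) (j : Fin m) (o : OI k Γ r) :
    |((qm z j o : ℤ) : ℝ)| * mo (fun i x => |b' i x (f i x)|) o ≤
      D₀ r k * ‖tm (qm (cr z)) (bm (cr z))‖ :=
  q_bound h (qm (cr z)) j o

theorem crs (hnm : Nm m r N k w e Γ) (hCQ : CQ m k w r Γ (NZ 𝒩)) (hS : (sys m r N k Γ eT 𝒩 hne).Ok)
    {Φ : (Ix m r N k Γ → ℝ) → ℝ} (hΦ : (sys m r N k Γ eT 𝒩 hne).RH Φ) (hL : Lw m r N k e Γ Φ)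
    {S₀ : Finset ℕ} {f : (Ix m r N k Γ → ℤ) → ℝ} (hf : (sys m r N k Γ eT 𝒩 hne).FH S₀ f)
    {H : PP r N J → ℝ} (hH : (sys m r N k Γ eT 𝒩 hne).HH Φ f H) : ∃ C : ℝ, 0 < C ∧
      ∀ (y : Option I → ℝ) (κ : I → ℕ), (∀ β, 0 < y β) → ∀ Q : Set (PP r N J),
      (∀ P ∈ Q, P ∈ (sys m r N k Γ eT 𝒩 hne).Cl H y ∧ ∃ z, (sys m r N k Γ eT 𝒩 hne).Good z ∧
        (sys m r N k Γ eT 𝒩 hne).pt z = P ∧
        sd (sys m r N k Γ eT 𝒩 hne).bk y z ∈ (sys m r N k Γ eT 𝒩 hne).AA ∧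
        ∃ (f : ∀ i, Fin (r i + 1) → Fin (N i)) (b' : ∀ i, Fin (r i + 1) → Fin (N i) → ℝ)
          (c : ∀ i, Fin (r i + 1) → Fin (r i + 1) → ℝ), (∀ i, Rd (rl (bm z i)) (f i) (b' i) (c i)) ∧
          ∀ i, 2 ^ (κ i) * |b' i 0 (f i 0)| ≤ 2 ^ (r i) * |b' i (Fin.last (r i)) (f i (Fin.last (r i)))|) →
      Q.Finite ∧ (Q.ncard : ℝ) ≤ C * (∏ i, th ^ (κ i)) * tt (sys m r N k Γ eT 𝒩 hne).bk y := by
  classical
  obtain ⟨A, hA1, hrow⟩ := T_bound hS hnm.hM hΦ hL hf hH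
  obtain ⟨C, hC, hcrd⟩ := crd (fun i => (hnm.hrN i).le) hnm.hN hCQ
  choose C₂ hC₂ hWd using fun i => Wd_sum (r i) (e i)
  have hD := D₀_pos r k
  set M := m * Fintype.card (OI k Γ r) with hMM
  have hC₂p : 0 < ∏ i, C₂ i := prod_pos fun i _ => hC₂ i
  refine ⟨C * (D₀ r k * A) ^ M * ∏ i, C₂ i, by positivity, fun y κ hy Q hQ => ?_⟩
  have hyp : 0 < ∏ i, y (some i) ^ k i := prod_pos fun i _ => pow_pos (hy _) _
  have hyn := hy none
  set X := D₀ r k * (A * (y none * ∏ i, y (some i) ^ k i)) with hX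
  have hX0 : 0 < X := by positivity
  obtain ⟨hfin, hcard⟩ := hcrd X (fun i => Wd (r i) (y (some i))) κ hX0
  choose! ρ hρ using fun P hP => (hQ P hP).2
  set φ : PP r N J → (∀ i, Fin (r i + 1) → Fin (N i) → ℤ) × (Fin m → OI k Γ r → ℤ) :=
    fun P => (fun i => bm (ρ P) i, qm (ρ P)) with hφ
  have hmaps : ∀ P ∈ Q, φ P ∈ Cr N (NZ 𝒩) X (fun i => Wd (r i) (y (some i))) κ := by
    intro P hP
    obtain ⟨h1, h2, h3, f', b', c, h4, h5⟩ := hρ P hP
    refine ⟨(good_iff.1 h1).2.2, f', b', c, h4, fun i => (rd_facts hy h3 h4 i).2.2, h5, fun j o => ?_⟩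
    refine (q_bd h4 j o).trans ?_
    exact mul_le_mul_of_nonneg_left (hrow y hy (ρ P) h1 (by rw [h2]; exact (hQ P hP).1)) hD.le
  have hinj : Set.InjOn φ Q := by
    intro P hP P' hP' he
    have h1 : bm (ρ P) = bm (ρ P') := congrArg Prod.fst he
    have h2 : qm (ρ P) = qm (ρ P') := congrArg Prod.snd he
    have h3 : ρ P = ρ P' := by rw [← gl_eq (ρ P), h1, h2, gl_eq]
    rw [← (hρ P hP).2.1, h3, (hρ P' hP').2.1]
  have hQf : Q.Finite := Set.Finite.of_injOn (fun P hP => hmaps P hP) hinj hfin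
  refine ⟨hQf, ?_⟩
  have h1 : (Q.ncard : ℝ) ≤ (Cr N (NZ 𝒩) X (fun i => Wd (r i) (y (some i))) κ).ncard := by
    exact_mod_cast Set.ncard_le_ncard_of_injOn φ hmaps hinj hfin
  refine h1.trans (hcard.trans ?_)
  rw [tt_eq]
  have h2 : ∏ i, ∑ s ∈ Wd (r i) (y (some i)), ((2 : ℝ) ^ s) ^ (e i) ≤
      ∏ i, (C₂ i * (y (some i) ^ (r i + 1)) ^ (e i)) :=
    Finset.prod_le_prod (fun i _ => sum_nonneg fun s _ => by positivity) fun i _ => hWd i _ (hy _)
  rw [Finset.prod_mul_distrib] at h2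
  have hkk : 0 < ∏ i, th ^ (κ i) := prod_pos fun i _ => pow_pos th_pos _
  have h3 : (∏ i, y (some i) ^ k i) ^ M * ∏ i, (y (some i) ^ (r i + 1)) ^ (e i) =
      ∏ i, y (some i) ^ ((r i + 1) * N i) := by
    rw [← Finset.prod_pow, ← Finset.prod_mul_distrib]
    refine prod_congr rfl fun i _ => ?_
    rw [← pow_mul, ← pow_mul, ← pow_add]
    congr 1
    have h4 := hnm.hw i
    have h5 := hnm.hN i
    calc k i * M + (r i + 1) * e i = m * (k i * Fintype.card (OI k Γ r)) + (r i + 1) * e i := by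
          rw [hMM]; ring
      _ = m * ((r i + 1) * w i) + (r i + 1) * e i := by rw [h4]
      _ = (r i + 1) * (m * w i + e i) := by ring
      _ = (r i + 1) * N i := by rw [← h5]
  calc C * ((∏ i, th ^ (κ i)) * X ^ M * ∏ i, ∑ s ∈ Wd (r i) (y (some i)), ((2 : ℝ) ^ s) ^ (e i)) ≤
      C * ((∏ i, th ^ (κ i)) * X ^ M * ((∏ i, C₂ i) * ∏ i, (y (some i) ^ (r i + 1)) ^ (e i))) := by
        apply mul_le_mul_of_nonneg_left _ hC.le
        exact mul_le_mul_of_nonneg_left h2 (by positivity)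
    _ = C * (D₀ r k * A) ^ M * (∏ i, C₂ i) * (∏ i, th ^ (κ i)) *
        (((∏ i, y (some i) ^ k i) ^ M * ∏ i, (y (some i) ^ (r i + 1)) ^ (e i)) * y none ^ M) := by
        rw [hX, mul_pow, mul_pow, mul_pow, mul_pow]; ring
    _ = _ := by rw [h3]

/-- the crude bound -/
theorem hcr (hnm : Nm m r N k w e Γ) (hCQ : CQ m k w r Γ (NZ 𝒩)) (hLX : LX m r k Γ 𝒩)
    (hS : (sys m r N k Γ eT 𝒩 hne).Ok)
    {Φ : (Ix m r N k Γ → ℝ) → ℝ} (hΦ : (sys m r N k Γ eT 𝒩 hne).RH Φ) (hL : Lw m r N k e Γ Φ)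
    {S₀ : Finset ℕ} {f : (Ix m r N k Γ → ℤ) → ℝ} (hf : (sys m r N k Γ eT 𝒩 hne).FH S₀ f)
    {H : PP r N J → ℝ} (hH : (sys m r N k Γ eT 𝒩 hne).HH Φ f H) : ∃ C : ℝ, 0 < C ∧
      ∀ y : Option I → ℝ, (∀ β, 0 < y β) → ((sys m r N k Γ eT 𝒩 hne).Cl H y).Finite ∧
      (((sys m r N k Γ eT 𝒩 hne).Cl H y).ncard : ℝ) ≤ C * tt (sys m r N k Γ eT 𝒩 hne).bk y ∧
      (((sys m r N k Γ eT 𝒩 hne).Cl H y).Nonempty → ∀ β, 1 ≤ C * y β) := by
  classical
  obtain ⟨A, hA1, hrow⟩ := T_bound hS hnm.hM hΦ hL hf hH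
  obtain ⟨C, hC, hcrs⟩ := crs hnm hCQ hS hΦ hL hf hH
  obtain ⟨C₃, hC₃, hlx⟩ := hLX
  have hD := D₀_pos r k
  set C₁ : I → ℝ := fun i => 2 ^ (r i) * (2 ^ (r i) * Real.exp 1) with hC₁
  have hC₁0 : ∀ i, 0 < C₁ i := fun i => by rw [hC₁]; positivity
  have hF : ∀ i, (0 : ℝ) < ((r i + 1).factorial : ℝ) := fun i => by exact_mod_cast Nat.factorial_pos _
  have hFp : 0 < ∏ i, ((r i + 1).factorial : ℝ) ^ k i := prod_pos fun i _ => pow_pos (hF i) _
  set C₂ : ℝ := C₃ * (D₀ r k * A) * ∏ i, ((r i + 1).factorial : ℝ) ^ k i with hC₂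
  have hC₂0 : 0 < C₂ := by positivity
  have hCs : 0 ≤ ∑ i, C₁ i := sum_nonneg fun i _ => (hC₁0 i).le
  refine ⟨C + (∑ i, C₁ i) + C₂, by positivity, fun y hy => ?_⟩
  have ht := FR.tt_pos (bk := (sys m r N k Γ eT 𝒩 hne).bk) hy
  obtain ⟨h1, h2⟩ := hcrs y 0 hy ((sys m r N k Γ eT 𝒩 hne).Cl H y) (by
    intro P hP
    refine ⟨hP, ?_⟩
    obtain ⟨z, h1, h2, h3, f', b', c, h4⟩ := exists_rdz hS hP
    refine ⟨z, h1, h2, h3, f', b', c, h4, fun i => ?_⟩
    rw [Pi.zero_apply, pow_zero, one_mul]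
    exact rd_mono (h4 i) (Fin.le_last _))
  refine ⟨h1, ?_, ?_⟩
  · simp only [Pi.zero_apply, pow_zero, prod_const_one, mul_one] at h2
    refine h2.trans (mul_le_mul_of_nonneg_right ?_ ht.le)
    linarith
  · rintro ⟨P, hP⟩ β
    obtain ⟨z, g1, g2, g3, f', b', c, g4⟩ := exists_rdz hS hP
    cases β with
    | some i =>
      obtain ⟨e0, e1, _⟩ := rd_facts hy g3 g4 i
      have e2 := rd_small (g4 i) (hy (some i)) e1
      have h5 := rd_lb (g4 i) 0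
      have h6 : 1 ≤ C₁ i * y (some i) := by
        calc (1 : ℝ) ≤ 2 ^ (r i) * |b' i 0 (f' i 0)| := h5
          _ ≤ 2 ^ (r i) * (2 ^ (r i) * (Real.exp 1 * y (some i))) :=
              mul_le_mul_of_nonneg_left e2 (by positivity)
          _ = C₁ i * y (some i) := by rw [hC₁]; ring
      refine h6.trans (mul_le_mul_of_nonneg_right ?_ (hy _).le)
      have h7 : C₁ i ≤ ∑ i, C₁ i := Finset.single_le_sum (f := C₁) (fun i _ => (hC₁0 i).le) (mem_univ i)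
      linarith
    | none =>
      have hyn := hy none
      have hyp : 0 < ∏ i, y (some i) ^ k i := prod_pos fun i _ => pow_pos (hy _) _
      have h5 := hlx (qm z) (fun i x => |b' i x (f' i x)|)
        (fun i => y (some i) / ((r i + 1).factorial : ℝ))
        (D₀ r k * (A * (y none * ∏ i, y (some i) ^ k i))) (good_iff.1 g1).2.2
        (fun i x => (g4 i).pos x) (fun i x x' hxx => rd_mono (g4 i) hxx)
        (fun i => div_pos (hy _) (hF i)) (fun i => ?_) (fun j o => ?_)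
      · have h6 : ∏ i, (y (some i) / ((r i + 1).factorial : ℝ)) ^ k i =
            (∏ i, y (some i) ^ k i) / ∏ i, ((r i + 1).factorial : ℝ) ^ k i := by
          rw [← Finset.prod_div_distrib]
          exact prod_congr rfl fun i _ => div_pow _ _ _
        rw [h6, div_le_iff₀ hFp] at h5
        have h7 : 1 * (∏ i, y (some i) ^ k i) ≤ (C₂ * y none) * ∏ i, y (some i) ^ k i := by
          rw [one_mul]
          refine h5.trans (le_of_eq ?_)
          rw [hC₂]; ring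
        have h8 := le_of_mul_le_mul_right h7 hyp
        refine h8.trans (mul_le_mul_of_nonneg_right ?_ hyn.le)
        linarith
      · obtain ⟨e0, _, _⟩ := rd_facts hy g3 g4 i
        show (y (some i) / ((r i + 1).factorial : ℝ)) ^ (r i + 1) ≤ ∏ x, |b' i x (f' i x)|
        rw [div_pow, div_le_iff₀ (pow_pos (hF i) _)]
        refine e0.trans ?_
        rw [mul_comm]
        apply mul_le_mul_of_nonneg_left _ (prod_nonneg fun x _ => abs_nonneg _)
        have hF1 : (1 : ℝ) ≤ ((r i + 1).factorial : ℝ) := by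
          exact_mod_cast Nat.one_le_iff_ne_zero.2 (Nat.factorial_ne_zero _)
        calc ((r i + 1).factorial : ℝ) = ((r i + 1).factorial : ℝ) ^ 1 := (pow_one _).symm
          _ ≤ _ := pow_le_pow_right₀ hF1 (by omega)
      · refine (q_bd g4 j o).trans ?_
        exact mul_le_mul_of_nonneg_left (hrow y hy z g1 (by rw [g2]; exact hP)) hD.le

/-- the points with unbalanced lattices -/
theorem hreg (hnm : Nm m r N k w e Γ) (hNN : NN 𝒩) (hDn : Dn 𝒩) (hCQ : CQ m k w r Γ (NZ 𝒩))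
    (hS : (sys m r N k Γ eT 𝒩 hne).Ok)
    {Φ : (Ix m r N k Γ → ℝ) → ℝ} (hΦ : (sys m r N k Γ eT 𝒩 hne).RH Φ) (hL : Lw m r N k e Γ Φ)
    {S₀ : Finset ℕ} {f : (Ix m r N k Γ → ℤ) → ℝ} (hf : (sys m r N k Γ eT 𝒩 hne).FH S₀ f)
    {H : PP r N J → ℝ} (hH : (sys m r N k Γ eT 𝒩 hne).HH Φ f H) (η : ℝ) (hη : 0 < η) :
    ∃ (Do Dc : Set (Ix m r N k Γ → ℝ)) (G : Finset (GG r)),
      (sys m r N k Γ eT 𝒩 hne).Reg Do Dc G ∧ ∃ L : ℝ, 0 < L ∧ ∀ y : Option I → ℝ, (∀ β, L ≤ y β) →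
        (((sys m r N k Γ eT 𝒩 hne).NR H Dc y).ncard : ℝ) ≤ η * tt (sys m r N k Γ eT 𝒩 hne).bk y := by
  classical
  obtain ⟨A, hA1, hrow⟩ := T_bound hS hnm.hM hΦ hL hf hH
  obtain ⟨C, hC, hcrs⟩ := crs hnm hCQ hS hΦ hL hf hH
  set n₀ : ℝ := Fintype.card I + 1 with hn₀
  have hn₀0 : 0 < n₀ := by rw [hn₀]; positivity
  obtain ⟨κ₀, hκ₀⟩ := exists_pow_lt_of_lt_one (show 0 < η / (C * n₀) by positivity) th_lt
  rw [lt_div_iff₀ (by positivity)] at hκ₀
  have hD := D₀_pos r k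
  have hF : ∀ i, (0 : ℝ) < ((r i + 1).factorial : ℝ) := fun i => by exact_mod_cast Nat.factorial_pos _
  set K₁ : I → ℝ := fun i => 2 ^ (r i) * (2 ^ κ₀ * (2 ^ (r i) * Real.exp 1)) with hK₁
  have hK₁0 : ∀ i, 0 < K₁ i := fun i => by rw [hK₁]; positivity
  set Kf : I → ℝ := fun i => (1 + ((r i + 1 : ℕ) : ℝ)) * K₁ i with hKf
  have hKf0 : ∀ i, 0 < Kf i := fun i => by rw [hKf]; have := hK₁0 i; positivity
  set K : ℝ := (∑ i, Kf i) + 1 with hK
  have hKs : 0 ≤ ∑ i, Kf i := sum_nonneg fun i _ => (hKf0 i).le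
  have hK0 : 0 < K := by positivity
  set Fc : I → ℝ := fun i => (r i + 1).factorial * K₁ i ^ (r i) with hFc
  have hFc0 : ∀ i, 0 < Fc i := fun i => by rw [hFc]; have := hK₁0 i; have := hF i; positivity
  have hFp : 0 < ∏ i, Fc i ^ k i := prod_pos fun i _ => pow_pos (hFc0 i) _
  set R₀ : ℝ := D₀ r k * A * ∏ i, Fc i ^ k i with hR₀
  have hR₀0 : 0 < R₀ := by positivity
  refine ⟨_, _, _, reg hNN hDn hnm.hrN hnm.hM hK0 hR₀0, 1, one_pos, fun y hy1 => ?_⟩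
  have hy : ∀ β, 0 < y β := fun β => by have := hy1 β; linarith
  have ht := FR.tt_pos (bk := (sys m r N k Γ eT 𝒩 hne).bk) hy
  set Qi : I → Set (PP r N J) := fun i₁ => {P | P ∈ (sys m r N k Γ eT 𝒩 hne).Cl H y ∧
    ∃ z, (sys m r N k Γ eT 𝒩 hne).Good z ∧ (sys m r N k Γ eT 𝒩 hne).pt z = P ∧
        sd (sys m r N k Γ eT 𝒩 hne).bk y z ∈ (sys m r N k Γ eT 𝒩 hne).AA ∧
        ∃ (f : ∀ i, Fin (r i + 1) → Fin (N i)) (b' : ∀ i, Fin (r i + 1) → Fin (N i) → ℝ)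
          (c : ∀ i, Fin (r i + 1) → Fin (r i + 1) → ℝ), (∀ i, Rd (rl (bm z i)) (f i) (b' i) (c i)) ∧
          2 ^ κ₀ * |b' i₁ 0 (f i₁ 0)| ≤
            2 ^ (r i₁) * |b' i₁ (Fin.last (r i₁)) (f i₁ (Fin.last (r i₁)))|} with hQi
  have hQib : ∀ i₁, (Qi i₁).Finite ∧ ((Qi i₁).ncard : ℝ) ≤ C * th ^ κ₀ * tt (sys m r N k Γ eT 𝒩 hne).bk y := by
    intro i₁
    have h1 := hcrs y (Pi.single i₁ κ₀) hy (Qi i₁) (by
      rintro P ⟨hP, z, h1, h2, h3, f', b', c, h4, h5⟩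
      refine ⟨hP, z, h1, h2, h3, f', b', c, h4, fun i => ?_⟩
      by_cases hi : i = i₁
      · subst hi
        rw [Pi.single_eq_same]
        exact h5
      · rw [Pi.single_eq_of_ne hi, pow_zero, one_mul]
        exact rd_mono (h4 i) (Fin.le_last _))
    have h2 : ∏ i, th ^ ((Pi.single i₁ κ₀ : I → ℕ) i) = th ^ κ₀ := by
      rw [Finset.prod_eq_single i₁]
      · rw [Pi.single_eq_same]
      · intro i _ hi
        rw [Pi.single_eq_of_ne hi, pow_zero]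
      · intro hi
        exact absurd (mem_univ _) hi
    rw [h2] at h1
    exact h1
  have hcov : (sys m r N k Γ eT 𝒩 hne).NR H (Dc m r N k Γ K R₀) y ⊆ ⋃ i ∈ (univ : Finset I), Qi i := by
    rintro P ⟨hP, hno⟩
    obtain ⟨z, h1, h2, h3, f', b', c, h4⟩ := exists_rdz hS hP
    rw [Set.mem_iUnion₂]
    by_contra hcon0
    push Not at hcon0
    have hcon : ∀ i, 2 ^ (r i) * |b' i (Fin.last (r i)) (f' i (Fin.last (r i)))| <
        2 ^ κ₀ * |b' i 0 (f' i 0)| := by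
      intro i
      by_contra hc
      rw [not_lt] at hc
      exact hcon0 i (mem_univ i) ⟨hP, z, h1, h2, h3, f', b', c, h4, hc⟩
    apply hno z h1 h2
    -- all vectors are bounded
    have hb : ∀ i x, |b' i x (f' i x)| ≤ K₁ i * y (some i) := by
      intro i x
      obtain ⟨_, e1, _⟩ := rd_facts hy h3 h4 i
      have e2 := rd_small (h4 i) (hy (some i)) e1
      have h5 := rd_mono (h4 i) (Fin.le_last x)
      have hyi := hy (some i)
      calc |b' i x (f' i x)| ≤ 2 ^ (r i) * |b' i (Fin.last (r i)) (f' i (Fin.last (r i)))| := h5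
        _ ≤ 2 ^ κ₀ * |b' i 0 (f' i 0)| := (hcon i).le
        _ ≤ 2 ^ κ₀ * (2 ^ (r i) * (Real.exp 1 * y (some i))) := mul_le_mul_of_nonneg_left e2 (by positivity)
        _ ≤ 2 ^ (r i) * (2 ^ κ₀ * (2 ^ (r i) * (Real.exp 1 * y (some i)))) :=
            le_mul_of_one_le_left (by positivity) (one_le_pow₀ (by norm_num))
        _ = K₁ i * y (some i) := by rw [hK₁]; ring
    have hl : ∀ i x, y (some i) / Fc i ≤ |b' i x (f' i x)| := by
      intro i x
      obtain ⟨e0, e1, _⟩ := rd_facts hy h3 h4 i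
      rw [div_le_iff₀ (hFc0 i), mul_comm]
      exact rd_bal (h4 i) (hy _) e0 e1 (hK₁0 i) (hb i) x
    refine ⟨fun i => (aa_pl h3 i).1, fun i => (aa_pl h3 i).2.le, ?_, ?_⟩
    · rw [pi_norm_le_iff_of_nonneg hK0.le]
      rintro ⟨i, x, l⟩
      have hyi := hy (some i)
      have h5 := rd_norm_le (h4 i) (hb i) (by have := hK₁0 i; positivity) x l
      show |(z (Sum.inl ⟨i, (x, l)⟩) : ℝ) / y (some i)| ≤ K
      rw [abs_div, abs_of_pos hyi, div_le_iff₀ hyi]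
      have h6 : Kf i ≤ K := by
        have := Finset.single_le_sum (f := Kf) (fun i _ => (hKf0 i).le) (mem_univ i)
        linarith
      calc |(z (Sum.inl ⟨i, (x, l)⟩) : ℝ)| ≤ (1 + ((r i + 1 : ℕ) : ℝ)) * (K₁ i * y (some i)) := h5
        _ = Kf i * y (some i) := by rw [hKf]; ring
        _ ≤ K * y (some i) := mul_le_mul_of_nonneg_right h6 hyi.le
    · rw [pi_norm_le_iff_of_nonneg hR₀0.le]
      rintro ⟨j, o⟩
      have hyn := hy none
      have hyp : 0 < ∏ i, y (some i) ^ k i := prod_pos fun i _ => pow_pos (hy _) _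
      have h5 := (q_bd h4 j o).trans (mul_le_mul_of_nonneg_left
        (hrow y hy z h1 (by rw [h2]; exact hP)) hD.le)
      have h6 : (∏ i, y (some i) ^ k i) / ∏ i, Fc i ^ k i ≤ mo (fun i x => |b' i x (f' i x)|) o := by
        have h7 : (∏ i, y (some i) ^ k i) / ∏ i, Fc i ^ k i =
            mon (fun (i : I) (_ : Fin (r i + 1)) => y (some i) / Fc i) (out o) := by
          rw [mon_const, ← Finset.prod_div_distrib]
          exact prod_congr rfl fun i _ => (div_pow _ _ _).symm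
        rw [h7]
        exact mon_le (fun i x => (div_pos (hy _) (hFc0 i)).le) (fun i x => hl i x) _
      show |(z (Sum.inr (j, o)) : ℝ) / y none| ≤ R₀
      rw [abs_div, abs_of_pos hyn, div_le_iff₀ hyn]
      have h8 : |((qm z j o : ℤ) : ℝ)| * ((∏ i, y (some i) ^ k i) / ∏ i, Fc i ^ k i) ≤
          D₀ r k * (A * (y none * ∏ i, y (some i) ^ k i)) :=
        (mul_le_mul_of_nonneg_left h6 (abs_nonneg _)).trans h5
      rw [← mul_div_assoc, div_le_iff₀ hFp] at h8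
      have h9 : |((qm z j o : ℤ) : ℝ)| * (∏ i, y (some i) ^ k i) ≤
          (R₀ * y none) * ∏ i, y (some i) ^ k i := by
        refine h8.trans (le_of_eq ?_)
        rw [hR₀]; ring
      exact le_of_mul_le_mul_right h9 hyp
  obtain ⟨h1, h2⟩ := ncard_bw hcov (fun i _ => (hQib i).1) (fun i _ => (hQib i).2)
  refine h2.trans ?_
  rw [sum_const, card_univ, nsmul_eq_mul]
  have h3 : th ^ κ₀ * (C * n₀) ≤ η := hκ₀.le
  have hth := th_pos
  calc (Fintype.card I : ℝ) * (C * th ^ κ₀ * tt (sys m r N k Γ eT 𝒩 hne).bk y) ≤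
      n₀ * (C * th ^ κ₀ * tt (sys m r N k Γ eT 𝒩 hne).bk y) := by
        apply mul_le_mul_of_nonneg_right _ (by positivity)
        rw [hn₀]; linarith
    _ = (th ^ κ₀ * (C * n₀)) * tt (sys m r N k Γ eT 𝒩 hne).bk y := by ring
    _ ≤ _ := mul_le_mul_of_nonneg_right h3 ht.le

/-- points of small height in a region -/
theorem hlow (hnm : Nm m r N k w e Γ) (hNN : NN 𝒩) (hDn : Dn 𝒩)
    (hS : (sys m r N k Γ eT 𝒩 hne).Ok) {Φ : (Ix m r N k Γ → ℝ) → ℝ}
    (hΦ : (sys m r N k Γ eT 𝒩 hne).RH Φ) :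
    ∃ (Do Dc : Set (Ix m r N k Γ → ℝ)) (G : Finset (GG r)),
      (sys m r N k Γ eT 𝒩 hne).Reg Do Dc G ∧ ∀ M : ℝ, 0 < M → ∃ u ∈ Do, Φ u * M < 1 := by
  classical
  have hm : 1 ≤ m := by
    rcases Nat.eq_zero_or_pos m with h | h
    · have := hnm.hM
      rw [h, zero_mul] at this
      omega
    · exact h
  set n₁ : I → ℝ := fun i => ‖pl (sb ℝ (r i + 1) (N i))‖ with hn₁
  have hn₁0 : ∀ i, 0 < n₁ i := by
    intro i
    rw [hn₁, norm_pos_iff]
    intro h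
    have h1 := congrFun h (Fin.castLE (hnm.hrN i).le)
    rw [pl_sb] at h1
    exact one_ne_zero h1
  set a : I → ℝ := fun i => (Real.exp (1 / 2) / n₁ i) ^ ((1 : ℝ) / ((r i + 1 : ℕ) : ℝ)) with ha
  have ha0 : ∀ i, 0 < a i := fun i => by rw [ha]; have := hn₁0 i; positivity
  have hapow : ∀ i, a i ^ (r i + 1) = Real.exp (1 / 2) / n₁ i := by
    intro i
    have := hn₁0 i
    rw [ha]
    simp only
    rw [← Real.rpow_natCast, ← Real.rpow_mul (by positivity), one_div_mul_cancel (by positivity),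
      Real.rpow_one]
  have has : 0 ≤ ∑ i, a i := sum_nonneg fun i _ => (ha0 i).le
  refine ⟨_, _, _, reg hNN hDn hnm.hrN hnm.hM (show (0 : ℝ) < (∑ i, a i) + 1 by positivity)
    (show (0 : ℝ) < 2 by norm_num), fun M hM => ?_⟩
  set u₁ : Ix m r N k Γ → ℝ := gl (fun i => a i • sb ℝ (r i + 1) (N i)) (fun _ _ => 1) with hu₁
  have hpl : ∀ i, ‖pl (bm u₁ i)‖ = Real.exp (1 / 2) := by
    intro i
    rw [hu₁, bm_gl, pl_smul]
    have h : (fun f => a i ^ (r i + 1) * pl (sb ℝ (r i + 1) (N i)) f) =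
      a i ^ (r i + 1) • pl (sb ℝ (r i + 1) (N i)) := rfl
    have h2 : ‖pl (sb ℝ (r i + 1) (N i))‖ = n₁ i := rfl
    rw [h, norm_smul, norm_pow, Real.norm_eq_abs, abs_of_pos (ha0 i), hapow i, h2,
      div_mul_cancel₀ _ (hn₁0 i).ne']
  have hOm : u₁ ∈ (sys m r N k Γ eT 𝒩 hne).Om := by
    refine ⟨fun i => ?_, ?_⟩
    · rw [← norm_pos_iff, hpl]
      positivity
    · intro h
      have h1 := congrFun h (⟨0, hm⟩, mk fun _ _ => 0)
      exact one_ne_zero h1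
  have hpos := hΦ.pos u₁ hOm
  set δ : ℝ := min 1 (1 / (2 * (Φ u₁ * M))) with hδ
  have hδ0 : 0 < δ := by positivity
  have hδ1 : δ ≤ 1 := min_le_left _ _
  have hδ2 : δ * (Φ u₁ * M) ≤ 1 / 2 := by
    have h1 : δ ≤ 1 / (2 * (Φ u₁ * M)) := min_le_right _ _
    rw [le_div_iff₀ (by positivity)] at h1
    linarith
  set wt : Option I → ℝ := fun β => match β with | none => δ | some _ => 1 with hwt
  have hw1 : ∀ i, wt (some i) = 1 := fun i => rfl
  have hw2 : wt none = δ := rfl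
  have hw0 : ∀ β, 0 < wt β := by
    intro β
    cases β with
    | none => exact hδ0
    | some i => exact one_pos
  refine ⟨sc (sys m r N k Γ eT 𝒩 hne).bk wt u₁, ?_, ?_⟩
  · have e1 : ∀ i, bm (sc (sys m r N k Γ eT 𝒩 hne).bk wt u₁) i = bm u₁ i := fun i => by
      rw [bm_sc, hw1 i, one_smul]
    have e2 : qv (sc (sys m r N k Γ eT 𝒩 hne).bk wt u₁) = fun _ => δ := by
      rw [qv_sc, hw2]
      funext p
      show δ * 1 = δ
      ring
    refine ⟨fun i => ?_, fun i => ?_, ?_, ?_, ?_⟩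
    · rw [e1, hpl]
      exact Real.one_lt_exp_iff.2 (by norm_num)
    · rw [e1, hpl]
      apply Real.exp_lt_exp.2
      push_cast
      have : (0 : ℝ) ≤ r i := Nat.cast_nonneg _
      linarith
    · rw [pi_norm_lt_iff (by positivity)]
      rintro ⟨i, x, l⟩
      have h1 : bv (sc (sys m r N k Γ eT 𝒩 hne).bk wt u₁) ⟨i, (x, l)⟩ =
          bm (sc (sys m r N k Γ eT 𝒩 hne).bk wt u₁) i x l := rfl
      have h2 : a i ≤ ∑ i, a i := Finset.single_le_sum (f := a) (fun i _ => (ha0 i).le) (mem_univ i)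
      rw [h1, e1, hu₁, bm_gl, Real.norm_eq_abs]
      show |a i * (if (l : ℕ) = x then (1 : ℝ) else 0)| < _
      split_ifs
      · rw [mul_one, abs_of_pos (ha0 i)]; linarith
      · rw [mul_zero, abs_zero]; linarith
    · rw [e2]
      intro h
      have h1 := congrFun h (⟨0, hm⟩, mk fun _ _ => 0)
      have h2 : δ = 0 := h1
      linarith
    · rw [e2, pi_norm_lt_iff (by norm_num)]
      intro p
      rw [Real.norm_eq_abs, abs_of_pos hδ0]
      linarith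
  · rw [hΦ.scal wt hw0 u₁ hOm, tt_eq]
    simp only [hw1, one_pow, prod_const_one, one_mul, hw2]
    have hM2 := hnm.hM
    have h1 : δ ^ (m * Fintype.card (OI k Γ r)) ≤ δ := by
      calc δ ^ (m * Fintype.card (OI k Γ r)) ≤ δ ^ 1 := pow_le_pow_of_le_one hδ0.le hδ1 (by omega)
        _ = δ := pow_one δ
    have h2 : 0 < Φ u₁ * M := by positivity
    calc δ ^ (m * Fintype.card (OI k Γ r)) * Φ u₁ * M =
        δ ^ (m * Fintype.card (OI k Γ r)) * (Φ u₁ * M) := by ring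
      _ ≤ δ * (Φ u₁ * M) := mul_le_mul_of_nonneg_right h1 h2.le
      _ < 1 := by linarith

end Pool.Agent.K6.H78.GN
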