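import Pool.Agent.K6.H78.GN.Arc

/-!
The points; the asymptotic formula.
-/

set_option autoImplicit false
set_option linter.unusedSectionVars false
set_option linter.unusedVariables false
set_option linter.deprecated false

namespace Pool.Agent.K6.H78.GN

open Finset Matrix MeasureTheory Filter Topology
open Pool.Agent.K6.H78.MF (Pm exists_pm pm_unique pm_iff IsPoly)
open Pool.Agent.K6.H78.FR (cr sc sd tt Sys cp ext ext_smul mulHeight_eq)
open Pool.Agent.K6.H78.MR (pl pl_mul pl_map pl_smul norm_basis exists_prim)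

variable {I : Type} [Fintype I] [DecidableEq I] {m : ℕ} {r N k w e : I → ℕ}
  {Γ : Subgroup (∀ i, Equiv.Perm (Fin (k i)))} {J : Type} [Fintype J]
  {eT : J ≃ Fin m × (∀ i, Fin (k i) → Fin (N i))} {𝒩 : (Fin m → OI k Γ r → ℚ) → Prop}
  {hne : Nonempty (PP r N J)}

/-- the points -/
def UU (eT : J ≃ Fin m × (∀ i, Fin (k i) → Fin (N i))) (𝒩 : (Fin m → OI k Γ r → ℚ) → Prop) :
    Set (PP r N J) :=
  {P | ∃ (b : ∀ i, Matrix (Fin (r i + 1)) (Fin (N i)) ℚ) (q : Fin m → OI k Γ r → ℚ),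
    (∀ i, (P.1 i).rep = pl (b i)) ∧ P.2.rep = tj eT q b ∧ 𝒩 q}

/-- a rational basis and a primitive one -/
theorem prim_block {r N : ℕ} {b : Matrix (Fin (r + 1)) (Fin N) ℚ} (h : pl b ≠ 0) :
    ∃ (b' : Matrix (Fin (r + 1)) (Fin N) ℤ) (g : Matrix (Fin (r + 1)) (Fin (r + 1)) ℚ),
      Pm (pl b') ∧ b = g * b'.map (Int.castRingHom ℚ) ∧ g.det ≠ 0 := by
  classical
  obtain ⟨z₀, c, hz₀, hc, hx⟩ := exists_pm (x := fun p : Fin (r + 1) × Fin N => b p.1 p.2) (by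
    intro h0
    apply h
    have hv : b = 0 := by
      ext i l
      exact congrFun h0 (i, l)
    funext f
    unfold pl
    rw [hv]
    have : Nonempty (Fin (r + 1)) := ⟨0⟩
    exact Matrix.det_zero)
  set b₀ : Matrix (Fin (r + 1)) (Fin N) ℤ := Matrix.of fun i l => z₀ (i, l) with hb₀
  have hb : b = c • b₀.map (Int.castRingHom ℚ) := by
    ext i l
    exact congrFun hx (i, l)
  have hp₀ : pl b = fun f => c ^ (r + 1) * (pl b₀ f : ℤ) := by
    rw [hb, pl_smul]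
    funext f
    rw [pl_map]
    rfl
  have hp₀0 : pl b₀ ≠ 0 := by
    intro h0
    apply h
    rw [hp₀, h0]
    funext p
    simp
  obtain ⟨b', g, hPm, hb', hdet⟩ := exists_prim b₀ hp₀0
  set gq : Matrix (Fin (r + 1)) (Fin (r + 1)) ℚ := (Int.castRingHom ℚ).mapMatrix g with hgq
  have hgdet : gq.det = (g.det : ℤ) := by
    rw [hgq, ← RingHom.map_det]
    rfl
  have hgdet0 : gq.det ≠ 0 := by
    rw [hgdet]
    exact_mod_cast hdet
  refine ⟨b', c • gq, hPm, ?_, ?_⟩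
  · have : (g * b').map (Int.castRingHom ℚ) = gq * b'.map (Int.castRingHom ℚ) := Matrix.map_mul
    rw [hb, hb', this, Matrix.smul_mul]
  · rw [Matrix.det_smul]
    exact mul_ne_zero (pow_ne_zero _ hc) hgdet0

theorem exists_rep (hNN : NN 𝒩) {P : PP r N J} (h : P ∈ UU eT 𝒩) :
    ∃ z : Ix m r N k Γ → ℤ, Gd 𝒩 z ∧ IsRep eT z P := by
  classical
  obtain ⟨b, q, hpl, hT, hrk⟩ := h
  have hpl0 : ∀ i, pl (b i) ≠ 0 := by
    intro i
    rw [← hpl i]; exact (P.1 i).rep_nonzero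
  choose b' g hPm hb hdet using fun i => prim_block (hpl0 i)
  set q₁ : Fin m → OI k Γ r → ℚ := ro q g with hq₁
  have hrk₁ : 𝒩 q₁ := hNN.act q g hdet hrk
  have hT₁ : tm q b = tm q₁ (fun i => (b' i).map (Int.castRingHom ℚ)) := by
    rw [hq₁, tm_ro]
    congr 1
    funext i
    exact hb i
  obtain ⟨zq, c', hzq, hc', hx'⟩ := exists_pm (x := fun p : Fin m × OI k Γ r => q₁ p.1 p.2) (by
    intro h0
    apply hNN.ne _ hrk₁
    funext j o
    exact congrFun h0 (j, o))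
  set q' : Fin m → OI k Γ r → ℤ := fun j o => zq (j, o) with hq'
  have hq₁' : q₁ = c' • fun j o => ((q' j o : ℤ) : ℚ) := by
    funext j o
    exact congrFun hx' (j, o)
  have hrk' : 𝒩 (fun j o => ((q' j o : ℤ) : ℚ)) := by
    have h1 : (fun j o => ((q' j o : ℤ) : ℚ)) = c'⁻¹ • q₁ := by
      rw [hq₁', smul_smul, inv_mul_cancel₀ hc', one_smul]
    rw [h1]
    exact hNN.smul _ _ (inv_ne_zero hc') hrk₁
  refine ⟨gl b' q', ⟨hPm, hzq, hrk'⟩, fun i => ⟨(g i).det, hdet i, ?_⟩, ⟨c', hc', ?_⟩⟩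
  · rw [hpl, hb i, pl_mul]
    funext f
    rw [pl_map]
    rfl
  · rw [hT]
    funext p
    have h1 := congrFun hT₁ (eT p)
    have h2 : tj eT q b p = tm q b (eT p) := rfl
    rw [h2, h1, hq₁', tm_smul]
    have h3 := tm_map (Int.castRingHom ℚ) q' b' (eT p)
    show c' * _ = c' * _
    congr 1

theorem rep_mem (hNN : NN 𝒩) {z : Ix m r N k Γ → ℤ} (hz : Gd 𝒩 z) {P : PP r N J}
    (h : IsRep eT z P) : P ∈ UU eT 𝒩 := by
  classical
  obtain ⟨h1, d, hd, h2⟩ := h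
  choose c hc h1 using h1
  have key : ∀ i, ∃ g g' : Matrix (Fin (r i + 1)) (Fin (r i + 1)) ℚ, g.det = c i ∧ g'.det = (c i)⁻¹ ∧
      g' * g = 1 := by
    intro i
    set D : Fin (r i + 1) → ℚ := Function.update (fun _ => (1 : ℚ)) 0 (c i) with hD
    set D' : Fin (r i + 1) → ℚ := Function.update (fun _ => (1 : ℚ)) 0 (c i)⁻¹ with hD'
    refine ⟨Matrix.diagonal D, Matrix.diagonal D', ?_, ?_, ?_⟩
    · rw [Matrix.det_diagonal, hD, Finset.prod_update_of_mem (Finset.mem_univ _)]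
      simp
    · rw [Matrix.det_diagonal, hD', Finset.prod_update_of_mem (Finset.mem_univ _)]
      simp
    · rw [Matrix.diagonal_mul_diagonal, ← Matrix.diagonal_one]
      congr 1
      funext x
      rw [hD, hD']
      by_cases hi : x = 0
      · rw [hi, Function.update_self, Function.update_self, inv_mul_cancel₀ (hc i)]
      · rw [Function.update_of_ne hi, Function.update_of_ne hi, one_mul]
  choose g g' hg hg' hgg using key
  set b₀ : ∀ i, Matrix (Fin (r i + 1)) (Fin (N i)) ℚ :=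
    fun i => (bm z i).map (Int.castRingHom ℚ) with hb₀
  set q₀ : Fin m → OI k Γ r → ℚ := fun j o => ((qm z j o : ℤ) : ℚ) with hq₀
  refine ⟨fun i => g i * b₀ i, d • ro q₀ g', fun i => ?_, ?_, ?_⟩
  · rw [h1 i, pl_mul, hg]
    funext f
    rw [hb₀]
    simp only
    rw [pl_map]
    rfl
  · rw [h2]
    funext p
    have h3 : tm (d • ro q₀ g') (fun i => g i * b₀ i) = d • tm q₀ b₀ := by
      rw [tm_smul, tm_ro]
      congr 2
      funext i
      rw [← Matrix.mul_assoc, hgg, Matrix.one_mul]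
    have h4 := congrFun h3 (eT p)
    have h5 := tm_map (Int.castRingHom ℚ) (qm z) (bm z) (eT p)
    have h6 : tj eT (d • ro q₀ g') (fun i => g i * b₀ i) p =
      tm (d • ro q₀ g') (fun i => g i * b₀ i) (eT p) := rfl
    rw [h6, h4]
    show d * _ = d * _
    congr 1
    exact h5.symm
  · exact hNN.smul _ _ hd (hNN.act _ _ (fun i => by rw [hg']; exact inv_ne_zero (hc i)) hz.2.2)

theorem pls_cr (z : Ix m r N k Γ → ℤ) : pls (cr z) = fun i => cr (pl (bm z i)) := by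
  funext i f
  exact pl_cr z i f

theorem tj_cr (z : Ix m r N k Γ → ℤ) :
    tj eT (qm (cr z)) (bm (cr z)) = cr (tj eT (qm z) (bm z)) := by
  funext x
  exact tm_map (Int.castRingHom ℝ) (qm z) (bm z) (eT x)

/-- the height of points -/
noncomputable def Hp (m : ℕ) (r N k e : I → ℕ) (Γ : Subgroup (∀ i, Equiv.Perm (Fin (k i))))
    (S : Finset Nat.Primes)
    (φ₀ : (∀ i, (Fin (r i + 1) → Fin (N i)) → ℝ) → (J → ℝ) → ℝ)
    (φ : ∀ p : Nat.Primes, (∀ i, (Fin (r i + 1) → Fin (N i)) → ℚ_[p]) → (J → ℚ_[p]) → ℝ)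
    (P : PP r N J) : ℝ :=
  (∏ i, (P.1 i).mulHeight ^ e i) * P.2.mulHeight ^ (m * Fintype.card (OI k Γ r)) *
    (φ₀ (fun i => ext ℝ (P.1 i).rep) (ext ℝ P.2.rep) *
    ∏ p ∈ S, φ p (fun i => ext ℚ_[p] (P.1 i).rep) (ext ℚ_[p] P.2.rep))

theorem hh (hS : (sys m r N k Γ eT 𝒩 hne).Ok) (S : Finset Nat.Primes)
    (φ₀ : (∀ i, (Fin (r i + 1) → Fin (N i)) → ℝ) → (J → ℝ) → ℝ) (h₀ : LF m r N k Γ eT φ₀)
    (φ : ∀ p : Nat.Primes, (∀ i, (Fin (r i + 1) → Fin (N i)) → ℚ_[p]) → (J → ℚ_[p]) → ℝ)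
    (h : ∀ p ∈ S, LF m r N k Γ eT (φ p)) :
    (sys m r N k Γ eT 𝒩 hne).HH (Ph e eT φ₀) (fun z => ∏ p ∈ S, fp eT p (φ p) z)
      (Hp m r N k e Γ S φ₀ φ) := by
  intro z hz
  have hg := good_iff.1 hz
  obtain ⟨h1, d, hd, h2⟩ := hg.pt_spec (hne := hne) (eT := eT)
  choose c hc h1 using h1
  have hT := hg.tm_pm (eT := eT)
  unfold Hp
  have e0 : ∏ i, (((sys m r N k Γ eT 𝒩 hne).pt z).1 i).mulHeight ^ e i =
      ∏ i, ‖cr (pl (bm z i))‖ ^ e i :=
    prod_congr rfl fun i _ => by rw [mulHeight_eq (hc i) (hg.1 i) (h1 i)]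
  rw [e0, mulHeight_eq hd hT h2]
  unfold Ph
  rw [pls_cr, tj_cr, h2, ext_smul]
  have e1 : (fun i => ext ℝ (((sys m r N k Γ eT 𝒩 hne).pt z).1 i).rep) =
      fun i => (c i : ℝ) • cr (pl (bm z i)) := by
    funext i
    rw [h1 i, ext_smul]
    rfl
  rw [e1]
  have e3 : φ₀ (fun i => (c i : ℝ) • cr (pl (bm z i)))
      ((d : ℝ) • fun i => ((tj eT (qm z) (bm z) i : ℤ) : ℝ)) =
      φ₀ (fun i => cr (pl (bm z i))) (cr (tj eT (qm z) (bm z))) := by
    have hom := hS.good_om z hz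
    have hmem := mem_Cn (eT := eT) (u := cr z) hom.1 hom.2
    rw [pls_cr, tj_cr] at hmem
    exact h₀.invariant _ hmem _ _ (fun i => by exact_mod_cast hc i) (by exact_mod_cast hd)
  rw [e3]
  have e4 : ∏ p ∈ S, φ p (fun i => ext ℚ_[p] (((sys m r N k Γ eT 𝒩 hne).pt z).1 i).rep)
      (ext ℚ_[p] fun i => d * ((tj eT (qm z) (bm z) i : ℤ) : ℚ)) = ∏ p ∈ S, fp eT p (φ p) z := by
    refine prod_congr rfl fun p hp => ?_
    have e5 : (fun i => ext ℚ_[p] (((sys m r N k Γ eT 𝒩 hne).pt z).1 i).rep) =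
        fun i => (c i : ℚ_[p]) • cp p (pl (bm z i)) := by
      funext i
      rw [h1 i, ext_smul]
      rfl
    rw [e5, ext_smul]
    have hmem := Kp_mem (eT := eT) (cp_mem (p := p) (hne := hne) (eT := eT) (𝒩 := 𝒩) (hz.1 p p.2))
    rw [pls_cp, tj_cp] at hmem
    exact (h p hp).invariant _ hmem _ _ (fun i => by exact_mod_cast hc i) (by exact_mod_cast hd)
  rw [e4]
  ring

theorem pts_eq (hNN : NN 𝒩) : (sys m r N k Γ eT 𝒩 hne).Pts = UU eT 𝒩 := by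
  ext P
  constructor
  · rintro ⟨z, hz, rfl⟩
    exact rep_mem hNN (good_iff.1 hz) (good_iff.1 hz).pt_spec
  · intro hP
    obtain ⟨z, hz, hzP⟩ := exists_rep hNN hP
    exact ⟨z, good_iff.2 hz, hz.pt_spec.pt_unique hzP⟩

theorem exists_pp (hnm : Nm m r N k w e Γ)
    (eT : J ≃ Fin m × (∀ i, Fin (k i) → Fin (N i))) : Nonempty (PP r N J) := by
  have hm : 1 ≤ m := by
    rcases Nat.eq_zero_or_pos m with h | h
    · have := hnm.hM
      rw [h, zero_mul] at this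
      omega
    · exact h
  have i1 : ∀ i, 0 < N i := fun i => by have := hnm.hrN i; omega
  have n1 : ∀ i, (fun _ => 1 : (Fin (r i + 1) → Fin (N i)) → ℚ) ≠ 0 := by
    intro i h0
    have := congrFun h0 (fun _ => ⟨0, i1 i⟩)
    exact one_ne_zero this
  have n2 : (fun _ => 1 : J → ℚ) ≠ 0 := by
    intro h0
    have := congrFun h0 (eT.symm (⟨0, hm⟩, fun i _ => ⟨0, i1 i⟩))
    exact one_ne_zero this
  exact ⟨(fun i => Projectivization.mk ℚ _ (n1 i), Projectivization.mk ℚ _ n2)⟩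

/-- **the asymptotic formula** -/
theorem main_all (hnm : Nm m r N k w e Γ) (hNN : NN 𝒩) (hDn : Dn 𝒩) (hCQ : CQ m k w r Γ (NZ 𝒩))
    (hLX : LX m r k Γ 𝒩) (eT : J ≃ Fin m × (∀ i, Fin (k i) → Fin (N i)))
    (S : Finset Nat.Primes)
    (φ₀ : (∀ i, (Fin (r i + 1) → Fin (N i)) → ℝ) → (J → ℝ) → ℝ) (h₀ : LF m r N k Γ eT φ₀)
    (φ : ∀ p : Nat.Primes, (∀ i, (Fin (r i + 1) → Fin (N i)) → ℚ_[p]) → (J → ℚ_[p]) → ℝ)
    (h : ∀ p ∈ S, LF m r N k Γ eT (φ p)) :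
    ∃ c : ℝ, 0 < c ∧ Tendsto (fun B : ℝ => ({P : PP r N J | P ∈ UU eT 𝒩 ∧
      Hp m r N k e Γ S φ₀ φ P ≤ B}.ncard : ℝ) / (B * Real.log B ^ (Fintype.card I))) atTop (𝓝 c) := by
  have hne : Nonempty (PP r N J) := exists_pp hnm eT
  have hS := ok (hne := hne) (eT := eT) hNN hnm.hrN hnm.hM
  obtain ⟨hΦ, hL⟩ := RH_of_LF (hne := hne) (𝒩 := 𝒩) hnm h₀
  obtain ⟨S₀, hS₀⟩ := FR.FH_prod (S := sys m r N k Γ eT 𝒩 hne) S (fun p => fp eT p (φ p))
    fun p hp => FH_of_LF (h p hp)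
  have hH := hh (e := e) hS S φ₀ h₀ φ h
  obtain ⟨c, hc, hlim⟩ := FR.asm hS hΦ hS₀ hH (hcr hnm hCQ hLX hS hΦ hL hS₀ hH)
    (fun η hη => hreg hnm hNN hDn hCQ hS hΦ hL hS₀ hH η hη) (hlow hnm hNN hDn hS hΦ)
  refine ⟨c, hc, ?_⟩
  rw [pts_eq hNN] at hlim
  rw [Fintype.card_option, Nat.add_sub_cancel] at hlim
  exact hlim

end Pool.Agent.K6.H78.GN
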