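import Pool.Agent.K6.H78.GN.Gf
import Mathlib.Data.ZMod.QuotientRing

/-!
The boundary case: as many tensors as the dimension.
-/

set_option autoImplicit false
set_option linter.unusedSectionVars false
set_option linter.unusedVariables false
set_option linter.deprecated false

namespace Pool.Agent.K6.H78.GN

open Finset Matrix

variable {I : Type} [Fintype I] [DecidableEq I] {m : ℕ} {r k : I → ℕ}
  {Γ : Subgroup (∀ i, Equiv.Perm (Fin (k i)))} {p : ℕ} [hp : Fact p.Prime]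

/-! ### forms -/

/-- the value of a tensor -/
def e1 {R : Type*} [CommRing R] (q : OI k Γ r → R) (x : ∀ i, Fin (r i + 1) → R) : R :=
  ∑ h : ∀ i, Fin (k i) → Fin (r i + 1), q (mk h) * ∏ i, ∏ s, x i (h i s)

theorem e1_add {R : Type*} [CommRing R] (q q' : OI k Γ r → R) (x : ∀ i, Fin (r i + 1) → R) :
    e1 (q + q') x = e1 q x + e1 q' x := by
  unfold e1
  rw [← sum_add_distrib]
  refine sum_congr rfl fun h _ => ?_
  rw [Pi.add_apply, add_mul]

theorem e1_smul {R : Type*} [CommRing R] (c : R) (q : OI k Γ r → R) (x : ∀ i, Fin (r i + 1) → R) :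
    e1 (c • q) x = c * e1 q x := by
  unfold e1
  rw [mul_sum]
  refine sum_congr rfl fun h _ => ?_
  rw [Pi.smul_apply, smul_eq_mul, mul_assoc]

/-- the value as a linear map -/
def Lx {K : Type*} [Field K] (x : ∀ i, Fin (r i + 1) → K) : (OI k Γ r → K) →ₗ[K] K where
  toFun q := e1 q x
  map_add' q q' := e1_add q q' x
  map_smul' c q := e1_smul c q x

theorem mon_mk {R : Type*} [CommRing R] (x : ∀ i, Fin (r i + 1) → R)
    {h h' : ∀ i, Fin (k i) → Fin (r i + 1)} (e : (mk h : OI k Γ r) = mk h') :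
    ∏ i, ∏ s, x i (h i s) = ∏ i, ∏ s, x i (h' i s) := by
  obtain ⟨σ, _, e⟩ := mk_eq.1 e
  refine prod_congr rfl fun i _ => ?_
  simp only [e]
  exact (Equiv.prod_comp (σ i) fun s => x i (h i s)).symm

theorem sym_coeff (hpc : Fintype.card (∀ i, Fin (k i) → Fin (r i + 1)) < p)
    (c : (∀ i, Fin (k i) → Fin (r i + 1)) → ZMod p) :
    ∃ q : OI k Γ r → ZMod p, ∀ x, e1 q x = ∑ h, c h * ∏ i, ∏ s, x i (h i s) := by
  classical
  set fib : OI k Γ r → Finset (∀ i, Fin (k i) → Fin (r i + 1)) :=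
    fun o => univ.filter fun h => mk h = o with hfib
  have hcard : ∀ o, ((fib o).card : ZMod p) ≠ 0 := by
    intro o h
    rw [ZMod.natCast_eq_zero_iff] at h
    have h1 : 0 < (fib o).card := Finset.card_pos.2 ⟨out o, by rw [hfib]; simp [mk_out]⟩
    have h2 : (fib o).card ≤ Fintype.card (∀ i, Fin (k i) → Fin (r i + 1)) := Finset.card_le_univ _
    exact absurd (Nat.le_of_dvd h1 h) (by omega)
  refine ⟨fun o => ((fib o).card : ZMod p)⁻¹ * ∑ h ∈ fib o, c h, fun x => ?_⟩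
  unfold e1
  rw [← Finset.sum_fiberwise (s := univ) (g := fun h => (mk h : OI k Γ r)),
    ← Finset.sum_fiberwise (s := univ) (g := fun h => (mk h : OI k Γ r)) (f := fun h => c h * _)]
  refine sum_congr rfl fun o _ => ?_
  have h1 : ∀ h ∈ fib o, ∏ i, ∏ s, x i (h i s) = ∏ i, ∏ s, x i (out o i s) := by
    intro h hh
    rw [hfib, mem_filter] at hh
    exact mon_mk x (hh.2.trans (mk_out o).symm)
  have h2 : ∀ h ∈ fib o, (mk h : OI k Γ r) = o := fun h hh => by
    rw [hfib, mem_filter] at hh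
    exact hh.2
  set v : ZMod p := ((fib o).card : ZMod p)⁻¹ * ∑ h ∈ fib o, c h with hv
  have e3 : ∑ h ∈ fib o, (((fib (mk h)).card : ZMod p)⁻¹ * ∑ h' ∈ fib (mk h), c h') *
      ∏ i, ∏ s, x i (h i s) = ∑ _h ∈ fib o, v * ∏ i, ∏ s, x i (out o i s) :=
    sum_congr rfl fun h hh => by rw [h2 h hh, h1 h hh]
  have e4 : ∑ h ∈ fib o, c h * ∏ i, ∏ s, x i (h i s) =
      ∑ h ∈ fib o, c h * ∏ i, ∏ s, x i (out o i s) :=
    sum_congr rfl fun h hh => by rw [h1 h hh]
  show ∑ h ∈ fib o, (((fib (mk h)).card : ZMod p)⁻¹ * ∑ h' ∈ fib (mk h), c h') *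
      ∏ i, ∏ s, x i (h i s) = ∑ h ∈ fib o, c h * ∏ i, ∏ s, x i (h i s)
  rw [e3, e4, sum_const, nsmul_eq_mul, ← sum_mul, hv, ← mul_assoc, ← mul_assoc,
    mul_inv_cancel₀ (hcard o), one_mul]

/-- products of linear forms -/
theorem exists_form (hpc : Fintype.card (∀ i, Fin (k i) → Fin (r i + 1)) < p)
    (l : ∀ i, Fin (k i) → Fin (r i + 1) → ZMod p) :
    ∃ q : OI k Γ r → ZMod p, ∀ x, e1 q x = ∏ i, ∏ s, ∑ a, l i s a * x i a := by
  obtain ⟨q, hq⟩ := sym_coeff (Γ := Γ) hpc fun h => ∏ i, ∏ s, l i s (h i s)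
  refine ⟨q, fun x => ?_⟩
  rw [hq, prod_sum_tp]
  refine sum_congr rfl fun h _ => ?_
  rw [← prod_mul_distrib]
  refine prod_congr rfl fun i _ => ?_
  rw [← prod_mul_distrib]

/-- the points of the cell -/
def xc (t : ∀ i, Fin (r i) → ZMod p) : ∀ i, Fin (r i + 1) → ZMod p := fun i => Fin.cons 1 (t i)

/-- products of affine functions -/
theorem exists_aff (hpc : Fintype.card (∀ i, Fin (k i) → Fin (r i + 1)) < p)
    (c : ∀ i, Fin (k i) → ZMod p) (u : ∀ i, Fin (k i) → Fin (r i) → ZMod p) :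
    ∃ q : OI k Γ r → ZMod p, ∀ t, e1 q (xc t) = ∏ i, ∏ s, (c i s + ∑ a, u i s a * t i a) := by
  obtain ⟨q, hq⟩ := exists_form (Γ := Γ) hpc fun i s => Fin.cons (c i s) (u i s)
  refine ⟨q, fun t => ?_⟩
  rw [hq]
  refine prod_congr rfl fun i _ => prod_congr rfl fun s _ => ?_
  rw [Fin.sum_univ_succ]
  simp only [Fin.cons_zero, Fin.cons_succ, xc, mul_one]

/-- one affine factor in one slot -/
theorem exists_aff1 (hpc : Fintype.card (∀ i, Fin (k i) → Fin (r i + 1)) < p) (i₀ : I)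
    (s₀ : Fin (k i₀)) (c : ZMod p) (u : Fin (r i₀) → ZMod p) :
    ∃ q : OI k Γ r → ZMod p, ∀ t, e1 q (xc t) = c + ∑ a, u a * t i₀ a := by
  classical
  obtain ⟨q, hq⟩ := exists_aff (Γ := Γ) hpc
    (fun i s => if h : i = i₀ then (if h ▸ s = s₀ then c else 1) else 1)
    (fun i s => if h : i = i₀ then (if h ▸ s = s₀ then h ▸ u else 0) else 0)
  refine ⟨q, fun t => ?_⟩
  rw [hq, Finset.prod_eq_single i₀]
  · rw [Finset.prod_eq_single s₀]
    · simp
    · intro s _ hs
      simp [hs]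
    · intro h
      exact absurd (mem_univ _) h
  · intro i _ hi
    apply prod_eq_one
    intro s _
    simp [hi]
  · intro h
    exact absurd (mem_univ _) h

/-- two affine factors in two slots -/
theorem exists_aff2 (hpc : Fintype.card (∀ i, Fin (k i) → Fin (r i + 1)) < p)
    {z z' : Σ i, Fin (k i)} (hz : z ≠ z') (c c' : ZMod p) (u : Fin (r z.1) → ZMod p)
    (u' : Fin (r z'.1) → ZMod p) :
    ∃ q : OI k Γ r → ZMod p, ∀ t, e1 q (xc t) =
      (c + ∑ a, u a * t z.1 a) * (c' + ∑ a, u' a * t z'.1 a) := by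
  classical
  set C : (Σ i, Fin (k i)) → ZMod p := fun y => if y = z then c else if y = z' then c' else 1 with hC
  set W : ∀ y : Σ i, Fin (k i), Fin (r y.1) → ZMod p := fun y =>
    if h : y = z then (by rw [h]; exact u) else if h' : y = z' then (by rw [h']; exact u') else 0 with hW
  obtain ⟨q, hq⟩ := exists_aff (Γ := Γ) hpc (fun i s => C ⟨i, s⟩) (fun i s => W ⟨i, s⟩)
  refine ⟨q, fun t => ?_⟩
  have h1 : ∏ i, ∏ s, (C ⟨i, s⟩ + ∑ a, W ⟨i, s⟩ a * t i a) =
      ∏ y : Σ i, Fin (k i), (C y + ∑ a, W y a * t y.1 a) := by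
    rw [Fintype.prod_sigma]
  rw [hq, h1, ← Finset.mul_prod_erase univ _ (mem_univ z),
    ← Finset.mul_prod_erase (univ.erase z) _ (mem_erase.2 ⟨hz.symm, mem_univ z'⟩)]
  have h2 : ∏ y ∈ (univ.erase z).erase z', (C y + ∑ a, W y a * t y.1 a) = 1 := by
    apply prod_eq_one
    intro y hy
    rw [mem_erase, mem_erase] at hy
    have e1 : C y = 1 := by rw [hC]; simp [hy.1, hy.2.1]
    have e2 : W y = 0 := by rw [hW]; simp [hy.1, hy.2.1]
    rw [e1, e2]
    simp
  have h3 : C z = c := by rw [hC]; simp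
  have h4 : C z' = c' := by rw [hC]; simp [hz.symm]
  have h5 : W z = u := by rw [hW]; simp
  have h6 : W z' = u' := by rw [hW]; simp [hz.symm]
  rw [h2, h3, h4, h5, h6, mul_one]

theorem sum_single {n : ℕ} (a : Fin n) (y : Fin n → ZMod p) :
    ∑ b, (Pi.single a (1 : ZMod p) : Fin n → ZMod p) b * y b = y a := by
  rw [Finset.sum_eq_single a]
  · rw [Pi.single_eq_same, one_mul]
  · intro b _ hb
    rw [Pi.single_eq_of_ne hb, zero_mul]
  · intro h
    exact absurd (mem_univ _) h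

theorem pair_q (hpc : Fintype.card (∀ i, Fin (k i) → Fin (r i + 1)) < p)
    (hk : ∀ i, 1 ≤ r i → 1 ≤ k i) {t t' : ∀ i, Fin (r i) → ZMod p} (h : t ≠ t') :
    ∃ q : OI k Γ r → ZMod p, e1 q (xc t) = 0 ∧ e1 q (xc t') ≠ 0 := by
  obtain ⟨i, hi⟩ := Function.ne_iff.1 h
  obtain ⟨a, ha⟩ := Function.ne_iff.1 hi
  have hri : 1 ≤ r i := by have := a.2; omega
  obtain ⟨q, hq⟩ := exists_aff1 (Γ := Γ) hpc i ⟨0, hk i hri⟩ (-t i a) (Pi.single a 1)
  refine ⟨q, ?_, ?_⟩
  · rw [hq, sum_single]; ring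
  · rw [hq, sum_single]
    intro h0
    apply ha
    linear_combination -h0

/-- dependent triples -/
def Dep (k : I → ℕ) (t t' t'' : ∀ i, Fin (r i) → ZMod p) : Prop :=
  ∃ i, k i = 1 ∧ (∀ j, j ≠ i → t'' j = t j ∧ t'' j = t' j) ∧
    ∃ c : ZMod p, ∀ a, t'' i a = t i a + c * (t' i a - t i a)

theorem triple_q (hpc : Fintype.card (∀ i, Fin (k i) → Fin (r i + 1)) < p)
    (hk : ∀ i, 1 ≤ r i → 1 ≤ k i) {t t' t'' : ∀ i, Fin (r i) → ZMod p} (h1 : t'' ≠ t)
    (h2 : t'' ≠ t') (hd : ¬ Dep k t t' t'') :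
    ∃ q : OI k Γ r → ZMod p, e1 q (xc t) = 0 ∧ e1 q (xc t') = 0 ∧ e1 q (xc t'') ≠ 0 := by
  classical
  by_cases hz : ∃ (z z' : Σ i, Fin (k i)) (a : Fin (r z.1)) (a' : Fin (r z'.1)), z ≠ z' ∧
      t'' z.1 a ≠ t z.1 a ∧ t'' z'.1 a' ≠ t' z'.1 a'
  · obtain ⟨z, z', a, a', hzz, ha, ha'⟩ := hz
    obtain ⟨q, hq⟩ := exists_aff2 (Γ := Γ) hpc hzz (-t z.1 a) (-t' z'.1 a') (Pi.single a 1)
      (Pi.single a' 1)
    refine ⟨q, ?_, ?_, ?_⟩
    · rw [hq, sum_single]; ring
    · rw [hq, sum_single, sum_single]; ring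
    · rw [hq, sum_single, sum_single]
      refine mul_ne_zero (fun h0 => ha ?_) (fun h0 => ha' ?_)
      · linear_combination h0
      · linear_combination h0
  · push Not at hz
    obtain ⟨i, hi⟩ := Function.ne_iff.1 h1
    obtain ⟨a, ha⟩ := Function.ne_iff.1 hi
    obtain ⟨i', hi'⟩ := Function.ne_iff.1 h2
    obtain ⟨a', ha'⟩ := Function.ne_iff.1 hi'
    have hri : 1 ≤ r i := by have := a.2; omega
    have hri' : 1 ≤ r i' := by have := a'.2; omega
    have hii : i' = i := by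
      by_contra hne
      exact ha' (hz ⟨i, ⟨0, hk i hri⟩⟩ ⟨i', ⟨0, hk i' hri'⟩⟩ a a'
        (fun h => hne (congrArg Sigma.fst h).symm) ha)
    subst hii
    have hki : k i' = 1 := by
      by_contra hne
      have h3 := hk i' hri'
      have hne2 : (⟨i', ⟨0, by omega⟩⟩ : Σ i, Fin (k i)) ≠ ⟨i', ⟨1, by omega⟩⟩ := by
        intro h
        have h4 := eq_of_heq (Sigma.mk.inj h).2
        have h5 := congrArg Fin.val h4
        simp at h5
      exact ha' (hz _ _ a a' hne2 ha)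
    have hj1 : ∀ j, j ≠ i' → t'' j = t j := by
      intro j hj
      funext b
      by_contra hb
      have hrj : 1 ≤ r j := by have := b.2; omega
      exact ha' (hz ⟨j, ⟨0, hk j hrj⟩⟩ ⟨i', ⟨0, hk i' hri'⟩⟩ b a'
        (fun h => hj (congrArg Sigma.fst h)) hb)
    have hj2 : ∀ j, j ≠ i' → t'' j = t' j := by
      intro j hj
      funext b
      by_contra hb
      have hrj : 1 ≤ r j := by have := b.2; omega
      exact hb (hz ⟨i', ⟨0, hk i' hri'⟩⟩ ⟨j, ⟨0, hk j hrj⟩⟩ a b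
        (fun h => hj (congrArg Sigma.fst h).symm) ha)
    have hc : ∀ c : ZMod p, ∃ a, t'' i' a ≠ t i' a + c * (t' i' a - t i' a) := by
      intro c
      by_contra hcon
      push Not at hcon
      exact hd ⟨i', hki, fun j hj => ⟨hj1 j hj, hj2 j hj⟩, c, hcon⟩
    by_cases hv : ∀ b, t' i' b = t i' b
    · obtain ⟨q, hq⟩ := exists_aff1 (Γ := Γ) hpc i' ⟨0, hk i' hri'⟩ (-t i' a) (Pi.single a 1)
      refine ⟨q, ?_, ?_, ?_⟩
      · rw [hq, sum_single]; ring
      · rw [hq, sum_single, hv]; ring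
      · rw [hq, sum_single]
        intro h0
        apply ha
        linear_combination h0
    · push Not at hv
      obtain ⟨b, hb⟩ := hv
      have hb0 : t' i' b - t i' b ≠ 0 := sub_ne_zero.2 hb
      obtain ⟨a₀, ha₀⟩ := hc ((t'' i' b - t i' b) / (t' i' b - t i' b))
      obtain ⟨q, hq⟩ := exists_aff1 (Γ := Γ) hpc i' ⟨0, hk i' hri'⟩
        (-((t' i' b - t i' b) * t i' a₀ - (t' i' a₀ - t i' a₀) * t i' b))
        (fun a => (t' i' b - t i' b) * (Pi.single a₀ 1 : Fin (r i') → ZMod p) a -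
          (t' i' a₀ - t i' a₀) * (Pi.single b 1 : Fin (r i') → ZMod p) a)
      have hval : ∀ y : ∀ i, Fin (r i) → ZMod p, e1 q (xc y) =
          (t' i' b - t i' b) * (y i' a₀ - t i' a₀) - (t' i' a₀ - t i' a₀) * (y i' b - t i' b) := by
        intro y
        rw [hq]
        have h3 : ∑ a, ((t' i' b - t i' b) * (Pi.single a₀ 1 : Fin (r i') → ZMod p) a -
            (t' i' a₀ - t i' a₀) * (Pi.single b 1 : Fin (r i') → ZMod p) a) * y i' a =
            (t' i' b - t i' b) * y i' a₀ - (t' i' a₀ - t i' a₀) * y i' b := by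
          simp only [sub_mul, mul_assoc, sum_sub_distrib, ← mul_sum, sum_single]
        rw [h3]
        ring
      refine ⟨q, ?_, ?_, ?_⟩
      · rw [hval]; ring
      · rw [hval]; ring
      · rw [hval]
        intro h0
        apply ha₀
        field_simp
        linear_combination h0

/-! ### numbers of coordinates with given zeros -/

theorem step_le {V : Type*} [AddCommGroup V] [Module (ZMod p) V] [Finite V]
    (U : Submodule (ZMod p) V) (L : V →ₗ[ZMod p] ZMod p) {e : V} (he : e ∈ U) (hL : L e ≠ 0) :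
    Nat.card ↥(U ⊓ LinearMap.ker L) * p ≤ Nat.card U := by
  have h1 : Nat.card (↥(U ⊓ LinearMap.ker L) × ZMod p) ≤ Nat.card U := by
    refine Nat.card_le_card_of_injective (fun y => (⟨(y.1 : V) + y.2 • e,
      U.add_mem y.1.2.1 (U.smul_mem _ he)⟩ : U)) ?_
    rintro ⟨u, c⟩ ⟨u', c'⟩ h
    have h2 : (u : V) + c • e = (u' : V) + c' • e := congrArg Subtype.val h
    have h3 := congrArg L h2
    have hu : L u = 0 := u.2.2
    have hu' : L u' = 0 := u'.2.2
    rw [map_add, map_add, map_smul, map_smul, hu, hu', zero_add, zero_add, smul_eq_mul,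
      smul_eq_mul] at h3
    have h4 : c = c' := mul_right_cancel₀ hL h3
    subst h4
    have h5 : (u : V) = u' := add_right_cancel h2
    exact Prod.ext (Subtype.ext h5) rfl
  rwa [Nat.card_prod, Nat.card_zmod] at h1

theorem step_ge {V : Type*} [AddCommGroup V] [Module (ZMod p) V] [Finite V]
    (U : Submodule (ZMod p) V) (L : V →ₗ[ZMod p] ZMod p) :
    Nat.card U ≤ Nat.card ↥(U ⊓ LinearMap.ker L) * p := by
  classical
  have h1 : Nat.card U ≤ Nat.card (↥(U ⊓ LinearMap.ker L) × ZMod p) := by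
    set g : ZMod p → U := fun c => if h : ∃ u : U, L u = c then h.choose else 0 with hg
    have hg1 : ∀ u : U, L (g (L u)) = L u := by
      intro u
      have h : ∃ u' : U, L u' = L u := ⟨u, rfl⟩
      rw [hg]
      simp only
      rw [dif_pos h]
      exact h.choose_spec
    refine Nat.card_le_card_of_injective (fun u => ((⟨(u : V) - g (L u),
      ⟨U.sub_mem u.2 (g (L u)).2, by
        show _ ∈ LinearMap.ker L
        rw [LinearMap.mem_ker, map_sub, hg1, sub_self]⟩⟩ : ↥(U ⊓ LinearMap.ker L)), L u)) ?_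
    intro u u' h
    have h2 : L u = L u' := congrArg Prod.snd h
    have h3 : (u : V) - g (L u) = u' - g (L u') := congrArg (fun y => ((y.1 : ↥(U ⊓ LinearMap.ker L)) : V)) h
    rw [h2] at h3
    exact Subtype.ext (sub_left_injective h3)
  rwa [Nat.card_prod, Nat.card_zmod] at h1

end Pool.Agent.K6.H78.GN
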