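import Pool.Agent.K6.H78.GN.Gb

/-!
The moments of the number of common zeros modulo a prime.
-/

set_option autoImplicit false
set_option linter.unusedSectionVars false
set_option linter.unusedVariables false
set_option linter.deprecated false

namespace Pool.Agent.K6.H78.GN

open Finset Matrix

variable {I : Type} [Fintype I] [DecidableEq I] {m : ℕ} {r k : I → ℕ}
  {Γ : Subgroup (∀ i, Equiv.Perm (Fin (k i)))} {p : ℕ} [hp : Fact p.Prime]

/-- the points of the cell -/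
abbrev Tc (r : I → ℕ) (p : ℕ) : Type := ∀ i, Fin (r i) → ZMod p

/-- one zero -/
def K1 (k : I → ℕ) (Γ : Subgroup (∀ i, Equiv.Perm (Fin (k i)))) (t : Tc r p) :
    Submodule (ZMod p) (OI k Γ r → ZMod p) := ⊤ ⊓ LinearMap.ker (Lx (xc t))
/-- two zeros -/
def K2 (k : I → ℕ) (Γ : Subgroup (∀ i, Equiv.Perm (Fin (k i)))) (t t' : Tc r p) :
    Submodule (ZMod p) (OI k Γ r → ZMod p) := K1 k Γ t ⊓ LinearMap.ker (Lx (xc t'))
/-- three zeros -/
def K3 (k : I → ℕ) (Γ : Subgroup (∀ i, Equiv.Perm (Fin (k i)))) (t t' t'' : Tc r p) :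
    Submodule (ZMod p) (OI k Γ r → ZMod p) := K2 k Γ t t' ⊓ LinearMap.ker (Lx (xc t''))

theorem mem_K1 {t : Tc r p} {q : OI k Γ r → ZMod p} : q ∈ K1 k Γ t ↔ e1 q (xc t) = 0 := by
  constructor
  · exact fun h => h.2
  · exact fun h => ⟨Submodule.mem_top, h⟩

theorem mem_K2 {t t' : Tc r p} {q : OI k Γ r → ZMod p} :
    q ∈ K2 k Γ t t' ↔ e1 q (xc t) = 0 ∧ e1 q (xc t') = 0 := by
  constructor
  · exact fun h => ⟨mem_K1.1 h.1, h.2⟩
  · exact fun h => ⟨mem_K1.2 h.1, h.2⟩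

theorem mem_K3 {t t' t'' : Tc r p} {q : OI k Γ r → ZMod p} :
    q ∈ K3 k Γ t t' t'' ↔ e1 q (xc t) = 0 ∧ e1 q (xc t') = 0 ∧ e1 q (xc t'') = 0 := by
  constructor
  · exact fun h => ⟨(mem_K2.1 h.1).1, (mem_K2.1 h.1).2, h.2⟩
  · exact fun h => ⟨mem_K2.2 ⟨h.1, h.2.1⟩, h.2.2⟩

theorem card_top : Nat.card ↥(⊤ : Submodule (ZMod p) (OI k Γ r → ZMod p)) =
    p ^ Fintype.card (OI k Γ r) := by
  rw [Nat.card_congr (Submodule.topEquiv (R := ZMod p) (M := OI k Γ r → ZMod p)).toEquiv,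
    Nat.card_fun, Nat.card_zmod, Nat.card_eq_fintype_card]

theorem exists_one (hpc : Fintype.card (∀ i, Fin (k i) → Fin (r i + 1)) < p) (t : Tc r p) :
    ∃ q : OI k Γ r → ZMod p, e1 q (xc t) ≠ 0 := by
  obtain ⟨q, hq⟩ := exists_aff (Γ := Γ) hpc (fun _ _ => 1) (fun _ _ => 0)
  refine ⟨q, ?_⟩
  rw [hq]
  simp

theorem card_K1 (hpc : Fintype.card (∀ i, Fin (k i) → Fin (r i + 1)) < p) (t : Tc r p) :
    Nat.card (K1 k Γ t) * p = p ^ Fintype.card (OI k Γ r) := by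
  obtain ⟨q, hq⟩ := exists_one (Γ := Γ) hpc t
  rw [← card_top (k := k) (Γ := Γ) (r := r)]
  exact le_antisymm (step_le ⊤ (Lx (xc t)) Submodule.mem_top hq) (step_ge ⊤ (Lx (xc t)))

theorem card_K2_ge (hpc : Fintype.card (∀ i, Fin (k i) → Fin (r i + 1)) < p) (t t' : Tc r p) :
    p ^ Fintype.card (OI k Γ r) ≤ Nat.card (K2 k Γ t t') * p * p := by
  rw [← card_K1 hpc t]
  exact Nat.mul_le_mul_right p (step_ge (K1 k Γ t) (Lx (xc t')))

theorem card_K2_le (hpc : Fintype.card (∀ i, Fin (k i) → Fin (r i + 1)) < p)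
    (hk : ∀ i, 1 ≤ r i → 1 ≤ k i) {t t' : Tc r p} (h : t ≠ t') :
    Nat.card (K2 k Γ t t') * p * p ≤ p ^ Fintype.card (OI k Γ r) := by
  obtain ⟨q, h1, h2⟩ := pair_q (Γ := Γ) hpc hk h
  rw [← card_K1 hpc t]
  exact Nat.mul_le_mul_right p (step_le (K1 k Γ t) (Lx (xc t')) (mem_K1.2 h1) h2)

theorem card_K3_le (hpc : Fintype.card (∀ i, Fin (k i) → Fin (r i + 1)) < p)
    (hk : ∀ i, 1 ≤ r i → 1 ≤ k i) {t t' t'' : Tc r p} (h : t ≠ t') (h1 : t'' ≠ t)
    (h2 : t'' ≠ t') (hd : ¬ Dep k t t' t'') :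
    Nat.card (K3 k Γ t t' t'') * p * p * p ≤ p ^ Fintype.card (OI k Γ r) := by
  obtain ⟨q, e1, e2, e3⟩ := triple_q (Γ := Γ) hpc hk h1 h2 hd
  refine le_trans ?_ (card_K2_le (Γ := Γ) hpc hk h)
  exact Nat.mul_le_mul_right p (Nat.mul_le_mul_right p
    (step_le (K2 k Γ t t') (Lx (xc t'')) (mem_K2.2 ⟨e1, e2⟩) e3))

/-- the rows are in a subspace -/
def Rw (m : ℕ) (U : Submodule (ZMod p) (OI k Γ r → ZMod p)) : Set (Fin m × OI k Γ r → ZMod p) :=
  {Q | ∀ j, (fun o => Q (j, o)) ∈ U}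

theorem Rw_card (m : ℕ) (U : Submodule (ZMod p) (OI k Γ r → ZMod p)) :
    (Rw m U).ncard = Nat.card U ^ m := by
  have h1 : Nat.card (Rw m U) = Nat.card (Fin m → U) := Nat.card_congr
    { toFun := fun Q j => ⟨fun o => Q.1 (j, o), Q.2 j⟩
      invFun := fun f => ⟨fun y => (f y.1 : OI k Γ r → ZMod p) y.2, fun j => (f j).2⟩
      left_inv := fun Q => rfl
      right_inv := fun f => rfl }
  rw [← Nat.card_coe_set_eq, h1, Nat.card_fun, Nat.card_eq_fintype_card (α := Fin m), Fintype.card_fin]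

theorem Rw_mono {m : ℕ} {U U' : Submodule (ZMod p) (OI k Γ r → ZMod p)} (h : U ≤ U') :
    ((Rw m U).ncard : ℝ) ≤ (Rw m U').ncard := by
  have h1 : Rw m U ⊆ Rw m U' := fun Q hQ j => h (hQ j)
  exact_mod_cast Set.ncard_le_ncard h1 (Set.toFinite _)

/-- the number of all coordinates -/
noncomputable def Ea (m : ℕ) (r k : I → ℕ) (Γ : Subgroup (∀ i, Equiv.Perm (Fin (k i)))) (p : ℕ) : ℝ :=
  (p : ℝ) ^ (m * Fintype.card (OI k Γ r))

theorem Ea_pos : 0 < Ea m r k Γ p := by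
  unfold Ea
  have : (0 : ℝ) < p := by exact_mod_cast hp.out.pos
  positivity

theorem W1 (hpc : Fintype.card (∀ i, Fin (k i) → Fin (r i + 1)) < p) (t : Tc r p) :
    ((Rw m (K1 k Γ t)).ncard : ℝ) = Ea m r k Γ p / (p : ℝ) ^ m := by
  have hp0 : (0 : ℝ) < p := by exact_mod_cast hp.out.pos
  rw [eq_div_iff (by positivity), Rw_card]
  have h1 : ((Nat.card (K1 k Γ t) : ℝ)) * p = (p : ℝ) ^ Fintype.card (OI k Γ r) := by
    exact_mod_cast card_K1 (Γ := Γ) hpc t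
  push_cast
  rw [← mul_pow, h1, ← pow_mul, mul_comm]
  rfl

theorem W2_ge (hpc : Fintype.card (∀ i, Fin (k i) → Fin (r i + 1)) < p) (t t' : Tc r p) :
    Ea m r k Γ p / ((p : ℝ) ^ m) ^ 2 ≤ ((Rw m (K2 k Γ t t')).ncard : ℝ) := by
  have hp0 : (0 : ℝ) < p := by exact_mod_cast hp.out.pos
  rw [div_le_iff₀ (by positivity), Rw_card]
  have h1 : (p : ℝ) ^ Fintype.card (OI k Γ r) ≤ ((Nat.card (K2 k Γ t t') : ℝ)) * p * p := by
    exact_mod_cast card_K2_ge (Γ := Γ) hpc t t'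
  have h2 := pow_le_pow_left₀ (by positivity) h1 m
  push_cast
  calc Ea m r k Γ p = ((p : ℝ) ^ Fintype.card (OI k Γ r)) ^ m := by
        rw [← pow_mul, mul_comm]; rfl
    _ ≤ _ := h2
    _ = _ := by rw [mul_pow, mul_pow]; ring

theorem W2_le (hpc : Fintype.card (∀ i, Fin (k i) → Fin (r i + 1)) < p)
    (hk : ∀ i, 1 ≤ r i → 1 ≤ k i) {t t' : Tc r p} (h : t ≠ t') :
    ((Rw m (K2 k Γ t t')).ncard : ℝ) ≤ Ea m r k Γ p / ((p : ℝ) ^ m) ^ 2 := by
  have hp0 : (0 : ℝ) < p := by exact_mod_cast hp.out.pos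
  rw [le_div_iff₀ (by positivity), Rw_card]
  have h1 : ((Nat.card (K2 k Γ t t') : ℝ)) * p * p ≤ (p : ℝ) ^ Fintype.card (OI k Γ r) := by
    exact_mod_cast card_K2_le (Γ := Γ) hpc hk h
  have h2 := pow_le_pow_left₀ (by positivity) h1 m
  push_cast
  calc (Nat.card (K2 k Γ t t') : ℝ) ^ m * ((p : ℝ) ^ m) ^ 2 =
      ((Nat.card (K2 k Γ t t') : ℝ) * p * p) ^ m := by rw [mul_pow, mul_pow]; ring
    _ ≤ _ := h2
    _ = _ := by rw [← pow_mul, mul_comm]; rfl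

theorem W3_le (hpc : Fintype.card (∀ i, Fin (k i) → Fin (r i + 1)) < p)
    (hk : ∀ i, 1 ≤ r i → 1 ≤ k i) {t t' t'' : Tc r p} (h : t ≠ t') (h1 : t'' ≠ t)
    (h2 : t'' ≠ t') (hd : ¬ Dep k t t' t'') :
    ((Rw m (K3 k Γ t t' t'')).ncard : ℝ) ≤ Ea m r k Γ p / ((p : ℝ) ^ m) ^ 3 := by
  have hp0 : (0 : ℝ) < p := by exact_mod_cast hp.out.pos
  rw [le_div_iff₀ (by positivity), Rw_card]
  have h1 : ((Nat.card (K3 k Γ t t' t'') : ℝ)) * p * p * p ≤ (p : ℝ) ^ Fintype.card (OI k Γ r) := by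
    exact_mod_cast card_K3_le (Γ := Γ) hpc hk h h1 h2 hd
  have h2 := pow_le_pow_left₀ (by positivity) h1 m
  push_cast
  calc (Nat.card (K3 k Γ t t' t'') : ℝ) ^ m * ((p : ℝ) ^ m) ^ 3 =
      ((Nat.card (K3 k Γ t t' t'') : ℝ) * p * p * p) ^ m := by rw [mul_pow, mul_pow, mul_pow]; ring
    _ ≤ _ := h2
    _ = _ := by rw [← pow_mul, mul_comm]; rfl

open Classical in
/-- the bound for triples -/
theorem W3 (hpc : Fintype.card (∀ i, Fin (k i) → Fin (r i + 1)) < p)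
    (hk : ∀ i, 1 ≤ r i → 1 ≤ k i) (t t' t'' : Tc r p) :
    ((Rw m (K3 k Γ t t' t'')).ncard : ℝ) ≤ Ea m r k Γ p / ((p : ℝ) ^ m) ^ 3 +
      ((if Dep k t t' t'' then 1 else 0) + (if t = t' then 1 else 0) + (if t'' = t then 1 else 0) +
        (if t'' = t' then 1 else 0)) * (Ea m r k Γ p / ((p : ℝ) ^ m) ^ 2) +
      (if t = t' ∧ t'' = t then 1 else 0) * (Ea m r k Γ p / (p : ℝ) ^ m) := by
  have hE := Ea_pos (m := m) (r := r) (k := k) (Γ := Γ) (p := p)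
  have hp0 : (0 : ℝ) < p := by exact_mod_cast hp.out.pos
  set x1 := Ea m r k Γ p / (p : ℝ) ^ m with hx1
  set x2 := Ea m r k Γ p / ((p : ℝ) ^ m) ^ 2 with hx2
  set x3 := Ea m r k Γ p / ((p : ℝ) ^ m) ^ 3 with hx3
  have hx10 : 0 < x1 := by positivity
  have hx20 : 0 < x2 := by positivity
  have hx30 : 0 < x3 := by positivity
  have b1 : (0 : ℝ) ≤ (if Dep k t t' t'' then 1 else 0) := by split_ifs <;> norm_num
  have b2 : (0 : ℝ) ≤ (if t = t' then 1 else 0) := by split_ifs <;> norm_num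
  have b3 : (0 : ℝ) ≤ (if t'' = t then 1 else 0) := by split_ifs <;> norm_num
  have b4 : (0 : ℝ) ≤ (if t'' = t' then 1 else 0) := by split_ifs <;> norm_num
  by_cases h : t = t'
  · by_cases h' : t'' = t
    · have h1 : ((Rw m (K3 k Γ t t' t'')).ncard : ℝ) ≤ x1 := by
        refine le_trans ?_ (W1 (m := m) (Γ := Γ) hpc t).le
        exact Rw_mono fun q hq => mem_K1.2 (mem_K3.1 hq).1
      rw [if_pos (⟨h, h'⟩ : t = t' ∧ t'' = t), one_mul]
      have := mul_nonneg (add_nonneg (add_nonneg (add_nonneg b1 b2) b3) b4) hx20.le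
      linarith
    · have h1 : ((Rw m (K3 k Γ t t' t'')).ncard : ℝ) ≤ x2 := by
        refine le_trans ?_ (W2_le (Γ := Γ) (m := m) hpc hk (fun h0 => h' h0.symm : t ≠ t''))
        exact Rw_mono fun q hq => mem_K2.2 ⟨(mem_K3.1 hq).1, (mem_K3.1 hq).2.2⟩
      have h2 : x2 ≤ ((if Dep k t t' t'' then 1 else 0) + (if t = t' then 1 else 0) +
          (if t'' = t then 1 else 0) + (if t'' = t' then 1 else 0)) * x2 := by
        rw [if_pos h]
        exact le_mul_of_one_le_left hx20.le (by rw [if_pos h] at b2; linarith)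
      have h3 : (0 : ℝ) ≤ (if t = t' ∧ t'' = t then 1 else 0) * x1 :=
        mul_nonneg (by split_ifs <;> norm_num) hx10.le
      linarith
  · have h1 : ((Rw m (K3 k Γ t t' t'')).ncard : ℝ) ≤ x2 := by
      refine le_trans ?_ (W2_le (Γ := Γ) (m := m) hpc hk h)
      exact Rw_mono fun q hq => mem_K2.2 ⟨(mem_K3.1 hq).1, (mem_K3.1 hq).2.1⟩
    have h3 : (0 : ℝ) ≤ (if t = t' ∧ t'' = t then 1 else 0) * x1 :=
      mul_nonneg (by split_ifs <;> norm_num) hx10.le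
    by_cases hbad : Dep k t t' t'' ∨ t'' = t ∨ t'' = t'
    · have h2 : x2 ≤ ((if Dep k t t' t'' then 1 else 0) + (if t = t' then 1 else 0) +
          (if t'' = t then 1 else 0) + (if t'' = t' then 1 else 0)) * x2 := by
        apply le_mul_of_one_le_left hx20.le
        rcases hbad with h4 | h4 | h4
        · rw [if_pos h4]; linarith
        · rw [if_pos h4]; linarith
        · rw [if_pos h4]; linarith
      linarith
    · push Not at hbad
      have h4 := W3_le (Γ := Γ) (m := m) hpc hk h hbad.2.1 hbad.2.2 hbad.1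
      have := mul_nonneg (add_nonneg (add_nonneg (add_nonneg b1 b2) b3) b4) hx20.le
      linarith

end Pool.Agent.K6.H78.GN
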