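import Pool.Agent.K6.H78.GN.Gd

/-!
The proportion of the residues with a common zero.
-/

set_option autoImplicit false
set_option linter.unusedSectionVars false
set_option linter.unusedVariables false
set_option linter.deprecated false

namespace Pool.Agent.K6.H78.GN

open Finset Matrix

variable {I : Type} [Fintype I] [DecidableEq I] {m : ℕ} {r k : I → ℕ}
  {Γ : Subgroup (∀ i, Equiv.Perm (Fin (k i)))} {p : ℕ} [hp : Fact p.Prime]

theorem sum_ind {Ω : Type*} [Fintype Ω] (P : Ω → Prop) [DecidablePred P] (S : Set Ω)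
    (h : ∀ Q, P Q ↔ Q ∈ S) : ∑ Q, (if P Q then (1 : ℝ) else 0) = S.ncard := by
  have h1 : S = ↑(univ.filter P) := by
    ext Q
    simp [h]
  rw [h1, Set.ncard_coe_finset, Finset.sum_boole]

/-- `t` is a common zero -/
def zt (t : Tc r p) (Q : Fin m × OI k Γ r → ZMod p) : Prop := ∀ j, e1 (fun o => Q (j, o)) (xc t) = 0

open Classical in
/-- the indicator -/
noncomputable def ix (t : Tc r p) (Q : Fin m × OI k Γ r → ZMod p) : ℝ := if zt t Q then 1 else 0

/-- the number of zeros in the cell -/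
noncomputable def Nz (Q : Fin m × OI k Γ r → ZMod p) : ℝ := ∑ t : Tc r p, ix t Q

theorem card_Tc (hm : ∑ i, r i = m) : (Fintype.card (Tc r p) : ℝ) = (p : ℝ) ^ m := by
  rw [Fintype.card_pi, ← hm, ← Finset.prod_pow_eq_pow_sum]
  push_cast
  refine prod_congr rfl fun i _ => ?_
  rw [Fintype.card_fun, ZMod.card, Fintype.card_fin]
  push_cast
  rfl

theorem s1 (t : Tc r p) : ∑ Q : Fin m × OI k Γ r → ZMod p, ix t Q = ((Rw m (K1 k Γ t)).ncard : ℝ) := by
  classical
  unfold ix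
  exact sum_ind _ _ fun Q => forall_congr' fun j => mem_K1.symm

theorem s2 (t t' : Tc r p) : ∑ Q : Fin m × OI k Γ r → ZMod p, ix t Q * ix t' Q =
    ((Rw m (K2 k Γ t t')).ncard : ℝ) := by
  classical
  rw [← sum_ind (fun Q => zt t Q ∧ zt t' Q) (Rw m (K2 k Γ t t'))]
  · refine sum_congr rfl fun Q _ => ?_
    unfold ix
    by_cases h : zt t Q <;> by_cases h' : zt t' Q <;> simp [h, h']
  · intro Q
    constructor
    · rintro ⟨h1, h2⟩ j
      exact mem_K2.2 ⟨h1 j, h2 j⟩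
    · intro h
      exact ⟨fun j => (mem_K2.1 (h j)).1, fun j => (mem_K2.1 (h j)).2⟩

theorem s3 (t t' t'' : Tc r p) : ∑ Q : Fin m × OI k Γ r → ZMod p, ix t Q * ix t' Q * ix t'' Q =
    ((Rw m (K3 k Γ t t' t'')).ncard : ℝ) := by
  classical
  rw [← sum_ind (fun Q => zt t Q ∧ zt t' Q ∧ zt t'' Q) (Rw m (K3 k Γ t t' t''))]
  · refine sum_congr rfl fun Q _ => ?_
    unfold ix
    by_cases h : zt t Q <;> by_cases h' : zt t' Q <;> by_cases h'' : zt t'' Q <;> simp [h, h', h'']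
  · intro Q
    constructor
    · rintro ⟨h1, h2, h3⟩ j
      exact mem_K3.2 ⟨h1 j, h2 j, h3 j⟩
    · intro h
      exact ⟨fun j => (mem_K3.1 (h j)).1, fun j => (mem_K3.1 (h j)).2.1,
        fun j => (mem_K3.1 (h j)).2.2⟩

theorem m1 (hpc : Fintype.card (∀ i, Fin (k i) → Fin (r i + 1)) < p) (hm : ∑ i, r i = m) :
    ∑ Q : Fin m × OI k Γ r → ZMod p, Nz Q = Ea m r k Γ p := by
  have hp0 : (0 : ℝ) < p := by exact_mod_cast hp.out.pos
  unfold Nz
  rw [sum_comm, sum_congr rfl fun t _ => s1 t, sum_congr rfl fun t _ => W1 (Γ := Γ) hpc t, sum_const,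
    card_univ, nsmul_eq_mul, card_Tc hm]
  field_simp

theorem m2 (hpc : Fintype.card (∀ i, Fin (k i) → Fin (r i + 1)) < p) (hm : ∑ i, r i = m) :
    Ea m r k Γ p * (2 - 1 / (p : ℝ) ^ m) ≤ ∑ Q : Fin m × OI k Γ r → ZMod p, Nz Q ^ 2 := by
  classical
  have hp0 : (0 : ℝ) < p := by exact_mod_cast hp.out.pos
  have h1 : ∑ Q : Fin m × OI k Γ r → ZMod p, Nz Q ^ 2 =
      ∑ t : Tc r p, ∑ t' : Tc r p, ((Rw m (K2 k Γ t t')).ncard : ℝ) := by
    have h2 : ∀ Q : Fin m × OI k Γ r → ZMod p, Nz Q ^ 2 = ∑ t : Tc r p, ∑ t' : Tc r p, ix t Q * ix t' Q := by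
      intro Q
      rw [sq]
      unfold Nz
      rw [Finset.sum_mul_sum]
    rw [sum_congr rfl fun Q _ => h2 Q, sum_comm]
    refine sum_congr rfl fun t _ => ?_
    rw [sum_comm]
    exact sum_congr rfl fun t' _ => s2 t t'
  rw [h1]
  set x1 := Ea m r k Γ p / (p : ℝ) ^ m with hx1
  set x2 := Ea m r k Γ p / ((p : ℝ) ^ m) ^ 2 with hx2
  have h3 : ∀ t t' : Tc r p, x2 + (if t = t' then x1 - x2 else 0) ≤ ((Rw m (K2 k Γ t t')).ncard : ℝ) := by
    intro t t'
    by_cases h : t = t'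
    · rw [if_pos h, ← h]
      have h4 : K2 k Γ t t = K1 k Γ t := by
        ext q
        rw [mem_K2, mem_K1, and_self]
      rw [h4, W1 (Γ := Γ) hpc t]
      linarith
    · rw [if_neg h, add_zero]
      exact W2_ge (Γ := Γ) hpc t t'
  refine le_trans (le_of_eq ?_) (sum_le_sum fun t _ => sum_le_sum fun t' _ => h3 t t')
  simp only [sum_add_distrib, sum_const, card_univ, nsmul_eq_mul, Finset.sum_ite_eq, mem_univ, if_true,
    card_Tc hm]
  rw [hx1, hx2]
  field_simp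
  ring

open Classical in
theorem dep_sum (hm : ∑ i, r i = m) (h1 : ∀ i, k i = 1 → r i + 1 ≤ m) :
    ∑ t : Tc r p, ∑ t' : Tc r p, ∑ t'' : Tc r p, (if Dep k t t' t'' then (1 : ℝ) else 0) ≤
      Fintype.card I * ((p : ℝ) ^ m) ^ 2 := by
  have hp1 : (1 : ℝ) ≤ p := by exact_mod_cast hp.out.one_lt.le
  have h2 : ∑ t : Tc r p, ∑ t' : Tc r p, ∑ t'' : Tc r p, (if Dep k t t' t'' then (1 : ℝ) else 0) =
      ({y : Tc r p × Tc r p × Tc r p | Dep k y.1 y.2.1 y.2.2}.ncard : ℝ) := by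
    rw [← sum_ind (fun y : Tc r p × Tc r p × Tc r p => Dep k y.1 y.2.1 y.2.2)
      {y : Tc r p × Tc r p × Tc r p | Dep k y.1 y.2.1 y.2.2} fun y => Iff.rfl]
    rw [Fintype.sum_prod_type]
    refine sum_congr rfl fun t _ => ?_
    rw [Fintype.sum_prod_type]
  rw [h2]
  set G : ∀ i : I, Tc r p × (Fin (r i) → ZMod p) × ZMod p → Tc r p × Tc r p × Tc r p := fun i z =>
    (z.1, Function.update z.1 i z.2.1, Function.update z.1 i
      (fun a => z.1 i a + z.2.2 * (z.2.1 a - z.1 i a))) with hG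
  have hsub : {y : Tc r p × Tc r p × Tc r p | Dep k y.1 y.2.1 y.2.2} ⊆
      ⋃ i ∈ (univ.filter fun i => k i = 1), Set.range (G i) := by
    rintro ⟨t, t', t''⟩ ⟨i, hi, hj₀, c, hc⟩
    have hj : ∀ j, j ≠ i → t'' j = t j ∧ t'' j = t' j := hj₀
    rw [Set.mem_iUnion₂]
    refine ⟨i, mem_filter.2 ⟨mem_univ _, hi⟩, ⟨(t, t' i, c), ?_⟩⟩
    rw [hG]
    refine Prod.ext rfl (Prod.ext ?_ ?_)
    · funext j
      by_cases h : j = i
      · subst h; exact Function.update_self _ _ _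
      · show Function.update t i (t' i) j = t' j
        rw [Function.update_of_ne h, ← (hj j h).1, (hj j h).2]
    · funext j
      by_cases h : j = i
      · subst h
        show Function.update t j _ j = t'' j
        rw [Function.update_self]
        funext a
        exact (hc a).symm
      · show Function.update t i _ j = t'' j
        rw [Function.update_of_ne h, (hj j h).1]
  have hcard : ∀ i ∈ univ.filter (fun i => k i = 1), ((Set.range (G i)).ncard : ℝ) ≤ ((p : ℝ) ^ m) ^ 2 := by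
    intro i hi
    rw [mem_filter] at hi
    have h3 : (Set.range (G i)).ncard ≤ Nat.card (Tc r p × (Fin (r i) → ZMod p) × ZMod p) := by
      rw [← Set.image_univ, ← Set.ncard_univ]
      exact Set.ncard_image_le (Set.toFinite _)
    rw [Nat.card_eq_fintype_card, Fintype.card_prod, Fintype.card_prod, Fintype.card_fun, ZMod.card,
      Fintype.card_fin] at h3
    have h4 : ((Set.range (G i)).ncard : ℝ) ≤ Fintype.card (Tc r p) * ((p : ℝ) ^ (r i) * p) := by
      exact_mod_cast h3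
    refine h4.trans ?_
    rw [card_Tc hm, ← pow_succ, sq]
    exact mul_le_mul_of_nonneg_left (pow_le_pow_right₀ hp1 (h1 i hi.2)) (by positivity)
  obtain ⟨_, h3⟩ := MR.ncard_bw hsub (fun i _ => Set.toFinite _) hcard
  refine h3.trans ?_
  rw [sum_const, nsmul_eq_mul]
  apply mul_le_mul_of_nonneg_right _ (by positivity)
  exact_mod_cast (Finset.card_le_univ _ : (univ.filter fun i => k i = 1).card ≤ Fintype.card I)

theorem m3 (hpc : Fintype.card (∀ i, Fin (k i) → Fin (r i + 1)) < p) (hm : ∑ i, r i = m)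
    (hk : ∀ i, 1 ≤ r i → 1 ≤ k i) (h1 : ∀ i, k i = 1 → r i + 1 ≤ m) :
    ∑ Q : Fin m × OI k Γ r → ZMod p, Nz Q ^ 3 ≤ Ea m r k Γ p * (Fintype.card I + 5) := by
  classical
  have hp0 : (0 : ℝ) < p := by exact_mod_cast hp.out.pos
  have hE := Ea_pos (m := m) (r := r) (k := k) (Γ := Γ) (p := p)
  have e1 : ∑ Q : Fin m × OI k Γ r → ZMod p, Nz Q ^ 3 =
      ∑ t : Tc r p, ∑ t' : Tc r p, ∑ t'' : Tc r p, ((Rw m (K3 k Γ t t' t'')).ncard : ℝ) := by
    have h2 : ∀ Q : Fin m × OI k Γ r → ZMod p, Nz Q ^ 3 =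
        ∑ t : Tc r p, ∑ t' : Tc r p, ∑ t'' : Tc r p, ix t Q * ix t' Q * ix t'' Q := by
      intro Q
      rw [pow_succ, sq]
      unfold Nz
      rw [Finset.sum_mul_sum, Finset.sum_mul]
      refine sum_congr rfl fun t _ => ?_
      rw [Finset.sum_mul_sum]
    rw [sum_congr rfl fun Q _ => h2 Q, sum_comm]
    refine sum_congr rfl fun t _ => ?_
    rw [sum_comm]
    refine sum_congr rfl fun t' _ => ?_
    rw [sum_comm]
    exact sum_congr rfl fun t'' _ => s3 t t' t''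
  rw [e1]
  set x1 := Ea m r k Γ p / (p : ℝ) ^ m with hx1
  set x2 := Ea m r k Γ p / ((p : ℝ) ^ m) ^ 2 with hx2
  set x3 := Ea m r k Γ p / ((p : ℝ) ^ m) ^ 3 with hx3
  set τ : ℝ := (p : ℝ) ^ m with hτ
  have hτ0 : 0 < τ := by positivity
  refine (sum_le_sum fun t _ => sum_le_sum fun t' _ => sum_le_sum fun t'' _ =>
    W3 (Γ := Γ) (m := m) hpc hk t t' t'').trans ?_
  have hT := card_Tc (p := p) hm
  have c1 : ∑ t : Tc r p, ∑ t' : Tc r p, ∑ t'' : Tc r p, (if t = t' then (1 : ℝ) else 0) = τ ^ 2 := by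
    simp only [sum_const, card_univ, nsmul_eq_mul, ← mul_sum, Finset.sum_ite_eq, mem_univ, if_true,
      hT, mul_one]
    rw [sq]
  have c2 : ∑ t : Tc r p, ∑ t' : Tc r p, ∑ t'' : Tc r p, (if t'' = t then (1 : ℝ) else 0) = τ ^ 2 := by
    simp only [sum_const, card_univ, nsmul_eq_mul, ← mul_sum, Finset.sum_ite_eq', mem_univ, if_true,
      hT, mul_one]
    rw [sq]
  have c3 : ∑ t : Tc r p, ∑ t' : Tc r p, ∑ t'' : Tc r p, (if t'' = t' then (1 : ℝ) else 0) = τ ^ 2 := by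
    simp only [sum_const, card_univ, nsmul_eq_mul, ← mul_sum, Finset.sum_ite_eq', mem_univ, if_true,
      hT, mul_one]
    rw [sq]
  have c4 : ∑ t : Tc r p, ∑ t' : Tc r p, ∑ t'' : Tc r p, (if t = t' ∧ t'' = t then (1 : ℝ) else 0) = τ := by
    have h3 : ∀ t t' : Tc r p, ∑ t'' : Tc r p, (if t = t' ∧ t'' = t then (1 : ℝ) else 0) =
        if t = t' then 1 else 0 := by
      intro t t'
      by_cases h : t = t'
      · simp [h]
      · simp [h]
    simp only [h3, Finset.sum_ite_eq, mem_univ, if_true, sum_const, card_univ, nsmul_eq_mul, mul_one]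
    exact hT
  have c5 := dep_sum (k := k) (p := p) hm h1
  have c6 : ∑ t : Tc r p, ∑ t' : Tc r p, ∑ t'' : Tc r p, x3 = τ ^ 3 * x3 := by
    simp only [sum_const, card_univ, nsmul_eq_mul, hT]
    ring
  have c7 : ∑ t : Tc r p, ∑ t' : Tc r p, ∑ t'' : Tc r p,
      (x3 + ((if Dep k t t' t'' then 1 else 0) + (if t = t' then 1 else 0) + (if t'' = t then 1 else 0) +
        (if t'' = t' then 1 else 0)) * x2 + (if t = t' ∧ t'' = t then 1 else 0) * x1) =
      τ ^ 3 * x3 + ((∑ t : Tc r p, ∑ t' : Tc r p, ∑ t'' : Tc r p,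
        (if Dep k t t' t'' then (1 : ℝ) else 0)) + τ ^ 2 + τ ^ 2 + τ ^ 2) * x2 + τ * x1 := by
    rw [← c6]
    simp only [sum_add_distrib, ← sum_mul, c1, c2, c3, c4]
  rw [c7]
  have hx20 : 0 < x2 := by positivity
  have c8 := mul_le_mul_of_nonneg_right c5 hx20.le
  have c9 : τ ^ 3 * x3 = Ea m r k Γ p := by rw [hx3]; field_simp
  have c10 : τ ^ 2 * x2 = Ea m r k Γ p := by rw [hx2]; field_simp
  have c11 : τ * x1 = Ea m r k Γ p := by rw [hx1]; field_simp
  have c12 : (Fintype.card I : ℝ) * τ ^ 2 * x2 = Fintype.card I * Ea m r k Γ p := by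
    rw [mul_assoc, c10]
  rw [c9, add_mul, add_mul, add_mul, c10, c11]
  rw [c12] at c8
  linarith

end Pool.Agent.K6.H78.GN
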