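import Pool.Agent.K6.H78.GN.Gt

/-!
The asymptotic formula for tensors without common zeros.
-/

set_option autoImplicit false
set_option linter.unusedSectionVars false
set_option linter.unusedVariables false
set_option linter.deprecated false

namespace Pool.Agent.K6.H78.GN

open Finset Matrix Filter Topology

variable {I : Type} [Fintype I] [DecidableEq I] {m : ℕ} {r N k e : I → ℕ}
  {Γ : Subgroup (∀ i, Equiv.Perm (Fin (k i)))} {J : Type} [Fintype J]

/-- the weights of the determinants -/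
theorem exists_w (r k : I → ℕ) (Γ : Subgroup (∀ i, Equiv.Perm (Fin (k i)))) :
    ∃ w : I → ℕ, ∀ i, (r i + 1) * w i = k i * Fintype.card (OI k Γ r) := by
  refine ⟨fun i => ∑ o : OI k Γ r, cnt i (0 : Fin (r i + 1)) (out o), fun i => ?_⟩
  have h2 : ∑ a' : Fin (r i + 1), ∑ o : OI k Γ r, cnt i a' (out o) = k i * Fintype.card (OI k Γ r) := by
    rw [sum_comm]
    have h3 : ∀ o : OI k Γ r, ∑ a', cnt i a' (out o) = k i := by
      intro o
      unfold cnt
      have h4 := Finset.card_eq_sum_card_fiberwise (s := (univ : Finset (Fin (k i))))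
        (t := (univ : Finset (Fin (r i + 1)))) (f := fun s => out o i s) (fun _ _ => mem_univ _)
      rw [card_univ, Fintype.card_fin] at h4
      exact h4.symm
    rw [sum_congr rfl fun o _ => h3 o, sum_const, card_univ, smul_eq_mul, mul_comm]
  have h5 : ∀ a' : Fin (r i + 1), ∑ o : OI k Γ r, cnt i a' (out o) =
      ∑ o : OI k Γ r, cnt i (0 : Fin (r i + 1)) (out o) := fun a' =>
    cnt_sum_eq (Γ := Γ) (A := fun i => Fin (r i + 1)) i a' 0
  rw [Finset.sum_congr rfl fun a' _ => h5 a', sum_const, card_univ, smul_eq_mul,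
    Fintype.card_fin] at h2
  exact h2

/-- **tensors without common zeros** -/
theorem main_Nt (hrN : ∀ i, r i + 1 < N i) (hm : ∑ i, r i < m)
    (hmd : 2 ≤ m * Fintype.card (OI k Γ r))
    (he : ∀ i, (r i + 1) * N i = (r i + 1) * e i + m * (k i * Fintype.card (OI k Γ r)))
    (eT : J ≃ Fin m × (∀ i, Fin (k i) → Fin (N i)))
    (S : Finset Nat.Primes)
    (φ₀ : (∀ i, (Fin (r i + 1) → Fin (N i)) → ℝ) → (J → ℝ) → ℝ) (h₀ : LF m r N k Γ eT φ₀)
    (φ : ∀ p : Nat.Primes, (∀ i, (Fin (r i + 1) → Fin (N i)) → ℚ_[p]) → (J → ℚ_[p]) → ℝ)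
    (h : ∀ p ∈ S, LF m r N k Γ eT (φ p)) :
    ∃ c : ℝ, 0 < c ∧ Tendsto (fun B : ℝ => ({P : PP r N J | P ∈ UU eT (Nt : (Fin m → OI k Γ r → ℚ) → Prop) ∧
      Hp m r N k e Γ S φ₀ φ P ≤ B}.ncard : ℝ) / (B * Real.log B ^ (Fintype.card I))) atTop (𝓝 c) := by
  obtain ⟨w, hw⟩ := exists_w r k Γ
  have hN : ∀ i, N i = m * w i + e i := by
    intro i
    have h1 : (r i + 1) * N i = (r i + 1) * (m * w i + e i) := by
      rw [he i, ← hw i]
      ring
    exact Nat.eq_of_mul_eq_mul_left (Nat.succ_pos _) h1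
  exact main_all ⟨hrN, hw, hN, hmd⟩ nn_Nt (dn_Nt (by omega)) (cq_Nt hw) lx_Nt eT S φ₀ h₀ φ h

theorem tj_apply {R : Type*} [CommRing R] (eT : J ≃ Fin m × (∀ i, Fin (k i) → Fin (N i)))
    (q : Fin m → OI k Γ r → R) (b : ∀ i, Matrix (Fin (r i + 1)) (Fin (N i)) R) (y : J) :
    tj eT q b y = ∑ h : ∀ i, Fin (k i) → Fin (r i + 1),
      q (eT y).1 (mk h) * ∏ i, ∏ s, b i (h i s) ((eT y).2 i s) := by
  show (ex q * tp k b) (eT y).1 (eT y).2 = _
  rw [Matrix.mul_apply]
  rfl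

end Pool.Agent.K6.H78.GN
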