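import Pool.Agent.K6.H78.GN.Ge

/-!
The density of the coordinates with common zeros, in the boundary case.
-/

set_option autoImplicit false
set_option linter.unusedSectionVars false
set_option linter.unusedVariables false
set_option linter.deprecated false

namespace Pool.Agent.K6.H78.GN

open Finset Matrix

/-! ### the pointwise inequality -/

theorem pw_ineq (a : ℝ) (ha0 : 0 < a) (ha : a ≤ 1 / 2) (n : ℕ) :
    (if n = 0 then (0 : ℝ) else 1) ≤
      (1 + a / 2 + a ^ 2 / 3) * n - (a / 2 + a ^ 2 / 2) * n ^ 2 + a ^ 2 / 6 * n ^ 3 := by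
  rcases n with _ | n
  · simp
  · rw [if_neg (Nat.succ_ne_zero n)]
    push_cast
    have hn : (0 : ℝ) ≤ n := Nat.cast_nonneg n
    have h1 : (1 + a / 2 + a ^ 2 / 3) * ((n : ℝ) + 1) - (a / 2 + a ^ 2 / 2) * ((n : ℝ) + 1) ^ 2 +
        a ^ 2 / 6 * ((n : ℝ) + 1) ^ 3 - 1 =
        n * (1 - a * (n + 1) / 2 + a ^ 2 * (n + 1) * (n - 1) / 6) := by ring
    have h2 : 0 ≤ 1 - a * ((n : ℝ) + 1) / 2 + a ^ 2 * (n + 1) * (n - 1) / 6 := by
      have h3 : 0 ≤ (a * n - 3 / 2) ^ 2 := sq_nonneg _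
      have h4 : 1 - a * ((n : ℝ) + 1) / 2 + a ^ 2 * (n + 1) * (n - 1) / 6 =
          (a * n - 3 / 2) ^ 2 / 6 + (5 / 8 - a / 2 - a ^ 2 / 6) := by ring
      rw [h4]
      have h5 : a ^ 2 ≤ 1 / 4 := by nlinarith
      linarith
    have h5 := mul_nonneg hn h2
    linarith

variable {I : Type} [Fintype I] [DecidableEq I] {m : ℕ} {r k : I → ℕ}
  {Γ : Subgroup (∀ i, Equiv.Perm (Fin (k i)))} {p : ℕ} [hp : Fact p.Prime]

/-- a natural number -/
theorem Nz_nat (Q : Fin m × OI k Γ r → ZMod p) :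
    ∃ n : ℕ, Nz Q = n ∧ (n = 0 → ¬ ∃ t, zt t Q) := by
  classical
  refine ⟨(univ.filter fun t : Tc r p => zt t Q).card, ?_, ?_⟩
  · unfold Nz ix
    rw [Finset.sum_boole]
  · rintro h ⟨t, ht⟩
    rw [Finset.card_eq_zero] at h
    have : t ∈ univ.filter fun t : Tc r p => zt t Q := mem_filter.2 ⟨mem_univ _, ht⟩
    rw [h] at this
    simp at this

/-- the residues with a zero in the cell -/
theorem cell_card (hpc : Fintype.card (∀ i, Fin (k i) → Fin (r i + 1)) < p) (hm : ∑ i, r i = m)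
    (hm1 : 1 ≤ m) (hk : ∀ i, 1 ≤ r i → 1 ≤ k i) (h1 : ∀ i, k i = 1 → r i + 1 ≤ m) :
    (({Q : Fin m × OI k Γ r → ZMod p | ∃ t, zt t Q}).ncard : ℝ) ≤
      Ea m r k Γ p * (1 - 1 / (3 * (Fintype.card I + 1)) + 1 / p) := by
  classical
  have hp0 : (0 : ℝ) < p := by exact_mod_cast hp.out.pos
  have hp1 : (1 : ℝ) ≤ p := by exact_mod_cast hp.out.one_lt.le
  have hI : 1 ≤ Fintype.card I := by
    by_contra h
    have h2 : Fintype.card I = 0 := by omega
    rw [Fintype.card_eq_zero_iff] at h2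
    rw [← hm, Finset.univ_eq_empty, Finset.sum_empty] at hm1
    omega
  have hIr : (1 : ℝ) ≤ Fintype.card I := by exact_mod_cast hI
  set a : ℝ := 1 / ((Fintype.card I : ℝ) + 1) with hadef
  have ha0 : 0 < a := by positivity
  have ha : a ≤ 1 / 2 := by
    rw [hadef]
    exact one_div_le_one_div_of_le (by norm_num) (by linarith)
  have haI : a * (Fintype.card I + 1) = 1 := by rw [hadef]; field_simp
  set E := Ea m r k Γ p with hEdef
  have hE : 0 < E := Ea_pos
  have b1 := m1 (Γ := Γ) hpc hm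
  have b2 := m2 (Γ := Γ) hpc hm
  have b3 := m3 (Γ := Γ) hpc hm hk h1
  rw [← hEdef] at b1 b2 b3
  rw [← sum_ind (fun Q : Fin m × OI k Γ r → ZMod p => ∃ t, zt t Q)
    {Q : Fin m × OI k Γ r → ZMod p | ∃ t, zt t Q} fun Q => Iff.rfl]
  have h2 : ∀ Q : Fin m × OI k Γ r → ZMod p, (if ∃ t, zt t Q then (1 : ℝ) else 0) ≤
      (1 + a / 2 + a ^ 2 / 3) * Nz Q - (a / 2 + a ^ 2 / 2) * Nz Q ^ 2 + a ^ 2 / 6 * Nz Q ^ 3 := by
    intro Q
    obtain ⟨n, hn, hn0⟩ := Nz_nat Q
    rw [hn]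
    refine le_trans ?_ (pw_ineq a ha0 ha n)
    by_cases h : n = 0
    · rw [if_neg (hn0 h), if_pos h]
    · rw [if_neg h]
      split_ifs
      · exact le_refl _
      · exact zero_le_one
  refine (sum_le_sum fun Q _ => h2 Q).trans ?_
  rw [sum_add_distrib, sum_sub_distrib, ← mul_sum, ← mul_sum, ← mul_sum, b1]
  have hτ : 1 / (p : ℝ) ^ m ≤ 1 / p := by
    apply one_div_le_one_div_of_le hp0
    calc (p : ℝ) = p ^ 1 := (pow_one _).symm
      _ ≤ p ^ m := pow_le_pow_right₀ hp1 hm1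
  have hτ0 : 0 ≤ 1 / (p : ℝ) ^ m := by positivity
  set τ := 1 / (p : ℝ) ^ m with hτdef
  have c2 := mul_le_mul_of_nonneg_left b2 (by positivity : 0 ≤ a / 2 + a ^ 2 / 2)
  have c3 := mul_le_mul_of_nonneg_left b3 (by positivity : 0 ≤ a ^ 2 / 6)
  have c4 : a ^ 2 * (Fintype.card I + 1) = a := by rw [sq, mul_assoc, haI, mul_one]
  have c5 : 1 / (3 * ((Fintype.card I : ℝ) + 1)) = a / 3 := by rw [hadef]; field_simp
  rw [c5]
  have c6 : (1 + a / 2 + a ^ 2 / 3) * E - (a / 2 + a ^ 2 / 2) * (E * (2 - τ)) +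
      a ^ 2 / 6 * (E * (Fintype.card I + 5)) = E * (1 - a / 3 + (a / 2 + a ^ 2 / 2) * τ) := by
    linear_combination (E / 6) * c4
  have c7 : (a / 2 + a ^ 2 / 2) * τ ≤ 1 / p := by
    have h5 : a / 2 + a ^ 2 / 2 ≤ 1 := by nlinarith
    calc (a / 2 + a ^ 2 / 2) * τ ≤ 1 * τ := mul_le_mul_of_nonneg_right h5 hτ0
      _ = τ := one_mul _
      _ ≤ 1 / p := hτ
  calc _ ≤ (1 + a / 2 + a ^ 2 / 3) * E - (a / 2 + a ^ 2 / 2) * (E * (2 - τ)) +
      a ^ 2 / 6 * (E * (Fintype.card I + 5)) := by linarith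
    _ = E * (1 - a / 3 + (a / 2 + a ^ 2 / 2) * τ) := c6
    _ ≤ E * (1 - a / 3 + 1 / p) := mul_le_mul_of_nonneg_left (by linarith) hE.le

/-! ### points outside the cell -/

/-- the normalised points with a vanishing first coordinate -/
def Vz (r : I → ℕ) (p : ℕ) [Fact p.Prime] (i₀ : I) : Set (∀ i, Fin (r i + 1) → ZMod p) :=
  {x | (∀ i, x i ∈ Vn (r i) p) ∧ x i₀ 0 = 0}

theorem V_card : (({x : ∀ i, Fin (r i + 1) → ZMod p | ∀ i, x i ∈ Vn (r i) p}).ncard : ℝ) ≤
    (∏ i, ((r i : ℝ) + 1)) * (p : ℝ) ^ (∑ i, r i) := by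
  classical
  set V : Set (∀ i, Fin (r i + 1) → ZMod p) := Set.pi Set.univ fun i => Vn (r i) p with hV
  have h0 : {x : ∀ i, Fin (r i + 1) → ZMod p | ∀ i, x i ∈ Vn (r i) p} = V := by
    ext x
    rw [hV]
    simp
  have h4 : V.ncard = ∏ i, (Vn (r i) p).ncard := by
    rw [hV, ← Nat.card_coe_set_eq]
    have h5 : Nat.card (Set.pi Set.univ fun i => Vn (r i) p) = Nat.card (∀ i, Vn (r i) p) :=
      Nat.card_congr (Equiv.Set.univPi fun i => Vn (r i) p)
    rw [h5, Nat.card_pi]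
    exact prod_congr rfl fun i _ => Nat.card_coe_set_eq _
  rw [h0, h4]
  push_cast
  rw [← Finset.prod_pow_eq_pow_sum, ← prod_mul_distrib]
  exact Finset.prod_le_prod (fun i _ => Nat.cast_nonneg _) fun i _ => Vn_card (r i)

theorem Vz_card (i₀ : I) : ((Vz r p i₀).ncard : ℝ) * p ≤
    (∏ i, ((r i : ℝ) + 1)) * (p : ℝ) ^ (∑ i, r i) := by
  classical
  refine le_trans ?_ V_card
  have h1 : (Vz r p i₀).ncard * p ≤
      ({x : ∀ i, Fin (r i + 1) → ZMod p | ∀ i, x i ∈ Vn (r i) p}).ncard := by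
    have hinj : Set.InjOn (fun y : (∀ i, Fin (r i + 1) → ZMod p) × ZMod p =>
        Function.update y.1 i₀ (Function.update (y.1 i₀) 0 y.2)) (Vz r p i₀ ×ˢ Set.univ) := by
      rintro ⟨x, c⟩ ⟨⟨_, hx⟩, _⟩ ⟨x', c'⟩ ⟨⟨_, hx'⟩, _⟩ he
      have hx0 : x i₀ 0 = 0 := hx
      have hx0' : x' i₀ 0 = 0 := hx'
      have he' : Function.update x i₀ (Function.update (x i₀) 0 c) =
          Function.update x' i₀ (Function.update (x' i₀) 0 c') := he
      have e1 := congrFun he' i₀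
      rw [Function.update_self, Function.update_self] at e1
      have e2 : c = c' := by
        have := congrFun e1 0
        rwa [Function.update_self, Function.update_self] at this
      have e3 : x = x' := by
        funext i
        by_cases hi : i = i₀
        · subst hi
          funext b
          by_cases hb : b = 0
          · rw [hb, hx0, hx0']
          · have := congrFun e1 b
            rwa [Function.update_of_ne hb, Function.update_of_ne hb] at this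
        · have := congrFun he' i
          rwa [Function.update_of_ne hi, Function.update_of_ne hi] at this
      rw [e2, e3]
    have hmaps : ∀ y ∈ Vz r p i₀ ×ˢ (Set.univ : Set (ZMod p)),
        Function.update y.1 i₀ (Function.update (y.1 i₀) 0 y.2) ∈
        {x : ∀ i, Fin (r i + 1) → ZMod p | ∀ i, x i ∈ Vn (r i) p} := by
      rintro ⟨x, c⟩ ⟨⟨hx1, hx⟩, _⟩ i
      have hx0 : x i₀ 0 = 0 := hx
      by_cases hi : i = i₀
      · subst hi
        obtain ⟨b, hb⟩ := hx1 i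
        have hb' : x i b = 1 := hb
        have hb0 : b ≠ 0 := by
          intro h
          rw [h, hx0] at hb'
          exact zero_ne_one hb'
        refine ⟨b, ?_⟩
        show Function.update x i (Function.update (x i) 0 c) i b = 1
        rw [Function.update_self, Function.update_of_ne hb0]
        exact hb'
      · obtain ⟨b, hb⟩ := hx1 i
        refine ⟨b, ?_⟩
        show Function.update x i₀ (Function.update (x i₀) 0 c) i b = 1
        rw [Function.update_of_ne hi]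
        exact hb
    have h2 := Set.ncard_le_ncard_of_injOn _ hmaps hinj (Set.toFinite _)
    rwa [Set.ncard_prod, Set.ncard_univ, Nat.card_zmod] at h2
  exact_mod_cast h1

/-- the residues with a zero outside the cell -/
def Bo (m : ℕ) (r k : I → ℕ) (Γ : Subgroup (∀ i, Equiv.Perm (Fin (k i)))) (p : ℕ) [Fact p.Prime] :
    Set (Fin m × OI k Γ r → ZMod p) :=
  {q | ∃ i₀, ∃ x ∈ Vz r p i₀, ∀ j, evq (fun j o => q (j, o)) x j = 0}

theorem Bo_card (hm : ∑ i, r i = m) : ((Bo m r k Γ p).ncard : ℝ) ≤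
    Ea m r k Γ p * ((Fintype.card I * ∏ i, ((r i : ℝ) + 1)) / p) := by
  classical
  have hp0 : (0 : ℝ) < p := by exact_mod_cast hp.out.pos
  have hpm : (0 : ℝ) < (p : ℝ) ^ m := by positivity
  have hE : 0 < Ea m r k Γ p := Ea_pos
  have hVf : ∀ i₀, (Vz r p i₀).Finite := fun i₀ => Set.toFinite _
  have hsub : Bo m r k Γ p ⊆ ⋃ i₀ ∈ (univ : Finset I), ⋃ x ∈ (hVf i₀).toFinset,
      {q : Fin m × OI k Γ r → ZMod p | ∀ j, evq (fun j o => q (j, o)) x j = 0} := by
    rintro q ⟨i₀, x, h1, h2⟩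
    rw [Set.mem_iUnion₂]
    refine ⟨i₀, mem_univ _, ?_⟩
    rw [Set.mem_iUnion₂]
    exact ⟨x, (Set.Finite.mem_toFinset (hVf i₀)).2 h1, h2⟩
  have hone : ∀ i₀, ((⋃ x ∈ (hVf i₀).toFinset,
      {q : Fin m × OI k Γ r → ZMod p | ∀ j, evq (fun j o => q (j, o)) x j = 0}).ncard : ℝ) ≤
      Ea m r k Γ p * ((∏ i, ((r i : ℝ) + 1)) / p) := by
    intro i₀
    obtain ⟨_, h2⟩ := MR.ncard_bw (S := ⋃ x ∈ (hVf i₀).toFinset,
      {q : Fin m × OI k Γ r → ZMod p | ∀ j, evq (fun j o => q (j, o)) x j = 0})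
      (subset_refl _) (fun c _ => Set.toFinite _)
      (B := fun _ => Ea m r k Γ p / (p : ℝ) ^ m) (fun x hx => by
        rw [le_div_iff₀ hpm]
        have h3 := (Set.Finite.mem_toFinset (hVf i₀)).1 hx
        exact zero_card x fun i => h3.1 i)
    rw [sum_const, nsmul_eq_mul, ← Set.ncard_eq_toFinset_card _ (hVf i₀)] at h2
    refine h2.trans ?_
    have h3 := Vz_card (r := r) (p := p) i₀
    rw [hm] at h3
    have h4 : ((Vz r p i₀).ncard : ℝ) * (Ea m r k Γ p / (p : ℝ) ^ m) =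
        (((Vz r p i₀).ncard : ℝ) * p) * (Ea m r k Γ p / ((p : ℝ) ^ m * p)) := by
      field_simp
    rw [h4]
    refine (mul_le_mul_of_nonneg_right h3 (by positivity)).trans (le_of_eq ?_)
    field_simp
  obtain ⟨_, h2⟩ := MR.ncard_bw hsub (fun c _ => Set.toFinite _) (fun i₀ _ => hone i₀)
  refine h2.trans (le_of_eq ?_)
  rw [sum_const, card_univ, nsmul_eq_mul]
  ring

/-- **the residues with a common zero** -/
theorem Bd_card' (hpc : Fintype.card (∀ i, Fin (k i) → Fin (r i + 1)) < p) (hm : ∑ i, r i = m)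
    (hm1 : 1 ≤ m) (hk : ∀ i, 1 ≤ r i → 1 ≤ k i) (h1 : ∀ i, k i = 1 → r i + 1 ≤ m) :
    ((Bd m r k Γ p).ncard : ℝ) ≤ Ea m r k Γ p * (1 - 1 / (3 * (Fintype.card I + 1)) +
      (1 + Fintype.card I * ∏ i, ((r i : ℝ) + 1)) / p) := by
  classical
  have hsub : Bd m r k Γ p ⊆ {Q : Fin m × OI k Γ r → ZMod p | ∃ t, zt t Q} ∪ Bo m r k Γ p := by
    rintro q ⟨x, hx, h0⟩
    by_cases hz : ∃ i, x i 0 = 0
    · obtain ⟨i₀, hi⟩ := hz
      exact Or.inr ⟨i₀, x, ⟨hx, hi⟩, h0⟩
    · push Not at hz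
      left
      refine ⟨fun i a => (x i 0)⁻¹ * x i a.succ, fun j => ?_⟩
      have e1 : xc (fun i (a : Fin (r i)) => (x i 0)⁻¹ * x i a.succ) = fun i => (x i 0)⁻¹ • x i := by
        funext i b
        refine Fin.cases ?_ (fun b' => ?_) b
        · show (1 : ZMod p) = (x i 0)⁻¹ * x i 0
          rw [inv_mul_cancel₀ (hz i)]
        · rfl
      rw [e1]
      have e2 := evq_smulx (fun i => (x i 0)⁻¹) (fun j o => q (j, o)) x j
      rw [h0 j, mul_zero] at e2
      exact e2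
  have h2 : ((Bd m r k Γ p).ncard : ℝ) ≤
      (({Q : Fin m × OI k Γ r → ZMod p | ∃ t, zt t Q}).ncard : ℝ) + ((Bo m r k Γ p).ncard : ℝ) := by
    have h3 := (Set.ncard_le_ncard hsub (Set.toFinite _)).trans (Set.ncard_union_le _ _)
    exact_mod_cast h3
  have h3 := cell_card (Γ := Γ) hpc hm hm1 hk h1
  have h4 := Bo_card (k := k) (Γ := Γ) (p := p) hm
  refine h2.trans ((add_le_add h3 h4).trans (le_of_eq ?_))
  ring

/-! ### several primes -/

theorem crt_level {J : Type} [Fintype J] (P : (J → ℤ) → Prop) (δ : ℝ) (hδ : 0 ≤ 1 - δ) (P₀ : ℕ)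
    (H : ∀ p : ℕ, p.Prime → P₀ < p → ∃ B : Set (J → ZMod p),
      (B.ncard : ℝ) ≤ (1 - δ) * (p : ℝ) ^ Fintype.card J ∧ ∀ q, P q → (fun y => (q y : ZMod p)) ∈ B)
    (L : ℕ) : ∃ M : ℕ, 0 < M ∧ ∃ B : Set (J → ZMod M), B.Finite ∧
      (B.ncard : ℝ) ≤ (1 - δ) ^ L * (M : ℝ) ^ Fintype.card J ∧
      ∀ q, P q → (fun y => (q y : ZMod M)) ∈ B := by
  classical
  induction L with
  | zero =>
      refine ⟨1, one_pos, Set.univ, Set.toFinite _, ?_, fun q _ => Set.mem_univ _⟩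
      rw [Set.ncard_univ, Nat.card_unique]
      simp
  | succ L ih =>
      obtain ⟨M, hM, B, hBf, hBc, hB⟩ := ih
      obtain ⟨p, hpn, hp⟩ := Nat.exists_infinite_primes (P₀ + M + 1)
      haveI : Fact p.Prime := ⟨hp⟩
      haveI : NeZero M := ⟨hM.ne'⟩
      have hco : M.Coprime p := (Nat.coprime_comm.1 ((Nat.Prime.coprime_iff_not_dvd hp).2 fun h => by
        have := Nat.le_of_dvd hM h
        omega))
      obtain ⟨B', hB'c, hB'⟩ := H p hp (by omega)
      set φ := ZMod.chineseRemainder hco with hφ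
      haveI : NeZero (M * p) := ⟨(Nat.mul_pos hM hp.pos).ne'⟩
      refine ⟨M * p, Nat.mul_pos hM hp.pos,
        {Q | (fun y => (φ (Q y)).1) ∈ B ∧ (fun y => (φ (Q y)).2) ∈ B'}, Set.toFinite _, ?_, ?_⟩
      · have h1 : ({Q : J → ZMod (M * p) | (fun y => (φ (Q y)).1) ∈ B ∧ (fun y => (φ (Q y)).2) ∈ B'}).ncard ≤
            (B ×ˢ B').ncard := by
          refine Set.ncard_le_ncard_of_injOn (fun Q => ((fun y => (φ (Q y)).1), (fun y => (φ (Q y)).2))) ?_ ?_
            (Set.toFinite _)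
          · rintro Q ⟨g1, g2⟩
            exact ⟨g1, g2⟩
          · intro Q _ Q' _ he
            funext y
            apply φ.injective
            exact Prod.ext (congrFun (congrArg Prod.fst he) y) (congrFun (congrArg Prod.snd he) y)
        rw [Set.ncard_prod] at h1
        have h2 : (({Q : J → ZMod (M * p) | (fun y => (φ (Q y)).1) ∈ B ∧
            (fun y => (φ (Q y)).2) ∈ B'}).ncard : ℝ) ≤ (B.ncard : ℝ) * B'.ncard := by
          exact_mod_cast h1
        refine h2.trans ?_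
        calc (B.ncard : ℝ) * B'.ncard ≤ ((1 - δ) ^ L * (M : ℝ) ^ Fintype.card J) *
              ((1 - δ) * (p : ℝ) ^ Fintype.card J) :=
              mul_le_mul hBc hB'c (Nat.cast_nonneg _) (by positivity)
          _ = _ := by push_cast; rw [mul_pow]; ring
      · intro q hq
        have e1 : ∀ y, φ ((q y : ℤ) : ZMod (M * p)) = (((q y : ℤ) : ZMod M), ((q y : ℤ) : ZMod p)) := by
          intro y
          rw [map_intCast]
          rfl
        constructor
        · have : (fun y => (φ ((q y : ℤ) : ZMod (M * p))).1) = fun y => ((q y : ℤ) : ZMod M) := by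
            funext y; rw [e1]
          show (fun y => (φ ((q y : ℤ) : ZMod (M * p))).1) ∈ B
          rw [this]
          exact hB q hq
        · have : (fun y => (φ ((q y : ℤ) : ZMod (M * p))).2) = fun y => ((q y : ℤ) : ZMod p) := by
            funext y; rw [e1]
          show (fun y => (φ ((q y : ℤ) : ZMod (M * p))).2) ∈ B'
          rw [this]
          exact hB' q hq

/-- **the density of the coordinates with common zeros**, boundary case -/
theorem dn_Nt' (hm : ∑ i, r i = m) (hm1 : 1 ≤ m) (hk : ∀ i, 1 ≤ r i → 1 ≤ k i)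
    (h1 : ∀ i, k i = 1 → r i + 1 ≤ m) : Dn (Nt : (Fin m → OI k Γ r → ℚ) → Prop) := by
  classical
  intro ε hε
  set n := m * Fintype.card (OI k Γ r) with hn
  set R : ℝ := 1 + Fintype.card I * ∏ i, ((r i : ℝ) + 1) with hR
  have hR0 : 0 < R := by
    have : 0 ≤ ∏ i, ((r i : ℝ) + 1) := prod_nonneg fun i _ => by positivity
    positivity
  set δ : ℝ := 1 / (6 * ((Fintype.card I : ℝ) + 1)) with hδ
  have hδ0 : 0 < δ := by positivity
  have hδ1 : δ ≤ 1 / 6 := by
    rw [hδ]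
    apply one_div_le_one_div_of_le (by norm_num)
    have : (0 : ℝ) ≤ Fintype.card I := Nat.cast_nonneg _
    linarith
  obtain ⟨n₀, hn₀⟩ := exists_nat_gt (R / δ)
  have hcard : Fintype.card (Fin m × OI k Γ r) = n := by
    rw [Fintype.card_prod, Fintype.card_fin]
  have H : ∀ p : ℕ, p.Prime → max n₀ (Fintype.card (∀ i, Fin (k i) → Fin (r i + 1))) < p →
      ∃ B : Set (Fin m × OI k Γ r → ZMod p),
      (B.ncard : ℝ) ≤ (1 - δ) * (p : ℝ) ^ Fintype.card (Fin m × OI k Γ r) ∧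
      ∀ q : Fin m × OI k Γ r → ℤ, (¬ Nt (fun j o => (q (j, o) : ℚ))) →
        (fun y => (q y : ZMod p)) ∈ B := by
    intro p hp hpn
    haveI : Fact p.Prime := ⟨hp⟩
    have hp0 : (0 : ℝ) < p := by exact_mod_cast hp.pos
    refine ⟨Bd m r k Γ p, ?_, fun q hq => red_zero (q := fun j o => q (j, o)) hq⟩
    have h2 := Bd_card' (Γ := Γ) (lt_of_le_of_lt (le_max_right _ _) hpn) hm hm1 hk h1
    refine h2.trans ?_
    rw [hcard]
    have h3 : R / p ≤ δ := by
      have h4 : (n₀ : ℝ) ≤ p := by exact_mod_cast (lt_of_le_of_lt (le_max_left _ _) hpn).le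
      have h5 : R / δ ≤ p := by linarith
      rw [div_le_iff₀ hδ0] at h5
      rw [div_le_iff₀ hp0]
      linarith
    have h4 : 1 / (3 * ((Fintype.card I : ℝ) + 1)) = 2 * δ := by rw [hδ]; field_simp; norm_num
    have h5 : 1 - 1 / (3 * ((Fintype.card I : ℝ) + 1)) + R / p ≤ 1 - δ := by rw [h4]; linarith
    calc Ea m r k Γ p * (1 - 1 / (3 * (Fintype.card I + 1)) + R / p) ≤ Ea m r k Γ p * (1 - δ) :=
          mul_le_mul_of_nonneg_left h5 Ea_pos.le
      _ = _ := by rw [mul_comm]; rfl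
  obtain ⟨L, hL⟩ := exists_pow_lt_of_lt_one (by positivity : 0 < ε / 3 ^ n) (by linarith : 1 - δ < 1)
  obtain ⟨M, hM, B, hBf, hBc, hB⟩ := crt_level (fun q : Fin m × OI k Γ r → ℤ =>
    ¬ Nt (fun j o => (q (j, o) : ℚ))) δ (by linarith) _ H L
  have hM0 : (0 : ℝ) < M := by exact_mod_cast hM
  refine ⟨M, hM0, fun Z hZ => ?_⟩
  have hZ0 : 0 < Z := hM0.trans_le hZ
  obtain ⟨h2, h3⟩ := box_res (Fin m × OI k Γ r) M hM Z hZ B hBf
  rw [hcard] at h3 hBc
  have h4 : ({q : Fin m → OI k Γ r → ℤ | (∀ j o, |(q j o : ℝ)| ≤ Z) ∧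
      ¬ Nt (fun j o => (q j o : ℚ))}.ncard : ℝ) ≤
      {q : Fin m × OI k Γ r → ℤ | (∀ j, |(q j : ℝ)| ≤ Z) ∧
        (fun j => (q j : ZMod M)) ∈ B}.ncard := by
    have h5 : {q : Fin m → OI k Γ r → ℤ | (∀ j o, |(q j o : ℝ)| ≤ Z) ∧
      ¬ Nt (fun j o => (q j o : ℚ))}.ncard ≤
      {q : Fin m × OI k Γ r → ℤ | (∀ j, |(q j : ℝ)| ≤ Z) ∧
        (fun j => (q j : ZMod M)) ∈ B}.ncard := by
      refine Set.ncard_le_ncard_of_injOn (fun q y => q y.1 y.2) ?_ ?_ h2
      · rintro q ⟨g1, g2⟩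
        exact ⟨fun y => g1 y.1 y.2, hB _ g2⟩
      · intro q _ q' _ he
        funext j o
        exact congrFun he (j, o)
    exact_mod_cast h5
  refine h4.trans (h3.trans ?_)
  have h6 : (0 : ℝ) < 3 ^ n := by positivity
  rw [lt_div_iff₀ h6] at hL
  calc (B.ncard : ℝ) * (3 * Z / M) ^ n ≤ ((1 - δ) ^ L * (M : ℝ) ^ n) * (3 * Z / M) ^ n :=
        mul_le_mul_of_nonneg_right hBc (by positivity)
    _ = ((1 - δ) ^ L * 3 ^ n) * Z ^ n := by
        rw [div_pow, mul_pow]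
        field_simp
    _ ≤ ε * Z ^ n := mul_le_mul_of_nonneg_right hL.le (by positivity)

end Pool.Agent.K6.H78.GN
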