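import Pool.Agent.K6.H78.GN.Gg

/-!
The asymptotic formula in the boundary case.
-/

set_option autoImplicit false
set_option linter.unusedSectionVars false
set_option linter.unusedVariables false
set_option linter.deprecated false

namespace Pool.Agent.K6.H78.GN

open Finset Matrix Filter Topology

variable {I : Type} [Fintype I] [DecidableEq I] {m : ℕ} {r N k e : I → ℕ}
  {Γ : Subgroup (∀ i, Equiv.Perm (Fin (k i)))} {J : Type} [Fintype J] [DecidableEq J]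

/-- there are at least two orbits -/
theorem two_orbits (hm : ∑ i, r i = m) (hm1 : 1 ≤ m) (hk : ∀ i, 1 ≤ r i → 1 ≤ k i) :
    2 ≤ m * Fintype.card (OI k Γ r) := by
  have h1 : ∃ i, 1 ≤ r i := by
    by_contra h
    push Not at h
    have h2 : ∑ i, r i = 0 := Finset.sum_eq_zero fun i _ => by have := h i; omega
    omega
  obtain ⟨i, hi⟩ := h1
  have h2 : (mk (fun i _ => (0 : Fin (r i + 1))) : OI k Γ r) ≠ mk fun i _ => Fin.last (r i) := by
    intro h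
    obtain ⟨σ, _, e⟩ := mk_eq.1 h
    have h3 := e i ⟨0, hk i hi⟩
    have h4 := congrArg Fin.val h3
    simp at h4
    omega
  have h3 : 2 ≤ Fintype.card (OI k Γ r) := Fintype.one_lt_card_iff.2 ⟨_, _, h2⟩
  nlinarith

/-- **tensors without common zeros**, boundary case -/
theorem main_Nt' (hrN : ∀ i, r i + 1 < N i) (hm : ∑ i, r i = m) (hm1 : 1 ≤ m)
    (hk : ∀ i, 1 ≤ r i → 1 ≤ k i) (h1 : ∀ i, k i = 1 → r i + 1 ≤ m)
    (he : ∀ i, (r i + 1) * N i = (r i + 1) * e i + m * (k i * Fintype.card (OI k Γ r)))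
    (eT : J ≃ Fin m × (∀ i, Fin (k i) → Fin (N i)))
    (S : Finset Nat.Primes)
    (φ₀ : (∀ i, (Fin (r i + 1) → Fin (N i)) → ℝ) → (J → ℝ) → ℝ) (h₀ : LF m r N k Γ eT φ₀)
    (φ : ∀ p : Nat.Primes, (∀ i, (Fin (r i + 1) → Fin (N i)) → ℚ_[p]) → (J → ℚ_[p]) → ℝ)
    (h : ∀ p ∈ S, LF m r N k Γ eT (φ p)) :
    ∃ c : ℝ, 0 < c ∧ Tendsto (fun B : ℝ => ({P : PP r N J | P ∈ UU eT (Nt : (Fin m → OI k Γ r → ℚ) → Prop) ∧
      Hp m r N k e Γ S φ₀ φ P ≤ B}.ncard : ℝ) / (B * Real.log B ^ (Fintype.card I))) atTop (𝓝 c) := by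
  obtain ⟨w, hw⟩ := exists_w r k Γ
  have hN : ∀ i, N i = m * w i + e i := by
    intro i
    have h1 : (r i + 1) * N i = (r i + 1) * (m * w i + e i) := by
      rw [he i, ← hw i]
      ring
    exact Nat.eq_of_mul_eq_mul_left (Nat.succ_pos _) h1
  exact main_all ⟨hrN, hw, hN, two_orbits hm hm1 hk⟩ nn_Nt (dn_Nt' hm hm1 hk h1) (cq_Nt hw) lx_Nt eT S
    φ₀ h₀ φ h

end Pool.Agent.K6.H78.GN
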