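import Pool.Agent.K6.H78.GN.Bx
import Pool.Agent.K6.H78.GN.Fin

/-!
Tensors without common zeros.
-/

set_option autoImplicit false
set_option linter.unusedSectionVars false
set_option linter.unusedVariables false
set_option linter.deprecated false

namespace Pool.Agent.K6.H78.GN

open Finset Matrix
open Pool.Agent.K6.H78.MR (card_int mem_int)
open Pool.Agent.K6.H78.MF (Pm exists_pm)

variable {I : Type} [Fintype I] [DecidableEq I] {m : ℕ} {r N k w e : I → ℕ}
  {Γ : Subgroup (∀ i, Equiv.Perm (Fin (k i)))}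

/-- the values of the tensors -/
def evq {R : Type*} [CommRing R] (q : Fin m → OI k Γ r → R) (x : ∀ i, Fin (r i + 1) → R)
    (j : Fin m) : R :=
  ∑ h : ∀ i, Fin (k i) → Fin (r i + 1), q j (mk h) * ∏ i, ∏ s, x i (h i s)

theorem evq_eq {R : Type*} [CommRing R] (q : Fin m → OI k Γ r → R) (x : ∀ i, Fin (r i + 1) → R)
    (j : Fin m) : evq q x j =
      tm q (fun i => (Matrix.of fun a _ => x i a : Matrix (Fin (r i + 1)) Unit R)) (j, fun _ _ => ()) := by
  show _ = (ex q * tp k (fun i => (Matrix.of fun a _ => x i a : Matrix (Fin (r i + 1)) Unit R)) :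
    Matrix (Fin m) (∀ i, Fin (k i) → Unit) R) j (fun _ _ => ())
  rw [Matrix.mul_apply]
  rfl

theorem evq_ro {R : Type*} [CommRing R] (q : Fin m → OI k Γ r → R)
    (g : ∀ i, Matrix (Fin (r i + 1)) (Fin (r i + 1)) R) (x : ∀ i, Fin (r i + 1) → R)
    (j : Fin m) : evq (ro q g) x j = evq q (fun i => g i *ᵥ x i) j := by
  rw [evq_eq, evq_eq, tm_ro]
  congr 1

theorem evq_smul {R : Type*} [CommRing R] (c : R) (q : Fin m → OI k Γ r → R)
    (x : ∀ i, Fin (r i + 1) → R) (j : Fin m) : evq (c • q) x j = c * evq q x j := by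
  unfold evq
  rw [mul_sum]
  refine sum_congr rfl fun h _ => ?_
  show c * q j (mk h) * _ = _
  rw [mul_assoc]

theorem evq_smulx {R : Type*} [CommRing R] (c : I → R) (q : Fin m → OI k Γ r → R)
    (x : ∀ i, Fin (r i + 1) → R) (j : Fin m) :
    evq q (fun i => c i • x i) j = (∏ i, c i ^ k i) * evq q x j := by
  unfold evq
  rw [mul_sum]
  refine sum_congr rfl fun h _ => ?_
  have h1 : ∏ i, ∏ s, (c i • x i) (h i s) = (∏ i, c i ^ k i) * ∏ i, ∏ s, x i (h i s) := by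
    rw [← prod_mul_distrib]
    refine prod_congr rfl fun i _ => ?_
    simp only [Pi.smul_apply, smul_eq_mul]
    rw [prod_mul_distrib, prod_const, card_univ, Fintype.card_fin]
  rw [h1]
  ring

theorem evq_map {R S : Type*} [CommRing R] [CommRing S] (φ : R →+* S) (q : Fin m → OI k Γ r → R)
    (x : ∀ i, Fin (r i + 1) → R) (j : Fin m) :
    evq (fun j o => φ (q j o)) (fun i a => φ (x i a)) j = φ (evq q x j) := by
  unfold evq
  rw [map_sum]
  refine sum_congr rfl fun h _ => ?_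
  rw [map_mul, map_prod]
  congr 1
  refine prod_congr rfl fun i _ => ?_
  rw [map_prod]

theorem evq_single {R : Type*} [CommRing R] (q : Fin m → OI k Γ r → R) (c : ∀ i, Fin (r i + 1))
    (j : Fin m) : evq q (fun i => Pi.single (c i) 1) j = q j (mk fun i _ => c i) := by
  unfold evq
  rw [Finset.sum_eq_single fun i _ => c i]
  · have h1 : ∏ i, ∏ _s : Fin (k i), (Pi.single (c i) (1 : R) : Fin (r i + 1) → R) (c i) = 1 :=
      prod_eq_one fun i _ => prod_eq_one fun s _ => Pi.single_eq_same _ _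
    rw [h1, mul_one]
  · intro h _ hne
    have h1 : ∃ i s, h i s ≠ c i := by
      by_contra hcon
      push Not at hcon
      exact hne (funext fun i => funext fun s => hcon i s)
    obtain ⟨i, s, h2⟩ := h1
    have h3 : ∏ i, ∏ s, (Pi.single (c i) (1 : R) : Fin (r i + 1) → R) (h i s) = 0 :=
      prod_eq_zero (mem_univ i) (prod_eq_zero (mem_univ s) (Pi.single_eq_of_ne h2 _))
    rw [h3, mul_zero]
  · intro h
    exact absurd (mem_univ _) h

/-- the tensors have no common zero -/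
def Nt (q : Fin m → OI k Γ r → ℚ) : Prop :=
  ∀ x : ∀ i, Fin (r i + 1) → ℚ, (∀ i, x i ≠ 0) → ∃ j, evq q x j ≠ 0

theorem nn_Nt : NN (Nt : (Fin m → OI k Γ r → ℚ) → Prop) := by
  refine ⟨?_, ?_, ?_⟩
  · intro q c hc h x hx
    obtain ⟨j, hj⟩ := h x hx
    refine ⟨j, ?_⟩
    rw [evq_smul]
    exact mul_ne_zero hc hj
  · intro q g hg h x hx
    obtain ⟨j, hj⟩ := h (fun i => g i *ᵥ x i) (by
      intro i h0
      exact hx i (Matrix.eq_zero_of_mulVec_eq_zero (hg i) h0))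
    refine ⟨j, ?_⟩
    rw [evq_ro]
    exact hj
  · intro q h h0
    obtain ⟨j, hj⟩ := h (fun i _ => 1) (by
      intro i h1
      exact one_ne_zero (congrFun h1 0))
    apply hj
    rw [h0]
    unfold evq
    refine sum_eq_zero fun h _ => ?_
    show (0 : ℚ) * _ = 0
    rw [zero_mul]

/-- the top coefficient -/
theorem nz_top {q : Fin m → OI k Γ r → ℤ} (h : NZ Nt q) :
    ∃ j, q j (mk fun i _ => Fin.last (r i)) ≠ 0 := by
  obtain ⟨j, hj⟩ := h (fun i => Pi.single (Fin.last (r i)) 1) (by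
    intro i h0
    have h1 := congrFun h0 (Fin.last (r i))
    rw [Pi.single_eq_same] at h1
    exact one_ne_zero h1)
  rw [evq_single] at hj
  exact ⟨j, by exact_mod_cast hj⟩

theorem mo_top (A : ∀ i, Fin (r i + 1) → ℝ) :
    mo A (mk fun i _ => Fin.last (r i) : OI k Γ r) = ∏ i, A i (Fin.last (r i)) ^ k i := by
  rw [mo_mk]
  unfold mon
  refine prod_congr rfl fun i _ => ?_
  rw [prod_const, card_univ, Fintype.card_fin]

theorem mo_le_top {A : ∀ i, Fin (r i + 1) → ℝ} (hA : ∀ i x, 0 < A i x) {c : I → ℝ}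
    (h : ∀ i x, A i x ≤ c i * A i (Fin.last (r i))) (o : OI k Γ r) :
    mo A o ≤ (∏ i, c i ^ k i) * ∏ i, A i (Fin.last (r i)) ^ k i := by
  have h1 : mo A o ≤ mon (fun i (_ : Fin (r i + 1)) => c i * A i (Fin.last (r i))) (out o) :=
    mon_le (fun i x => (hA i x).le) h _
  refine h1.trans (le_of_eq ?_)
  rw [mon_const, ← prod_mul_distrib]
  exact prod_congr rfl fun i _ => mul_pow _ _ _

theorem top_le {q : Fin m → OI k Γ r → ℤ} (h : NZ Nt q) {A : ∀ i, Fin (r i + 1) → ℝ}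
    (hA : ∀ i x, 0 < A i x) {X : ℝ} (hX : ∀ j o, |(q j o : ℝ)| * mo A o ≤ X) :
    ∏ i, A i (Fin.last (r i)) ^ k i ≤ X := by
  obtain ⟨j, hj⟩ := nz_top h
  have h1 := hX j (mk fun i _ => Fin.last (r i))
  rw [mo_top] at h1
  have h2 : (1 : ℝ) ≤ |(q j (mk fun i _ => Fin.last (r i)) : ℝ)| := by
    exact_mod_cast Int.one_le_abs hj
  have h3 : 0 < ∏ i, A i (Fin.last (r i)) ^ k i := prod_pos fun i _ => pow_pos (hA _ _) _
  calc _ = 1 * ∏ i, A i (Fin.last (r i)) ^ k i := (one_mul _).symm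
    _ ≤ |(q j (mk fun i _ => Fin.last (r i)) : ℝ)| * ∏ i, A i (Fin.last (r i)) ^ k i :=
        mul_le_mul_of_nonneg_right h2 h3.le
    _ ≤ X := h1

theorem lx_Nt : LX m r k Γ Nt := by
  refine ⟨∏ i, ((2 : ℝ) ^ r i) ^ k i, prod_pos fun i _ => by positivity, ?_⟩
  intro q A Y X hq hA hmono hY hYA hX
  have h1 := top_le hq hA hX
  have h2 : ∀ i, Y i ≤ 2 ^ (r i) * A i (Fin.last (r i)) := by
    intro i
    have h3 : Y i ^ (r i + 1) ≤ (2 ^ (r i) * A i (Fin.last (r i))) ^ (r i + 1) := by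
      refine (hYA i).trans ?_
      calc ∏ x, A i x ≤ ∏ _x : Fin (r i + 1), (2 ^ (r i) * A i (Fin.last (r i))) :=
            Finset.prod_le_prod (fun x _ => (hA i x).le) fun x _ => hmono i x _ (Fin.le_last x)
        _ = _ := by rw [prod_const, card_univ, Fintype.card_fin]
    have := hA i (Fin.last (r i))
    exact le_of_pow_le_pow_left₀ (by omega) (by positivity) h3
  calc ∏ i, Y i ^ k i ≤ ∏ i, (2 ^ (r i) * A i (Fin.last (r i))) ^ k i :=
        Finset.prod_le_prod (fun i _ => (pow_pos (hY i) _).le) fun i _ =>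
          pow_le_pow_left₀ (hY i).le (h2 i) _
    _ = (∏ i, ((2 : ℝ) ^ r i) ^ k i) * ∏ i, A i (Fin.last (r i)) ^ k i := by
        rw [← prod_mul_distrib]
        exact prod_congr rfl fun i _ => mul_pow _ _ _
    _ ≤ _ := mul_le_mul_of_nonneg_left h1 (prod_nonneg fun i _ => by positivity)

theorem Rx_low {r : ℕ} (a : Fin (r + 1) → ℤ) (ha : ∀ x y, x ≤ y → a x ≤ r + a y) :
    -(((r : ℤ) + 1) * (r + 1) * r) ≤ Rx a := by
  unfold Rx
  have h1 : ∀ i j : Fin (r + 1), -(r : ℤ) ≤ if j < i then a i - a j else 0 := by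
    intro i j
    split_ifs with h
    · have := ha j i h.le
      linarith
    · have : (0 : ℤ) ≤ r := Int.natCast_nonneg r
      linarith
  have h2 : ∑ _i : Fin (r + 1), ∑ _j : Fin (r + 1), (-(r : ℤ)) ≤
      ∑ i, ∑ j, if j < i then a i - a j else 0 :=
    sum_le_sum fun i _ => sum_le_sum fun j _ => h1 i j
  rw [sum_const, sum_const, card_univ, Fintype.card_fin, nsmul_eq_mul, nsmul_eq_mul] at h2
  push_cast at h2
  linarith

/-- the constant for the skewness -/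
noncomputable def Cs (r : ℕ) : ℝ := th ^ (-(6 * (((r : ℤ) + 1) * (r + 1) * r)))

theorem Cs_pos (r : ℕ) : 0 < Cs r := by unfold Cs; have := th_pos; positivity

theorem Cs_le {r : ℕ} (a : Fin (r + 1) → ℤ) (ha : ∀ x y, x ≤ y → a x ≤ r + a y) :
    1 ≤ Cs r * th ^ (-(6 * Rx a)) := by
  unfold Cs
  rw [← zpow_add₀ th_ne]
  have h1 := Rx_low a ha
  have h2 : th ^ (0 : ℤ) ≤ th ^ (-(6 * (((r : ℤ) + 1) * (r + 1) * r)) + -(6 * Rx a)) :=
    zpow_le_zpow_right_of_le_one₀ th_pos th_lt.le (by linarith)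
  rwa [zpow_zero] at h2

/-- the product of the boxes -/
theorem prod_box {m : ℕ} (hw : ∀ i, (r i + 1) * w i = k i * Fintype.card (OI k Γ r))
    (a : ∀ i, Fin (r i + 1) → ℤ) {X : ℝ} :
    ∏ _j : Fin m, ∏ o : OI k Γ r, X / mo (fun i x => (2 : ℝ) ^ (a i x)) o =
      X ^ (m * Fintype.card (OI k Γ r)) * ∏ i, (((2 : ℝ) ^ (∑ x, a i x)) ^ (m * w i))⁻¹ := by
  have h1 := prod_mo (Γ := Γ) (w := w) (A := fun i => Fin (r i + 1)) (by
    intro i
    rw [Fintype.card_fin]
    exact hw i) (fun i x => (2 : ℝ) ^ (a i x))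
  have h2 : ∀ i, ∏ x, (2 : ℝ) ^ (a i x) = 2 ^ (∑ x, a i x) := fun i => MR.prod_zp univ (a i)
  rw [prod_const, card_univ, Fintype.card_fin, Finset.prod_div_distrib, prod_const, card_univ, h1,
    div_pow, ← pow_mul, mul_comm (Fintype.card _) m, div_eq_mul_inv]
  congr 1
  rw [← prod_pow, ← prod_inv_distrib]
  refine prod_congr rfl fun i _ => ?_
  rw [h2, ← pow_mul, mul_comm (w i) m]

theorem cq_Nt (hw : ∀ i, (r i + 1) * w i = k i * Fintype.card (OI k Γ r)) :
    CQ m k w r Γ (NZ Nt) := by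
  set C₁ : ℝ := ∏ i, ((2 : ℝ) ^ r i) ^ k i with hC₁
  have hC₁0 : 0 < C₁ := prod_pos fun i _ => by positivity
  set n := m * Fintype.card (OI k Γ r) with hn
  have hCs : 0 < ∏ i, Cs (r i) := prod_pos fun i _ => Cs_pos _
  refine ⟨(2 + C₁) ^ n * ∏ i, Cs (r i), by positivity, fun a X hX ha => ?_⟩
  set A : ∀ i, Fin (r i + 1) → ℝ := fun i x => (2 : ℝ) ^ (a i x) with hA
  have hA0 : ∀ i x, 0 < A i x := fun i x => by rw [hA]; positivity
  set Q : Set (Fin m → OI k Γ r → ℤ) := {q | NZ Nt q ∧ ∀ j o, |(q j o : ℝ)| * mo A o ≤ X} with hQ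
  have hmop : ∀ o : OI k Γ r, 0 < mo A o := fun o => mo_pos hA0 o
  have hsub : Q ⊆ {q | ∀ j o, |(q j o : ℝ)| ≤ (fun _ o => X / mo A o : Fin m → OI k Γ r → ℝ) j o} := by
    rintro q ⟨_, h2⟩ j o
    show _ ≤ X / mo A o
    rw [le_div_iff₀ (hmop o)]
    exact h2 j o
  obtain ⟨b1, b2⟩ := boxv (Fin m) (OI k Γ r) (fun _ o => X / mo A o)
    (fun _ o => (div_pos hX (hmop o)).le)
  refine ⟨b1.subset hsub, ?_⟩
  have hR0 : 0 ≤ X ^ n * ∏ i, ((((2 : ℝ) ^ (∑ x, a i x)) ^ (m * w i))⁻¹ * th ^ (-(6 * Rx (a i)))) := by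
    apply mul_nonneg (by positivity)
    apply prod_nonneg
    intro i _
    have := th_pos
    positivity
  rcases Q.eq_empty_or_nonempty with h0 | ⟨q, hq⟩
  · rw [h0, Set.ncard_empty, Nat.cast_zero]
    exact mul_nonneg (by positivity) hR0
  have htop : ∀ o : OI k Γ r, mo A o ≤ C₁ * X := by
    intro o
    refine (mo_le_top hA0 (c := fun i => 2 ^ r i) (fun i x => ?_) o).trans
      (mul_le_mul_of_nonneg_left (top_le hq.1 hA0 hq.2) hC₁0.le)
    have h1 := ha i x _ (Fin.le_last x)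
    rw [hA]
    simp only
    calc (2 : ℝ) ^ (a i x) ≤ 2 ^ ((r i : ℤ) + a i (Fin.last (r i))) :=
          zpow_le_zpow_right₀ (by norm_num) h1
      _ = _ := by rw [zpow_add₀ (by norm_num), zpow_natCast]
  have h1 : (Q.ncard : ℝ) ≤ ∏ _j : Fin m, ∏ o : OI k Γ r, (2 * (X / mo A o) + 1) :=
    le_trans (by exact_mod_cast Set.ncard_le_ncard hsub b1) b2
  have h2 : ∏ _j : Fin m, ∏ o : OI k Γ r, (2 * (X / mo A o) + 1) ≤
      ∏ _j : Fin m, ∏ o : OI k Γ r, ((2 + C₁) * (X / mo A o)) := by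
    refine Finset.prod_le_prod (fun j _ => prod_nonneg fun o _ => ?_) fun j _ =>
      Finset.prod_le_prod (fun o _ => ?_) fun o _ => ?_
    · have := div_pos hX (hmop o); positivity
    · have := div_pos hX (hmop o); positivity
    · have h3 : 1 ≤ C₁ * (X / mo A o) := by
        rw [← mul_div_assoc, le_div_iff₀ (hmop o), one_mul]
        exact htop o
      linarith
  have h3 : ∏ _j : Fin m, ∏ o : OI k Γ r, ((2 + C₁) * (X / mo A o)) =
      (2 + C₁) ^ n * (X ^ n * ∏ i, (((2 : ℝ) ^ (∑ x, a i x)) ^ (m * w i))⁻¹) := by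
    rw [← prod_box hw a, hn]
    simp only [prod_mul_distrib, prod_const, card_univ, Fintype.card_fin]
    rw [← pow_mul, mul_comm (Fintype.card _) m]
  refine (h1.trans h2).trans ?_
  rw [h3, prod_mul_distrib]
  have h4 : (1 : ℝ) ≤ (∏ i, Cs (r i)) * ∏ i, th ^ (-(6 * Rx (a i))) := by
    rw [← prod_mul_distrib]
    have h5 : ∏ _i : I, (1 : ℝ) ≤ ∏ i, (Cs (r i) * th ^ (-(6 * Rx (a i)))) :=
      Finset.prod_le_prod (fun i _ => zero_le_one) fun i _ => Cs_le (a i) (ha i)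
    rwa [prod_const_one] at h5
  have h5 : 0 ≤ (2 + C₁) ^ n * (X ^ n * ∏ i, (((2 : ℝ) ^ (∑ x, a i x)) ^ (m * w i))⁻¹) := by
    have : 0 ≤ ∏ i, (((2 : ℝ) ^ (∑ x, a i x)) ^ (m * w i))⁻¹ := prod_nonneg fun i _ => by positivity
    positivity
  calc (2 + C₁) ^ n * (X ^ n * ∏ i, (((2 : ℝ) ^ (∑ x, a i x)) ^ (m * w i))⁻¹) ≤
      ((2 + C₁) ^ n * (X ^ n * ∏ i, (((2 : ℝ) ^ (∑ x, a i x)) ^ (m * w i))⁻¹)) *
        ((∏ i, Cs (r i)) * ∏ i, th ^ (-(6 * Rx (a i)))) := le_mul_of_one_le_right h5 h4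
    _ = _ := by ring

/-! ### density -/

section zp

variable {p : ℕ} [hp : Fact p.Prime]

/-- normalised vectors -/
def Vn (n p : ℕ) [Fact p.Prime] : Set (Fin (n + 1) → ZMod p) := {x | ∃ c, x c = 1}

theorem Vn_card (n : ℕ) : ((Vn n p).ncard : ℝ) ≤ (n + 1) * (p : ℝ) ^ n := by
  classical
  have hsub : Vn n p ⊆ ⋃ c ∈ (univ : Finset (Fin (n + 1))), {x : Fin (n + 1) → ZMod p | x c = 1} := by
    rintro x ⟨c, hc⟩
    rw [Set.mem_iUnion₂]
    exact ⟨c, mem_univ _, hc⟩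
  have h1 : ∀ c : Fin (n + 1), (({x : Fin (n + 1) → ZMod p | x c = 1}).ncard : ℝ) ≤ (p : ℝ) ^ n := by
    intro c
    have h2 : ({x : Fin (n + 1) → ZMod p | x c = 1}).ncard ≤
        (Set.univ : Set (Fin n → ZMod p)).ncard := by
      refine Set.ncard_le_ncard_of_injOn (fun x u => x (c.succAbove u)) (fun _ _ => Set.mem_univ _) ?_
        Set.finite_univ
      intro x hx y hy h
      funext u
      rcases Fin.eq_self_or_eq_succAbove c u with h3 | ⟨v, h3⟩
      · rw [h3]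
        exact Eq.trans hx (Eq.symm hy)
      · rw [h3]
        exact congrFun h v
    rw [Set.ncard_univ, Nat.card_eq_fintype_card, Fintype.card_fun, ZMod.card, Fintype.card_fin] at h2
    exact_mod_cast h2
  obtain ⟨_, h2⟩ := MR.ncard_bw hsub (fun c _ => Set.toFinite _) (fun c _ => h1 c)
  rw [sum_const, card_univ, Fintype.card_fin, nsmul_eq_mul] at h2
  push_cast at h2
  exact h2

/-- the coordinates with a given zero -/
theorem zero_card (x : ∀ i, Fin (r i + 1) → ZMod p) (hx : ∀ i, ∃ c, x i c = 1) :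
    (({q : Fin m × OI k Γ r → ZMod p | ∀ j, evq (fun j o => q (j, o)) x j = 0}).ncard : ℝ) * (p : ℝ) ^ m ≤
      (p : ℝ) ^ (m * Fintype.card (OI k Γ r)) := by
  classical
  choose c hc using hx
  set o₀ : OI k Γ r := mk fun i _ => c i with ho₀
  set S : Set (Fin m × OI k Γ r → ZMod p) := {q | ∀ j, evq (fun j o => q (j, o)) x j = 0} with hS
  -- shifting by multiples of the coordinate `o₀`
  set sh : (Fin m → ZMod p) → (Fin m × OI k Γ r → ZMod p) := fun t y =>
    if y.2 = o₀ then t y.1 else 0 with hsh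
  have hlin : ∀ (q : Fin m × OI k Γ r → ZMod p) (t : Fin m → ZMod p) (j : Fin m),
      evq (fun j o => (q + sh t) (j, o)) x j =
        evq (fun j o => q (j, o)) x j + t j := by
    intro q t j
    unfold evq
    have h1 : ∀ h : ∀ i, Fin (k i) → Fin (r i + 1),
        (q + sh t) (j, mk h) * ∏ i, ∏ s, x i (h i s) =
        q (j, mk h) * ∏ i, ∏ s, x i (h i s) + (if (mk h : OI k Γ r) = o₀ then t j else 0) *
          ∏ i, ∏ s, x i (h i s) := by
      intro h
      rw [Pi.add_apply, add_mul]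
    rw [sum_congr rfl fun h _ => h1 h, sum_add_distrib]
    congr 1
    rw [Finset.sum_eq_single fun i _ => c i]
    · rw [if_pos rfl]
      have h2 : ∏ i, ∏ _s : Fin (k i), x i (c i) = 1 :=
        prod_eq_one fun i _ => prod_eq_one fun s _ => hc i
      rw [h2, mul_one]
    · intro h _ hne
      rw [if_neg, zero_mul]
      intro h2
      obtain ⟨σ, _, e⟩ := mk_eq.1 h2
      apply hne
      funext i s
      have h3 := e i ((σ i).symm s)
      rw [Equiv.apply_symm_apply] at h3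
      exact h3.symm
    · intro h
      exact absurd (mem_univ _) h
  have hinj : Set.InjOn (fun y : (Fin m × OI k Γ r → ZMod p) × (Fin m → ZMod p) =>
      y.1 + sh y.2) (S ×ˢ Set.univ) := by
    rintro ⟨q, t⟩ ⟨hq, _⟩ ⟨q', t'⟩ ⟨hq', _⟩ he
    have he' : (q + sh t) =
        q' + sh t' := he
    have ht : t = t' := by
      funext j
      have h1 := hlin q t j
      have h2 := hlin q' t' j
      rw [he', h2] at h1
      have h3 : evq (fun j o => q (j, o)) x j = 0 := hq j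
      have h4 : evq (fun j o => q' (j, o)) x j = 0 := hq' j
      rw [h3, h4, zero_add, zero_add] at h1
      exact h1.symm
    rw [ht] at he'
    have hqq : q = q' := add_right_cancel he'
    rw [ht, hqq]
  have h1 := Set.ncard_le_ncard_of_injOn (t := Set.univ) _ (fun _ _ => Set.mem_univ _) hinj
    Set.finite_univ
  rw [Set.ncard_prod, Set.ncard_univ, Set.ncard_univ, Nat.card_eq_fintype_card,
    Nat.card_eq_fintype_card, Fintype.card_fun, Fintype.card_fun, ZMod.card, Fintype.card_fin,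
    Fintype.card_prod, Fintype.card_fin] at h1
  exact_mod_cast h1

/-- residues with a common zero -/
def Bd (m : ℕ) (r k : I → ℕ) (Γ : Subgroup (∀ i, Equiv.Perm (Fin (k i)))) (p : ℕ) [Fact p.Prime] :
    Set (Fin m × OI k Γ r → ZMod p) :=
  {q | ∃ x : ∀ i, Fin (r i + 1) → ZMod p, (∀ i, x i ∈ Vn (r i) p) ∧
    ∀ j, evq (fun j o => q (j, o)) x j = 0}

theorem Bd_card (hm : 1 + ∑ i, r i ≤ m) : ((Bd m r k Γ p).ncard : ℝ) * p ≤
    (∏ i, ((r i : ℝ) + 1)) * (p : ℝ) ^ (m * Fintype.card (OI k Γ r)) := by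
  classical
  have hp0 : (0 : ℝ) < p := by exact_mod_cast hp.out.pos
  have hp1 : (1 : ℝ) ≤ p := by exact_mod_cast hp.out.one_lt.le
  set V : Set (∀ i, Fin (r i + 1) → ZMod p) := Set.pi Set.univ fun i => Vn (r i) p with hV
  have hVf : V.Finite := Set.toFinite _
  have hsub : Bd m r k Γ p ⊆ ⋃ x ∈ hVf.toFinset,
      {q : Fin m × OI k Γ r → ZMod p | ∀ j, evq (fun j o => q (j, o)) x j = 0} := by
    rintro q ⟨x, h1, h2⟩
    rw [Set.mem_iUnion₂]
    exact ⟨x, (Set.Finite.mem_toFinset hVf).2 (fun i _ => h1 i), h2⟩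
  have hpm : (0 : ℝ) < (p : ℝ) ^ m := by positivity
  obtain ⟨_, h2⟩ := MR.ncard_bw hsub (fun c _ => Set.toFinite _)
    (B := fun _ => (p : ℝ) ^ (m * Fintype.card (OI k Γ r)) / (p : ℝ) ^ m) (fun x hx => by
      rw [le_div_iff₀ hpm]
      have h3 := (Set.Finite.mem_toFinset hVf).1 hx
      exact zero_card x fun i => h3 i (Set.mem_univ i))
  rw [sum_const, nsmul_eq_mul, ← Set.ncard_eq_toFinset_card _ hVf] at h2
  have h3 : (V.ncard : ℝ) ≤ (∏ i, ((r i : ℝ) + 1)) * (p : ℝ) ^ (∑ i, r i) := by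
    have h4 : V.ncard = ∏ i, (Vn (r i) p).ncard := by
      rw [hV, ← Nat.card_coe_set_eq]
      have h5 : Nat.card (Set.pi Set.univ fun i => Vn (r i) p) = Nat.card (∀ i, Vn (r i) p) :=
        Nat.card_congr (Equiv.Set.univPi fun i => Vn (r i) p)
      rw [h5, Nat.card_pi]
      exact prod_congr rfl fun i _ => Nat.card_coe_set_eq _
    rw [h4]
    push_cast
    rw [← Finset.prod_pow_eq_pow_sum, ← prod_mul_distrib]
    exact Finset.prod_le_prod (fun i _ => Nat.cast_nonneg _) fun i _ => Vn_card (r i)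
  have h4 : (p : ℝ) ^ (∑ i, r i) * p ≤ (p : ℝ) ^ m := by
    rw [← pow_succ]
    exact pow_le_pow_right₀ hp1 (by omega)
  have h5 : (0 : ℝ) < (p : ℝ) ^ (m * Fintype.card (OI k Γ r)) := by positivity
  have h6 : 0 ≤ ∏ i, ((r i : ℝ) + 1) := prod_nonneg fun i _ => by positivity
  calc ((Bd m r k Γ p).ncard : ℝ) * p ≤
      (V.ncard * ((p : ℝ) ^ (m * Fintype.card (OI k Γ r)) / (p : ℝ) ^ m)) * p :=
        mul_le_mul_of_nonneg_right h2 hp0.le
    _ ≤ (((∏ i, ((r i : ℝ) + 1)) * (p : ℝ) ^ (∑ i, r i)) *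
        ((p : ℝ) ^ (m * Fintype.card (OI k Γ r)) / (p : ℝ) ^ m)) * p := by
        apply mul_le_mul_of_nonneg_right _ hp0.le
        exact mul_le_mul_of_nonneg_right h3 (by positivity)
    _ = ((∏ i, ((r i : ℝ) + 1)) * (p : ℝ) ^ (m * Fintype.card (OI k Γ r))) *
        (((p : ℝ) ^ (∑ i, r i) * p) / (p : ℝ) ^ m) := by ring
    _ ≤ ((∏ i, ((r i : ℝ) + 1)) * (p : ℝ) ^ (m * Fintype.card (OI k Γ r))) * 1 := by
        apply mul_le_mul_of_nonneg_left _ (by positivity)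
        rw [div_le_one hpm]
        exact h4
    _ = _ := mul_one _

/-- integer coordinates with a common zero have residues with a common zero -/
theorem red_zero {q : Fin m → OI k Γ r → ℤ} (h : ¬ Nt (fun j o => (q j o : ℚ))) :
    (fun y : Fin m × OI k Γ r => ((q y.1 y.2 : ℤ) : ZMod p)) ∈ Bd m r k Γ p := by
  classical
  unfold Nt at h
  push Not at h
  obtain ⟨x, hx, h0⟩ := h
  choose z c hz hc hxz using fun i => exists_pm (hx i)
  have h1 : ∀ j, evq (fun j o => (q j o : ℚ)) (fun i a => ((z i a : ℤ) : ℚ)) j = 0 := by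
    intro j
    have h2 : x = fun i => c i • fun a => ((z i a : ℤ) : ℚ) := by
      funext i
      exact hxz i
    have h3 := h0 j
    rw [h2, evq_smulx] at h3
    exact (mul_eq_zero.1 h3).resolve_left (prod_ne_zero_iff.2 fun i _ => pow_ne_zero _ (hc i))
  have h2 : ∀ j, evq q z j = 0 := by
    intro j
    have h3 := evq_map (Int.castRingHom ℚ) q z j
    have h4 := h1 j
    have h5 : ((evq q z j : ℤ) : ℚ) = 0 := by
      rw [← h4]
      exact h3.symm
    exact_mod_cast h5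
  have h3 : ∀ i, ∃ a, ((z i a : ℤ) : ZMod p) ≠ 0 := by
    intro i
    by_contra hcon
    push Not at hcon
    exact hz i p hp.out fun a => (ZMod.intCast_zmod_eq_zero_iff_dvd _ _).1 (hcon a)
  choose a ha using h3
  refine ⟨fun i => ((z i (a i) : ℤ) : ZMod p)⁻¹ • fun b => ((z i b : ℤ) : ZMod p), fun i => ⟨a i, ?_⟩, ?_⟩
  · show ((z i (a i) : ℤ) : ZMod p)⁻¹ * ((z i (a i) : ℤ) : ZMod p) = 1
    exact inv_mul_cancel₀ (ha i)
  · intro j
    rw [evq_smulx]
    have h4 := evq_map (Int.castRingHom (ZMod p)) q z j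
    have h5 : evq (fun j o => ((q j o : ℤ) : ZMod p)) (fun i a => ((z i a : ℤ) : ZMod p)) j = 0 := by
      refine Eq.trans h4 ?_
      rw [h2 j, map_zero]
    rw [h5, mul_zero]

end zp

/-- **the density of the coordinates with common zeros** -/
theorem dn_Nt (hm : 1 + ∑ i, r i ≤ m) : Dn (Nt : (Fin m → OI k Γ r → ℚ) → Prop) := by
  classical
  intro ε hε
  set n := m * Fintype.card (OI k Γ r) with hn
  set R : ℝ := ∏ i, ((r i : ℝ) + 1) with hR
  have hR0 : 0 < R := prod_pos fun i _ => by positivity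
  obtain ⟨n₀, hn₀⟩ := exists_nat_gt (R * 3 ^ n / ε)
  obtain ⟨p, hpn, hp⟩ := Nat.exists_infinite_primes n₀
  haveI : Fact p.Prime := ⟨hp⟩
  have hp0 : (0 : ℝ) < p := by exact_mod_cast hp.pos
  refine ⟨p, hp0, fun Z hZ => ?_⟩
  have hZ0 : 0 < Z := hp0.trans_le hZ
  have h1 : R * 3 ^ n ≤ ε * p := by
    have h2 : (n₀ : ℝ) ≤ p := by exact_mod_cast hpn
    have h3 : R * 3 ^ n / ε ≤ p := by linarith
    rw [div_le_iff₀ hε] at h3
    linarith
  obtain ⟨h2, h3⟩ := box_res (Fin m × OI k Γ r) p hp.pos Z hZ (Bd m r k Γ p) (Set.toFinite _)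
  have hcard : Fintype.card (Fin m × OI k Γ r) = n := by
    rw [Fintype.card_prod, Fintype.card_fin]
  rw [hcard] at h3
  have h4 : ({q : Fin m → OI k Γ r → ℤ | (∀ j o, |(q j o : ℝ)| ≤ Z) ∧
      ¬ Nt (fun j o => (q j o : ℚ))}.ncard : ℝ) ≤
      {q : Fin m × OI k Γ r → ℤ | (∀ j, |(q j : ℝ)| ≤ Z) ∧
        (fun j => (q j : ZMod p)) ∈ Bd m r k Γ p}.ncard := by
    have h5 : {q : Fin m → OI k Γ r → ℤ | (∀ j o, |(q j o : ℝ)| ≤ Z) ∧
      ¬ Nt (fun j o => (q j o : ℚ))}.ncard ≤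
      {q : Fin m × OI k Γ r → ℤ | (∀ j, |(q j : ℝ)| ≤ Z) ∧
        (fun j => (q j : ZMod p)) ∈ Bd m r k Γ p}.ncard := by
      refine Set.ncard_le_ncard_of_injOn (fun q y => q y.1 y.2) ?_ ?_ h2
      · rintro q ⟨g1, g2⟩
        exact ⟨fun y => g1 y.1 y.2, red_zero g2⟩
      · intro q _ q' _ he
        funext j o
        exact congrFun he (j, o)
    exact_mod_cast h5
  refine h4.trans (h3.trans ?_)
  have h5 := Bd_card (k := k) (Γ := Γ) (p := p) hm
  rw [div_pow, ← mul_div_assoc, div_le_iff₀ (by positivity), mul_pow]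
  have h6 : 0 < (3 : ℝ) ^ n * Z ^ n := by positivity
  have h7 : ((Bd m r k Γ p).ncard : ℝ) * (3 ^ n * Z ^ n) * p ≤ ε * Z ^ n * (p : ℝ) ^ n * p := by
    calc ((Bd m r k Γ p).ncard : ℝ) * (3 ^ n * Z ^ n) * p =
        (((Bd m r k Γ p).ncard : ℝ) * p) * (3 ^ n * Z ^ n) := by ring
      _ ≤ (R * (p : ℝ) ^ n) * (3 ^ n * Z ^ n) := mul_le_mul_of_nonneg_right h5 h6.le
      _ = (R * 3 ^ n) * (Z ^ n * (p : ℝ) ^ n) := by ring
      _ ≤ (ε * p) * (Z ^ n * (p : ℝ) ^ n) := mul_le_mul_of_nonneg_right h1 (by positivity)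
      _ = _ := by ring
  exact le_of_mul_le_mul_right h7 hp0

end Pool.Agent.K6.H78.GN
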