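import Pool.Agent.K6.H78.GN.Pr

/-!
Matrices of a given rank: the two kernels.
-/

set_option autoImplicit false
set_option linter.unusedSectionVars false
set_option linter.unusedVariables false
set_option linter.deprecated false

namespace Pool.Agent.K6.H78.GN

open Finset Matrix Filter Topology
open Pool.Agent.K6.H78.MF (IsPoly)
open Pool.Agent.K6.H78.MR (poly_det)

/-- the ranks -/
abbrev rB (ρ : ℕ) : Bool → ℕ := fun _ => ρ
/-- the numbers of the slots -/
abbrev kB : Bool → ℕ := fun _ => 1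
/-- the trivial group -/
abbrev ΓB : Subgroup (∀ i : Bool, Equiv.Perm (Fin (kB i))) := ⊥
/-- the orbits -/
abbrev OB (ρ : ℕ) : Type := OI kB ΓB (rB ρ)

variable {ρ : ℕ}

theorem prod_th {ι : Type*} (s : Finset ι) (f : ι → ℤ) : ∏ i ∈ s, th ^ (f i) = th ^ (∑ i ∈ s, f i) := by
  classical
  induction s using Finset.induction_on with
  | empty => simp
  | insert a s ha ih => rw [prod_insert ha, sum_insert ha, ih, zpow_add₀ th_ne]

/-- the multi-indices -/
def pb {n : ℕ} (x y : Fin n) : ∀ i : Bool, Fin (kB i) → Fin n := fun i _ => cond i x y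

/-- multi-indices are pairs -/
def EB (n : ℕ) : (∀ i : Bool, Fin (kB i) → Fin n) ≃ Fin n × Fin n where
  toFun h := (h true 0, h false 0)
  invFun p := pb p.1 p.2
  left_inv h := by
    funext i s
    have hs : s = 0 := Subsingleton.elim _ _
    subst hs
    cases i <;> rfl
  right_inv p := rfl

theorem out_mkB (h : ∀ i : Bool, Fin (kB i) → Fin (ρ + 1)) : out (mk h : OB ρ) = h := by
  obtain ⟨σ, hσ, e⟩ := mk_eq.1 (mk_out (mk h : OB ρ))
  rw [Subgroup.mem_bot] at hσ
  funext i s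
  rw [e i s, hσ]
  rfl

/-- the orbits are pairs -/
noncomputable def EO (ρ : ℕ) : OB ρ ≃ Fin (ρ + 1) × Fin (ρ + 1) where
  toFun o := EB (ρ + 1) (out o)
  invFun p := mk ((EB (ρ + 1)).symm p)
  left_inv o := by
    show mk ((EB (ρ + 1)).symm (EB (ρ + 1) (out o))) = o
    rw [Equiv.symm_apply_apply, mk_out]
  right_inv p := by
    show EB (ρ + 1) (out (mk ((EB (ρ + 1)).symm p) : OB ρ)) = p
    rw [out_mkB, Equiv.apply_symm_apply]

theorem card_OB : Fintype.card (OB ρ) = (ρ + 1) * (ρ + 1) := by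
  rw [Fintype.card_congr (EO ρ), Fintype.card_prod, Fintype.card_fin]

/-- the matrix of the coordinates -/
def mB {R : Type*} (q : Fin 1 → OB ρ → R) : Matrix (Fin (ρ + 1)) (Fin (ρ + 1)) R :=
  Matrix.of fun x y => q 0 (mk (pb x y))

theorem tm_B {R : Type*} [CommRing R] {B : Bool → Type} (q : Fin 1 → OB ρ → R)
    (b : ∀ i : Bool, Matrix (Fin (ρ + 1)) (B i) R) (f : ∀ i : Bool, Fin (kB i) → B i) (j : Fin 1) :
    tm q b (j, f) = ((b true)ᵀ * mB q * b false) (f true 0) (f false 0) := by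
  have hj : j = 0 := Subsingleton.elim _ _
  subst hj
  have h1 : tm q b (0, f) = ∑ h : ∀ i : Bool, Fin (kB i) → Fin (ρ + 1),
      q 0 (mk h) * ∏ i, ∏ s, b i (h i s) (f i s) := by
    show (ex q * tp kB b : Matrix (Fin 1) (∀ i : Bool, Fin (kB i) → B i) R) 0 f = _
    rw [Matrix.mul_apply]
    rfl
  rw [h1, ← Equiv.sum_comp (EB (ρ + 1)).symm, Fintype.sum_prod_type_right, Matrix.mul_apply]
  refine sum_congr rfl fun y _ => ?_
  rw [Matrix.mul_apply, sum_mul]
  refine sum_congr rfl fun x _ => ?_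
  rw [Fintype.prod_bool, Fin.prod_univ_one, Fin.prod_univ_one]
  show q 0 (mk (pb x y)) * (b true x (f true 0) * b false y (f false 0)) =
    b true x (f true 0) * q 0 (mk (pb x y)) * b false y (f false 0)
  ring

theorem mB_ro {R : Type*} [CommRing R] (q : Fin 1 → OB ρ → R)
    (g : ∀ i : Bool, Matrix (Fin (rB ρ i + 1)) (Fin (rB ρ i + 1)) R) :
    mB (ro q g) = (g true)ᵀ * mB q * g false := by
  ext x y
  have h1 : mB (ro q g) x y = ex (ro q g) 0 (pb x y) := rfl
  rw [h1, ex_ro]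
  exact tm_B q g (pb x y) 0

theorem mB_smul {R : Type*} [CommRing R] (c : R) (q : Fin 1 → OB ρ → R) :
    mB (c • q) = c • mB q := rfl

theorem mB_map {R S : Type*} [CommRing R] [CommRing S] (φ : R →+* S) (q : Fin 1 → OB ρ → R) :
    mB (fun j o => φ (q j o)) = (mB q).map φ := rfl

/-- nondegenerate coordinates -/
def NB (q : Fin 1 → OB ρ → ℚ) : Prop := (mB q).det ≠ 0

theorem nn_B : NN (NB : (Fin 1 → OB ρ → ℚ) → Prop) := by
  refine ⟨?_, ?_, ?_⟩
  · intro q c hc h
    unfold NB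
    rw [mB_smul, Matrix.det_smul]
    exact mul_ne_zero (pow_ne_zero _ hc) h
  · intro q g hg h
    unfold NB
    rw [mB_ro, Matrix.det_mul, Matrix.det_mul, Matrix.det_transpose]
    exact mul_ne_zero (mul_ne_zero (hg true) h) (hg false)
  · intro q h h0
    apply h
    rw [h0]
    have : mB (0 : Fin 1 → OB ρ → ℚ) = 0 := rfl
    rw [this]
    exact Matrix.det_zero

theorem nz_B {q : Fin 1 → OB ρ → ℤ} : NZ NB q ↔ (mB q).det ≠ 0 := by
  have h1 : mB (fun j o => ((q j o : ℤ) : ℚ)) = (mB q).map (Int.castRingHom ℚ) := rfl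
  unfold NZ NB
  rw [h1, ← RingHom.mapMatrix_apply, ← RingHom.map_det]
  exact not_congr (by
    constructor
    · intro h
      exact Int.cast_injective (α := ℚ) (h.trans (Int.cast_zero).symm)
    · intro h
      rw [h, map_zero])

theorem mo_B (A : ∀ i, Fin (rB ρ i + 1) → ℝ) (x y : Fin (ρ + 1)) :
    mo A (mk (pb x y) : OB ρ) = A true x * A false y := by
  rw [mo_mk]
  unfold mon
  rw [Fintype.prod_bool, Fin.prod_univ_one, Fin.prod_univ_one]
  rfl

theorem lx_B : LX 1 (rB ρ) kB ΓB (NB : (Fin 1 → OB ρ → ℚ) → Prop) := by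
  refine ⟨2 ^ ρ * 2 ^ ρ, by positivity, ?_⟩
  intro q A Y X hq hA hmono hY hYA hX
  have h1 := nz_B.1 hq
  have h2 := pair_ineq (A := A true) (A' := A false) h1 (hA true) (hA false) (hmono true)
    (hmono false) (X := X) (fun x y => by
      have := hX 0 (mk (pb x y))
      rw [mo_B] at this
      exact this)
  have h3 := pair_prod (hA true) (hA false) h2
  rw [Fintype.prod_bool]
  have hX0 : 0 < X := by
    have := h2 0
    have h4 := mul_pos (hA true 0) (hA false (Fin.rev 0))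
    have h5 : (0 : ℝ) < 2 ^ ρ * 2 ^ ρ := by positivity
    by_contra hc
    rw [not_lt] at hc
    nlinarith
  have h4 : (Y true * Y false) ^ (ρ + 1) ≤ (2 ^ ρ * 2 ^ ρ * X) ^ (ρ + 1) := by
    rw [mul_pow]
    refine le_trans ?_ h3
    exact mul_le_mul (hYA true) (hYA false) (pow_pos (hY _) _).le (prod_nonneg fun x _ => (hA _ _).le)
  have h5 := le_of_pow_le_pow_left₀ (by omega) (by positivity) h4
  simpa using h5

theorem cq_B : CQ 1 kB (fun _ => ρ + 1) (rB ρ) ΓB (NZ (NB : (Fin 1 → OB ρ → ℚ) → Prop)) := by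
  set c : ℤ := 24 * ρ * ((ρ + 1) * (ρ + 1)) + 2 * ((ρ + 1) * (ρ + 1) * ρ) +
    2 * ((ρ + 1) * (ρ + 1) * ρ) with hc
  have hth := th_pos
  refine cq_of (fun i => by rw [card_OB]; ring) (C := th ^ (-c)) (by positivity) ?_
  intro a X hX ha q hq hqX
  have h1 := nz_B.1 hq
  have h2 := pair_ineq (A := fun x => (2 : ℝ) ^ (a true x)) (A' := fun x => (2 : ℝ) ^ (a false x)) h1
    (fun x => by positivity) (fun x => by positivity)
    (fun x y hxy => by
      rw [← zpow_natCast, ← zpow_add₀ (by norm_num)]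
      exact zpow_le_zpow_right₀ (by norm_num) (ha true x y hxy))
    (fun x y hxy => by
      rw [← zpow_natCast, ← zpow_add₀ (by norm_num)]
      exact zpow_le_zpow_right₀ (by norm_num) (ha false x y hxy)) (X := X) (fun x y => by
      have := hqX 0 (mk (pb x y))
      rw [mo_B] at this
      exact this)
  refine ⟨fun o => th ^ (-ee (a true) (a false) (EO ρ o).1 (EO ρ o).2), fun o => ?_, fun o => ?_, ?_⟩
  · have h3 := ee_nonneg (ha true) (ha false) (EO ρ o).1 (EO ρ o).2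
    have h4 : th ^ (0 : ℤ) ≤ th ^ (-ee (a true) (a false) (EO ρ o).1 (EO ρ o).2) :=
      zpow_le_zpow_right_of_le_one₀ th_pos th_lt.le (by linarith)
    rwa [zpow_zero] at h4
  · have h3 := ee_le (ha true) (ha false) hX h2 (EO ρ o).1 (EO ρ o).2
    have h4 : mo (fun i x => (2 : ℝ) ^ (a i x)) o =
        (2 : ℝ) ^ (a true (EO ρ o).1) * 2 ^ (a false (EO ρ o).2) := by
      have h5 : o = mk (pb (EO ρ o).1 (EO ρ o).2) := ((EO ρ).left_inv o).symm
      conv_lhs => rw [h5]
      rw [mo_B]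
    rw [h4]
    exact h3
  · rw [pow_one]
    have h3 : ∏ o : OB ρ, th ^ (-ee (a true) (a false) (EO ρ o).1 (EO ρ o).2) =
        th ^ (-∑ x, ∑ y, ee (a true) (a false) x y) := by
      rw [Equiv.prod_comp (EO ρ) fun p => th ^ (-ee (a true) (a false) p.1 p.2), ← Fintype.sum_prod_type']
      rw [← Finset.sum_neg_distrib]
      exact prod_th _ _
    rw [h3, Fintype.prod_bool, ← zpow_add₀ th_ne, ← zpow_add₀ th_ne]
    apply zpow_le_zpow_right_of_le_one₀ th_pos th_lt.le
    have h4 := ee_sum (a true) (a false)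
    have h5 := Rx_low (a true) (ha true)
    have h6 := Rx_low (a false) (ha false)
    rw [hc]
    linarith

/-- **matrices of a given rank** -/
theorem main_B (hρ : 1 ≤ ρ) {N e : Bool → ℕ} (he : ∀ i, N i = ρ + 1 + e i) (he1 : ∀ i, 1 ≤ e i)
    {J : Type} [Fintype J] (eT : J ≃ Fin 1 × (∀ i : Bool, Fin (kB i) → Fin (N i)))
    (S : Finset Nat.Primes)
    (φ₀ : (∀ i : Bool, (Fin (rB ρ i + 1) → Fin (N i)) → ℝ) → (J → ℝ) → ℝ)
    (h₀ : LF 1 (rB ρ) N kB ΓB eT φ₀)
    (φ : ∀ p : Nat.Primes, (∀ i : Bool, (Fin (rB ρ i + 1) → Fin (N i)) → ℚ_[p]) → (J → ℚ_[p]) → ℝ)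
    (h : ∀ p ∈ S, LF 1 (rB ρ) N kB ΓB eT (φ p)) :
    ∃ c : ℝ, 0 < c ∧ Tendsto (fun B : ℝ => ({P : PP (rB ρ) N J |
      P ∈ UU eT (NB : (Fin 1 → OB ρ → ℚ) → Prop) ∧
      Hp 1 (rB ρ) N kB e ΓB S φ₀ φ P ≤ B}.ncard : ℝ) / (B * Real.log B ^ 2)) atTop (𝓝 c) := by
  have hnm : Nm 1 (rB ρ) N kB (fun _ => ρ + 1) e ΓB := by
    refine ⟨fun i => ?_, fun i => ?_, fun i => ?_, ?_⟩
    · have := he i; have := he1 i; show ρ + 1 < N i; omega
    · show (ρ + 1) * (ρ + 1) = 1 * Fintype.card (OB ρ)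
      rw [card_OB]; ring
    · have := he i; omega
    · show 2 ≤ 1 * Fintype.card (OB ρ)
      rw [card_OB]
      nlinarith
  have hDn : Dn (NB : (Fin 1 → OB ρ → ℚ) → Prop) := by
    refine dn_poly (f := fun u => (Matrix.of fun x y => u (0, mk (pb x y)) :
      Matrix (Fin (ρ + 1)) (Fin (ρ + 1)) ℝ).det) (poly_det _ fun i j => IsPoly.coord _)
      (y₀ := fun y => if (EO ρ y.2).1 = (EO ρ y.2).2 then 1 else 0) ?_ ?_
    · have h1 : (Matrix.of fun x y => (fun y : Fin 1 × OB ρ =>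
          if (EO ρ y.2).1 = (EO ρ y.2).2 then (1 : ℝ) else 0) (0, mk (pb x y)) :
          Matrix (Fin (ρ + 1)) (Fin (ρ + 1)) ℝ) = 1 := by
        ext x y
        have h2 : EO ρ (mk (pb x y)) = (x, y) := (EO ρ).right_inv (x, y)
        show (if (EO ρ (mk (pb x y))).1 = (EO ρ (mk (pb x y))).2 then (1 : ℝ) else 0) = _
        rw [h2, Matrix.one_apply]
      rw [h1, Matrix.det_one]
      exact one_ne_zero
    · intro q hq
      have h1 : (mB q).det = 0 := by
        by_contra hc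
        exact hq (nz_B.2 hc)
      have h2 : (Matrix.of fun x y => (fun y : Fin 1 × OB ρ => (q y.1 y.2 : ℝ)) (0, mk (pb x y)) :
          Matrix (Fin (ρ + 1)) (Fin (ρ + 1)) ℝ) = (Int.castRingHom ℝ).mapMatrix (mB q) := rfl
      rw [h2, ← RingHom.map_det, h1, map_zero]
  have := main_all hnm nn_B hDn cq_B lx_B eT S φ₀ h₀ φ h
  rw [Fintype.card_bool] at this
  exact this

end Pool.Agent.K6.H78.GN
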