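import Pool.Agent.K6.H78.GN.Mb
import Pool.Agent.K6.H78.MR.Rnk

/-!
Matrices of a given rank: concrete form.
-/

set_option autoImplicit false
set_option linter.unusedSectionVars false
set_option linter.unusedVariables false
set_option linter.deprecated false

namespace Pool.Agent.K6.H78.GN

open Finset Matrix Filter Topology
open Pool.Agent.K6.H78.MR (pl pl_mul rank_pl exists_right)

/-- the dimensions -/
abbrev NF (M N : ℕ) : Bool → ℕ := fun i => cond i M N

/-- the entries of matrices as tensors -/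
def eB (M N : ℕ) : Fin M × Fin N ≃ Fin 1 × (∀ i : Bool, Fin (kB i) → Fin (NF M N i)) where
  toFun p := (0, fun i _ => match i with
    | true => p.1
    | false => p.2)
  invFun f := (f.2 true 0, f.2 false 0)
  left_inv p := rfl
  right_inv f := by
    obtain ⟨j, f⟩ := f
    refine Prod.ext (Subsingleton.elim _ _) ?_
    funext i s
    have hs : s = 0 := Subsingleton.elim _ _
    subst hs
    cases i <;> rfl

variable {ρ M N : ℕ}

theorem tj_B {R : Type*} [CommRing R] (q : Fin 1 → OB ρ → R)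
    (b : ∀ i : Bool, Matrix (Fin (rB ρ i + 1)) (Fin (NF M N i)) R) (y : Fin M × Fin N) :
    tj (eB M N) q b y = ((b true)ᵀ * mB q * b false) y.1 y.2 :=
  tm_B q b _ 0

/-- every matrix is a matrix of coordinates -/
theorem mB_surj {R : Type*} (Q : Matrix (Fin (ρ + 1)) (Fin (ρ + 1)) R) :
    ∃ q : Fin 1 → OB ρ → R, mB q = Q := by
  refine ⟨fun _ o => Q (EO ρ o).1 (EO ρ o).2, ?_⟩
  ext x y
  have h2 : EO ρ (mk (pb x y)) = (x, y) := (EO ρ).right_inv (x, y)
  show Q (EO ρ (mk (pb x y))).1 (EO ρ (mk (pb x y))).2 = Q x y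
  rw [h2]

/-- the rank -/
theorem rank_B {r M N : ℕ} {a : Matrix (Fin r) (Fin M) ℚ} {b : Matrix (Fin r) (Fin N) ℚ}
    {Q : Matrix (Fin r) (Fin r) ℚ} (ha : pl a ≠ 0) (hb : pl b ≠ 0) :
    (aᵀ * Q * b).rank = r ↔ Q.det ≠ 0 := by
  obtain ⟨ξ, hξ⟩ := exists_right ha
  obtain ⟨η, hη⟩ := exists_right hb
  have h1 : ξᵀ * (aᵀ * Q * b) * η = Q := by
    have h2 : ξᵀ * aᵀ = 1 := by rw [← Matrix.transpose_mul, hξ, Matrix.transpose_one]
    calc ξᵀ * (aᵀ * Q * b) * η = (ξᵀ * aᵀ) * Q * (b * η) := by simp only [Matrix.mul_assoc]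
      _ = Q := by rw [h2, hη, Matrix.one_mul, Matrix.mul_one]
  have h3 : Q.rank ≤ (aᵀ * Q * b).rank := by
    conv_lhs => rw [← h1]
    exact (Matrix.rank_mul_le_left _ _).trans (Matrix.rank_mul_le_right _ _)
  have h4 : (aᵀ * Q * b).rank ≤ Q.rank :=
    (Matrix.rank_mul_le_left _ _).trans (Matrix.rank_mul_le_right _ _)
  have h5 : (aᵀ * Q * b).rank = Q.rank := le_antisymm h4 h3
  rw [h5]
  constructor
  · intro h6 h0
    have h7 : Q.rank < r := by
      by_contra hc
      obtain ⟨v, hv, hv0⟩ := Matrix.exists_mulVec_eq_zero_iff.2 h0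
      have h8 := LinearMap.finrank_range_add_finrank_ker Q.mulVecLin
      rw [Module.finrank_fin_fun] at h8
      have h9 : Module.finrank ℚ (LinearMap.range Q.mulVecLin) = Q.rank := rfl
      rw [h9, h6] at h8
      have h10 : Module.finrank ℚ (LinearMap.ker Q.mulVecLin) = 0 := by omega
      have h11 := Submodule.finrank_eq_zero.1 h10
      apply hv
      have h12 : v ∈ LinearMap.ker Q.mulVecLin := by
        rw [LinearMap.mem_ker]
        exact hv0
      rw [h11] at h12
      exact (Submodule.mem_bot ℚ).1 h12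
    omega
  · intro h6
    have h7 : IsUnit Q := by
      rw [Matrix.isUnit_iff_isUnit_det]
      exact isUnit_iff_ne_zero.2 h6
    rw [Matrix.rank_of_isUnit _ h7, Fintype.card_fin]

/-- the three projective spaces -/
def EP (ρ M N : ℕ) : PP (rB ρ) (NF M N) (Fin M × Fin N) ≃
    Projectivization ℚ ((Fin (ρ + 1) → Fin M) → ℚ) × Projectivization ℚ ((Fin (ρ + 1) → Fin N) → ℚ) ×
      Projectivization ℚ (Fin M × Fin N → ℚ) where
  toFun P := (P.1 true, P.1 false, P.2)
  invFun p := (fun i => match i with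
    | true => p.1
    | false => p.2.1, p.2.2)
  left_inv P := by
    refine Prod.ext ?_ rfl
    funext i
    cases i <;> rfl
  right_inv p := rfl

/-- sets which correspond to each other -/
theorem ncard_equiv {α β : Type*} (E : α ≃ β) (S : Set α) (T : Set β) (h : ∀ P, P ∈ S ↔ E P ∈ T) :
    S.ncard = T.ncard := by
  have h1 : T = E '' S := by
    ext y
    constructor
    · intro hy
      refine ⟨E.symm y, (h _).2 (by rwa [Equiv.apply_symm_apply]), Equiv.apply_symm_apply _ _⟩
    · rintro ⟨x, hx, rfl⟩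
      exact (h x).1 hx
  rw [h1, Set.ncard_image_of_injective _ E.injective]

end Pool.Agent.K6.H78.GN
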