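import Pool.Agent.K6.H78.GN.Mb

/-!
Symmetric matrices of a given rank.
-/

set_option autoImplicit false
set_option linter.unusedSectionVars false
set_option linter.unusedVariables false
set_option linter.deprecated false

namespace Pool.Agent.K6.H78.GN

open Finset Matrix Filter Topology
open Pool.Agent.K6.H78.MF (IsPoly)
open Pool.Agent.K6.H78.MR (poly_det)

variable {ρ : ℕ}

/-! ### the excess -/

theorem Rx_eq (a : Fin (ρ + 1) → ℤ) : Rx a = ∑ i : Fin (ρ + 1), (2 * (i : ℤ) - ρ) * a i := by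
  unfold Rx
  have h1 : ∀ i j : Fin (ρ + 1), (if j < i then a i - a j else 0) =
      (if j < i then a i else 0) - (if j < i then a j else 0) := by
    intro i j
    split_ifs <;> simp
  simp only [h1, sum_sub_distrib]
  have h2 : ∀ i : Fin (ρ + 1), ∑ j : Fin (ρ + 1), (if j < i then a i else 0) = (i : ℤ) * a i := by
    intro i
    rw [← sum_filter, sum_const, nsmul_eq_mul]
    congr 2
    have h3 : (univ.filter fun j : Fin (ρ + 1) => j < i) = Finset.Iio i := by
      ext j; simp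
    rw [h3, Fin.card_Iio]
  have h4 : ∑ i : Fin (ρ + 1), ∑ j : Fin (ρ + 1), (if j < i then a j else 0) =
      ∑ j : Fin (ρ + 1), ((ρ : ℤ) - j) * a j := by
    rw [sum_comm]
    refine sum_congr rfl fun j _ => ?_
    rw [← sum_filter, sum_const, nsmul_eq_mul]
    congr 1
    have h3 : (univ.filter fun i : Fin (ρ + 1) => j < i) = Finset.Ioi j := by
      ext i; simp
    rw [h3, Fin.card_Ioi]
    have := j.2
    omega
  rw [sum_congr rfl fun i _ => h2 i, h4, ← sum_sub_distrib]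
  refine sum_congr rfl fun i _ => ?_
  ring

/-- the differences of opposite terms -/
def Dx (a : Fin (ρ + 1) → ℤ) : ℤ := ∑ i, if Fin.rev i < i then a i - a (Fin.rev i) else 0

theorem val_rev' (i : Fin (ρ + 1)) : ((Fin.rev i : Fin (ρ + 1)) : ℤ) = ρ - i := by
  rw [Fin.val_rev]
  have := i.2
  omega

theorem Rx_eq' (a : Fin (ρ + 1) → ℤ) :
    Rx a = ∑ i : Fin (ρ + 1), if Fin.rev i < i then (2 * (i : ℤ) - ρ) * (a i - a (Fin.rev i)) else 0 := by
  rw [Rx_eq]
  have h1 : ∑ i : Fin (ρ + 1), (if i < Fin.rev i then (2 * (i : ℤ) - ρ) * a i else 0) =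
      ∑ i : Fin (ρ + 1), (if Fin.rev i < i then -((2 * (i : ℤ) - ρ) * a (Fin.rev i)) else 0) := by
    rw [← Equiv.sum_comp Fin.revPerm]
    refine sum_congr rfl fun i _ => ?_
    show (if Fin.rev i < Fin.rev (Fin.rev i) then (2 * ((Fin.rev i : Fin (ρ + 1)) : ℤ) - ρ) * a (Fin.rev i) else 0) = _
    rw [Fin.rev_rev, val_rev']
    split_ifs
    · ring
    · rfl
  have h2 : ∀ i : Fin (ρ + 1), (2 * (i : ℤ) - ρ) * a i =
      (if Fin.rev i < i then (2 * (i : ℤ) - ρ) * a i else 0) +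
        (if i < Fin.rev i then (2 * (i : ℤ) - ρ) * a i else 0) := by
    intro i
    have h3 := val_rev' i
    rcases lt_trichotomy (Fin.rev i) i with h | h | h
    · rw [if_pos h, if_neg (not_lt.2 h.le), add_zero]
    · have h4 : (2 * (i : ℤ) - ρ) = 0 := by
        have : ((Fin.rev i : Fin (ρ + 1)) : ℤ) = i := by rw [h]
        linarith
      rw [h4]
      simp
    · rw [if_pos h, if_neg (not_lt.2 h.le), zero_add]
  rw [sum_congr rfl fun i _ => h2 i, sum_add_distrib, h1, ← sum_add_distrib]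
  refine sum_congr rfl fun i _ => ?_
  split_ifs
  · ring
  · rfl

theorem Dx_le (hρ : 2 ≤ ρ) (a : Fin (ρ + 1) → ℤ) (ha : ∀ x y, x ≤ y → a x ≤ ρ + a y) :
    2 * Dx a ≤ Rx a + ((ρ + 1) * (ρ * ρ) + 2 * ρ + ρ * ρ) := by
  have hρ0 : (0 : ℤ) ≤ ρ := Int.natCast_nonneg ρ
  have hρ2 : (2 : ℤ) ≤ ρ := by exact_mod_cast hρ
  set F : Fin (ρ + 1) → ℤ := fun i =>
    if Fin.rev i < i then (2 * (i : ℤ) - ρ - 2) * (a i - a (Fin.rev i)) else 0 with hF
  have h1 : Rx a - 2 * Dx a = ∑ i, F i := by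
    rw [Rx_eq']
    unfold Dx
    rw [mul_sum, ← sum_sub_distrib]
    refine sum_congr rfl fun i _ => ?_
    rw [hF]
    simp only
    split_ifs
    · ring
    · ring
  have hd : ∀ i : Fin (ρ + 1), Fin.rev i < i → -(ρ : ℤ) ≤ a i - a (Fin.rev i) := by
    intro i h
    have := ha _ _ h.le
    linarith
  have h2 : ∀ i : Fin (ρ + 1), 2 * (i : ℤ) - ρ ≠ 1 → -((ρ : ℤ) * ρ) ≤ F i := by
    intro i hi
    rw [hF]
    simp only
    split_ifs with h
    · have h3 := hd i h
      have h4 : ((Fin.rev i : Fin (ρ + 1)) : ℤ) < i := by exact_mod_cast h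
      rw [val_rev'] at h4
      have h5 : 0 ≤ 2 * (i : ℤ) - ρ - 2 := by omega
      have h6 : 2 * (i : ℤ) - ρ - 2 ≤ ρ := by have := i.2; omega
      nlinarith
    · nlinarith
  by_cases hodd : ∃ i : Fin (ρ + 1), 2 * (i : ℤ) - ρ = 1
  · obtain ⟨μ, hμ⟩ := hodd
    have hρ3 : (3 : ℤ) ≤ ρ := by
      by_contra hc
      have : (ρ : ℤ) = 2 := by omega
      rw [this] at hμ
      omega
    have hml : μ ≠ Fin.last ρ := by
      intro h
      rw [h, Fin.val_last] at hμ
      omega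
    have hlm : Fin.last ρ ∈ (univ : Finset (Fin (ρ + 1))).erase μ :=
      mem_erase.2 ⟨hml.symm, mem_univ _⟩
    have h3 : ∑ i, F i = F μ + (F (Fin.last ρ) + ∑ i ∈ (univ.erase μ).erase (Fin.last ρ), F i) := by
      rw [← Finset.add_sum_erase univ F (mem_univ μ), ← Finset.add_sum_erase _ F hlm]
    have h4 : -((ρ : ℤ) + 1) * (ρ * ρ) ≤ ∑ i ∈ (univ.erase μ).erase (Fin.last ρ), F i := by
      have h5 : ∑ i ∈ (univ.erase μ).erase (Fin.last ρ), (-((ρ : ℤ) * ρ)) ≤
          ∑ i ∈ (univ.erase μ).erase (Fin.last ρ), F i := by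
        refine sum_le_sum fun i hi => h2 i ?_
        intro h6
        rw [mem_erase, mem_erase] at hi
        apply hi.2.1
        apply Fin.ext
        have : (i : ℤ) = μ := by linarith
        exact_mod_cast this
      rw [sum_const, nsmul_eq_mul] at h5
      have h6 : ((((univ : Finset (Fin (ρ + 1))).erase μ).erase (Fin.last ρ)).card : ℤ) ≤ ρ + 1 := by
        have h7 : (((univ : Finset (Fin (ρ + 1))).erase μ).erase (Fin.last ρ)).card ≤ ρ + 1 := by
          refine (Finset.card_le_univ _).trans (le_of_eq ?_)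
          rw [Fintype.card_fin]
        exact_mod_cast h7
      have h7 : (0 : ℤ) ≤ (ρ : ℤ) * ρ := by positivity
      nlinarith
    have hU := ha 0 (Fin.last ρ) (Fin.zero_le _)
    have h5 : F (Fin.last ρ) = ((ρ : ℤ) - 2) * (a (Fin.last ρ) - a 0) := by
      rw [hF]
      simp only
      rw [Fin.rev_last, if_pos (by rw [Fin.lt_def, Fin.val_zero, Fin.val_last]; omega), Fin.val_last]
      ring
    have h6 : -(a (Fin.last ρ) - a 0) - 2 * ρ ≤ F μ := by
      have h7 : Fin.rev μ < μ := by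
        have h8 := val_rev' μ
        have h9 : ((Fin.rev μ : Fin (ρ + 1)) : ℤ) < μ := by rw [h8]; linarith
        exact_mod_cast h9
      rw [hF]
      simp only
      rw [if_pos h7]
      have h8 : 2 * (μ : ℤ) - ρ - 2 = -1 := by linarith
      rw [h8]
      have h9 := ha μ (Fin.last ρ) (Fin.le_last _)
      have h10 := ha 0 (Fin.rev μ) (Fin.zero_le _)
      linarith
    have h7 : -((ρ : ℤ) * ρ) ≤ ((ρ : ℤ) - 3) * (a (Fin.last ρ) - a 0) := by nlinarith
    have h8 : ∑ i, F i ≥ -(((ρ : ℤ) + 1) * (ρ * ρ)) - 2 * ρ - ρ * ρ := by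
      rw [h3, h5]
      linarith
    linarith
  · push Not at hodd
    have h3 : ∑ i : Fin (ρ + 1), (-((ρ : ℤ) * ρ)) ≤ ∑ i, F i := sum_le_sum fun i _ => h2 i (hodd i)
    rw [sum_const, card_univ, Fintype.card_fin, nsmul_eq_mul] at h3
    push_cast at h3
    nlinarith

theorem ee_symm (a : Fin (ρ + 1) → ℤ) (x y : Fin (ρ + 1)) : ee a a x y = ee a a y x := by
  unfold ee
  by_cases h : Fin.rev x < y
  · rw [if_pos h, if_pos ((rev_lt_iff' x y).1 h)]
    ring
  · rw [if_neg h, if_neg fun h' => h ((rev_lt_iff' x y).2 h')]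

theorem ee_diag (a : Fin (ρ + 1) → ℤ) : ∑ x, ee a a x x ≤ 8 * Dx a + 24 * ρ * (ρ + 1) := by
  have hρ0 : (0 : ℤ) ≤ ρ := Int.natCast_nonneg ρ
  have h1 : ∀ x, ee a a x x ≤ 8 * (if Fin.rev x < x then a x - a (Fin.rev x) else 0) + 24 * ρ := by
    intro x
    unfold ee
    split_ifs
    · linarith
    · linarith
  refine (sum_le_sum fun x _ => h1 x).trans ?_
  rw [sum_add_distrib, ← mul_sum, sum_const, card_univ, Fintype.card_fin, nsmul_eq_mul]
  unfold Dx
  push_cast
  apply le_of_eq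
  ring

/-! ### the coordinates -/

/-- the numbers of the slots -/
abbrev kS : Unit → ℕ := fun _ => 2
/-- all permutations -/
abbrev ΓS : Subgroup (∀ i : Unit, Equiv.Perm (Fin (kS i))) := ⊤
/-- the ranks -/
abbrev rS (ρ : ℕ) : Unit → ℕ := fun _ => ρ
/-- the orbits -/
abbrev OS (ρ : ℕ) : Type := OI kS ΓS (rS ρ)

/-- the multi-indices -/
def ps {n : ℕ} (x y : Fin n) : ∀ i : Unit, Fin (kS i) → Fin n := fun _ => ![x, y]

/-- multi-indices are pairs -/
def ES (n : ℕ) : (∀ i : Unit, Fin (kS i) → Fin n) ≃ Fin n × Fin n where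
  toFun h := (h () 0, h () 1)
  invFun p := ps p.1 p.2
  left_inv h := by
    funext i s
    fin_cases s <;> rfl
  right_inv p := rfl

theorem mk_ps_comm (x y : Fin (ρ + 1)) : (mk (ps x y) : OS ρ) = mk (ps y x) := by
  refine mk_eq.2 ⟨fun _ => Equiv.swap 0 1, Subgroup.mem_top _, fun i s => ?_⟩
  fin_cases s <;> rfl

theorem mk_ps_iff (x y x' y' : Fin (ρ + 1)) : (mk (ps x y) : OS ρ) = mk (ps x' y') ↔
    (x = x' ∧ y = y') ∨ (x = y' ∧ y = x') := by
  constructor
  · intro h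
    obtain ⟨σ, _, e⟩ := mk_eq.1 h
    have e0 : x' = ![x, y] (σ () 0) := e () 0
    have e1 : y' = ![x, y] (σ () 1) := e () 1
    have hne : σ () 0 ≠ σ () 1 := fun h => by
      have := (σ ()).injective h
      exact absurd this (by decide)
    generalize hs0 : σ () 0 = s0 at *
    generalize hs1 : σ () 1 = s1 at *
    fin_cases s0 <;> fin_cases s1
    · exact absurd rfl hne
    · exact Or.inl ⟨e0.symm, e1.symm⟩
    · exact Or.inr ⟨e1.symm, e0.symm⟩
    · exact absurd rfl hne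
  · rintro (⟨rfl, rfl⟩ | ⟨rfl, rfl⟩)
    · rfl
    · exact mk_ps_comm _ _

theorem mk_ps_out (o : OS ρ) : mk (ps (out o () 0) (out o () 1)) = o := by
  have h : ps (out o () 0) (out o () 1) = out o := (ES (ρ + 1)).left_inv (out o)
  rw [h, mk_out]

/-- the orbits are unordered pairs -/
noncomputable def EY (ρ : ℕ) : OS ρ ≃ Sym2 (Fin (ρ + 1)) where
  toFun o := s(out o () 0, out o () 1)
  invFun := Sym2.lift ⟨fun x y => mk (ps x y), fun x y => mk_ps_comm x y⟩
  left_inv o := by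
    rw [Sym2.lift_mk]
    exact mk_ps_out o
  right_inv z := by
    induction z with
    | _ x y =>
      rw [Sym2.lift_mk]
      have h := mk_ps_out (mk (ps x y) : OS ρ)
      rw [Sym2.eq_iff]
      exact (mk_ps_iff _ _ _ _).1 h

theorem card_OS : 2 * Fintype.card (OS ρ) = (ρ + 1) * (ρ + 2) := by
  rw [Fintype.card_congr (EY ρ), Sym2.card, Fintype.card_fin, Nat.choose_two_right,
    Nat.mul_div_cancel' (Nat.even_mul_pred_self _).two_dvd, mul_comm]
  rfl

/-- the matrix of the coordinates -/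
def mS {R : Type*} (q : Fin 1 → OS ρ → R) : Matrix (Fin (ρ + 1)) (Fin (ρ + 1)) R :=
  Matrix.of fun x y => q 0 (mk (ps x y))

theorem mS_symm {R : Type*} (q : Fin 1 → OS ρ → R) : (mS q)ᵀ = mS q := by
  ext x y
  show q 0 (mk (ps y x)) = q 0 (mk (ps x y))
  rw [mk_ps_comm]

theorem tm_S {R : Type*} [CommRing R] {B : Unit → Type} (q : Fin 1 → OS ρ → R)
    (b : ∀ i : Unit, Matrix (Fin (ρ + 1)) (B i) R) (f : ∀ i : Unit, Fin (kS i) → B i) (j : Fin 1) :
    tm q b (j, f) = ((b ())ᵀ * mS q * b ()) (f () 0) (f () 1) := by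
  have hj : j = 0 := Subsingleton.elim _ _
  subst hj
  have h1 : tm q b (0, f) = ∑ h : ∀ i : Unit, Fin (kS i) → Fin (ρ + 1),
      q 0 (mk h) * ∏ i, ∏ s, b i (h i s) (f i s) := by
    show (ex q * tp kS b : Matrix (Fin 1) (∀ i : Unit, Fin (kS i) → B i) R) 0 f = _
    rw [Matrix.mul_apply]
    rfl
  rw [h1, ← Equiv.sum_comp (ES (ρ + 1)).symm, Fintype.sum_prod_type_right, Matrix.mul_apply]
  refine sum_congr rfl fun y _ => ?_
  rw [Matrix.mul_apply, sum_mul]
  refine sum_congr rfl fun x _ => ?_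
  rw [Fintype.prod_unique, Fin.prod_univ_two]
  show q 0 (mk (ps x y)) * (b () x (f () 0) * b () y (f () 1)) =
    b () x (f () 0) * q 0 (mk (ps x y)) * b () y (f () 1)
  ring

theorem mS_ro {R : Type*} [CommRing R] (q : Fin 1 → OS ρ → R)
    (g : ∀ i : Unit, Matrix (Fin (rS ρ i + 1)) (Fin (rS ρ i + 1)) R) :
    mS (ro q g) = (g ())ᵀ * mS q * g () := by
  ext x y
  have h1 : mS (ro q g) x y = ex (ro q g) 0 (ps x y) := rfl
  rw [h1, ex_ro]
  exact tm_S q g (ps x y) 0

theorem mS_smul {R : Type*} [CommRing R] (c : R) (q : Fin 1 → OS ρ → R) :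
    mS (c • q) = c • mS q := rfl

/-- nondegenerate coordinates -/
def NS (q : Fin 1 → OS ρ → ℚ) : Prop := (mS q).det ≠ 0

theorem nn_S : NN (NS : (Fin 1 → OS ρ → ℚ) → Prop) := by
  refine ⟨?_, ?_, ?_⟩
  · intro q c hc h
    unfold NS
    rw [mS_smul, Matrix.det_smul]
    exact mul_ne_zero (pow_ne_zero _ hc) h
  · intro q g hg h
    unfold NS
    rw [mS_ro, Matrix.det_mul, Matrix.det_mul, Matrix.det_transpose]
    exact mul_ne_zero (mul_ne_zero (hg ()) h) (hg ())
  · intro q h h0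
    apply h
    rw [h0]
    have : mS (0 : Fin 1 → OS ρ → ℚ) = 0 := rfl
    rw [this]
    exact Matrix.det_zero

theorem nz_S {q : Fin 1 → OS ρ → ℤ} : NZ NS q ↔ (mS q).det ≠ 0 := by
  have h1 : mS (fun j o => ((q j o : ℤ) : ℚ)) = (mS q).map (Int.castRingHom ℚ) := rfl
  unfold NZ NS
  rw [h1, ← RingHom.mapMatrix_apply, ← RingHom.map_det]
  exact not_congr (by
    constructor
    · intro h
      exact Int.cast_injective (α := ℚ) (h.trans (Int.cast_zero).symm)
    · intro h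
      rw [h, map_zero])

theorem mo_S (A : ∀ i, Fin (rS ρ i + 1) → ℝ) (x y : Fin (ρ + 1)) :
    mo A (mk (ps x y) : OS ρ) = A () x * A () y := by
  rw [mo_mk]
  unfold mon
  rw [Fintype.prod_unique, Fin.prod_univ_two]
  rfl

theorem lx_S : LX 1 (rS ρ) kS ΓS (NS : (Fin 1 → OS ρ → ℚ) → Prop) := by
  refine ⟨2 ^ ρ * 2 ^ ρ, by positivity, ?_⟩
  intro q A Y X hq hA hmono hY hYA hX
  have h1 := nz_S.1 hq
  have h2 := pair_ineq (A := A ()) (A' := A ()) h1 (hA ()) (hA ()) (hmono ())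
    (hmono ()) (X := X) (fun x y => by
      have := hX 0 (mk (ps x y))
      rw [mo_S] at this
      exact this)
  have h3 := pair_prod (hA ()) (hA ()) h2
  rw [Fintype.prod_unique]
  have hX0 : 0 < X := by
    have := h2 0
    have h4 := mul_pos (hA () 0) (hA () (Fin.rev 0))
    have h5 : (0 : ℝ) < 2 ^ ρ * 2 ^ ρ := by positivity
    by_contra hc
    rw [not_lt] at hc
    nlinarith
  have h4 : (Y () * Y ()) ^ (ρ + 1) ≤ (2 ^ ρ * 2 ^ ρ * X) ^ (ρ + 1) := by
    rw [mul_pow]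
    refine le_trans ?_ h3
    exact mul_le_mul (hYA ()) (hYA ()) (pow_pos (hY _) _).le (prod_nonneg fun x _ => (hA _ _).le)
  have h5 := le_of_pow_le_pow_left₀ (by omega) (by positivity) h4
  show Y () ^ 2 ≤ _
  rw [sq]
  exact h5

/-- the sum of the exponents over the orbits -/
theorem ee_orb (hρ : 2 ≤ ρ) (a : Fin (ρ + 1) → ℤ) (ha : ∀ x y, x ≤ y → a x ≤ ρ + a y) :
    2 * ∑ o : OS ρ, ee a a (out o () 0) (out o () 1) ≤ 12 * Rx a +
      (24 * ρ * ((ρ + 1) * (ρ + 1)) + 24 * ρ * (ρ + 1) +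
        4 * ((ρ + 1) * (ρ * ρ) + 2 * ρ + ρ * ρ)) := by
  classical
  set P : Finset (Fin (ρ + 1) × Fin (ρ + 1)) :=
    (univ : Finset (OS ρ)).image fun o => (out o () 0, out o () 1) with hP
  set P' : Finset (Fin (ρ + 1) × Fin (ρ + 1)) :=
    (univ : Finset (OS ρ)).image fun o => (out o () 1, out o () 0) with hP'
  set F : Fin (ρ + 1) × Fin (ρ + 1) → ℤ := fun p => ee a a p.1 p.2 with hF
  have hF0 : ∀ p, 0 ≤ F p := fun p => ee_nonneg ha ha _ _
  have e1 : ∑ p ∈ P, F p = ∑ o : OS ρ, ee a a (out o () 0) (out o () 1) := by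
    rw [hP, sum_image]
    intro o _ o' _ h
    rw [← mk_ps_out o, ← mk_ps_out o']
    have h1 : out o () 0 = out o' () 0 := congrArg Prod.fst h
    have h2 : out o () 1 = out o' () 1 := congrArg Prod.snd h
    rw [h1, h2]
  have e2 : ∑ p ∈ P', F p = ∑ o : OS ρ, ee a a (out o () 0) (out o () 1) := by
    rw [hP', sum_image]
    · refine sum_congr rfl fun o _ => ?_
      exact ee_symm a _ _
    · intro o _ o' _ h
      rw [← mk_ps_out o, ← mk_ps_out o']
      have h1 : out o () 1 = out o' () 1 := congrArg Prod.fst h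
      have h2 : out o () 0 = out o' () 0 := congrArg Prod.snd h
      rw [h1, h2]
  have e3 := Finset.sum_union_inter (s₁ := P) (s₂ := P') (f := F)
  have e4 : ∑ p ∈ P ∪ P', F p ≤ ∑ x, ∑ y, ee a a x y := by
    rw [← Fintype.sum_prod_type']
    exact sum_le_sum_of_subset_of_nonneg (subset_univ _) fun p _ _ => hF0 p
  have e5 : ∑ p ∈ P ∩ P', F p ≤ ∑ x, ee a a x x := by
    have h1 : P ∩ P' ⊆ (univ : Finset (Fin (ρ + 1))).image fun x => (x, x) := by
      intro p hp
      rw [mem_inter, hP, hP', mem_image, mem_image] at hp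
      obtain ⟨⟨o, _, h1⟩, o', _, h2⟩ := hp
      have h3 : out o () 0 = out o' () 1 := congrArg Prod.fst (h1.trans h2.symm)
      have h4 : out o () 1 = out o' () 0 := congrArg Prod.snd (h1.trans h2.symm)
      have h5 : o = o' := by
        rw [← mk_ps_out o, ← mk_ps_out o', h3, h4]
        exact mk_ps_comm _ _
      rw [← h5] at h4
      rw [mem_image]
      refine ⟨out o () 0, mem_univ _, ?_⟩
      rw [← h1]
      exact Prod.ext rfl h4.symm
    refine (sum_le_sum_of_subset_of_nonneg h1 fun p _ _ => hF0 p).trans (le_of_eq ?_)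
    rw [sum_image]
    intro x _ y _ h
    exact congrArg Prod.fst h
  have e6 := ee_sum a a
  have e7 := ee_diag a
  have e8 := Dx_le hρ a ha
  linarith

theorem cq_S (hρ : 2 ≤ ρ) :
    CQ 1 kS (fun _ => ρ + 2) (rS ρ) ΓS (NZ (NS : (Fin 1 → OS ρ → ℚ) → Prop)) := by
  set c : ℤ := (24 * ρ * ((ρ + 1) * (ρ + 1)) + 24 * ρ * (ρ + 1) +
        4 * ((ρ + 1) * (ρ * ρ) + 2 * ρ + ρ * ρ)) with hc
  have hth := th_pos
  refine cq_of (fun i => by
    show (ρ + 1) * (ρ + 2) = 2 * Fintype.card (OS ρ)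
    rw [card_OS]) (C := th ^ (-c)) (by positivity) ?_
  intro a X hX ha q hq hqX
  have h1 := nz_S.1 hq
  have h2 := pair_ineq (A := fun x => (2 : ℝ) ^ (a () x)) (A' := fun x => (2 : ℝ) ^ (a () x)) h1
    (fun x => by positivity) (fun x => by positivity)
    (fun x y hxy => by
      rw [← zpow_natCast, ← zpow_add₀ (by norm_num)]
      exact zpow_le_zpow_right₀ (by norm_num) (ha () x y hxy))
    (fun x y hxy => by
      rw [← zpow_natCast, ← zpow_add₀ (by norm_num)]
      exact zpow_le_zpow_right₀ (by norm_num) (ha () x y hxy)) (X := X) (fun x y => by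
      have := hqX 0 (mk (ps x y))
      rw [mo_S] at this
      exact this)
  refine ⟨fun o => th ^ (-ee (a ()) (a ()) (out o () 0) (out o () 1)), fun o => ?_, fun o => ?_, ?_⟩
  · have h3 := ee_nonneg (ha ()) (ha ()) (out o () 0) (out o () 1)
    have h4 : th ^ (0 : ℤ) ≤ th ^ (-ee (a ()) (a ()) (out o () 0) (out o () 1)) :=
      zpow_le_zpow_right_of_le_one₀ th_pos th_lt.le (by linarith)
    rwa [zpow_zero] at h4
  · have h3 := ee_le (ha ()) (ha ()) hX h2 (out o () 0) (out o () 1)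
    have h4 : mo (fun i x => (2 : ℝ) ^ (a i x)) o =
        (2 : ℝ) ^ (a () (out o () 0)) * 2 ^ (a () (out o () 1)) := by
      conv_lhs => rw [← mk_ps_out o]
      rw [mo_S]
    rw [h4]
    exact h3
  · rw [pow_one]
    have h3 : ∏ o : OS ρ, th ^ (-ee (a ()) (a ()) (out o () 0) (out o () 1)) =
        th ^ (-∑ o : OS ρ, ee (a ()) (a ()) (out o () 0) (out o () 1)) := by
      rw [← Finset.sum_neg_distrib]
      exact prod_th _ _
    rw [h3, Fintype.prod_unique, ← zpow_add₀ th_ne]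
    apply zpow_le_zpow_right_of_le_one₀ th_pos th_lt.le
    have h4 := ee_orb hρ (a ()) (ha ())
    rw [← hc] at h4
    have hc0 : 0 ≤ c := by rw [hc]; positivity
    show -c + -(6 * Rx (a ())) ≤ _
    linarith

/-- **symmetric matrices of a given rank** -/
theorem main_S (hρ : 2 ≤ ρ) {N e : Unit → ℕ} (hN : ∀ i, ρ + 1 < N i) (he : ∀ i, N i = ρ + 2 + e i)
    {J : Type} [Fintype J] (eT : J ≃ Fin 1 × (∀ i : Unit, Fin (kS i) → Fin (N i)))
    (S : Finset Nat.Primes)
    (φ₀ : (∀ i : Unit, (Fin (rS ρ i + 1) → Fin (N i)) → ℝ) → (J → ℝ) → ℝ)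
    (h₀ : LF 1 (rS ρ) N kS ΓS eT φ₀)
    (φ : ∀ p : Nat.Primes, (∀ i : Unit, (Fin (rS ρ i + 1) → Fin (N i)) → ℚ_[p]) → (J → ℚ_[p]) → ℝ)
    (h : ∀ p ∈ S, LF 1 (rS ρ) N kS ΓS eT (φ p)) :
    ∃ c : ℝ, 0 < c ∧ Tendsto (fun B : ℝ => ({P : PP (rS ρ) N J |
      P ∈ UU eT (NS : (Fin 1 → OS ρ → ℚ) → Prop) ∧
      Hp 1 (rS ρ) N kS e ΓS S φ₀ φ P ≤ B}.ncard : ℝ) / (B * Real.log B)) atTop (𝓝 c) := by
  have hcard := card_OS (ρ := ρ)
  have hnm : Nm 1 (rS ρ) N kS (fun _ => ρ + 2) e ΓS := by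
    refine ⟨fun i => hN i, fun i => ?_, fun i => ?_, ?_⟩
    · show (ρ + 1) * (ρ + 2) = 2 * Fintype.card (OS ρ)
      rw [hcard]
    · have := he i; omega
    · show 2 ≤ 1 * Fintype.card (OS ρ)
      nlinarith
  have hDn : Dn (NS : (Fin 1 → OS ρ → ℚ) → Prop) := by
    classical
    refine dn_poly (f := fun u => (Matrix.of fun x y => u (0, mk (ps x y)) :
      Matrix (Fin (ρ + 1)) (Fin (ρ + 1)) ℝ).det) (poly_det _ fun i j => IsPoly.coord _)
      (y₀ := fun y => if out y.2 () 0 = out y.2 () 1 then 1 else 0) ?_ ?_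
    · have h1 : (Matrix.of fun x y => (fun y : Fin 1 × OS ρ =>
          if out y.2 () 0 = out y.2 () 1 then (1 : ℝ) else 0) (0, mk (ps x y)) :
          Matrix (Fin (ρ + 1)) (Fin (ρ + 1)) ℝ) = 1 := by
        ext x y
        have h2 := (mk_ps_iff _ _ _ _).1 (mk_ps_out (mk (ps x y) : OS ρ))
        show (if out (mk (ps x y) : OS ρ) () 0 = out (mk (ps x y) : OS ρ) () 1 then (1 : ℝ) else 0) = _
        rw [Matrix.one_apply]
        rcases h2 with ⟨h2, h3⟩ | ⟨h2, h3⟩
        · rw [h2, h3]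
        · rw [h2, h3]
          by_cases hxy : x = y
          · rw [if_pos hxy, if_pos hxy.symm]
          · rw [if_neg hxy, if_neg fun h => hxy h.symm]
      rw [h1, Matrix.det_one]
      exact one_ne_zero
    · intro q hq
      have h1 : (mS q).det = 0 := by
        by_contra hc
        exact hq (nz_S.2 hc)
      have h2 : (Matrix.of fun x y => (fun y : Fin 1 × OS ρ => (q y.1 y.2 : ℝ)) (0, mk (ps x y)) :
          Matrix (Fin (ρ + 1)) (Fin (ρ + 1)) ℝ) = (Int.castRingHom ℝ).mapMatrix (mS q) := rfl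
      rw [h2, ← RingHom.map_det, h1, map_zero]
  have := main_all hnm nn_S hDn (cq_S hρ) lx_S eT S φ₀ h₀ φ h
  rw [Fintype.card_unit] at this
  simp only [pow_one] at this
  exact this

end Pool.Agent.K6.H78.GN
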