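import Pool.Agent.K6.H78.GN.Ms
import Pool.Agent.K6.H78.GN.Mc

/-!
Symmetric matrices of a given rank: concrete form.
-/

set_option autoImplicit false
set_option linter.unusedSectionVars false
set_option linter.unusedVariables false
set_option linter.deprecated false

namespace Pool.Agent.K6.H78.GN

open Finset Matrix Filter Topology
open Pool.Agent.K6.H78.MR (pl)

/-- the dimensions -/
abbrev NU (N : ℕ) : Unit → ℕ := fun _ => N

/-- the entries of matrices as tensors -/
def eS (N : ℕ) : Fin N × Fin N ≃ Fin 1 × (∀ i : Unit, Fin (kS i) → Fin (NU N i)) where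
  toFun p := (0, ps p.1 p.2)
  invFun f := (f.2 () 0, f.2 () 1)
  left_inv p := rfl
  right_inv f := by
    obtain ⟨j, f⟩ := f
    refine Prod.ext (Subsingleton.elim _ _) ?_
    exact (ES N).left_inv f

variable {ρ N : ℕ}

theorem tj_S {R : Type*} [CommRing R] (q : Fin 1 → OS ρ → R)
    (b : ∀ i : Unit, Matrix (Fin (rS ρ i + 1)) (Fin (NU N i)) R) (y : Fin N × Fin N) :
    tj (eS N) q b y = ((b ())ᵀ * mS q * b ()) y.1 y.2 :=
  tm_S q b _ 0

/-- every symmetric matrix is a matrix of coordinates -/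
theorem mS_surj {R : Type*} (Q : Matrix (Fin (ρ + 1)) (Fin (ρ + 1)) R) (hQ : Qᵀ = Q) :
    ∃ q : Fin 1 → OS ρ → R, mS q = Q := by
  refine ⟨fun _ o => Q (out o () 0) (out o () 1), ?_⟩
  ext x y
  show Q (out (mk (ps x y) : OS ρ) () 0) (out (mk (ps x y) : OS ρ) () 1) = Q x y
  rcases (mk_ps_iff _ _ _ _).1 (mk_ps_out (mk (ps x y) : OS ρ)) with ⟨h2, h3⟩ | ⟨h2, h3⟩
  · rw [h2, h3]
  · rw [h2, h3]
    exact congrFun (congrFun hQ x) y

/-- the two projective spaces -/
def EQ (ρ N : ℕ) : PP (rS ρ) (NU N) (Fin N × Fin N) ≃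
    Projectivization ℚ ((Fin (ρ + 1) → Fin N) → ℚ) × Projectivization ℚ (Fin N × Fin N → ℚ) where
  toFun P := (P.1 (), P.2)
  invFun p := (fun _ => p.1, p.2)
  left_inv P := rfl
  right_inv p := rfl

end Pool.Agent.K6.H78.GN
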