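import Pool.Agent.K6.H78.GN.Sy

/-!
The assumptions of the frame.
-/

set_option autoImplicit false
set_option linter.unusedSectionVars false
set_option linter.unusedVariables false
set_option linter.deprecated false

namespace Pool.Agent.K6.H78.GN

open Finset Matrix MeasureTheory
open Pool.Agent.K6.H78.MF (Pm exists_pm pm_unique pm_iff IsPoly)
open Pool.Agent.K6.H78.FR (cr sc sd tt Sys)
open Pool.Agent.K6.H78.MR (pl pl_mul pl_map dual_of_pm det_unit gR gR_mul gR_one gR_inv_mul gR_mul_inv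
  gR_det gR_det_ne cq cq_ne proj_eq pm_rel e_ne e_pm det_one_unit pl_smul cont_pl sb pl_sb card_mat
  card_pl0 pl_norm_gl pl_ne_mul)

variable {I : Type} [Fintype I] [DecidableEq I] {m : ℕ} {r N k : I → ℕ}
  {Γ : Subgroup (∀ i, Equiv.Perm (Fin (k i)))} {J : Type} [Fintype J]
  {eT : J ≃ Fin m × (∀ i, Fin (k i) → Fin (N i))} {𝒩 : (Fin m → OI k Γ r → ℚ) → Prop}
  {hne : Nonempty (PP r N J)}

theorem cont_bm (i : I) : Continuous fun u : Ix m r N k Γ → ℝ => bm u i := by
  refine continuous_matrix fun x l => ?_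
  exact continuous_apply _

theorem cont_qv : Continuous fun u : Ix m r N k Γ → ℝ => qv u := by
  unfold qv
  fun_prop

theorem cont_plb (i : I) : Continuous fun u : Ix m r N k Γ → ℝ => pl (bm u i) :=
  cont_pl.comp (cont_bm i)

instance : Nonempty (OI k Γ r) := ⟨mk fun _ _ => 0⟩

theorem card_Ix : Fintype.card (Ix m r N k Γ) =
    (∑ i, (r i + 1) * N i) + m * Fintype.card (OI k Γ r) := by
  rw [Fintype.card_sum, Fintype.card_sigma, Fintype.card_prod, Fintype.card_fin]
  congr 1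
  refine sum_congr rfl fun i _ => ?_
  rw [Fintype.card_prod, Fintype.card_fin, Fintype.card_fin]

theorem tp_card_aux (hrN : ∀ i, r i + 1 < N i) (hM : 2 ≤ m * Fintype.card (OI k Γ r)) (p : ℕ)
    (hp : p.Prime) : ((((sys m r N k Γ eT 𝒩 hne).Tp p)ᶜ).ncard : ℝ) * (p : ℝ) ^ 2 ≤
      ((∑ i, (r i + 1) + 1 : ℕ) : ℝ) * (p : ℝ) ^ Fintype.card (Ix m r N k Γ) := by
  classical
  have : Fact p.Prime := ⟨hp⟩
  set BB := ∀ i, Matrix (Fin (r i + 1)) (Fin (N i)) (ZMod p) with hBB
  set QQ := Fin m → OI k Γ r → ZMod p with hQQ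
  set g₁ : BB × QQ → (Ix m r N k Γ → ZMod p) := fun x => gl x.1 x.2 with hg₁
  set S : I → Finset BB := fun i => Fintype.piFinset fun i' =>
    univ.filter fun b : Matrix (Fin (r i' + 1)) (Fin (N i')) (ZMod p) => i' = i → pl b = 0 with hS
  have hsub : ((sys m r N k Γ eT 𝒩 hne).Tp p)ᶜ ⊆
      (⋃ i ∈ (univ : Finset I), g₁ '' ((S i : Set BB) ×ˢ Set.univ)) ∪ g₁ '' (Set.univ ×ˢ {0}) := by
    intro t ht
    have h1 : (∃ i, pl (bm t i) = 0) ∨ qv t = 0 := by
      by_contra hcon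
      push Not at hcon
      exact ht hcon
    rcases h1 with ⟨i, h1⟩ | h1
    · left
      rw [Set.mem_iUnion₂]
      refine ⟨i, mem_univ i, (bm t, qm t), ⟨?_, Set.mem_univ _⟩, gl_eq t⟩
      rw [mem_coe, hS, Fintype.mem_piFinset]
      intro i'
      rw [mem_filter]
      refine ⟨mem_univ _, ?_⟩
      rintro rfl
      exact h1
    · right
      refine ⟨(bm t, qm t), ⟨Set.mem_univ _, ?_⟩, gl_eq t⟩
      by_contra h2
      exact qv_ne.2 h2 h1
  set P : I → ℕ := fun i => p ^ ((r i + 1) * N i) with hP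
  have hcm : ∀ i, Fintype.card (Matrix (Fin (r i + 1)) (Fin (N i)) (ZMod p)) = P i := by
    intro i
    rw [← Nat.card_eq_fintype_card, card_mat]
  have hcB : Nat.card BB = ∏ i, P i := by
    rw [Nat.card_eq_fintype_card, Fintype.card_pi]
    exact prod_congr rfl fun i _ => hcm i
  have hcQ : Nat.card QQ = p ^ (m * Fintype.card (OI k Γ r)) := by
    rw [Nat.card_eq_fintype_card, Fintype.card_fun, Fintype.card_fun, ZMod.card, Fintype.card_fin,
      ← pow_mul, mul_comm]
  have hSc : ∀ i, (S i).card * p ^ 2 ≤ (r i + 1) * ∏ i', P i' := by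
    intro i
    rw [hS, Fintype.card_piFinset, ← Finset.mul_prod_erase univ _ (mem_univ i),
      ← Finset.mul_prod_erase univ P (mem_univ i)]
    have h1 : (univ.filter fun b : Matrix (Fin (r i + 1)) (Fin (N i)) (ZMod p) => i = i → pl b = 0).card *
        p ^ 2 ≤ (r i + 1) * P i := by
      have h2 : (univ.filter fun b : Matrix (Fin (r i + 1)) (Fin (N i)) (ZMod p) => i = i → pl b = 0).card ≤
          (r i + 1) * p ^ (r i + r i * N i) := by
        have h3 := card_pl0 (r i) (N i) p hp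
        rw [Set.ncard_eq_toFinset_card'] at h3
        refine le_trans (le_of_eq ?_) h3
        congr 1
        ext b
        simp
      calc _ ≤ (r i + 1) * p ^ (r i + r i * N i) * p ^ 2 := Nat.mul_le_mul_right _ h2
        _ = (r i + 1) * (p ^ (r i + r i * N i) * p ^ 2) := by ring
        _ ≤ (r i + 1) * P i := by
            apply Nat.mul_le_mul_left
            rw [← pow_add]
            apply Nat.pow_le_pow_right hp.pos
            have := hrN i
            nlinarith
    have h2 : ∏ i' ∈ univ.erase i, (univ.filter fun b : Matrix (Fin (r i' + 1)) (Fin (N i')) (ZMod p) =>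
        i' = i → pl b = 0).card ≤ ∏ i' ∈ univ.erase i, P i' := by
      refine Finset.prod_le_prod' fun i' _ => ?_
      rw [← hcm i']
      exact Finset.card_filter_le _ _
    calc _ = ((univ.filter fun b : Matrix (Fin (r i + 1)) (Fin (N i)) (ZMod p) => i = i → pl b = 0).card *
        p ^ 2) * ∏ i' ∈ univ.erase i, (univ.filter fun b : Matrix (Fin (r i' + 1)) (Fin (N i')) (ZMod p) =>
        i' = i → pl b = 0).card := by ring
      _ ≤ ((r i + 1) * P i) * ∏ i' ∈ univ.erase i, P i' := Nat.mul_le_mul h1 h2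
      _ = _ := by ring
  have h2 : ∀ i, (g₁ '' ((S i : Set BB) ×ˢ Set.univ)).ncard * p ^ 2 ≤
      (r i + 1) * p ^ Fintype.card (Ix m r N k Γ) := by
    intro i
    have h3 : (g₁ '' ((S i : Set BB) ×ˢ Set.univ)).ncard ≤
        (S i).card * p ^ (m * Fintype.card (OI k Γ r)) := by
      refine (Set.ncard_image_le (Set.toFinite _)).trans ?_
      rw [Set.ncard_prod, Set.ncard_univ, hcQ, Set.ncard_coe_finset]
    rw [card_Ix, pow_add]
    have h4 : p ^ (∑ i, (r i + 1) * N i) = ∏ i, P i := (Finset.prod_pow_eq_pow_sum _ _ _).symm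
    rw [h4]
    calc _ ≤ (S i).card * p ^ (m * Fintype.card (OI k Γ r)) * p ^ 2 := Nat.mul_le_mul_right _ h3
      _ = ((S i).card * p ^ 2) * p ^ (m * Fintype.card (OI k Γ r)) := by ring
      _ ≤ ((r i + 1) * ∏ i', P i') * p ^ (m * Fintype.card (OI k Γ r)) :=
          Nat.mul_le_mul_right _ (hSc i)
      _ = _ := by ring
  have h3 : (g₁ '' (Set.univ ×ˢ {0})).ncard * p ^ 2 ≤ p ^ Fintype.card (Ix m r N k Γ) := by
    have h3 : (g₁ '' (Set.univ ×ˢ {0})).ncard ≤ ∏ i, P i := by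
      refine (Set.ncard_image_le (Set.toFinite _)).trans ?_
      rw [Set.ncard_prod, Set.ncard_univ, hcB, Set.ncard_singleton, mul_one]
    rw [card_Ix, pow_add]
    have h4 : p ^ (∑ i, (r i + 1) * N i) = ∏ i, P i := (Finset.prod_pow_eq_pow_sum _ _ _).symm
    rw [h4]
    exact Nat.mul_le_mul h3 (Nat.pow_le_pow_right hp.pos hM)
  have h4 : (((sys m r N k Γ eT 𝒩 hne).Tp p)ᶜ).ncard ≤
      (∑ i, (g₁ '' ((S i : Set BB) ×ˢ Set.univ)).ncard) + (g₁ '' (Set.univ ×ˢ {0})).ncard := by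
    refine (Set.ncard_le_ncard hsub (Set.toFinite _)).trans ((Set.ncard_union_le _ _).trans ?_)
    apply Nat.add_le_add_right
    have h5 : ∀ T : Finset I, (⋃ i ∈ T, g₁ '' ((S i : Set BB) ×ˢ Set.univ)).ncard ≤
        ∑ i ∈ T, (g₁ '' ((S i : Set BB) ×ˢ Set.univ)).ncard := by
      intro T
      induction T using Finset.induction_on with
      | empty => simp
      | insert a T ha ih =>
        rw [Finset.set_biUnion_insert, sum_insert ha]
        exact (Set.ncard_union_le _ _).trans (Nat.add_le_add_left ih _)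
    exact h5 univ
  have h5 : (((sys m r N k Γ eT 𝒩 hne).Tp p)ᶜ).ncard * p ^ 2 ≤
      (∑ i, (r i + 1) + 1) * p ^ Fintype.card (Ix m r N k Γ) := by
    calc _ ≤ ((∑ i, (g₁ '' ((S i : Set BB) ×ˢ Set.univ)).ncard) + (g₁ '' (Set.univ ×ˢ {0})).ncard) *
        p ^ 2 := Nat.mul_le_mul_right _ h4
      _ = (∑ i, (g₁ '' ((S i : Set BB) ×ˢ Set.univ)).ncard * p ^ 2) +
          (g₁ '' (Set.univ ×ˢ {0})).ncard * p ^ 2 := by rw [add_mul, Finset.sum_mul]
      _ ≤ (∑ i, (r i + 1) * p ^ Fintype.card (Ix m r N k Γ)) + p ^ Fintype.card (Ix m r N k Γ) :=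
          Nat.add_le_add (sum_le_sum fun i _ => h2 i) h3
      _ = _ := by rw [← Finset.sum_mul]; ring
  exact_mod_cast h5

theorem ok (hNN : NN 𝒩) (hrN : ∀ i, r i + 1 < N i) (hM : 2 ≤ m * Fintype.card (OI k Γ r)) :
    (sys m r N k Γ eT 𝒩 hne).Ok := by
  classical
  have hm : 1 ≤ m := by
    rcases Nat.eq_zero_or_pos m with h | h
    · rw [h, zero_mul] at hM
      omega
    · exact h
  refine ⟨?_, ?_, ?_, ?_, ?_, ?_, ?_, ?_, ?_, ?_, ?_, ?_, ?_, ?_, ?_, ?_, ?_⟩
  · intro β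
    cases β with
    | none => exact ⟨Sum.inr (⟨0, hm⟩, mk fun _ _ => 0), rfl⟩
    | some i => exact ⟨Sum.inl ⟨i, (0, ⟨0, by have := hrN i; omega⟩)⟩, rfl⟩
  · intro p hp
    have : Fact p.Prime := ⟨hp⟩
    refine ⟨gl (fun i => sb (ZMod p) (r i + 1) (N i)) (fun _ _ => 1), ?_, ?_⟩
    · intro i h
      have h1 := congrFun h (Fin.castLE (hrN i).le)
      rw [bm_gl, pl_sb] at h1
      exact one_ne_zero h1
    · intro h
      have h1 := congrFun h (⟨0, hm⟩, mk fun _ _ => 0)
      exact one_ne_zero h1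
  · exact ⟨_, fun p hp => tp_card_aux hrN hM p hp⟩
  · have e : (sys m r N k Γ eT 𝒩 hne).Om = (⋂ i, {u | pl (bm u i) ≠ 0}) ∩ {u | qv u ≠ 0} := by
      ext u
      rw [Set.mem_inter_iff, Set.mem_iInter]
      rfl
    rw [e]
    exact (isOpen_iInter_of_finite fun i => isOpen_ne_fun (cont_plb i) continuous_const).inter
      (isOpen_ne_fun cont_qv continuous_const)
  · intro a ha u hu
    refine ⟨fun i => ?_, ?_⟩
    · rw [bm_sc]
      obtain ⟨f, hf⟩ := Function.ne_iff.1 (hu.1 i)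
      intro h0
      have := congrFun h0 f
      rw [pl_smul] at this
      exact mul_ne_zero (pow_ne_zero _ (ha (some i)).ne') hf this
    · rw [qv_sc]
      exact smul_ne_zero (ha none).ne' hu.2
  · intro z hz
    have hg := good_iff.1 hz
    refine ⟨fun i => pl_cr_ne.2 (hg.1 i).ne, ?_⟩
    intro h0
    apply hg.2.1.ne
    funext x
    have h1 : ((z (Sum.inr x) : ℤ) : ℝ) = 0 := congrFun h0 x
    show z (Sum.inr x) = 0
    exact_mod_cast h1
  · intro g
    have hcan : ∀ (g g' : GG r), g * g' = 1 → ∀ u, (sys m r N k Γ eT 𝒩 hne).act g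
        ((sys m r N k Γ eT 𝒩 hne).act g' u) = u := by
      intro g g' hgg u
      have h1 : ∀ i, g.1 i * g'.1 i = 1 := fun i => congrFun (congrArg Prod.fst hgg) i
      have h2 : g.2 * g'.2 = 1 := congrArg Prod.snd hgg
      show ac (fun i => gR (g.1 i)) (fun i => gR (g.1 i)⁻¹) ((g.2 : ℤ) : ℝ)
        (ac (fun i => gR (g'.1 i)) (fun i => gR (g'.1 i)⁻¹) ((g'.2 : ℤ) : ℝ) u) = u
      rw [← ac_mul]
      have e1 : (fun i => gR (g.1 i) * gR (g'.1 i)) = fun i => 1 := by
        funext i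
        rw [← gR_mul, h1, gR_one]
      have e2 : (fun i => gR (g'.1 i)⁻¹ * gR (g.1 i)⁻¹) = fun i => 1 := by
        funext i
        rw [← gR_mul, ← _root_.mul_inv_rev, h1, inv_one, gR_one]
      have e3 : ((g.2 : ℤ) : ℝ) * ((g'.2 : ℤ) : ℝ) = 1 := by
        rw [← Int.cast_mul, ← Units.val_mul, h2]; simp
      rw [e1, e2, e3, ac_one]
    refine ⟨{ toFun := (sys m r N k Γ eT 𝒩 hne).act g, map_add' := ?_, map_smul' := ?_,
              invFun := (sys m r N k Γ eT 𝒩 hne).act g⁻¹,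
              left_inv := hcan _ _ (inv_mul_cancel g),
              right_inv := hcan _ _ (mul_inv_cancel g) }, fun u => rfl⟩
    · intro u v
      funext x
      rcases x with ⟨i, x, l⟩ | ⟨j, o⟩
      · show ((gR (g.1 i)) * (bm (u + v) i)) x l = ((gR (g.1 i)) * (bm u i)) x l + ((gR (g.1 i)) * (bm v i)) x l
        have e1 : bm (u + v) i = bm u i + bm v i := rfl
        rw [e1, Matrix.mul_add]
        rfl
      · have e2 : qm (u + v) = qm u + qm v := rfl
        show (_ • ro (qm (u + v)) _) j o = (_ • ro (qm u) _) j o + (_ • ro (qm v) _) j o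
        rw [e2, ro_add, smul_add]
        rfl
    · intro c u
      funext x
      rcases x with ⟨i, x, l⟩ | ⟨j, o⟩
      · show ((gR (g.1 i)) * (bm (c • u) i)) x l = c * ((gR (g.1 i)) * (bm u i)) x l
        have e1 : bm (c • u) i = c • bm u i := rfl
        rw [e1, Matrix.mul_smul]
        rfl
      · have e2 : qm (c • u) = c • qm u := rfl
        show (_ • ro (qm (c • u)) _) j o = c * (_ • ro (qm u) _) j o
        rw [e2, ro_smul, smul_comm]
        rfl
  · intro g z
    funext x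
    rcases x with ⟨i, x, l⟩ | ⟨j, o⟩
    · show ((((g.1 i : Matrix (Fin (r i + 1)) (Fin (r i + 1)) ℤ) * bm z i) x l : ℤ) : ℝ) =
        ((gR (g.1 i)) * (bm (cr z) i)) x l
      have h1 : gR (g.1 i) * bm (cr z) i =
          ((g.1 i : Matrix (Fin (r i + 1)) (Fin (r i + 1)) ℤ) * bm z i).map (Int.castRingHom ℝ) := by
        rw [Matrix.map_mul]
        rfl
      rw [h1]
      rfl
    · have h1 := ro_map (Int.castRingHom ℝ) (qm z) (fun i => (((g.1 i)⁻¹ :
        (Matrix (Fin (r i + 1)) (Fin (r i + 1)) ℤ)ˣ) : Matrix (Fin (r i + 1)) (Fin (r i + 1)) ℤ))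
      show ((((g.2 : ℤ) * ro (qm z) _ j o : ℤ)) : ℝ) = ((g.2 : ℤ) : ℝ) * ro (qm (cr z)) _ j o
      rw [Int.cast_mul]
      congr 1
      exact (congrFun (congrFun h1 j) o).symm
  · intro g a u
    funext x
    rcases x with ⟨i, x, l⟩ | ⟨j, o⟩
    · show ((gR (g.1 i)) * (a (some i) • bm u i)) x l = a (some i) * ((gR (g.1 i)) * bm u i) x l
      rw [Matrix.mul_smul]
      rfl
    · show (_ • ro (a none • qm u) _) j o = a none * (_ • ro (qm u) _) j o
      rw [ro_smul, smul_comm]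
      rfl
  · intro g h u
    show ac (fun i => gR (g.1 i * h.1 i)) (fun i => gR (g.1 i * h.1 i)⁻¹) (((g.2 * h.2 : ℤˣ) : ℤ) : ℝ) u = _
    have e1 : (fun i => gR (g.1 i * h.1 i)) = fun i => gR (g.1 i) * gR (h.1 i) := by
      funext i; rw [gR_mul]
    have e2 : (fun i => gR (g.1 i * h.1 i)⁻¹) = fun i => gR (h.1 i)⁻¹ * gR (g.1 i)⁻¹ := by
      funext i; rw [_root_.mul_inv_rev, gR_mul]
    rw [e1, e2, Units.val_mul, Int.cast_mul, ac_mul]
    rfl
  · intro u
    show ac (fun i => gR 1) (fun i => gR 1⁻¹) (((1 : ℤˣ) : ℤ) : ℝ) u = u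
    simp only [inv_one, gR_one, Units.val_one, Int.cast_one]
    exact ac_one u
  · intro g u hu
    refine ⟨fun i => pl_ne_mul (hu.1 i) (gR_det_ne (g.1 i)), ?_⟩
    rw [qv_ne]
    exact ro_ne (qv_ne.1 hu.2) (fun i => gR_inv_mul (g.1 i)) (e_ne g.2)
  · intro g z hz
    exact good_iff.2 ((good_iff.1 hz).ac hNN g)
  · intro g z hz h
    exact ac_free (good_iff.1 hz) h
  · intro z z' hz hz'
    have h1 := good_iff.1 hz
    have h1' := good_iff.1 hz'
    constructor
    · intro he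
      have h2 := h1'.pt_spec (eT := eT) (hne := hne)
      rw [he] at h2
      exact rep_rel h1 h1' h1.pt_spec h2
    · rintro ⟨g, rfl⟩
      exact h1'.pt_spec.pt_unique (h1.pt_spec.ac g)
  · intro β hβ a ha u hu
    cases β with
    | none => exact absurd rfl hβ
    | some i =>
      show (1 / ((r i + 1 : ℕ) : ℝ)) * Real.log ‖pl (bm (sc (sys m r N k Γ eT 𝒩 hne).bk a u) i)‖ =
        (1 / ((r i + 1 : ℕ) : ℝ)) * Real.log ‖pl (bm u i)‖ + Real.log (a (some i))
      have hr0 : (0 : ℝ) < ((r i + 1 : ℕ) : ℝ) := by positivity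
      rw [bm_sc, pl_smul]
      have h1 : (fun f => a (some i) ^ (r i + 1) * pl (bm u i) f) = a (some i) ^ (r i + 1) • pl (bm u i) := rfl
      rw [h1, norm_smul, Real.log_mul (norm_ne_zero_iff.2 (pow_ne_zero _ (ha (some i)).ne'))
        (norm_ne_zero_iff.2 (hu.1 i)), norm_pow, Real.log_pow, Real.norm_eq_abs, abs_of_pos (ha (some i))]
      field_simp
      ring
  · intro β hβ g u hu
    cases β with
    | none => exact absurd rfl hβ
    | some i =>
      show (1 / ((r i + 1 : ℕ) : ℝ)) * Real.log ‖pl (gR (g.1 i) * bm u i)‖ =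
        (1 / ((r i + 1 : ℕ) : ℝ)) * Real.log ‖pl (bm u i)‖
      rw [pl_norm_gl (gR_det (g.1 i))]

end Pool.Agent.K6.H78.GN
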