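import Pool.Agent.K6.H78.GN.Crt

/-!
Zeros of polynomials in boxes.
-/

set_option autoImplicit false
set_option linter.unusedSectionVars false
set_option linter.unusedVariables false
set_option linter.deprecated false

namespace Pool.Agent.K6.H78.GN

open Finset
open Pool.Agent.K6.H78.MF (IsPoly)

/-- the number of zeros of a polynomial in a box -/
theorem poly_count {J : Type} [Fintype J] {f : (J → ℝ) → ℝ} (hf : IsPoly f) {y₀ : J → ℝ}
    (h0 : f y₀ ≠ 0) : ∃ C : ℝ, 0 < C ∧ ∀ Z : ℝ, 1 ≤ Z →
      ({q : J → ℤ | (∀ j, |(q j : ℝ)| ≤ Z) ∧ f (fun j => (q j : ℝ)) = 0}.ncard : ℝ) * Z ≤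
        C * Z ^ Fintype.card J := by
  classical
  obtain ⟨P, hP⟩ := hf
  set n := Fintype.card J with hn
  set E : J ≃ Fin n := Fintype.equivFin J with hE
  set P' : MvPolynomial (Fin n) ℂ := MvPolynomial.rename E P with hP'
  have hev : ∀ x : Fin n → ℂ, MvPolynomial.eval x P' = MvPolynomial.eval (fun j => x (E j)) P := by
    intro x
    rw [hP', MvPolynomial.eval_rename]
    rfl
  have hP0 : P' ≠ 0 := by
    intro h
    apply h0
    have h1 := hP y₀
    have h2 := hev (fun i => (y₀ (E.symm i) : ℂ))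
    rw [h, map_zero] at h2
    simp only [Equiv.symm_apply_apply] at h2
    rw [← h2] at h1
    exact_mod_cast h1
  refine ⟨(P'.totalDegree + 1) * 3 ^ n, by positivity, fun Z hZ => ?_⟩
  set B : ℤ := ⌊Z⌋ with hB
  have hB1 : 1 ≤ B := by rw [hB]; exact Int.le_floor.2 (by exact_mod_cast hZ)
  have hBZ : (B : ℝ) ≤ Z := Int.floor_le Z
  have hZB : Z < B + 1 := Int.lt_floor_add_one Z
  set S : Finset ℂ := (Icc (-B) B).image (fun n : ℤ => (n : ℂ)) with hS
  have hScard : S.card = (2 * B + 1).toNat := by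
    rw [hS, Finset.card_image_of_injective _ Int.cast_injective, Int.card_Icc]
    congr 1
    ring
  have hScardR : (S.card : ℝ) = 2 * B + 1 := by
    rw [hScard]
    have h1 : ((2 * B + 1).toNat : ℤ) = 2 * B + 1 := Int.toNat_of_nonneg (by omega)
    have h2 : (((2 * B + 1).toNat : ℤ) : ℝ) = 2 * B + 1 := by rw [h1]; push_cast; ring
    exact_mod_cast h2
  have hSpos : 0 < (S.card : ℝ) := by rw [hScardR]; have : (1 : ℝ) ≤ B := by exact_mod_cast hB1
                                      linarith
  have hSZ : Z ≤ S.card := by rw [hScardR]; have : (1 : ℝ) ≤ B := by exact_mod_cast hB1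
                              linarith
  have hSZ' : (S.card : ℝ) ≤ 3 * Z := by rw [hScardR]; linarith
  have hsz := MvPolynomial.schwartz_zippel_totalDegree hP0 S
  set Fz := (Fintype.piFinset fun _ : Fin n => S).filter fun x => MvPolynomial.eval x P' = 0 with hFz
  have hsz' : (Fz.card : ℝ) / (S.card : ℝ) ^ n ≤ P'.totalDegree / S.card := by
    have h1 : (((Fz.card / (S.card : ℚ≥0) ^ n : ℚ≥0) : ℚ) : ℝ) ≤
        (((P'.totalDegree / S.card : ℚ≥0) : ℚ) : ℝ) := by exact_mod_cast hsz
    push_cast at h1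
    exact h1
  have hle : {q : J → ℤ | (∀ j, |(q j : ℝ)| ≤ Z) ∧ f (fun j => (q j : ℝ)) = 0}.ncard ≤ Fz.card := by
    rw [← Set.ncard_coe_finset]
    refine Set.ncard_le_ncard_of_injOn (fun q i => ((q (E.symm i) : ℤ) : ℂ)) ?_ ?_ Fz.finite_toSet
    · rintro q ⟨h1, h2⟩
      rw [Finset.mem_coe, hFz, mem_filter, Fintype.mem_piFinset]
      constructor
      · intro i
        rw [hS, mem_image]
        refine ⟨q (E.symm i), ?_, rfl⟩
        rw [mem_Icc]
        have h3 := abs_le.1 (h1 (E.symm i))
        constructor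
        · rw [neg_le]
          apply Int.le_floor.2
          push_cast
          linarith
        · exact Int.le_floor.2 h3.2
      · rw [hev]
        simp only [Equiv.symm_apply_apply]
        have h3 := hP (fun j => (q j : ℝ))
        rw [h2] at h3
        simp only [Complex.ofReal_intCast, Complex.ofReal_zero] at h3
        exact h3.symm
    · intro q _ q' _ he
      funext j
      have h1 := congrFun he (E j)
      simp only [Equiv.symm_apply_apply] at h1
      exact_mod_cast h1
  have h3 : (Fz.card : ℝ) * S.card ≤ P'.totalDegree * (S.card : ℝ) ^ n := by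
    rw [div_le_div_iff₀ (by positivity) hSpos] at hsz'
    exact hsz'
  have h4 : ({q : J → ℤ | (∀ j, |(q j : ℝ)| ≤ Z) ∧ f (fun j => (q j : ℝ)) = 0}.ncard : ℝ) ≤ Fz.card := by
    exact_mod_cast hle
  calc ({q : J → ℤ | (∀ j, |(q j : ℝ)| ≤ Z) ∧ f (fun j => (q j : ℝ)) = 0}.ncard : ℝ) * Z ≤
      Fz.card * S.card := mul_le_mul h4 hSZ (by linarith) (by positivity)
    _ ≤ P'.totalDegree * (S.card : ℝ) ^ n := h3
    _ ≤ (P'.totalDegree + 1) * (3 * Z) ^ n := by
        apply mul_le_mul (by linarith) _ (by positivity) (by positivity)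
        exact pow_le_pow_left₀ hSpos.le hSZ' n
    _ = _ := by rw [mul_pow]; ring

end Pool.Agent.K6.H78.GN
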