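import Pool.Agent.K6.H78.GN.Gf
import Pool.Agent.K6.H78.GN.Sz

/-!
Nondegenerate matrices.
-/

set_option autoImplicit false
set_option linter.unusedSectionVars false
set_option linter.unusedVariables false
set_option linter.deprecated false

namespace Pool.Agent.K6.H78.GN

open Finset Matrix
open Pool.Agent.K6.H78.MF (IsPoly)

/-! ### entries of nondegenerate matrices -/

theorem det_pos' {n : ℕ} {Q : Matrix (Fin n) (Fin n) ℤ} (h : Q.det ≠ 0) (t : Fin n) :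
    ∃ x y, t ≤ x ∧ Fin.rev t ≤ y ∧ Q x y ≠ 0 := by
  classical
  rw [Matrix.det_apply] at h
  obtain ⟨σ, _, hσ⟩ := Finset.exists_ne_zero_of_sum_ne_zero h
  have h1 : ∀ i, Q (σ i) i ≠ 0 := by
    intro i h0
    apply hσ
    have h2 : ∏ i, Q (σ i) i = 0 := Finset.prod_eq_zero (Finset.mem_univ i) h0
    exact (congrArg (fun z : ℤ => Equiv.Perm.sign σ • z) h2).trans (smul_zero _)
  by_contra hcon
  push Not at hcon
  have h2 : (Finset.Ici t).card ≤ (Finset.Iio (Fin.rev t)).card := by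
    apply Finset.card_le_card_of_injOn (fun x => σ.symm x)
    · intro x hx
      rw [Finset.mem_coe, Finset.mem_Ici] at hx
      rw [Finset.mem_coe, Finset.mem_Iio]
      by_contra hc
      rw [not_lt] at hc
      apply h1 (σ.symm x)
      rw [Equiv.apply_symm_apply]
      exact hcon x _ hx hc
    · intro x _ y _ hxy
      exact σ.symm.injective hxy
  rw [Fin.card_Ici, Fin.card_Iio, Fin.val_rev] at h2
  have := t.2
  omega

theorem pair_ineq {ρ : ℕ} {Q : Matrix (Fin (ρ + 1)) (Fin (ρ + 1)) ℤ} (hQ : Q.det ≠ 0)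
    {A A' : Fin (ρ + 1) → ℝ} (hA : ∀ x, 0 < A x) (hA' : ∀ x, 0 < A' x)
    (hm : ∀ x y, x ≤ y → A x ≤ 2 ^ ρ * A y) (hm' : ∀ x y, x ≤ y → A' x ≤ 2 ^ ρ * A' y) {X : ℝ}
    (h : ∀ x y, |(Q x y : ℝ)| * (A x * A' y) ≤ X) (t : Fin (ρ + 1)) :
    A t * A' (Fin.rev t) ≤ 2 ^ ρ * 2 ^ ρ * X := by
  obtain ⟨x, y, hx, hy, hxy⟩ := det_pos' hQ t
  have h1 : (1 : ℝ) ≤ |(Q x y : ℝ)| := by exact_mod_cast Int.one_le_abs hxy
  have h2 : A x * A' y ≤ X := by
    have h3 : 0 < A x * A' y := mul_pos (hA x) (hA' y)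
    calc A x * A' y = 1 * (A x * A' y) := (one_mul _).symm
      _ ≤ |(Q x y : ℝ)| * (A x * A' y) := mul_le_mul_of_nonneg_right h1 h3.le
      _ ≤ X := h x y
  calc A t * A' (Fin.rev t) ≤ (2 ^ ρ * A x) * (2 ^ ρ * A' y) :=
        mul_le_mul (hm t x hx) (hm' _ y hy) (hA' _).le (by have := hA x; positivity)
    _ = 2 ^ ρ * 2 ^ ρ * (A x * A' y) := by ring
    _ ≤ _ := mul_le_mul_of_nonneg_left h2 (by positivity)

theorem pair_prod {ρ : ℕ} {A A' : Fin (ρ + 1) → ℝ} (hA : ∀ x, 0 < A x) (hA' : ∀ x, 0 < A' x)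
    {X : ℝ} (h : ∀ t, A t * A' (Fin.rev t) ≤ 2 ^ ρ * 2 ^ ρ * X) :
    (∏ x, A x) * ∏ x, A' x ≤ (2 ^ ρ * 2 ^ ρ * X) ^ (ρ + 1) := by
  have h1 : ∏ x, A' x = ∏ x, A' (Fin.rev x) := (Equiv.prod_comp Fin.revPerm A').symm
  rw [h1, ← Finset.prod_mul_distrib]
  calc ∏ x, A x * A' (Fin.rev x) ≤ ∏ _x : Fin (ρ + 1), (2 ^ ρ * 2 ^ ρ * X) :=
        Finset.prod_le_prod (fun x _ => (mul_pos (hA x) (hA' _)).le) fun x _ => h x
    _ = _ := by rw [prod_const, card_univ, Fintype.card_fin]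

/-! ### the excess -/

/-- the exponents -/
def ee {ρ : ℕ} (a a' : Fin (ρ + 1) → ℤ) (x y : Fin (ρ + 1)) : ℤ :=
  if Fin.rev x < y then 4 * ((a' y - a' (Fin.rev x)) + (a x - a (Fin.rev y))) + 16 * ρ else 24 * ρ

theorem rev_lt_iff' {n : ℕ} (x y : Fin n) : Fin.rev x < y ↔ Fin.rev y < x := by
  rw [Fin.lt_def, Fin.lt_def, Fin.val_rev, Fin.val_rev]
  have := x.2
  have := y.2
  omega

theorem ee_nonneg {ρ : ℕ} {a a' : Fin (ρ + 1) → ℤ} (ha : ∀ x y, x ≤ y → a x ≤ ρ + a y)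
    (ha' : ∀ x y, x ≤ y → a' x ≤ ρ + a' y) (x y : Fin (ρ + 1)) : 0 ≤ ee a a' x y := by
  unfold ee
  have hρ : (0 : ℤ) ≤ ρ := Int.natCast_nonneg ρ
  split_ifs with h
  · have h1 := ha' _ _ h.le
    have h2 := ha _ _ ((rev_lt_iff' x y).1 h).le
    linarith
  · linarith

theorem zpow_th (n : ℤ) : (2 : ℝ) ^ n = th ^ (-(8 * n)) := by
  have := zp_th (-n)
  rw [neg_neg] at this
  rw [this]
  congr 1
  ring

theorem ee_le {ρ : ℕ} {a a' : Fin (ρ + 1) → ℤ} (ha : ∀ x y, x ≤ y → a x ≤ ρ + a y)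
    (ha' : ∀ x y, x ≤ y → a' x ≤ ρ + a' y) {X : ℝ} (hX : 0 < X)
    (h : ∀ t, (2 : ℝ) ^ (a t) * 2 ^ (a' (Fin.rev t)) ≤ 2 ^ ρ * 2 ^ ρ * X) (x y : Fin (ρ + 1)) :
    (2 : ℝ) ^ (a x) * 2 ^ (a' y) / X ≤ th ^ (-ee a a' x y) := by
  have hρ : (0 : ℤ) ≤ ρ := Int.natCast_nonneg ρ
  set L := Int.log 2 X with hL
  have hLX := MR.lg_self hX
  rw [← hL] at hLX
  -- the bounds for the exponents
  have h1 : ∀ t, a t + a' (Fin.rev t) ≤ L + 2 * ρ := by
    intro t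
    have h2 := h t
    have h3 : (2 : ℝ) ^ (a t + a' (Fin.rev t)) < 2 ^ (L + 2 * ρ + 1) := by
      rw [zpow_add₀ (by norm_num)]
      refine h2.trans_lt ?_
      have h4 : (2 : ℝ) ^ (L + 2 * ρ + 1 : ℤ) = 2 ^ ρ * 2 ^ ρ * 2 ^ (L + 1) := by
        rw [← zpow_natCast, ← zpow_add₀ (by norm_num), ← zpow_add₀ (by norm_num)]
        congr 1
        ring
      rw [h4]
      exact mul_lt_mul_of_pos_left hLX.2 (by positivity)
    have h4 := (zpow_lt_zpow_iff_right₀ (by norm_num : (1 : ℝ) < 2)).1 h3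
    omega
  have h2 : (2 : ℝ) ^ (a x) * 2 ^ (a' y) / X ≤ 2 ^ (a x + a' y - L) := by
    rw [zpow_sub₀ (by norm_num), zpow_add₀ (by norm_num)]
    exact div_le_div_of_nonneg_left (by positivity) (by positivity) hLX.1
  refine h2.trans ?_
  rw [zpow_th]
  apply zpow_le_zpow_right_of_le_one₀ th_pos th_lt.le
  rw [neg_le_neg_iff]
  unfold ee
  have e1 := h1 x
  have e2 := h1 (Fin.rev y)
  rw [Fin.rev_rev] at e2
  split_ifs with h3
  · linarith
  · rw [not_lt] at h3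
    have e3 := ha' _ _ h3
    linarith

theorem ee_sum {ρ : ℕ} (a a' : Fin (ρ + 1) → ℤ) :
    ∑ x, ∑ y, ee a a' x y ≤ 4 * (Rx a + Rx a') + 24 * ρ * ((ρ + 1) * (ρ + 1)) := by
  have hρ : (0 : ℤ) ≤ ρ := Int.natCast_nonneg ρ
  have h1 : ∀ x y, ee a a' x y ≤ 4 * (if Fin.rev x < y then a' y - a' (Fin.rev x) else 0) +
      4 * (if Fin.rev y < x then a x - a (Fin.rev y) else 0) + 24 * ρ := by
    intro x y
    unfold ee
    by_cases h : Fin.rev x < y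
    · rw [if_pos h, if_pos h, if_pos ((rev_lt_iff' x y).1 h)]
      linarith
    · rw [if_neg h, if_neg h, if_neg fun h' => h ((rev_lt_iff' x y).2 h')]
      linarith
  have h2 : ∑ x : Fin (ρ + 1), ∑ y : Fin (ρ + 1), (if Fin.rev x < y then a' y - a' (Fin.rev x) else 0) =
      Rx a' := by
    unfold Rx
    rw [sum_comm]
    refine sum_congr rfl fun y _ => ?_
    exact Equiv.sum_comp Fin.revPerm fun x => if x < y then a' y - a' x else 0
  have h3 : ∑ x : Fin (ρ + 1), ∑ y : Fin (ρ + 1), (if Fin.rev y < x then a x - a (Fin.rev y) else 0) =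
      Rx a := by
    unfold Rx
    refine sum_congr rfl fun x _ => ?_
    exact Equiv.sum_comp Fin.revPerm fun y => if y < x then a x - a y else 0
  have h4 := sum_le_sum fun x (_ : x ∈ (univ : Finset (Fin (ρ + 1)))) =>
    sum_le_sum fun y (_ : y ∈ (univ : Finset (Fin (ρ + 1)))) => h1 x y
  refine h4.trans ?_
  simp only [sum_add_distrib, ← mul_sum, h2, h3]
  simp only [sum_const, card_univ, Fintype.card_fin, nsmul_eq_mul]
  push_cast
  apply le_of_eq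
  ring

/-! ### from pointwise bounds to the number of coordinates -/

section CQ

variable {I : Type} [Fintype I] [DecidableEq I] {m : ℕ} {r N k w e : I → ℕ}
  {Γ : Subgroup (∀ i, Equiv.Perm (Fin (k i)))}

theorem cq_of {𝒩 : (Fin m → OI k Γ r → ℚ) → Prop}
    (hw : ∀ i, (r i + 1) * w i = k i * Fintype.card (OI k Γ r)) {C : ℝ} (hC : 0 < C)
    (H : ∀ (a : ∀ i, Fin (r i + 1) → ℤ) (X : ℝ), 0 < X → (∀ i x y, x ≤ y → a i x ≤ r i + a i y) →
      ∀ q : Fin m → OI k Γ r → ℤ, NZ 𝒩 q →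
      (∀ j o, |(q j o : ℝ)| * mo (fun i x => (2 : ℝ) ^ (a i x)) o ≤ X) →
      ∃ D : OI k Γ r → ℝ, (∀ o, 1 ≤ D o) ∧ (∀ o, mo (fun i x => (2 : ℝ) ^ (a i x)) o / X ≤ D o) ∧
        (∏ o, D o) ^ m ≤ C * ∏ i, th ^ (-(6 * Rx (a i)))) : CQ m k w r Γ (NZ 𝒩) := by
  set n := m * Fintype.card (OI k Γ r) with hn
  refine ⟨3 ^ n * C, by positivity, fun a X hX ha => ?_⟩
  set A : ∀ i, Fin (r i + 1) → ℝ := fun i x => (2 : ℝ) ^ (a i x) with hA
  have hA0 : ∀ i x, 0 < A i x := fun i x => by rw [hA]; positivity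
  set Q : Set (Fin m → OI k Γ r → ℤ) := {q | NZ 𝒩 q ∧ ∀ j o, |(q j o : ℝ)| * mo A o ≤ X} with hQ
  have hmop : ∀ o : OI k Γ r, 0 < mo A o := fun o => mo_pos hA0 o
  have hsub : Q ⊆ {q | ∀ j o, |(q j o : ℝ)| ≤ (fun _ o => X / mo A o : Fin m → OI k Γ r → ℝ) j o} := by
    rintro q ⟨_, h2⟩ j o
    show _ ≤ X / mo A o
    rw [le_div_iff₀ (hmop o)]
    exact h2 j o
  obtain ⟨b1, b2⟩ := boxv (Fin m) (OI k Γ r) (fun _ o => X / mo A o)
    (fun _ o => (div_pos hX (hmop o)).le)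
  refine ⟨b1.subset hsub, ?_⟩
  have hth : 0 ≤ ∏ i, th ^ (-(6 * Rx (a i))) := prod_nonneg fun i _ => by have := th_pos; positivity
  have hR0 : 0 ≤ X ^ n * ∏ i, (((2 : ℝ) ^ (∑ x, a i x)) ^ (m * w i))⁻¹ :=
    mul_nonneg (by positivity) (prod_nonneg fun i _ => by positivity)
  rw [prod_mul_distrib]
  rcases Q.eq_empty_or_nonempty with h0 | ⟨q, hq⟩
  · rw [h0, Set.ncard_empty, Nat.cast_zero]
    apply mul_nonneg (by positivity)
    rw [← mul_assoc]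
    exact mul_nonneg hR0 hth
  obtain ⟨D, hD1, hD2, hD3⟩ := H a X hX ha q hq.1 hq.2
  have h1 : (Q.ncard : ℝ) ≤ ∏ _j : Fin m, ∏ o : OI k Γ r, (2 * (X / mo A o) + 1) :=
    le_trans (by exact_mod_cast Set.ncard_le_ncard hsub b1) b2
  have h2 : ∏ _j : Fin m, ∏ o : OI k Γ r, (2 * (X / mo A o) + 1) ≤
      ∏ _j : Fin m, ∏ o : OI k Γ r, (3 * (X / mo A o) * D o) := by
    refine Finset.prod_le_prod (fun j _ => prod_nonneg fun o _ => ?_) fun j _ =>
      Finset.prod_le_prod (fun o _ => ?_) fun o _ => ?_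
    · have := div_pos hX (hmop o); positivity
    · have := div_pos hX (hmop o); positivity
    · have h3 := div_pos hX (hmop o)
      have h4 : 1 ≤ (X / mo A o) * D o := by
        have h5 := mul_le_mul_of_nonneg_left (hD2 o) h3.le
        have h6 : X / mo A o * (mo A o / X) = 1 := by
          have := (hmop o).ne'
          field_simp
        rwa [h6] at h5
      have h5 : X / mo A o ≤ (X / mo A o) * D o := le_mul_of_one_le_right h3.le (hD1 o)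
      linarith
  have h3 : ∏ _j : Fin m, ∏ o : OI k Γ r, (3 * (X / mo A o) * D o) =
      3 ^ n * (X ^ n * ∏ i, (((2 : ℝ) ^ (∑ x, a i x)) ^ (m * w i))⁻¹) * (∏ o, D o) ^ m := by
    rw [← prod_box hw a, hn]
    simp only [prod_mul_distrib, prod_const, card_univ, Fintype.card_fin]
    rw [← pow_mul, mul_comm (Fintype.card _) m]
  refine (h1.trans h2).trans ?_
  rw [h3]
  calc 3 ^ n * (X ^ n * ∏ i, (((2 : ℝ) ^ (∑ x, a i x)) ^ (m * w i))⁻¹) * (∏ o, D o) ^ m ≤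
      3 ^ n * (X ^ n * ∏ i, (((2 : ℝ) ^ (∑ x, a i x)) ^ (m * w i))⁻¹) *
        (C * ∏ i, th ^ (-(6 * Rx (a i)))) := by
        apply mul_le_mul_of_nonneg_left hD3 (by positivity)
    _ = _ := by ring

/-- the density of the zeros of polynomials -/
theorem dn_poly {𝒩 : (Fin m → OI k Γ r → ℚ) → Prop} {f : (Fin m × OI k Γ r → ℝ) → ℝ}
    (hf : IsPoly f) {y₀ : Fin m × OI k Γ r → ℝ} (h0 : f y₀ ≠ 0)
    (h : ∀ q : Fin m → OI k Γ r → ℤ, ¬ 𝒩 (fun j o => (q j o : ℚ)) →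
      f (fun y => (q y.1 y.2 : ℝ)) = 0) : Dn 𝒩 := by
  classical
  intro ε hε
  obtain ⟨C, hC, hcount⟩ := poly_count hf h0
  refine ⟨max 1 (C / ε), by positivity, fun Z hZ => ?_⟩
  have hZ1 : 1 ≤ Z := (le_max_left _ _).trans hZ
  have hZC : C / ε ≤ Z := (le_max_right _ _).trans hZ
  rw [div_le_iff₀ hε] at hZC
  have h1 := hcount Z hZ1
  rw [Fintype.card_prod, Fintype.card_fin] at h1
  set S := {q : Fin m × OI k Γ r → ℤ | (∀ j, |(q j : ℝ)| ≤ Z) ∧ f (fun j => (q j : ℝ)) = 0} with hS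
  have hfin : S.Finite := (MR.boxJ (Fin m × OI k Γ r) Z hZ1).1.subset fun q hq => hq.1
  have h2 : ({q : Fin m → OI k Γ r → ℤ | (∀ j o, |(q j o : ℝ)| ≤ Z) ∧
      ¬ 𝒩 (fun j o => (q j o : ℚ))}.ncard : ℝ) ≤ S.ncard := by
    have h5 : {q : Fin m → OI k Γ r → ℤ | (∀ j o, |(q j o : ℝ)| ≤ Z) ∧
      ¬ 𝒩 (fun j o => (q j o : ℚ))}.ncard ≤ S.ncard := by
      refine Set.ncard_le_ncard_of_injOn (fun q y => q y.1 y.2) ?_ ?_ hfin
      · rintro q ⟨g1, g2⟩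
        exact ⟨fun y => g1 y.1 y.2, h q g2⟩
      · intro q _ q' _ he
        funext j o
        exact congrFun he (j, o)
    exact_mod_cast h5
  have h3 : ({q : Fin m → OI k Γ r → ℤ | (∀ j o, |(q j o : ℝ)| ≤ Z) ∧
      ¬ 𝒩 (fun j o => (q j o : ℚ))}.ncard : ℝ) * Z ≤
      (ε * Z ^ (m * Fintype.card (OI k Γ r))) * Z := by
    calc _ ≤ (S.ncard : ℝ) * Z := mul_le_mul_of_nonneg_right h2 (by linarith)
      _ ≤ C * Z ^ (m * Fintype.card (OI k Γ r)) := h1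
      _ ≤ (Z * ε) * Z ^ (m * Fintype.card (OI k Γ r)) :=
          mul_le_mul_of_nonneg_right hZC (by positivity)
      _ = _ := by ring
  exact le_of_mul_le_mul_right h3 (by linarith)

end CQ

end Pool.Agent.K6.H78.GN
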