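import Pool.Agent.K6.H78.MR.Crd

/-!
Profiles of one block.
-/

set_option autoImplicit false
set_option linter.unusedSectionVars false
set_option linter.unusedVariables false

namespace Pool.Agent.K6.H78.GN

open Finset
open Pool.Agent.K6.H78.MR

variable {r N : ℕ}

/-- the base -/
noncomputable def th : ℝ := (1 / 2 : ℝ) ^ ((1 : ℝ) / 8)

theorem th_pos : 0 < th := by unfold th; positivity
theorem th_ne : th ≠ 0 := th_pos.ne'
theorem th_pow : th ^ 8 = 1 / 2 := by
  unfold th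
  rw [← Real.rpow_natCast, ← Real.rpow_mul (by norm_num)]
  norm_num
theorem th_lt : th < 1 := by
  unfold th
  exact Real.rpow_lt_one (by norm_num) (by norm_num) (by norm_num)

/-- the excess of a profile -/
def Rx {n : ℕ} (a : Fin n → ℤ) : ℤ := ∑ i, ∑ j, if j < i then a i - a j else 0

theorem Rx_succ {n : ℕ} (a : Fin (n + 1) → ℤ) :
    Rx a = Rx (fun i => a i.castSucc) + ∑ j : Fin n, (a (Fin.last n) - a j.castSucc) := by
  unfold Rx
  rw [Fin.sum_univ_castSucc]
  congr 1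
  · refine sum_congr rfl fun i _ => ?_
    rw [Fin.sum_univ_castSucc]
    have h2 : ¬ Fin.last n < i.castSucc := not_lt.2 (Fin.le_last _)
    simp only [h2, if_false, add_zero, Fin.castSucc_lt_castSucc_iff]
  · rw [Fin.sum_univ_castSucc]
    simp only [lt_irrefl, if_false, add_zero, Fin.castSucc_lt_last, if_true]

theorem zp_th (n : ℤ) : (2 : ℝ) ^ (-n) = th ^ (8 * n) := by
  rw [zpow_mul, zpow_neg, ← inv_zpow]
  congr 1
  have : th ^ (8 : ℤ) = th ^ 8 := by norm_cast
  rw [this, th_pow]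
  norm_num

/-- **counting matrices with a bounded profile** -/
theorem cnm' (N : ℕ) (K : ℝ) (hK : 0 < K) : ∀ r : ℕ, r + 1 ≤ N → ∃ C : ℝ, 0 < C ∧
    ∀ (f : Fin (r + 1) → Fin N) (a : Fin (r + 1) → ℤ), (∀ i, 4 * (2 : ℝ) ^ (a i) + 1 ≤ K * 2 ^ (a i)) →
    (Pf f (fun i => (2 : ℝ) ^ (a i))).Finite ∧ ((Pf f (fun i => (2 : ℝ) ^ (a i))).ncard : ℝ) ≤
      C * (((2 : ℝ) ^ (∑ i, a i)) ^ N * 2 ^ (-Rx a)) := by
  classical
  intro r
  induction r with
  | zero =>
    intro _
    refine ⟨K ^ N, by positivity, ?_⟩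
    intro f a hAK
    have hA : ∀ i, (0 : ℝ) < 2 ^ (a i) := fun i => by positivity
    have hb₀ : (fun i => i.elim0 : Fin 0 → Fin N → ℤ) ∈
        Pf (fun i : Fin 0 => f i.castSucc) (fun i : Fin 0 => (2 : ℝ) ^ (a i.castSucc)) := by
      refine ⟨fun i => i.elim0, fun i => i.elim0, ⟨?_, ?_, ?_, ?_, ?_, ?_⟩, ?_⟩ <;>
        exact fun i => i.elim0
    have h := pf_fib (f := f) (A := fun i => (2 : ℝ) ^ (a i)) (fun i => (hA i).le) _ hb₀
    have h1 : {b | (fun i : Fin 0 => b i.castSucc) = (fun i => i.elim0 : Fin 0 → Fin N → ℤ) ∧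
        b ∈ Pf f (fun i => (2 : ℝ) ^ (a i))} = Pf f (fun i => (2 : ℝ) ^ (a i)) := by
      ext b
      simp only [Set.mem_setOf_eq, and_iff_right_iff_imp]
      intro _
      funext i
      exact i.elim0
    rw [h1] at h
    refine ⟨h.1, h.2.trans ?_⟩
    have h3 : Rx a = 0 := by
      unfold Rx
      refine sum_eq_zero fun i _ => sum_eq_zero fun j _ => ?_
      have : ¬ j < i := by
        have h1 := i.2
        have h2 := j.2
        intro h
        have h3 : (j : ℕ) < i := h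
        omega
      rw [if_neg this]
    rw [h3, neg_zero, zpow_zero, mul_one]
    simp only [univ_eq_empty, prod_empty, one_mul, Nat.sub_zero]
    rw [Fin.sum_univ_succ]
    simp only [univ_eq_empty, sum_empty, add_zero]
    rw [← mul_pow]
    have h2 : (Fin.last 0) = 0 := rfl
    rw [h2]
    exact pow_le_pow_left₀ (by linarith [hA 0]) (hAK 0) N
  | succ r ih =>
    intro hN
    obtain ⟨C, hC, ih⟩ := ih (by omega)
    refine ⟨C * (K ^ (r + 1) * K ^ (N - (r + 1))), by positivity, ?_⟩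
    intro f a hAK
    have hA : ∀ i, (0 : ℝ) < 2 ^ (a i) := fun i => by positivity
    obtain ⟨h1, h2⟩ := ih (fun i => f i.castSucc) (fun i => a i.castSucc) (fun i => hAK _)
    set J := h1.toFinset with hJ
    set P := Pf f (fun i => (2 : ℝ) ^ (a i)) with hP
    have hcov : P ⊆ ⋃ b₀ ∈ J, {b | (fun i => b i.castSucc) = b₀ ∧ b ∈ P} := by
      intro b hb
      rw [Set.mem_iUnion₂]
      refine ⟨fun i => b i.castSucc, ?_, rfl, hb⟩
      rw [hJ, Set.Finite.mem_toFinset]
      obtain ⟨b', c', h3, h4⟩ := hb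
      exact ⟨_, _, h3.init, fun i => h4 _⟩
    have h3 : ∀ b₀ ∈ J, _ ∧ _ := fun b₀ hb₀ => pf_fib (f := f) (A := fun i => (2 : ℝ) ^ (a i))
      (fun i => (hA i).le) b₀ (by rw [hJ, Set.Finite.mem_toFinset] at hb₀; exact hb₀)
    obtain ⟨h4, h5⟩ := ncard_bi hcov (fun a ha => (h3 a ha).1) (fun a ha => (h3 a ha).2)
    refine ⟨h4, h5.trans ?_⟩
    have h6 : (J.card : ℝ) = (Pf (fun i => f i.castSucc) (fun i => (2 : ℝ) ^ (a i.castSucc))).ncard := by
      rw [hJ, Set.ncard_eq_toFinset_card _ h1]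
    rw [h6]
    set α : ℝ := 2 ^ (a (Fin.last (r + 1))) with hα
    have hα0 : 0 < α := hA _
    have h7 : ∏ j : Fin (r + 1), (2 * (2 : ℝ) ^ (a j.castSucc) + 1) ≤
        K ^ (r + 1) * ∏ j : Fin (r + 1), (2 : ℝ) ^ (a j.castSucc) := by
      have : ∏ j : Fin (r + 1), (K * (2 : ℝ) ^ (a j.castSucc)) =
          K ^ (r + 1) * ∏ j : Fin (r + 1), (2 : ℝ) ^ (a j.castSucc) := by
        rw [Finset.prod_mul_distrib, prod_const, card_univ, Fintype.card_fin]
      rw [← this]
      refine Finset.prod_le_prod (fun j _ => by linarith [hA j.castSucc]) fun j _ => ?_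
      linarith [hA j.castSucc, hAK j.castSucc]
    have h8 : (4 * α + 1) ^ (N - (r + 1)) ≤ K ^ (N - (r + 1)) * α ^ (N - (r + 1)) := by
      rw [← mul_pow]
      exact pow_le_pow_left₀ (by linarith) (hAK _) _
    have h9 : (∏ j : Fin (r + 1), (2 : ℝ) ^ (a j.castSucc)) * α ^ (N - (r + 1)) =
        α ^ N * 2 ^ (-∑ j : Fin (r + 1), (a (Fin.last (r + 1)) - a j.castSucc)) := by
      have e1 : (2 : ℝ) ^ (-∑ j : Fin (r + 1), (a (Fin.last (r + 1)) - a j.castSucc)) =
          (∏ j : Fin (r + 1), (2 : ℝ) ^ (a j.castSucc)) / α ^ (r + 1) := by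
        rw [prod_zp, hα, ← zpow_natCast, ← zpow_mul, ← zpow_sub₀ (by norm_num)]
        congr 1
        rw [Finset.sum_sub_distrib, sum_const, card_univ, Fintype.card_fin, nsmul_eq_mul]
        push_cast
        ring
      have e2 : α ^ N = α ^ (N - (r + 1)) * α ^ (r + 1) := by
        rw [← pow_add]
        congr 1
        omega
      rw [e1, e2]
      field_simp
    rw [Rx_succ a, neg_add, zpow_add₀ (by norm_num), Fin.sum_univ_castSucc a, zpow_add₀ (by norm_num), mul_pow]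
    have h13 : (∏ j : Fin (r + 1), (2 * (2 : ℝ) ^ (a j.castSucc) + 1)) * (4 * α + 1) ^ (N - (r + 1)) ≤
        K ^ (r + 1) * K ^ (N - (r + 1)) * (α ^ N * 2 ^ (-∑ j : Fin (r + 1), (a (Fin.last (r + 1)) - a j.castSucc))) := by
      calc (∏ j : Fin (r + 1), (2 * (2 : ℝ) ^ (a j.castSucc) + 1)) * (4 * α + 1) ^ (N - (r + 1)) ≤
          (K ^ (r + 1) * ∏ j : Fin (r + 1), (2 : ℝ) ^ (a j.castSucc)) * (K ^ (N - (r + 1)) * α ^ (N - (r + 1))) :=
            mul_le_mul h7 h8 (by positivity) (by positivity)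
        _ = K ^ (r + 1) * K ^ (N - (r + 1)) * ((∏ j : Fin (r + 1), (2 : ℝ) ^ (a j.castSucc)) * α ^ (N - (r + 1))) := by ring
        _ = _ := by rw [h9]
    calc _ ≤ (C * (((2 : ℝ) ^ (∑ i : Fin (r + 1), a i.castSucc)) ^ N * 2 ^ (-Rx fun i : Fin (r + 1) => a i.castSucc))) *
          (K ^ (r + 1) * K ^ (N - (r + 1)) * (α ^ N * 2 ^ (-∑ j : Fin (r + 1), (a (Fin.last (r + 1)) - a j.castSucc)))) := by
          apply mul_le_mul h2 h13 _ (by positivity)
          apply mul_nonneg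
          · exact Finset.prod_nonneg fun j _ => by linarith [hA j.castSucc]
          · positivity
      _ = _ := by ring

/-- the excess of an almost increasing profile -/
theorem Rx_ge (a : Fin (r + 1) → ℤ) (ha : ∀ x y, x ≤ y → a x ≤ r + a y) :
    ∑ u : Fin r, (a u.succ - a 0) ≤ Rx a + (r + 1) * r * r := by
  unfold Rx
  have h1 : ∀ i : Fin (r + 1), (if (0 : Fin (r + 1)) < i then a i - a 0 else 0) - r * r ≤
      ∑ j, if j < i then a i - a j else 0 := by
    intro i
    rw [Fin.sum_univ_succ]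
    have h2 : -((r : ℤ) * r) ≤ ∑ j : Fin r, if j.succ < i then a i - a j.succ else 0 := by
      have h3 : ∑ j : Fin r, (-(r : ℤ)) ≤ ∑ j : Fin r, if j.succ < i then a i - a j.succ else 0 := by
        refine sum_le_sum fun j _ => ?_
        split_ifs with h
        · have := ha j.succ i h.le
          linarith
        · have : (0 : ℤ) ≤ r := Int.natCast_nonneg r
          linarith
      rw [sum_const, card_univ, Fintype.card_fin, nsmul_eq_mul] at h3
      linarith
    linarith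
  have h2 := sum_le_sum fun i (_ : i ∈ univ) => h1 i
  rw [Finset.sum_sub_distrib, sum_const, card_univ, Fintype.card_fin, nsmul_eq_mul,
    Fin.sum_univ_succ] at h2
  simp only [lt_irrefl, if_false, zero_add, Fin.succ_pos, if_true] at h2
  push_cast at h2
  linarith

/-- the constant for the profiles -/
noncomputable def Cp (r : ℕ) : ℝ := th ^ (-(2 * ((r + 1) * r * r) + 2 * (r * r) : ℤ))

theorem Cp_pos (r : ℕ) : 0 < Cp r := by unfold Cp; have := th_pos; positivity

/-- **the excess bounds the exponents and the skewness** -/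
theorem prof (a : Fin (r + 1) → ℤ) (ha : ∀ x y, x ≤ y → a x ≤ r + a y) (e : Fin r → ℕ)
    (he : ∀ u : Fin r, (e u : ℤ) = a u.succ - a 0 + ((u : ℤ) + 1)) {κ : ℕ}
    (hκ : (κ : ℤ) + a 0 ≤ r + a (Fin.last r)) :
    th ^ (2 * Rx a) ≤ Cp r * (th ^ κ * ∏ u, th ^ (e u)) := by
  have h1 := Rx_ge a ha
  have h2 : ∑ u : Fin r, (e u : ℤ) ≤ ∑ u : Fin r, (a u.succ - a 0) + r * r := by
    have h3 : ∑ u : Fin r, (e u : ℤ) ≤ ∑ u : Fin r, (a u.succ - a 0 + r) := by
      refine sum_le_sum fun u _ => ?_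
      rw [he]
      have := u.2
      have h4 : ((u : ℕ) : ℤ) + 1 ≤ r := by exact_mod_cast this
      linarith
    rw [sum_add_distrib, sum_const, card_univ, Fintype.card_fin, nsmul_eq_mul] at h3
    exact h3
  have h3 : (κ : ℤ) ≤ ∑ u : Fin r, (e u : ℤ) := by
    rcases Nat.eq_zero_or_pos r with h18 | h18
    · subst h18
      have : (Fin.last 0) = 0 := rfl
      rw [this] at hκ
      simp only [univ_eq_empty, sum_empty]
      push_cast at hκ
      linarith
    · obtain ⟨t, rfl⟩ : ∃ t, r = t + 1 := ⟨r - 1, by omega⟩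
      have h20 := he (Fin.last t)
      have h21 : (Fin.last t).succ = Fin.last (t + 1) := rfl
      rw [h21] at h20
      have h22 : (κ : ℤ) ≤ e (Fin.last t) := by
        rw [h20]
        have h23 : (((Fin.last t : Fin (t + 1)) : ℕ) : ℤ) = t := by simp
        rw [h23]
        push_cast at hκ
        linarith
      exact h22.trans (Finset.single_le_sum (f := fun u : Fin (t + 1) => (e u : ℤ))
        (fun i _ => Int.natCast_nonneg _) (mem_univ _))
  have h4 : th ^ κ * ∏ u, th ^ (e u) = th ^ ((κ : ℤ) + ∑ u, (e u : ℤ)) := by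
    rw [Finset.prod_pow_eq_pow_sum, zpow_add₀ th_ne, zpow_natCast]
    congr 1
    rw [← zpow_natCast]
    push_cast
    rfl
  rw [h4]
  unfold Cp
  rw [← zpow_add₀ th_ne]
  apply zpow_le_zpow_right_of_le_one₀ th_pos th_lt.le
  linarith

/-- the geometric sum -/
theorem geo_th (E : ℕ) : ∑ n ∈ range E, th ^ n ≤ 1 / (1 - th) := by
  have h := geom_sum_eq th_lt.ne E
  rw [h]
  have h1 : (0 : ℝ) ≤ th ^ E := by have := th_pos; positivity
  have h2 : 0 < 1 - th := by linarith [th_lt]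
  have h3 : (th ^ E - 1) / (th - 1) = (1 - th ^ E) / (1 - th) := by
    rw [← neg_div_neg_eq]
    congr 1 <;> ring
  rw [h3]
  exact div_le_div_of_nonneg_right (by linarith) h2.le

/-- the sum over the profiles of one block -/
theorem blk_sum (r N e E : ℕ) (W : Finset ℤ) :
    ∑ x ∈ (univ : Finset (Fin (r + 1) → Fin N)) ×ˢ W ×ˢ Fintype.piFinset (fun _ : Fin r => range E),
      (((2 : ℝ) ^ x.2.1) ^ e * ∏ u : Fin r, th ^ (x.2.2 u)) ≤
    (N : ℝ) ^ (r + 1) * (1 / (1 - th)) ^ r * ∑ s ∈ W, ((2 : ℝ) ^ s) ^ e := by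
  have hth := th_pos
  have hth' : 0 < 1 - th := by linarith [th_lt]
  rw [Finset.sum_product]
  simp only
  rw [Finset.sum_const, card_univ, Fintype.card_pi]
  simp only [Fintype.card_fin, prod_const, card_univ, nsmul_eq_mul]
  have h3 : ∑ y ∈ W ×ˢ Fintype.piFinset (fun _ : Fin r => range E),
      (((2 : ℝ) ^ y.1) ^ e * ∏ i : Fin r, th ^ (y.2 i)) =
      (∑ s ∈ W, ((2 : ℝ) ^ s) ^ e) * (∑ n ∈ range E, th ^ n) ^ r := by
    rw [Finset.sum_product, Finset.sum_mul]
    refine sum_congr rfl fun s _ => ?_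
    simp only
    rw [← Finset.mul_sum]
    congr 1
    have h4 := Finset.prod_univ_sum (fun _ : Fin r => range E) (fun _ n => th ^ n)
    rw [prod_const, card_univ, Fintype.card_fin] at h4
    rw [h4]
  rw [h3]
  push_cast
  have h5 : (∑ n ∈ range E, th ^ n) ^ r ≤ (1 / (1 - th)) ^ r :=
    pow_le_pow_left₀ (Finset.sum_nonneg fun n _ => by positivity) (geo_th E) r
  have h6 : (0 : ℝ) ≤ ∑ s ∈ W, ((2 : ℝ) ^ s) ^ e := Finset.sum_nonneg fun s _ => by positivity
  calc _ ≤ (N : ℝ) ^ (r + 1) * ((∑ s ∈ W, ((2 : ℝ) ^ s) ^ e) * (1 / (1 - th)) ^ r) := by gcongr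
    _ = _ := by ring

end Pool.Agent.K6.H78.GN
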