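import Pool.Agent.K6.H78.GN.Okk

/-!
The regions.
-/

set_option autoImplicit false
set_option linter.unusedSectionVars false
set_option linter.unusedVariables false
set_option linter.deprecated false

namespace Pool.Agent.K6.H78.GN

open Finset Matrix MeasureTheory
open Pool.Agent.K6.H78.MF (Pm exists_pm pm_unique pm_iff IsPoly)
open Pool.Agent.K6.H78.FR (cr sc sd tt Sys)
open Pool.Agent.K6.H78.MR (pl pl_mul pl_map dual_of_pm det_unit gR gR_mul gR_one gR_inv_mul gR_mul_inv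
  gR_det gR_det_ne cq cq_ne proj_eq pm_rel e_ne e_pm det_one_unit pl_smul cont_pl sb pl_sb card_mat
  card_pl0 pl_norm_gl pl_ne_mul null_norm boxJ poly_det units_fin g_bound TB tail_b tail_q vol_le)

variable {I : Type} [Fintype I] [DecidableEq I] {m : ℕ} {r N k : I → ℕ}
  {Γ : Subgroup (∀ i, Equiv.Perm (Fin (k i)))} {J : Type} [Fintype J]
  {eT : J ≃ Fin m × (∀ i, Fin (k i) → Fin (N i))} {𝒩 : (Fin m → OI k Γ r → ℚ) → Prop}
  {hne : Nonempty (PP r N J)}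

/-! ### boxes -/

theorem box2 (α β : Type) [Fintype α] [Fintype β] (A : ℝ) (hA : 1 ≤ A) :
    {q : α → β → ℤ | ∀ a b, |(q a b : ℝ)| ≤ A}.Finite ∧
    ({q : α → β → ℤ | ∀ a b, |(q a b : ℝ)| ≤ A}.ncard : ℝ) ≤
      (3 * A) ^ (Fintype.card α * Fintype.card β) := by
  classical
  obtain ⟨h1, h2⟩ := boxJ (α × β) A hA
  rw [Fintype.card_prod] at h2
  have hinj : Set.InjOn (fun q : α → β → ℤ => (fun p => q p.1 p.2 : α × β → ℤ))
      {q : α → β → ℤ | ∀ a b, |(q a b : ℝ)| ≤ A} := by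
    intro q _ q' _ he
    funext a b
    exact congrFun he (a, b)
  have hmaps : ∀ q ∈ {q : α → β → ℤ | ∀ a b, |(q a b : ℝ)| ≤ A},
      (fun p => q p.1 p.2 : α × β → ℤ) ∈ {q : α × β → ℤ | ∀ j, |(q j : ℝ)| ≤ A} :=
    fun q hq p => hq p.1 p.2
  refine ⟨Set.Finite.of_injOn hmaps hinj h1, le_trans ?_ h2⟩
  exact_mod_cast Set.ncard_le_ncard_of_injOn _ hmaps hinj h1

/-! ### the regions -/

/-- the bases as a vector -/
def bv {R : Type*} (u : Ix m r N k Γ → R) : (Σ i, Fin (r i + 1) × Fin (N i)) → R :=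
  fun p => u (Sum.inl p)

/-- the open region -/
def Do (m : ℕ) (r N k : I → ℕ) (Γ : Subgroup (∀ i, Equiv.Perm (Fin (k i)))) (K R₀ : ℝ) :
    Set (Ix m r N k Γ → ℝ) :=
  {u | (∀ i, 1 < ‖pl (bm u i)‖) ∧ (∀ i, ‖pl (bm u i)‖ < Real.exp ((r i + 1 : ℕ) : ℝ)) ∧
    ‖bv u‖ < K ∧ qv u ≠ 0 ∧ ‖qv u‖ < R₀}

/-- the closed region -/
def Dc (m : ℕ) (r N k : I → ℕ) (Γ : Subgroup (∀ i, Equiv.Perm (Fin (k i)))) (K R₀ : ℝ) :
    Set (Ix m r N k Γ → ℝ) :=
  {u | (∀ i, 1 ≤ ‖pl (bm u i)‖) ∧ (∀ i, ‖pl (bm u i)‖ ≤ Real.exp ((r i + 1 : ℕ) : ℝ)) ∧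
    ‖bv u‖ ≤ K ∧ ‖qv u‖ ≤ R₀}

theorem cont_bv : Continuous fun u : Ix m r N k Γ → ℝ => bv u := by
  unfold bv
  fun_prop

theorem Do_sub (K R₀ : ℝ) : Do m r N k Γ K R₀ ⊆ Dc m r N k Γ K R₀ :=
  fun _ ⟨h1, h2, h3, _, h5⟩ => ⟨fun i => (h1 i).le, fun i => (h2 i).le, h3.le, h5.le⟩

theorem Do_open (K R₀ : ℝ) : IsOpen (Do m r N k Γ K R₀) := by
  have e : Do m r N k Γ K R₀ = (⋂ i, {u | 1 < ‖pl (bm u i)‖}) ∩
      (⋂ i, {u | ‖pl (bm u i)‖ < Real.exp ((r i + 1 : ℕ) : ℝ)}) ∩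
      {u | ‖bv u‖ < K} ∩ {u | qv u ≠ 0} ∩ {u | ‖qv u‖ < R₀} := by
    ext u
    simp only [Do, Set.mem_setOf_eq, Set.mem_inter_iff, Set.mem_iInter]
    tauto
  rw [e]
  refine (((IsOpen.inter ?_ ?_).inter ?_).inter ?_).inter ?_
  · exact isOpen_iInter_of_finite fun i => isOpen_lt continuous_const (cont_plb i).norm
  · exact isOpen_iInter_of_finite fun i => isOpen_lt (cont_plb i).norm continuous_const
  · exact isOpen_lt cont_bv.norm continuous_const
  · exact isOpen_ne_fun cont_qv continuous_const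
  · exact isOpen_lt cont_qv.norm continuous_const

theorem Dc_closed (K R₀ : ℝ) : IsClosed (Dc m r N k Γ K R₀) := by
  have e : Dc m r N k Γ K R₀ = (⋂ i, {u | 1 ≤ ‖pl (bm u i)‖}) ∩
      (⋂ i, {u | ‖pl (bm u i)‖ ≤ Real.exp ((r i + 1 : ℕ) : ℝ)}) ∩
      {u | ‖bv u‖ ≤ K} ∩ {u | ‖qv u‖ ≤ R₀} := by
    ext u
    simp only [Dc, Set.mem_setOf_eq, Set.mem_inter_iff, Set.mem_iInter]
    tauto
  rw [e]
  refine ((IsClosed.inter ?_ ?_).inter ?_).inter ?_
  · exact isClosed_iInter fun i => isClosed_le continuous_const (cont_plb i).norm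
  · exact isClosed_iInter fun i => isClosed_le (cont_plb i).norm continuous_const
  · exact isClosed_le cont_bv.norm continuous_const
  · exact isClosed_le cont_qv.norm continuous_const

theorem Dc_bdd {K R₀ : ℝ} (hK : 0 ≤ K) : Bornology.IsBounded (Dc m r N k Γ K R₀) := by
  rw [isBounded_iff_forall_norm_le]
  refine ⟨max K R₀, fun u hu => ?_⟩
  rw [pi_norm_le_iff_of_nonneg (le_max_of_le_left hK)]
  intro i
  rcases i with i | i
  · exact (norm_le_pi_norm (bv u) i).trans (hu.2.2.1.trans (le_max_left _ _))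
  · exact (norm_le_pi_norm (qv u) i).trans (hu.2.2.2.trans (le_max_right _ _))

theorem poly_plb (i : I) (f : Fin (r i + 1) → Fin (N i)) :
    IsPoly fun u : Ix m r N k Γ → ℝ => pl (bm u i) f :=
  poly_det (fun u => (bm u i).submatrix id f) fun i j => IsPoly.coord _

theorem bdry_null (hm : 1 ≤ m) {K R₀ : ℝ} (hK : 0 < K) (hR : 0 < R₀) :
    volume (Dc m r N k Γ K R₀ \ Do m r N k Γ K R₀) = 0 := by
  have hpl0 : ∀ i f, pl (bm (0 : Ix m r N k Γ → ℝ) i) f = 0 := by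
    intro i f
    unfold pl
    have h1 : (bm (0 : Ix m r N k Γ → ℝ) i).submatrix id f = 0 := rfl
    rw [h1, Matrix.det_zero]
  have n1 : volume (⋃ i, {u : Ix m r N k Γ → ℝ | ‖pl (bm u i)‖ = 1}) = 0 := by
    rw [measure_iUnion_null_iff]
    exact fun i => null_norm (P := fun u : Ix m r N k Γ → ℝ => pl (bm u i)) (poly_plb i) (hpl0 i) one_pos
  have n2 : volume (⋃ i, {u : Ix m r N k Γ → ℝ | ‖pl (bm u i)‖ = Real.exp ((r i + 1 : ℕ) : ℝ)}) = 0 := by
    rw [measure_iUnion_null_iff]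
    exact fun i => null_norm (P := fun u : Ix m r N k Γ → ℝ => pl (bm u i)) (poly_plb i) (hpl0 i)
      (Real.exp_pos _)
  have n3 := null_norm (P := fun u : Ix m r N k Γ → ℝ => bv u) (fun j => IsPoly.coord _)
    (fun _ => rfl) hK
  have n4 := null_norm (P := fun u : Ix m r N k Γ → ℝ => qv u) (fun j => IsPoly.coord _)
    (fun _ => rfl) hR
  have n5 : volume {u : Ix m r N k Γ → ℝ | u (Sum.inr (⟨0, hm⟩, mk fun _ _ => 0)) = 0} = 0 :=
    (IsPoly.coord _).null (fun _ => 1) one_ne_zero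
  refine measure_mono_null ?_ (measure_union_null n1 (measure_union_null n2
    (measure_union_null n3 (measure_union_null n4 n5))))
  rintro u ⟨⟨h1, h2, h3, h4⟩, hn⟩
  by_contra hcon
  simp only [Set.mem_union, Set.mem_setOf_eq, not_or, Set.mem_iUnion, not_exists] at hcon
  obtain ⟨c1, c2, c3, c4, c5⟩ := hcon
  apply hn
  refine ⟨fun i => lt_of_le_of_ne (h1 i) (Ne.symm (c1 i)), fun i => lt_of_le_of_ne (h2 i) (c2 i),
    lt_of_le_of_ne h3 c3, ?_, lt_of_le_of_ne h4 c4⟩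
  intro h
  exact c5 (congrFun h _)

theorem Do_aa (K R₀ : ℝ) : Do m r N k Γ K R₀ ⊆ (sys m r N k Γ eT 𝒩 hne).AA := by
  rintro u ⟨h1, h2, h3, h4, h5⟩
  have hpl : ∀ i, pl (bm u i) ≠ 0 := by
    intro i h
    have := h1 i
    rw [h, norm_zero] at this
    linarith
  refine ⟨⟨hpl, h4⟩, fun β hβ => ?_⟩
  cases β with
  | none => exact absurd rfl hβ
  | some i =>
    have hr0 : (0 : ℝ) < ((r i + 1 : ℕ) : ℝ) := by positivity
    show 0 ≤ (1 / ((r i + 1 : ℕ) : ℝ)) * Real.log ‖pl (bm u i)‖ ∧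
      (1 / ((r i + 1 : ℕ) : ℝ)) * Real.log ‖pl (bm u i)‖ < 1
    have h6 := Real.log_nonneg (h1 i).le
    have h7 : Real.log ‖pl (bm u i)‖ < ((r i + 1 : ℕ) : ℝ) := by
      rw [Real.log_lt_iff_lt_exp (by linarith [h1 i])]
      exact h2 i
    constructor
    · positivity
    · rw [one_div_mul_eq_div, div_lt_one hr0]
      exact h7

/-- the finite set of group elements -/
noncomputable def Gm (r : I → ℕ) (K : ℝ) : Finset (GG r) :=
  (Set.Finite.pi' (fun i => units_fin (r i + 1) ((r i + 1).factorial * K ^ (r i + 1)))).toFinset ×ˢ univ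

theorem Gm_fin {K R₀ : ℝ} {u : Ix m r N k Γ → ℝ} (hu : u ∈ Dc m r N k Γ K R₀) {g : GG r}
    (hg : (sys m r N k Γ eT 𝒩 hne).act g u ∈ Dc m r N k Γ K R₀) : g ∈ Gm r K := by
  unfold Gm
  rw [mem_product, Set.Finite.mem_toFinset]
  refine ⟨fun i x y => ?_, mem_univ _⟩
  have h1 : ∀ x l, |bm u i x l| ≤ K := fun x l =>
    (norm_le_pi_norm (bv u) ⟨i, (x, l)⟩).trans hu.2.2.1
  have h2 : ∀ x l, |(gR (g.1 i) * bm u i) x l| ≤ K := fun x l =>
    (norm_le_pi_norm (bv ((sys m r N k Γ eT 𝒩 hne).act g u)) ⟨i, (x, l)⟩).trans hg.2.2.1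
  exact g_bound h1 h2 (hu.1 i) x y

theorem tt_eq (y : Option I → ℝ) : tt (sys m r N k Γ eT 𝒩 hne).bk y =
    (∏ i, y (some i) ^ ((r i + 1) * N i)) * y none ^ (m * Fintype.card (OI k Γ r)) := by
  unfold tt
  rw [Fintype.prod_sum_type]
  show (∏ p : Σ i, Fin (r i + 1) × Fin (N i), y (some p.1)) * (∏ _ : Fin m × OI k Γ r, y none) = _
  rw [Fintype.prod_sigma]
  congr 1
  · refine prod_congr rfl fun i _ => ?_
    simp only
    rw [prod_const, card_univ, Fintype.card_prod, Fintype.card_fin, Fintype.card_fin]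
  · rw [prod_const, card_univ, Fintype.card_prod, Fintype.card_fin]

theorem TB_finite (r N P₀ : ℕ) {A : ℝ} (hA : 1 ≤ A) : (TB r N P₀ A).Finite :=
  MR.TB_finite r N P₀ hA

/-- degenerate coordinates have density zero -/
def Dn (𝒩 : (Fin m → OI k Γ r → ℚ) → Prop) : Prop := ∀ ε : ℝ, 0 < ε → ∃ L : ℝ, 0 < L ∧ ∀ Z : ℝ, L ≤ Z →
  ({q : Fin m → OI k Γ r → ℤ | (∀ j o, |(q j o : ℝ)| ≤ Z) ∧ ¬ 𝒩 (fun j o => (q j o : ℚ))}.ncard : ℝ) ≤
    ε * Z ^ (m * Fintype.card (OI k Γ r))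

/-- **the regions satisfy the assumptions of the frame** -/
theorem reg (hNN : NN 𝒩) (hD : Dn 𝒩) (hrN : ∀ i, r i + 1 < N i)
    (hM : 2 ≤ m * Fintype.card (OI k Γ r)) {K R₀ : ℝ} (hK : 0 < K) (hR₀ : 0 < R₀) :
    (sys m r N k Γ eT 𝒩 hne).Reg (Do m r N k Γ K R₀) (Dc m r N k Γ K R₀) (Gm r K) := by
  classical
  have hm : 1 ≤ m := by
    rcases Nat.eq_zero_or_pos m with h | h
    · rw [h, zero_mul] at hM
      omega
    · exact h
  refine ⟨Do_open K R₀, Dc_closed K R₀, Dc_bdd hK.le, Do_sub K R₀, Do_aa K R₀,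
    bdry_null hm hK hR₀, fun u hu g hg => Gm_fin hu hg, ?_⟩
  choose C₁ hC₁ htail using fun i => tail_b (hrN i)
  set M : ℕ := m * Fintype.card (OI k Γ r) with hMM
  set nb : I → ℕ := fun i => (r i + 1) * N i with hnb
  set U : ℝ := (∏ i, (3 * K) ^ nb i) * (3 * R₀) ^ M with hU
  have hU0 : 0 < U := by
    rw [hU]
    exact mul_pos (prod_pos fun i _ => by positivity) (by positivity)
  have hCs : 0 ≤ ∑ i, C₁ i := sum_nonneg fun i _ => (hC₁ i).le
  refine ⟨((∑ i, C₁ i) + 2) * U, by positivity, fun P₀ hP₀ => ?_⟩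
  have hP₀0 : (0 : ℝ) < P₀ := by exact_mod_cast hP₀
  obtain ⟨L, hL, hLd⟩ := hD (1 / P₀) (by positivity)
  refine ⟨max (L / R₀) (max (1 / K) (1 / R₀)), by positivity, fun y hy => ?_⟩
  have hy0 : ∀ β, 0 < y β := fun β => lt_of_lt_of_le (by positivity) (hy β)
  set Z := y none with hZ
  have hZ0 : 0 < Z := hy0 none
  have hKY : ∀ i, 1 ≤ K * y (some i) := by
    intro i
    have := (le_max_left _ _).trans ((le_max_right _ _).trans (hy (some i)))
    rw [div_le_iff₀ hK] at this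
    linarith
  have hRZ : 1 ≤ R₀ * Z := by
    have := (le_max_right _ _).trans ((le_max_right _ _).trans (hy none))
    rw [div_le_iff₀ hR₀] at this
    linarith
  have hLZ : L ≤ R₀ * Z := by
    have := (le_max_left _ _).trans (hy none)
    rw [div_le_iff₀ hR₀] at this
    linarith
  rw [tt_eq]
  set t : ℝ := (∏ i, y (some i) ^ nb i) * Z ^ M with ht
  have ht0 : 0 < t := mul_pos (prod_pos fun i _ => pow_pos (hy0 _) _) (by positivity)
  have htU : (∏ i, (3 * (K * y (some i))) ^ nb i) * (3 * (R₀ * Z)) ^ M = U * t := by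
    rw [hU, ht]
    have e1 : ∀ i, (3 * (K * y (some i))) ^ nb i = (3 * K) ^ nb i * y (some i) ^ nb i := fun i => by
      rw [← mul_pow]; ring
    have e2 : (3 * (R₀ * Z)) ^ M = (3 * R₀) ^ M * Z ^ M := by rw [← mul_pow]; ring
    rw [prod_congr rfl fun i _ => e1 i, Finset.prod_mul_distrib, e2]
    ring
  -- the boxes
  obtain ⟨bqf, bqc⟩ := box2 (Fin m) (OI k Γ r) (R₀ * Z) hRZ
  rw [Fintype.card_fin, ← hMM] at bqc
  have hbb := fun i => box2 (Fin (r i + 1)) (Fin (N i)) (K * y (some i)) (hKY i)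
  obtain ⟨tqf, tqc⟩ := tail_q (Fin m × OI k Γ r) (by
    rw [Fintype.card_prod, Fintype.card_fin]; exact hM) P₀ (R₀ * Z) hP₀ hRZ
  rw [Fintype.card_prod, Fintype.card_fin, ← hMM] at tqc
  set Bq : Set (Fin m → OI k Γ r → ℤ) := {q | ∀ a b, |(q a b : ℝ)| ≤ R₀ * Z} with hBq
  set BB := ∀ i, Matrix (Fin (r i + 1)) (Fin (N i)) ℤ with hBB
  set bx : ∀ i, Finset (Matrix (Fin (r i + 1)) (Fin (N i)) ℤ) := fun i => (hbb i).1.toFinset with hbx
  have hbxc : ∀ i, ((bx i).card : ℝ) ≤ (3 * (K * y (some i))) ^ nb i := by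
    intro i
    have h1 := (hbb i).2
    rw [Fintype.card_fin, Fintype.card_fin] at h1
    have h2 := Set.ncard_eq_toFinset_card _ (hbb i).1
    rw [h2] at h1
    exact h1
  set Sf : I → Finset BB := fun i => Fintype.piFinset fun i' =>
    (bx i').filter fun b => ∀ h : i' = i, b ∈ TB (r i' + 1) (N i') P₀ (K * y (some i')) with hSf
  set Bf : Finset BB := Fintype.piFinset bx with hBf
  have hBfc : (Bf.card : ℝ) ≤ ∏ i, (3 * (K * y (some i))) ^ nb i := by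
    rw [hBf, Fintype.card_piFinset]
    push_cast
    exact Finset.prod_le_prod (fun i _ => Nat.cast_nonneg _) fun i _ => hbxc i
  have hSfc : ∀ i, ((Sf i).card : ℝ) ≤ C₁ i / P₀ * ∏ i, (3 * (K * y (some i))) ^ nb i := by
    intro i
    rw [hSf, Fintype.card_piFinset]
    push_cast
    rw [← Finset.mul_prod_erase univ _ (mem_univ i),
      ← Finset.mul_prod_erase univ (fun i => (3 * (K * y (some i))) ^ nb i) (mem_univ i)]
    have h1 : (((bx i).filter fun b => ∀ h : i = i, b ∈ TB (r i + 1) (N i) P₀ (K * y (some i))).card : ℝ) ≤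
        C₁ i / P₀ * (3 * (K * y (some i))) ^ nb i := by
      have h2 : ((bx i).filter fun b => ∀ h : i = i, b ∈ TB (r i + 1) (N i) P₀ (K * y (some i))).card ≤
          (TB (r i + 1) (N i) P₀ (K * y (some i))).ncard := by
        rw [Set.ncard_eq_toFinset_card _ (TB_finite (r i + 1) (N i) P₀ (hKY i))]
        apply Finset.card_le_card
        intro b hb
        rw [Set.Finite.mem_toFinset]
        exact (mem_filter.1 hb).2 rfl
      have h3 := htail i P₀ (K * y (some i)) hP₀ (by linarith [hKY i])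
      have h4 : (((bx i).filter fun b => ∀ h : i = i, b ∈ TB (r i + 1) (N i) P₀ (K * y (some i))).card : ℝ) ≤
          (TB (r i + 1) (N i) P₀ (K * y (some i))).ncard := by exact_mod_cast h2
      refine h4.trans (h3.trans ?_)
      have h5 : (K * y (some i)) ^ ((r i + 1) * N i) ≤ (3 * (K * y (some i))) ^ nb i :=
        pow_le_pow_left₀ (by linarith [hKY i]) (by linarith [hKY i]) _
      have := hC₁ i
      calc C₁ i * (K * y (some i)) ^ ((r i + 1) * N i) / P₀ =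
          C₁ i / P₀ * (K * y (some i)) ^ ((r i + 1) * N i) := by ring
        _ ≤ _ := mul_le_mul_of_nonneg_left h5 (by positivity)
    have h2 : ∏ i' ∈ univ.erase i, (((bx i').filter fun b => ∀ h : i' = i,
        b ∈ TB (r i' + 1) (N i') P₀ (K * y (some i'))).card : ℝ) ≤
        ∏ i' ∈ univ.erase i, (3 * (K * y (some i'))) ^ nb i' := by
      refine Finset.prod_le_prod (fun i' _ => Nat.cast_nonneg _) fun i' _ => ?_
      refine le_trans ?_ (hbxc i')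
      exact_mod_cast Finset.card_filter_le _ _
    have h3 : (0 : ℝ) ≤ C₁ i / P₀ * (3 * (K * y (some i))) ^ nb i := by
      have := hC₁ i
      have := hy0 (some i)
      positivity
    calc _ ≤ (C₁ i / P₀ * (3 * (K * y (some i))) ^ nb i) *
        ∏ i' ∈ univ.erase i, (3 * (K * y (some i'))) ^ nb i' :=
          mul_le_mul h1 h2 (prod_nonneg fun i' _ => Nat.cast_nonneg _) h3
      _ = _ := by ring
  set Tq : Set (Fin m → OI k Γ r → ℤ) := (fun q : Fin m × OI k Γ r → ℤ => fun j o => q (j, o)) ''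
    {q : Fin m × OI k Γ r → ℤ | (∀ j, |(q j : ℝ)| ≤ R₀ * Z) ∧ q ≠ 0 ∧
    ∃ p : ℕ, p.Prime ∧ P₀ < p ∧ ∀ j, (p : ℤ) ∣ q j} with hTq
  have tqf' : Tq.Finite := tqf.image _
  have tqc' : (Tq.ncard : ℝ) ≤ (3 * (R₀ * Z)) ^ M / P₀ := by
    refine le_trans ?_ tqc
    exact Nat.cast_le.2 (Set.ncard_image_le
      (f := fun q : Fin m × OI k Γ r → ℤ => fun j o => q (j, o)) tqf)
  set Nq : Set (Fin m → OI k Γ r → ℤ) := {q | (∀ j o, |(q j o : ℝ)| ≤ R₀ * Z) ∧
    ¬ 𝒩 (fun j o => (q j o : ℚ))} with hNq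
  have nqf : Nq.Finite := bqf.subset fun q hq => hq.1
  have nqc : (Nq.ncard : ℝ) ≤ 1 / P₀ * (R₀ * Z) ^ M := hLd _ hLZ
  set G₁ : BB × (Fin m → OI k Γ r → ℤ) → (Ix m r N k Γ → ℤ) := fun x => gl x.1 x.2 with hG₁
  set E₁ : Set (Ix m r N k Γ → ℤ) := ⋃ i ∈ (univ : Finset I), G₁ '' ((Sf i : Set BB) ×ˢ Bq) with hE₁
  set E₂ : Set (Ix m r N k Γ → ℤ) := G₁ '' ((Bf : Set BB) ×ˢ Tq) with hE₂
  set E₃ : Set (Ix m r N k Γ → ℤ) := G₁ '' ((Bf : Set BB) ×ˢ Nq) with hE₃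
  have hE₁i : ∀ i, (G₁ '' ((Sf i : Set BB) ×ˢ Bq)).Finite ∧
      ((G₁ '' ((Sf i : Set BB) ×ˢ Bq)).ncard : ℝ) ≤ C₁ i / P₀ * (U * t) := by
    intro i
    have hf := ((Sf i).finite_toSet.prod bqf)
    refine ⟨hf.image _, ?_⟩
    have h1 : ((G₁ '' ((Sf i : Set BB) ×ˢ Bq)).ncard : ℝ) ≤ (Sf i).card * Bq.ncard := by
      have := Set.ncard_image_le (f := G₁) hf
      rw [Set.ncard_prod, Set.ncard_coe_finset] at this
      exact_mod_cast this
    refine h1.trans ?_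
    rw [← htU]
    have h3 : 0 ≤ C₁ i / P₀ * ∏ i, (3 * (K * y (some i))) ^ nb i := by
      refine mul_nonneg ?_ (prod_nonneg fun i _ => ?_)
      · have := hC₁ i; positivity
      · have := hy0 (some i); positivity
    calc ((Sf i).card : ℝ) * Bq.ncard ≤ (C₁ i / P₀ * ∏ i, (3 * (K * y (some i))) ^ nb i) *
        (3 * (R₀ * Z)) ^ M := mul_le_mul (hSfc i) bqc (Nat.cast_nonneg _) h3
      _ = _ := by ring
  obtain ⟨e₁f, e₁c⟩ := MR.ncard_bw (S := E₁) (I := univ) (F := fun i => G₁ '' ((Sf i : Set BB) ×ˢ Bq))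
    (le_refl _) (fun i _ => (hE₁i i).1) (fun i _ => (hE₁i i).2)
  have hBnn : (0 : ℝ) ≤ ∏ i, (3 * (K * y (some i))) ^ nb i :=
    prod_nonneg fun i _ => by have := hy0 (some i); positivity
  have e₂f : E₂.Finite := (Bf.finite_toSet.prod tqf').image _
  have e₃f : E₃.Finite := (Bf.finite_toSet.prod nqf).image _
  have e₂c : (E₂.ncard : ℝ) ≤ 1 / P₀ * (U * t) := by
    have h1 : (E₂.ncard : ℝ) ≤ Bf.card * Tq.ncard := by
      have := Set.ncard_image_le (f := G₁) (Bf.finite_toSet.prod tqf')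
      rw [Set.ncard_prod, Set.ncard_coe_finset] at this
      exact_mod_cast this
    refine h1.trans ?_
    rw [← htU]
    calc (Bf.card : ℝ) * Tq.ncard ≤ (∏ i, (3 * (K * y (some i))) ^ nb i) * ((3 * (R₀ * Z)) ^ M / P₀) :=
          mul_le_mul hBfc tqc' (Nat.cast_nonneg _) hBnn
      _ = _ := by ring
  have e₃c : (E₃.ncard : ℝ) ≤ 1 / P₀ * (U * t) := by
    have h1 : (E₃.ncard : ℝ) ≤ Bf.card * Nq.ncard := by
      have := Set.ncard_image_le (f := G₁) (Bf.finite_toSet.prod nqf)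
      rw [Set.ncard_prod, Set.ncard_coe_finset] at this
      exact_mod_cast this
    refine h1.trans ?_
    rw [← htU]
    have h2 : (R₀ * Z) ^ M ≤ (3 * (R₀ * Z)) ^ M :=
      pow_le_pow_left₀ (by positivity) (by linarith) _
    calc (Bf.card : ℝ) * Nq.ncard ≤ (∏ i, (3 * (K * y (some i))) ^ nb i) *
          (1 / P₀ * (3 * (R₀ * Z)) ^ M) :=
          mul_le_mul hBfc (nqc.trans (mul_le_mul_of_nonneg_left h2 (by positivity))) (Nat.cast_nonneg _) hBnn
      _ = _ := by ring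
  set S : Set (Ix m r N k Γ → ℤ) := {z | sd (sys m r N k Γ eT 𝒩 hne).bk y z ∈ Do m r N k Γ K R₀ ∧
    ((∃ p : ℕ, p.Prime ∧ P₀ < p ∧ ¬ (sys m r N k Γ eT 𝒩 hne).Lc p z) ∨
      ¬ (sys m r N k Γ eT 𝒩 hne).Nz z)} with hS
  have hsub : S ⊆ E₁ ∪ (E₂ ∪ E₃) := by
    rintro z ⟨hz, hbad⟩
    have hzc := Do_sub K R₀ hz
    have hb : ∀ i x l, |((bm z i x l : ℤ) : ℝ)| ≤ K * y (some i) := fun i x l =>
      vol_le (hy0 _) ((norm_le_pi_norm (bv (sd (sys m r N k Γ eT 𝒩 hne).bk y z)) ⟨i, (x, l)⟩).trans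
        hzc.2.2.1)
    have hq : ∀ j o, |((qm z j o : ℤ) : ℝ)| ≤ R₀ * Z := fun j o =>
      vol_le hZ0 ((norm_le_pi_norm (qv (sd (sys m r N k Γ eT 𝒩 hne).bk y z)) (j, o)).trans hzc.2.2.2)
    have hOm : cr z ∈ (sys m r N k Γ eT 𝒩 hne).Om := by
      rw [FR.cr_eq (bk := (sys m r N k Γ eT 𝒩 hne).bk) hy0 z]
      exact (ok hNN hrN hM).om_sc y hy0 _ (Do_aa (eT := eT) (𝒩 := 𝒩) (hne := hne) K R₀ hz).1
    have hpl : ∀ i, pl (bm z i) ≠ 0 := fun i => pl_cr_ne.1 (hOm.1 i)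
    have hq0 : qv z ≠ 0 := by
      intro h0
      apply hOm.2
      funext x
      have h1 := congrFun h0 x
      show ((z (Sum.inr x) : ℤ) : ℝ) = 0
      have h2 : z (Sum.inr x) = 0 := h1
      rw [h2]; simp
    have hbB : ∀ i, bm z i ∈ bx i := by
      intro i
      exact (Set.Finite.mem_toFinset (hbb i).1).2 (hb i)
    have hbBf : bm z ∈ (Bf : Set BB) := by
      rw [mem_coe, hBf, Fintype.mem_piFinset]
      exact hbB
    rcases hbad with ⟨p, hp, hPp, hL⟩ | hnz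
    · rw [lc_iff, not_and_or] at hL
      rcases hL with hL | hL
      · push Not at hL
        obtain ⟨i, hL⟩ := hL
        left
        rw [hE₁, Set.mem_iUnion₂]
        refine ⟨i, mem_univ i, (bm z, qm z), ⟨?_, hq⟩, gl_eq z⟩
        rw [mem_coe, hSf, Fintype.mem_piFinset]
        intro i'
        rw [mem_filter]
        refine ⟨hbB i', ?_⟩
        rintro rfl
        exact ⟨hb i', hpl i', p, hp, hPp, hL⟩
      · rw [not_not] at hL
        right; left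
        exact ⟨(bm z, qm z), ⟨hbBf, qv z, ⟨fun p => hq p.1 p.2, hq0, p, hp, hPp, hL⟩, rfl⟩, gl_eq z⟩
    · right; right
      exact ⟨(bm z, qm z), ⟨hbBf, hq, hnz⟩, gl_eq z⟩
  refine ⟨(e₁f.union (e₂f.union e₃f)).subset hsub, ?_⟩
  have hc : (S.ncard : ℝ) ≤ E₁.ncard + (E₂.ncard + E₃.ncard) := by
    have h1 := Set.ncard_le_ncard hsub (e₁f.union (e₂f.union e₃f))
    have h2 := Set.ncard_union_le E₁ (E₂ ∪ E₃)
    have h3 := Set.ncard_union_le E₂ E₃
    exact_mod_cast (by omega : S.ncard ≤ E₁.ncard + (E₂.ncard + E₃.ncard))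
  have hs : ∑ i, C₁ i / P₀ * (U * t) = (∑ i, C₁ i) / P₀ * (U * t) := by
    rw [← Finset.sum_mul, Finset.sum_div]
  rw [hs] at e₁c
  calc (S.ncard : ℝ) ≤ E₁.ncard + (E₂.ncard + E₃.ncard) := hc
    _ ≤ (∑ i, C₁ i) / P₀ * (U * t) + (1 / P₀ * (U * t) + 1 / P₀ * (U * t)) := by gcongr
    _ = _ := by ring

end Pool.Agent.K6.H78.GN
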