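import Pool.Agent.K6.H78.MR.Rg
import Pool.Agent.K6.H78.GN.Alg
import Pool.Agent.K6.H78.GN.Crd

/-!
The system of the families (bases, coordinates).
-/

set_option autoImplicit false
set_option linter.unusedSectionVars false
set_option linter.unusedVariables false
set_option linter.deprecated false

namespace Pool.Agent.K6.H78.GN

open Finset Matrix MeasureTheory
open Pool.Agent.K6.H78.MF (Pm exists_pm pm_unique pm_iff IsPoly)
open Pool.Agent.K6.H78.FR (cr sc sd tt Sys)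
open Pool.Agent.K6.H78.MR (pl pl_mul pl_map dual_of_pm det_unit gR gR_mul gR_one gR_inv_mul gR_mul_inv
  gR_det gR_det_ne cq cq_ne proj_eq pm_rel e_ne e_pm det_one_unit pl_smul)

variable {I : Type} [Fintype I] [DecidableEq I] {m : ℕ} {r N k : I → ℕ}
  {Γ : Subgroup (∀ i, Equiv.Perm (Fin (k i)))} {J : Type} [Fintype J]

/-- the coordinates of the families -/
abbrev Ix (m : ℕ) (r N k : I → ℕ) (Γ : Subgroup (∀ i, Equiv.Perm (Fin (k i)))) : Type :=
  (Σ i, Fin (r i + 1) × Fin (N i)) ⊕ (Fin m × OI k Γ r)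

section ring

variable {R : Type*} [CommRing R]

/-- the bases -/
def bm (u : Ix m r N k Γ → R) (i : I) : Matrix (Fin (r i + 1)) (Fin (N i)) R :=
  Matrix.of fun x l => u (Sum.inl ⟨i, (x, l)⟩)

/-- the coordinates -/
def qm (u : Ix m r N k Γ → R) : Fin m → OI k Γ r → R := fun j o => u (Sum.inr (j, o))

/-- the coordinates as a vector -/
def qv (u : Ix m r N k Γ → R) : Fin m × OI k Γ r → R := fun p => u (Sum.inr p)

/-- families as vectors -/
def gl (b : ∀ i, Matrix (Fin (r i + 1)) (Fin (N i)) R) (q : Fin m → OI k Γ r → R) :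
    Ix m r N k Γ → R :=
  Sum.elim (fun p => b p.1 p.2.1 p.2.2) fun p => q p.1 p.2

theorem bm_gl (b : ∀ i, Matrix (Fin (r i + 1)) (Fin (N i)) R) (q : Fin m → OI k Γ r → R) :
    bm (gl b q) = b := rfl
theorem qm_gl (b : ∀ i, Matrix (Fin (r i + 1)) (Fin (N i)) R) (q : Fin m → OI k Γ r → R) :
    qm (gl b q) = q := rfl
theorem gl_eq (u : Ix m r N k Γ → R) : gl (bm u) (qm u) = u := by
  funext i
  rcases i with i | i <;> rfl

theorem qv_ne {u : Ix m r N k Γ → R} : qv u ≠ 0 ↔ qm u ≠ 0 := by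
  rw [not_iff_not]
  constructor
  · intro h
    funext j i
    exact congrFun h (j, i)
  · intro h
    funext p
    exact congrFun (congrFun h p.1) p.2

/-- the action of the general linear groups -/
noncomputable def ac (g g' : ∀ i, Matrix (Fin (r i + 1)) (Fin (r i + 1)) R) (e : R)
    (u : Ix m r N k Γ → R) : Ix m r N k Γ → R :=
  gl (fun i => g i * bm u i) (e • ro (qm u) g')

theorem bm_ac (g g' : ∀ i, Matrix (Fin (r i + 1)) (Fin (r i + 1)) R) (e : R)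
    (u : Ix m r N k Γ → R) (i : I) : bm (ac g g' e u) i = g i * bm u i := rfl
theorem qm_ac (g g' : ∀ i, Matrix (Fin (r i + 1)) (Fin (r i + 1)) R) (e : R)
    (u : Ix m r N k Γ → R) : qm (ac g g' e u) = e • ro (qm u) g' := rfl

theorem ac_mul (g g' h h' : ∀ i, Matrix (Fin (r i + 1)) (Fin (r i + 1)) R) (e d : R)
    (u : Ix m r N k Γ → R) :
    ac (fun i => g i * h i) (fun i => h' i * g' i) (e * d) u = ac g g' e (ac h h' d u) := by
  unfold ac
  rw [bm_gl, qm_gl, ro_smul, ro_mul, smul_smul]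
  congr 1
  funext i
  rw [Matrix.mul_assoc]

theorem ac_one (u : Ix m r N k Γ → R) : ac (fun _ => 1) (fun _ => 1) 1 u = u := by
  unfold ac
  rw [ro_one, one_smul]
  simp only [Matrix.one_mul]
  exact gl_eq u

/-- the tensors in other coordinates -/
def tj (eT : J ≃ Fin m × (∀ i, Fin (k i) → Fin (N i))) (q : Fin m → OI k Γ r → R)
    (b : ∀ i, Matrix (Fin (r i + 1)) (Fin (N i)) R) : J → R := fun p => tm q b (eT p)

theorem tj_ac (eT : J ≃ Fin m × (∀ i, Fin (k i) → Fin (N i)))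
    {g g' : ∀ i, Matrix (Fin (r i + 1)) (Fin (r i + 1)) R} (h : ∀ i, g' i * g i = 1) (e : R)
    (u : Ix m r N k Γ → R) : tj eT (qm (ac g g' e u)) (bm (ac g g' e u)) =
      e • tj eT (qm u) (bm u) := by
  have h1 : tm (qm (ac g g' e u)) (bm (ac g g' e u)) = e • tm (qm u) (bm u) := by
    rw [qm_ac, tm_smul, tm_ro]
    congr 2
    funext i
    rw [bm_ac, ← Matrix.mul_assoc, h i, Matrix.one_mul]
  funext p
  exact congrFun h1 (eT p)

end ring

theorem tj_norm (eT : J ≃ Fin m × (∀ i, Fin (k i) → Fin (N i))) (q : Fin m → OI k Γ r → ℝ)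
    (b : ∀ i, Matrix (Fin (r i + 1)) (Fin (N i)) ℝ) : ‖tj eT q b‖ = ‖tm q b‖ := by
  apply le_antisymm
  · rw [pi_norm_le_iff_of_nonneg (norm_nonneg _)]
    intro p
    exact norm_le_pi_norm (tm q b) (eT p)
  · rw [pi_norm_le_iff_of_nonneg (norm_nonneg _)]
    intro p
    have h := norm_le_pi_norm (tj eT q b) (eT.symm p)
    have h1 : tj eT q b (eT.symm p) = tm q b p := by
      show tm q b (eT (eT.symm p)) = _
      rw [Equiv.apply_symm_apply]
    rwa [h1] at h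

theorem tj_ne {R : Type*} [CommRing R] (eT : J ≃ Fin m × (∀ i, Fin (k i) → Fin (N i)))
    {q : Fin m → OI k Γ r → R} {b : ∀ i, Matrix (Fin (r i + 1)) (Fin (N i)) R} :
    tj eT q b ≠ 0 ↔ tm q b ≠ 0 := by
  rw [not_iff_not]
  constructor
  · intro h
    funext p
    have h1 := congrFun h (eT.symm p)
    have h2 : tj eT q b (eT.symm p) = tm q b p := by
      show tm q b (eT (eT.symm p)) = _
      rw [Equiv.apply_symm_apply]
    rw [← h2, h1]
    rfl
  · intro h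
    funext p
    exact congrFun h (eT p)

theorem tj_pm (eT : J ≃ Fin m × (∀ i, Fin (k i) → Fin (N i)))
    {q : Fin m → OI k Γ r → ℤ} {b : ∀ i, Matrix (Fin (r i + 1)) (Fin (N i)) ℤ} :
    Pm (tj eT q b) ↔ Pm (tm q b) := by
  constructor
  · intro h p hp hd
    exact h p hp fun x => hd (eT x)
  · intro h p hp hd
    refine h p hp fun x => ?_
    have := hd (eT.symm x)
    have h2 : tj eT q b (eT.symm x) = tm q b x := by
      show tm q b (eT (eT.symm x)) = _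
      rw [Equiv.apply_symm_apply]
    rwa [h2] at this

/-- the group -/
abbrev GG (r : I → ℕ) : Type := (∀ i, (Matrix (Fin (r i + 1)) (Fin (r i + 1)) ℤ)ˣ) × ℤˣ

/-- the ambient space -/
abbrev PP (r N : I → ℕ) (J : Type) : Type :=
  (∀ i, Projectivization ℚ ((Fin (r i + 1) → Fin (N i)) → ℚ)) × Projectivization ℚ (J → ℚ)

/-- the family represents the point -/
def IsRep (eT : J ≃ Fin m × (∀ i, Fin (k i) → Fin (N i))) (z : Ix m r N k Γ → ℤ) (P : PP r N J) : Prop :=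
  (∀ i, ∃ c : ℚ, c ≠ 0 ∧ (P.1 i).rep = fun f => c * (pl (bm z i) f : ℤ)) ∧
    ∃ c : ℚ, c ≠ 0 ∧ P.2.rep = fun p => c * (tj eT (qm z) (bm z) p : ℤ)

/-- the system -/
noncomputable def sys (m : ℕ) (r N k : I → ℕ) (Γ : Subgroup (∀ i, Equiv.Perm (Fin (k i))))
    (eT : J ≃ Fin m × (∀ i, Fin (k i) → Fin (N i))) (𝒩 : (Fin m → OI k Γ r → ℚ) → Prop)
    (hne : Nonempty (PP r N J)) : Sys (Option I) (Ix m r N k Γ) (GG r) (PP r N J) where
  bk := Sum.elim (fun p => some p.1) fun _ => none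
  i₀ := none
  Tp := fun p => {t | (∀ i, pl (bm t i) ≠ 0) ∧ qv t ≠ 0}
  Nz := fun z => 𝒩 (qm fun i => (z i : ℚ))
  Om := {u | (∀ i, pl (bm u i) ≠ 0) ∧ qv u ≠ 0}
  act := fun g => ac (fun i => gR (g.1 i)) (fun i => gR (g.1 i)⁻¹) ((g.2 : ℤ) : ℝ)
  actZ := fun g => ac (fun i => (g.1 i : Matrix (Fin (r i + 1)) (Fin (r i + 1)) ℤ))
    (fun i => (((g.1 i)⁻¹ : (Matrix (Fin (r i + 1)) (Fin (r i + 1)) ℤ)ˣ) :
      Matrix (Fin (r i + 1)) (Fin (r i + 1)) ℤ)) (g.2 : ℤ)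
  pt := fun z => Classical.epsilon fun P => IsRep eT z P
  lam := fun β u => match β with
    | none => 0
    | some i => (1 / ((r i + 1 : ℕ) : ℝ)) * Real.log ‖pl (bm u i)‖

variable {eT : J ≃ Fin m × (∀ i, Fin (k i) → Fin (N i))} {𝒩 : (Fin m → OI k Γ r → ℚ) → Prop}
  {hne : Nonempty (PP r N J)}

theorem lc_iff {p : ℕ} {z : Ix m r N k Γ → ℤ} : (sys m r N k Γ eT 𝒩 hne).Lc p z ↔
    (∀ i, ¬ ∀ f, (p : ℤ) ∣ pl (bm z i) f) ∧ ¬ ∀ x, (p : ℤ) ∣ qv z x := by
  unfold FR.Sys.Lc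
  show ((∀ i, pl (bm (fun i => (z i : ZMod p)) i) ≠ 0) ∧ qv (fun i => (z i : ZMod p)) ≠ 0) ↔ _
  refine and_congr (forall_congr' fun i => not_congr ?_) (not_congr ?_)
  · rw [funext_iff]
    refine forall_congr' fun f => ?_
    rw [← ZMod.intCast_zmod_eq_zero_iff_dvd]
    have h : pl (bm (fun i => (z i : ZMod p)) i) f = ((pl (bm z i) f : ℤ) : ZMod p) :=
      pl_map (Int.castRingHom (ZMod p)) (bm z i) f
    rw [h]
    rfl
  · rw [funext_iff]
    refine forall_congr' fun r => ?_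
    rw [← ZMod.intCast_zmod_eq_zero_iff_dvd]
    rfl

/-- the assumptions on the nondegenerate coordinates -/
structure NN (𝒩 : (Fin m → OI k Γ r → ℚ) → Prop) : Prop where
  smul : ∀ q (c : ℚ), c ≠ 0 → 𝒩 q → 𝒩 (c • q)
  act : ∀ q (g : ∀ i, Matrix (Fin (r i + 1)) (Fin (r i + 1)) ℚ), (∀ i, (g i).det ≠ 0) → 𝒩 q →
    𝒩 (ro q g)
  ne : ∀ q, 𝒩 q → q ≠ 0

/-- good families -/
def Gd (𝒩 : (Fin m → OI k Γ r → ℚ) → Prop) (z : Ix m r N k Γ → ℤ) : Prop :=
  (∀ i, Pm (pl (bm z i))) ∧ Pm (qv z) ∧ 𝒩 (qm fun i => (z i : ℚ))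

theorem good_iff {z : Ix m r N k Γ → ℤ} : (sys m r N k Γ eT 𝒩 hne).Good z ↔ Gd 𝒩 z := by
  unfold FR.Sys.Good Gd
  constructor
  · rintro ⟨h1, h2⟩
    exact ⟨fun i p hp => (lc_iff.1 (h1 p hp)).1 i, fun p hp => (lc_iff.1 (h1 p hp)).2, h2⟩
  · rintro ⟨h1, h2, h3⟩
    exact ⟨fun p hp => lc_iff.2 ⟨fun i => h1 i p hp, h2 p hp⟩, h3⟩

theorem pl_cr (z : Ix m r N k Γ → ℤ) (i : I) (f : Fin (r i + 1) → Fin (N i)) :
    pl (bm (cr z) i) f = ((pl (bm z i) f : ℤ) : ℝ) :=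
  pl_map (Int.castRingHom ℝ) (bm z i) f

theorem pl_cr_ne {z : Ix m r N k Γ → ℤ} {i : I} : pl (bm (cr z) i) ≠ 0 ↔ pl (bm z i) ≠ 0 := by
  rw [not_iff_not]
  constructor
  · intro h
    funext f
    have h1 := congrFun h f
    rw [pl_cr] at h1
    have h2 : ((pl (bm z i) f : ℤ) : ℝ) = 0 := h1
    show pl (bm z i) f = 0
    exact_mod_cast h2
  · intro h
    funext f
    rw [pl_cr, h]
    simp

theorem bm_sc (a : Option I → ℝ) (u : Ix m r N k Γ → ℝ) (i : I) :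
    bm (sc (sys m r N k Γ eT 𝒩 hne).bk a u) i = a (some i) • bm u i := rfl

theorem qm_sc (a : Option I → ℝ) (u : Ix m r N k Γ → ℝ) :
    qm (sc (sys m r N k Γ eT 𝒩 hne).bk a u) = a none • qm u := rfl

theorem qv_sc (a : Option I → ℝ) (u : Ix m r N k Γ → ℝ) :
    qv (sc (sys m r N k Γ eT 𝒩 hne).bk a u) = a none • qv u := rfl

theorem ro_ne {R : Type*} [CommRing R] [IsDomain R] {q : Fin m → OI k Γ r → R}
    (h : q ≠ 0) {g g' : ∀ i, Matrix (Fin (r i + 1)) (Fin (r i + 1)) R} (hg : ∀ i, g i * g' i = 1)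
    {e : R} (he : e ≠ 0) : e • ro q g ≠ 0 := by
  intro h0
  have h1 : ro q g = 0 := by
    funext j o
    have h2 := congrFun (congrFun h0 j) o
    rw [Pi.smul_apply, Pi.smul_apply, smul_eq_mul] at h2
    exact (mul_eq_zero.1 h2).resolve_left he
  apply h
  have h2 : q = ro (ro q g) g' := by
    rw [ro_mul]
    simp only [hg]
    rw [ro_one]
  rw [h2, h1]
  have h3 := ro_smul (0 : R) (0 : Fin m → OI k Γ r → R) g'
  rw [zero_smul, zero_smul] at h3
  exact h3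

theorem cast_qm (g : ∀ i, Matrix (Fin (r i + 1)) (Fin (r i + 1)) ℤ) (e : ℤ) (z : Ix m r N k Γ → ℤ)
    (φ : ℤ →+* ℚ) (hφ : ∀ n, φ n = (n : ℚ)) :
    (fun j o => (((e • ro (qm z) g) j o : ℤ) : ℚ)) =
      (e : ℚ) • ro (fun j o => ((qm z j o : ℤ) : ℚ)) (fun i => (g i).map φ) := by
  have h1 := ro_map φ (qm z) g
  simp only [hφ] at h1
  rw [h1]
  funext j o
  show ((e * ro (qm z) g j o : ℤ) : ℚ) = (e : ℚ) * _
  push_cast
  rfl

theorem ro_dvd {q : Fin m → OI k Γ r → ℤ} {p : ℤ} (h : ∀ j o, p ∣ q j o)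
    (g : ∀ i, Matrix (Fin (r i + 1)) (Fin (r i + 1)) ℤ) (j : Fin m) (o : OI k Γ r) :
    p ∣ ro q g j o := by
  have h1 : ro q g j o = ∑ h', ex q j h' * tp k g h' (out o) := rfl
  rw [h1]
  exact Finset.dvd_sum fun i _ => (h j (mk i)).mul_right _

/-- good families are mapped to good families -/
theorem Gd.ac (hN : NN 𝒩) {z : Ix m r N k Γ → ℤ} (h : Gd 𝒩 z) (g : GG r) :
    Gd 𝒩 ((sys m r N k Γ eT 𝒩 hne).actZ g z) := by
  obtain ⟨h1, h2, h3⟩ := h
  have he := e_pm g.2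
  have hee : (g.2 : ℤ) * (g.2 : ℤ) = 1 := by rcases he with h | h <;> rw [h] <;> norm_num
  refine ⟨?_, ?_, ?_⟩
  · intro i
    show Pm (pl ((g.1 i : Matrix (Fin (r i + 1)) (Fin (r i + 1)) ℤ) * bm z i))
    rw [pl_mul]
    intro p hp hdv
    apply h1 i p hp
    intro f
    have h5 : (p : ℤ) ∣ (g.1 i : Matrix (Fin (r i + 1)) (Fin (r i + 1)) ℤ).det * pl (bm z i) f := hdv f
    rcases det_unit (g.1 i) with h | h
    · rwa [h, one_mul] at h5
    · rw [h, neg_one_mul] at h5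
      exact (dvd_neg).1 h5
  · intro p hp hdv
    apply h2 p hp
    intro x
    set q' := (g.2 : ℤ) • ro (qm z) (fun i => (((g.1 i)⁻¹ :
      (Matrix (Fin (r i + 1)) (Fin (r i + 1)) ℤ)ˣ) : Matrix (Fin (r i + 1)) (Fin (r i + 1)) ℤ)) with hq'
    have h4 : qm z = (g.2 : ℤ) • ro q' (fun i => (g.1 i : Matrix (Fin (r i + 1)) (Fin (r i + 1)) ℤ)) := by
      rw [hq', ro_smul, smul_smul, hee, one_smul, ro_mul]
      simp only [Units.inv_mul]
      rw [ro_one]
    have h6 : ∀ j o, (p : ℤ) ∣ q' j o := fun j o => hdv (j, o)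
    show (p : ℤ) ∣ qm z x.1 x.2
    rw [h4]
    exact Dvd.dvd.mul_left (ro_dvd h6 _ _ _) _
  · have h5 : (qm fun i => (((sys m r N k Γ eT 𝒩 hne).actZ g z i : ℤ) : ℚ)) = ((g.2 : ℤ) : ℚ) •
        ro (qm fun i => (z i : ℚ)) (fun i => (((g.1 i)⁻¹ :
      (Matrix (Fin (r i + 1)) (Fin (r i + 1)) ℤ)ˣ) : Matrix (Fin (r i + 1)) (Fin (r i + 1)) ℤ).map
        (Int.castRingHom ℚ)) :=
      cast_qm _ _ z (Int.castRingHom ℚ) (fun n => rfl)
    show 𝒩 (qm fun i => (((sys m r N k Γ eT 𝒩 hne).actZ g z i : ℤ) : ℚ))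
    rw [h5]
    apply hN.smul
    · rcases he with h | h <;> rw [h] <;> simp
    · apply hN.act _ _ _ h3
      intro i
      have h6 : ((((g.1 i)⁻¹ : (Matrix (Fin (r i + 1)) (Fin (r i + 1)) ℤ)ˣ) :
          Matrix (Fin (r i + 1)) (Fin (r i + 1)) ℤ).map (Int.castRingHom ℚ)).det =
          ((((g.1 i)⁻¹ : (Matrix (Fin (r i + 1)) (Fin (r i + 1)) ℤ)ˣ) :
            Matrix (Fin (r i + 1)) (Fin (r i + 1)) ℤ).det : ℚ) := by
        rw [← RingHom.mapMatrix_apply, ← RingHom.map_det]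
        rfl
      rw [h6]
      rcases det_unit (g.1 i)⁻¹ with h | h <;> rw [h] <;> simp

theorem IsRep.pt_unique {z : Ix m r N k Γ → ℤ} {P P' : PP r N J} (h : IsRep eT z P)
    (h' : IsRep eT z P') : P = P' := by
  obtain ⟨h1, d, hd, h2⟩ := h
  obtain ⟨h1', d', hd', h2'⟩ := h'
  refine Prod.ext ?_ (proj_eq hd hd' h2 h2')
  funext i
  obtain ⟨c, hc, e1⟩ := h1 i
  obtain ⟨c', hc', e1'⟩ := h1' i
  exact proj_eq hc hc' e1 e1'

theorem Gd.tm_pm {z : Ix m r N k Γ → ℤ} (h : Gd 𝒩 z) : Pm (tj eT (qm z) (bm z)) :=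
  (tj_pm eT).2 ((pm_T h.1).2 h.2.1)

theorem Gd.exists_pt {z : Ix m r N k Γ → ℤ} (h : Gd 𝒩 z) : ∃ P : PP r N J, IsRep eT z P := by
  have hp0 := fun i => cq_ne (h.1 i).ne
  have hT0 := cq_ne (h.tm_pm (eT := eT)).ne
  have ha := fun i => Projectivization.exists_smul_eq_mk_rep ℚ _ (hp0 i)
  obtain ⟨b, hb⟩ := Projectivization.exists_smul_eq_mk_rep ℚ _ hT0
  refine ⟨(fun i => Projectivization.mk ℚ _ (hp0 i), Projectivization.mk ℚ _ hT0),
    fun i => ?_, b, b.ne_zero, ?_⟩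
  · obtain ⟨a, ha⟩ := ha i
    refine ⟨a, a.ne_zero, ?_⟩
    simp only
    rw [← ha, Units.smul_def]
    funext p
    unfold cq
    rw [Pi.smul_apply, smul_eq_mul]
  · simp only
    rw [← hb, Units.smul_def]
    funext p
    unfold cq
    rw [Pi.smul_apply, smul_eq_mul]

theorem Gd.pt_spec {z : Ix m r N k Γ → ℤ} (h : Gd 𝒩 z) :
    IsRep eT z ((sys m r N k Γ eT 𝒩 hne).pt z) :=
  Classical.epsilon_spec h.exists_pt

theorem IsRep.ac {z : Ix m r N k Γ → ℤ} {P : PP r N J} (h : IsRep eT z P) (g : GG r) :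
    IsRep eT ((sys m r N k Γ eT 𝒩 hne).actZ g z) P := by
  obtain ⟨h1, d, hd, h2⟩ := h
  have hee : (g.2 : ℤ) * (g.2 : ℤ) = 1 := by rcases e_pm g.2 with h | h <;> rw [h] <;> norm_num
  refine ⟨fun i => ?_, ⟨d * ((g.2 : ℤ) : ℚ), mul_ne_zero hd ?_, ?_⟩⟩
  · obtain ⟨c, hc, h1⟩ := h1 i
    have hdd := det_one_unit (g := g.1 i)
    refine ⟨c * ((g.1 i : Matrix (Fin (r i + 1)) (Fin (r i + 1)) ℤ).det : ℚ), mul_ne_zero hc ?_, ?_⟩
    · rcases det_unit (g.1 i) with h | h <;> rw [h] <;> norm_num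
    · rw [h1]
      funext f
      have h3 : pl (bm ((sys m r N k Γ eT 𝒩 hne).actZ g z) i) f =
          (g.1 i : Matrix (Fin (r i + 1)) (Fin (r i + 1)) ℤ).det * pl (bm z i) f :=
        congrFun (pl_mul (g.1 i : Matrix (Fin (r i + 1)) (Fin (r i + 1)) ℤ) (bm z i)) f
      rw [h3, Int.cast_mul]
      have h4 : ((g.1 i : Matrix (Fin (r i + 1)) (Fin (r i + 1)) ℤ).det : ℚ) *
          ((g.1 i : Matrix (Fin (r i + 1)) (Fin (r i + 1)) ℤ).det : ℚ) = 1 := by exact_mod_cast hdd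
      linear_combination (-(c * ((pl (bm z i) f : ℤ) : ℚ))) * h4
  · rcases e_pm g.2 with h | h <;> rw [h] <;> norm_num
  · rw [h2]
    funext p
    have h3 : tj eT (qm ((sys m r N k Γ eT 𝒩 hne).actZ g z)) (bm ((sys m r N k Γ eT 𝒩 hne).actZ g z)) p =
        (g.2 : ℤ) * tj eT (qm z) (bm z) p :=
      congrFun (tj_ac eT (fun i => (g.1 i).inv_mul) (g.2 : ℤ) z) p
    rw [h3, Int.cast_mul]
    have h4 : ((g.2 : ℤ) : ℚ) * ((g.2 : ℤ) : ℚ) = 1 := by exact_mod_cast hee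
    linear_combination (-(d * ((tj eT (qm z) (bm z) p : ℤ) : ℚ))) * h4

/-- primitive bases of the same space -/
theorem base_int {r N : ℕ} {b b' : Matrix (Fin r) (Fin N) ℤ} (hb : Pm (pl b)) (hb' : Pm (pl b'))
    (h : pl b' = pl b ∨ pl b' = -pl b) : ∃ g g' : Matrix (Fin r) (Fin r) ℤ, g * g' = 1 ∧ g' * g = 1 ∧
      b' = g * b := by
  have key : ∀ (b b' : Matrix (Fin r) (Fin N) ℤ) (ξ : Matrix (Fin N) (Fin r) ℤ), b * ξ = 1 →
      pl b' ≠ 0 → (∃ c : ℚ, pl (b'.map (Int.castRingHom ℚ)) = c • pl (b.map (Int.castRingHom ℚ))) →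
      b' = (b' * ξ) * b := by
    intro b b' ξ hξ hne ⟨c, hc⟩
    set φ := Int.castRingHom ℚ with hφ
    have m1 : ∀ {a b c : ℕ} (x : Matrix (Fin a) (Fin b) ℤ) (y : Matrix (Fin b) (Fin c) ℤ),
        (x * y).map φ = x.map φ * y.map φ := fun x y => Matrix.map_mul
    have hne' : pl (b'.map φ) ≠ 0 := by
      intro h0
      apply hne
      funext f
      have h1 := congrFun h0 f
      rw [pl_map] at h1
      have h2 : ((pl b' f : ℤ) : ℚ) = 0 := h1
      show pl b' f = 0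
      exact_mod_cast h2
    obtain ⟨G, hG⟩ := base_change hne' hc
    have h4 : (b' * ξ).map φ = G := by
      rw [m1, hG, Matrix.mul_assoc, ← m1, hξ]
      have : (1 : Matrix (Fin r) (Fin r) ℤ).map φ = 1 := Matrix.map_one _ (map_zero _) (map_one _)
      rw [this, Matrix.mul_one]
    have h5 : b'.map φ = ((b' * ξ) * b).map φ := by rw [m1, h4, hG]
    have hinj : Function.Injective (φ : ℤ → ℚ) := Int.cast_injective
    exact Matrix.map_injective hinj h5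
  obtain ⟨ξ, hξ⟩ := dual_of_pm hb
  obtain ⟨ξ', hξ'⟩ := dual_of_pm hb'
  have hc : ∀ (x y : Matrix (Fin r) (Fin N) ℤ), (pl x = pl y ∨ pl x = -pl y) →
      ∃ c : ℚ, pl (x.map (Int.castRingHom ℚ)) = c • pl (y.map (Int.castRingHom ℚ)) := by
    rintro x y (h | h)
    · refine ⟨1, ?_⟩
      funext f
      rw [Pi.smul_apply, pl_map, pl_map, h, one_smul]
    · refine ⟨-1, ?_⟩
      funext f
      rw [Pi.smul_apply, pl_map, pl_map, h, Pi.neg_apply, map_neg, neg_one_smul]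
  have e1 := key b b' ξ hξ hb'.ne (hc _ _ h)
  have h' : pl b = pl b' ∨ pl b = -pl b' := by
    rcases h with h | h
    · left; exact h.symm
    · right; rw [h, neg_neg]
  have e2 := key b' b ξ' hξ' hb.ne (hc _ _ h')
  set g := b' * ξ with hg
  set g' := b * ξ' with hg'
  refine ⟨g, g', ?_, ?_, e1⟩
  · have h3 : b' = (g * g') * b' := by rw [Matrix.mul_assoc, ← e2, ← e1]
    have h4 : b' * ξ' = (g * g') * (b' * ξ') := by rw [← Matrix.mul_assoc, ← h3]
    rw [hξ', Matrix.mul_one] at h4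
    exact h4.symm
  · have h3 : b = (g' * g) * b := by rw [Matrix.mul_assoc, ← e1, ← e2]
    have h4 : b * ξ = (g' * g) * (b * ξ) := by rw [← Matrix.mul_assoc, ← h3]
    rw [hξ, Matrix.mul_one] at h4
    exact h4.symm

/-- two representatives -/
theorem rep_rel {z z' : Ix m r N k Γ → ℤ} {P : PP r N J} (hz : Gd 𝒩 z) (hz' : Gd 𝒩 z')
    (h : IsRep eT z P) (h' : IsRep eT z' P) : ∃ g, z' = (sys m r N k Γ eT 𝒩 hne).actZ g z := by
  obtain ⟨h1, d, hd, h2⟩ := h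
  obtain ⟨h1', d', hd', h2'⟩ := h'
  obtain ⟨ε, hT⟩ : ∃ ε : ℤˣ, tj eT (qm z') (bm z') = (ε : ℤ) • tj eT (qm z) (bm z) := by
    rcases pm_rel hz.tm_pm hz'.tm_pm hd hd' h2 h2' with h3 | h3
    · exact ⟨1, by rw [h3, Units.val_one, one_smul]⟩
    · exact ⟨-1, by rw [h3, Units.val_neg, Units.val_one, neg_smul, one_smul]⟩
  have hTm : ex (qm z') * tp k (bm z') = (ε : ℤ) • (ex (qm z) * tp k (bm z)) := by
    ext j f
    have h3 := congrFun hT (eT.symm (j, f))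
    rw [Pi.smul_apply] at h3
    unfold tj at h3
    rw [Equiv.apply_symm_apply] at h3
    exact h3
  have hb := fun i => base_int (hz.1 i) (hz'.1 i) (by
    obtain ⟨c, hc, e1⟩ := h1 i
    obtain ⟨c', hc', e1'⟩ := h1' i
    exact pm_rel (hz.1 i) (hz'.1 i) hc hc' e1 e1')
  choose g g' e1 e2 hb' using hb
  choose ξ hξ using fun i => dual_of_pm (hz.1 i)
  have hq : ex (qm z') * tp k g = (ε : ℤ) • ex (qm z) := by
    have h3 : ex (qm z') * tp k (bm z') = (ex (qm z') * tp k g) * tp k (bm z) := by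
      have h4 : tp k (bm z') = tp k fun i => g i * bm z i := by
        congr 1
        funext i
        exact hb' i
      rw [h4, tp_mul, Matrix.mul_assoc]
    have h5 : (ex (qm z') * tp k g) * tp k (bm z) * tp k ξ =
        (ε : ℤ) • (ex (qm z) * tp k (bm z)) * tp k ξ := by rw [← h3, hTm]
    have h6 : ∀ X : Matrix (Fin m) (∀ i, Fin (k i) → Fin (r i + 1)) ℤ,
        X * tp k (bm z) * tp k ξ = X := by
      intro X
      rw [Matrix.mul_assoc, ← tp_mul]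
      simp only [hξ]
      rw [tp_one, Matrix.mul_one]
    rw [h6, Matrix.smul_mul, h6] at h5
    exact h5
  have hq' : qm z' = (ε : ℤ) • ro (qm z) g' := by
    apply ex_inj
    rw [ex_smul, ex_ro]
    have h3 : ex (qm z') = (ex (qm z') * tp k g) * tp k g' := by
      rw [Matrix.mul_assoc, ← tp_mul]
      simp only [e1]
      rw [tp_one, Matrix.mul_one]
    rw [h3, hq, Matrix.smul_mul]
  refine ⟨(fun i => ⟨g i, g' i, e1 i, e2 i⟩, ε), ?_⟩
  rw [← gl_eq z']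
  show gl (bm z') (qm z') = gl (fun i => g i * bm z i) ((ε : ℤ) • ro (qm z) g')
  rw [← hq']
  congr 1
  funext i
  exact hb' i

theorem ac_free {z : Ix m r N k Γ → ℤ} (hz : Gd 𝒩 z) {g : GG r}
    (h : (sys m r N k Γ eT 𝒩 hne).actZ g z = z) : g = 1 := by
  have h2' : g.1 = 1 := by
    funext i
    obtain ⟨ξ, hξ⟩ := dual_of_pm (hz.1 i)
    have h1 : (g.1 i : Matrix (Fin (r i + 1)) (Fin (r i + 1)) ℤ) * bm z i = bm z i := by
      have : bm ((sys m r N k Γ eT 𝒩 hne).actZ g z) i = bm z i := by rw [h]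
      exact this
    have h2 : (g.1 i : Matrix (Fin (r i + 1)) (Fin (r i + 1)) ℤ) = 1 := by
      have h3 : (g.1 i : Matrix (Fin (r i + 1)) (Fin (r i + 1)) ℤ) * (bm z i * ξ) = bm z i * ξ := by
        rw [← Matrix.mul_assoc, h1]
      rwa [hξ, Matrix.mul_one] at h3
    exact Units.ext h2
  have h3 : (g.2 : ℤ) • ro (qm z) (fun i => (((g.1 i)⁻¹ :
      (Matrix (Fin (r i + 1)) (Fin (r i + 1)) ℤ)ˣ) : Matrix (Fin (r i + 1)) (Fin (r i + 1)) ℤ)) =
      qm z := by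
    have : qm ((sys m r N k Γ eT 𝒩 hne).actZ g z) = qm z := by rw [h]
    exact this
  rw [h2'] at h3
  simp only [Pi.one_apply, inv_one, Units.val_one] at h3
  rw [ro_one] at h3
  have hq0 : qm z ≠ 0 := qv_ne.1 hz.2.1.ne
  have h4 : g.2 = 1 := by
    rcases Int.units_eq_one_or g.2 with h5 | h5
    · exact h5
    · exfalso
      rw [h5] at h3
      apply hq0
      funext j o
      have h6 := congrFun (congrFun h3 j) o
      rw [Pi.smul_apply, Pi.smul_apply] at h6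
      simp only [Units.val_neg, Units.val_one, neg_smul, one_smul] at h6
      show qm z j o = 0
      omega
  exact Prod.ext h2' h4

end Pool.Agent.K6.H78.GN
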